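import Mathlib

namespace Pool.Agent.P.MP_5347d0_lc.Dio

/-- The subfield of the complex numbers generated by all roots of unity. -/
noncomputable def Qcyc : IntermediateField ℚ ℂ :=
  IntermediateField.adjoin ℚ {z : ℂ | ∃ n : ℕ, 0 < n ∧ z ^ n = 1}

end Pool.Agent.P.MP_5347d0_lc.Dio
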