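import Pool.Agent.P.MP_5347d0_lc.CMDefs

/-! Abelian extensions and CM fields lie in the compositum of `Qcyc` and `Qtr`
(no use of the Kronecker-Weber theorem). -/

namespace Pool.Agent.P.MP_5347d0_lc.CM

open Polynomial ComplexConjugate

theorem exists_emb {K : IntermediateField ℚ ℂ} [Algebra.IsAlgebraic ℚ K] (x : K) {w : ℂ}
    (hw : aeval w (minpoly ℚ x) = 0) : ∃ ψ : K →ₐ[ℚ] ℂ, ψ x = w := by
  have h := Algebra.IsAlgebraic.range_eval_eq_rootSet_minpoly (F := ℚ) ℂ x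
  have hx : IsIntegral ℚ x := Algebra.IsIntegral.isIntegral x
  have hm : w ∈ (minpoly ℚ x).rootSet ℂ := by
    rw [mem_rootSet]
    exact ⟨minpoly.ne_zero hx, hw⟩
  rw [← h] at hm
  exact hm

theorem aeval_val {K : IntermediateField ℚ ℂ} (x : K) : aeval (x : ℂ) (minpoly ℚ x) = 0 := by
  have h := aeval_algHom_apply K.val x (minpoly ℚ x)
  rw [minpoly.aeval, map_zero] at h
  exact h

theorem le_of_conj {K : IntermediateField ℚ ℂ} [Algebra.IsAlgebraic ℚ K] (c : K → K)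
    (hc : ∀ (ψ : K →ₐ[ℚ] ℂ) (x : K), ψ (c x) = conj (ψ x)) : K ≤ Qcyc ⊔ Qtr := by
  intro z hz
  obtain ⟨x, rfl⟩ : ∃ x : K, (x : ℂ) = z := ⟨⟨z, hz⟩, rfl⟩
  have hI : Complex.I ∈ Qcyc :=
    IntermediateField.subset_adjoin ℚ _ ⟨4, by norm_num, Complex.I_pow_four⟩
  have ha : ((x + c x : K) : ℂ) ∈ Qtr := by
    refine IntermediateField.subset_adjoin ℚ _ ⟨minpoly ℚ (x + c x),
      minpoly.ne_zero (Algebra.IsIntegral.isIntegral _), aeval_val _, fun w hw => ?_⟩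
    obtain ⟨ψ, rfl⟩ := exists_emb _ hw
    rw [map_add, hc]
    simp
  have hb : ((x - c x : K) : ℂ) * Complex.I ∈ Qtr := by
    refine IntermediateField.subset_adjoin ℚ _ ⟨(minpoly ℚ ((x - c x) ^ 2)).comp (-X ^ 2), ?_, ?_,
      fun w hw => ?_⟩
    · intro h
      rw [comp_eq_zero_iff] at h
      rcases h with h | ⟨_, h⟩
      · exact minpoly.ne_zero (Algebra.IsIntegral.isIntegral _) h
      · have h2 := congrArg (fun p : ℚ[X] => p.coeff 2) h
        simp at h2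
    · rw [aeval_comp]
      have e : aeval (((x - c x : K) : ℂ) * Complex.I) (-X ^ 2 : ℚ[X]) =
          (((x - c x) ^ 2 : K) : ℂ) := by
        rw [map_neg, map_pow, aeval_X, mul_pow, Complex.I_sq]
        push_cast
        ring
      rw [e]
      exact aeval_val _
    · rw [aeval_comp] at hw
      obtain ⟨ψ, h⟩ := exists_emb _ hw
      rw [map_pow, map_sub, hc, Complex.sub_conj, map_neg, map_pow, aeval_X, mul_pow,
        Complex.I_sq] at h
      have h2 : (w - ((2 * (ψ x).im : ℝ) : ℂ)) * (w + ((2 * (ψ x).im : ℝ) : ℂ)) = 0 := by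
        linear_combination h
      rcases mul_eq_zero.1 h2 with h3 | h3
      · rw [sub_eq_zero.1 h3, Complex.ofReal_im]
      · rw [eq_neg_of_add_eq_zero_left h3, Complex.neg_im, Complex.ofReal_im, neg_zero]
  have e : (x : ℂ) = (((x + c x : K) : ℂ) -
      ((x - c x : K) : ℂ) * Complex.I * Complex.I) / ((2 : ℕ) : ℂ) := by
    rw [mul_assoc, Complex.I_mul_I]
    push_cast
    ring
  rw [e]
  exact div_mem (sub_mem (le_sup_right (a := Qcyc) ha)
    (mul_mem (le_sup_right (a := Qcyc) hb) (le_sup_left (b := Qtr) hI))) (natCast_mem _ 2)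

theorem abelian_le (K : IntermediateField ℚ ℂ)
    (hn : ∀ u ∈ K, ∃ p : Polynomial ℚ, p ≠ 0 ∧ Polynomial.aeval u p = 0 ∧
      ∀ w : ℂ, Polynomial.aeval w p = 0 → w ∈ K)
    (hab : ∀ (s t : K ≃+* K) (x : K), s (t x) = t (s x)) : K ≤ Qcyc ⊔ Qtr := by
  have halg : Algebra.IsAlgebraic ℚ K := ⟨fun x => by
    obtain ⟨p, h0, h1, _⟩ := hn x x.2
    refine ⟨p, h0, K.val.injective ?_⟩
    rw [map_zero]
    exact (aeval_algHom_apply K.val x p).symm.trans h1⟩
  have hres : ∀ ψ : K →ₐ[ℚ] ℂ, ∃ s : K ≃ₐ[ℚ] K, ∀ x, (s x : ℂ) = ψ x := by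
    intro ψ
    have hm : ∀ x : K, ψ x ∈ K.toSubalgebra := by
      intro x
      obtain ⟨p, _, h1, h2⟩ := hn x x.2
      apply h2
      have h3 : aeval x p = 0 := by
        apply K.val.injective
        rw [map_zero]
        exact (aeval_algHom_apply K.val x p).symm.trans h1
      rw [aeval_algHom_apply, h3, map_zero]
    let f : K →ₐ[ℚ] K := ψ.codRestrict K.toSubalgebra hm
    exact ⟨AlgEquiv.ofBijective f (Algebra.IsAlgebraic.algHom_bijective f), fun _ => rfl⟩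
  obtain ⟨c, hc⟩ := hres (((starRingEnd ℂ).toRatAlgHom).comp K.val)
  refine le_of_conj c fun ψ x => ?_
  obtain ⟨s, hs⟩ := hres ψ
  have h : s (c x) = c (s x) := hab s.toRingEquiv c.toRingEquiv x
  rw [← hs, h, hc, ← hs]
  rfl

theorem ab_le : IntermediateField.adjoin ℚ {z : ℂ | ∃ K : IntermediateField ℚ ℂ, z ∈ K ∧
    (∀ u ∈ K, ∃ p : Polynomial ℚ, p ≠ 0 ∧ Polynomial.aeval u p = 0 ∧
      ∀ w : ℂ, Polynomial.aeval w p = 0 → w ∈ K) ∧
    ∀ (s t : K ≃+* K) (x : K), s (t x) = t (s x)} ≤ Qcyc ⊔ Qtr := by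
  rw [IntermediateField.adjoin_le_iff]
  rintro z ⟨K, hz, hn, hab⟩
  exact abelian_le K hn hab hz

theorem spelled (K : IntermediateField ℚ ℂ) [IsAbelianGalois ℚ K] :
    (∀ u ∈ K, ∃ p : Polynomial ℚ, p ≠ 0 ∧ Polynomial.aeval u p = 0 ∧
      ∀ w : ℂ, Polynomial.aeval w p = 0 → w ∈ K) ∧
    ∀ (s t : K ≃+* K) (x : K), s (t x) = t (s x) := by
  refine ⟨fun u hu => ⟨minpoly ℚ (⟨u, hu⟩ : K),
    minpoly.ne_zero (Algebra.IsIntegral.isIntegral _), aeval_val ⟨u, hu⟩, fun w hw => ?_⟩,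
    fun s t x => ?_⟩
  · obtain ⟨ψ, rfl⟩ := exists_emb _ hw
    have hN : Normal ℚ K := inferInstance
    have h : ψ.fieldRange = K := @AlgHom.fieldRange_of_normal ℚ ℂ _ _ _ K hN ψ
    exact h.le ⟨_, rfl⟩
  · let s' : K ≃ₐ[ℚ] K := AlgEquiv.ofRingEquiv (f := s) fun q => by simp
    let t' : K ≃ₐ[ℚ] K := AlgEquiv.ofRingEquiv (f := t) fun q => by simp
    have h : s' * t' = t' * s' := mul_comm' s' t'
    exact congrArg (fun g : K ≃ₐ[ℚ] K => g x) h

theorem cyc_le_ab : Qcyc ≤ IntermediateField.adjoin ℚ {z : ℂ | ∃ K : IntermediateField ℚ ℂ, z ∈ K ∧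
    (∀ u ∈ K, ∃ p : Polynomial ℚ, p ≠ 0 ∧ Polynomial.aeval u p = 0 ∧
      ∀ w : ℂ, Polynomial.aeval w p = 0 → w ∈ K) ∧
    ∀ (s t : K ≃+* K) (x : K), s (t x) = t (s x)} := by
  refine IntermediateField.adjoin.mono ℚ _ _ ?_
  rintro z ⟨n, hn, hz⟩
  have hf : IsOfFinOrder z := isOfFinOrder_iff_pow_eq_one.2 ⟨n, hn, hz⟩
  have : NeZero (orderOf z) := ⟨hf.orderOf_pos.ne'⟩
  have ha : IsAlgebraic ℚ z := ((IsPrimitiveRoot.orderOf z).isIntegral hf.orderOf_pos).tower_top.isAlgebraic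
  have hc : IsCyclotomicExtension {orderOf z} ℚ (IntermediateField.adjoin ℚ {z}) := by
    change IsCyclotomicExtension {orderOf z} ℚ (IntermediateField.adjoin ℚ {z}).toSubalgebra
    rw [IntermediateField.adjoin_simple_toSubalgebra_of_isAlgebraic ha]
    exact (IsPrimitiveRoot.orderOf z).adjoin_isCyclotomicExtension ℚ
  have := IsCyclotomicExtension.isAbelianGalois {orderOf z} ℚ (IntermediateField.adjoin ℚ {z})
  exact ⟨IntermediateField.adjoin ℚ {z}, IntermediateField.mem_adjoin_simple_self ℚ z, spelled _⟩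

end Pool.Agent.P.MP_5347d0_lc.CM
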