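import Mathlib

namespace Pool.Agent.P.MP_5347d0_lc.CM

/-- The subfield of the complex numbers generated by all roots of unity. -/
noncomputable def Qcyc : IntermediateField ℚ ℂ :=
  IntermediateField.adjoin ℚ {z : ℂ | ∃ n : ℕ, 0 < n ∧ z ^ n = 1}

/-- `z` is a root of a nonzero rational polynomial all of whose complex roots are real. -/
def TotReal (z : ℂ) : Prop :=
  ∃ p : Polynomial ℚ, p ≠ 0 ∧ Polynomial.aeval z p = 0 ∧
    ∀ w : ℂ, Polynomial.aeval w p = 0 → w.im = 0

/-- The subfield of the complex numbers generated by all totally real algebraic numbers. -/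
noncomputable def Qtr : IntermediateField ℚ ℂ :=
  IntermediateField.adjoin ℚ {z : ℂ | TotReal z}

end Pool.Agent.P.MP_5347d0_lc.CM
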