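import Mathlib

/-! The system of equations, its soundness, and the ring-level part of its solvability. -/

namespace Pool.Agent.P.MP_5347d0_lc.CM

open Finset Polynomial
open scoped ComplexConjugate

section ring

variable {R : Type} [CommRing R]

/-- three equations that force `z` to be real and are solvable for integers `z` -/
def r0 (p q z p' q' c b : R) : List R :=
  [p' ^ 2 - 2 * q' ^ 2 - 1, p' * q' - p * q * (z + q ^ 2 * c), q - (4 * z ^ 2 - 1) * b]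

/-- the remaining equations -/
def r2 (x p q s t a k k' j j' e v d g d' g' : R) : List R :=
  [p ^ 2 - 2 * q ^ 2 - 1, p * q * a * s - (2 * t - 1) * (3 * t - 1), (1 + 3 * e) * v - 1,
    1 + 3 * e - k - (2 * a * x - 1) * d, a * x - j - (1 + 3 * e - k) * g,
    1 + 3 * e - k' - (2 * a * x + 1) * d', a * x - j' - (1 + 3 * e - k') * g']

/-- the whole system -/
def eqs (x : R) (y : Fin 35 → R) : List R :=
  r0 (y 0) (y 1) (y 4) (y 15) (y 16) (y 17) (y 18) ++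
    r0 (y 0) (y 1) (y 5) (y 19) (y 20) (y 21) (y 22) ++
    r0 (y 0) (y 1) (y 6) (y 23) (y 24) (y 25) (y 26) ++
    r0 (y 0) (y 1) (y 7) (y 27) (y 28) (y 29) (y 30) ++
    r0 (y 0) (y 1) (y 8) (y 31) (y 32) (y 33) (y 34) ++
    r2 x (y 0) (y 1) (y 2) (y 3) (y 4) (y 5) (y 6) (y 7) (y 8) (y 9) (y 10) (y 11) (y 12) (y 13)
      (y 14)

/-- one expression for a list -/
def comb (l : List R) : R := l.foldr (fun a b => a ^ 3 - 2 * b ^ 3) 0

theorem comb_map {S : Type} [CommRing S] (σ : R →+* S) (l : List R) :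
    σ (comb l) = comb (l.map σ) := by
  induction l with
  | nil => simp [comb]
  | cons a l ih =>
    simp only [comb, List.foldr_cons, List.map_cons, map_sub, map_mul, map_pow, map_ofNat] at ih ⊢
    rw [ih]

theorem eqs_map {S : Type} [CommRing S] (σ : R →+* S) (x : R) (y : Fin 35 → R) :
    (eqs x y).map σ = eqs (σ x) fun i => σ (y i) := by
  simp only [eqs, r0, r2, List.map_append, List.map_cons, List.map_nil, map_sub, map_mul, map_pow,
    map_add, map_one, map_ofNat]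

theorem comb_eq_zero [IsDomain R] (h : ∀ a b : R, a ^ 3 = 2 * b ^ 3 → b = 0) (l : List R) :
    comb l = 0 ↔ ∀ a ∈ l, a = 0 := by
  induction l with
  | nil => simp [comb]
  | cons a l ih =>
    rw [List.forall_mem_cons, ← ih]
    change a ^ 3 - 2 * comb l ^ 3 = 0 ↔ _
    refine ⟨fun h1 => ?_, fun h1 => by simp [h1.1, h1.2]⟩
    have h2 := h _ _ (sub_eq_zero.1 h1)
    rw [h2] at h1
    exact ⟨by simpa using h1, h2⟩

theorem nz_nat {N : ℕ} (hN : N ≠ 0) : ∃ s t : ℤ, N * s = (2 * t - 1) * (3 * t - 1) := by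
  obtain ⟨a, B, hB, rfl⟩ := Nat.exists_eq_pow_mul_and_not_dvd hN 2 (by norm_num)
  have h1 : Nat.Coprime 2 B := (Nat.Prime.coprime_iff_not_dvd Nat.prime_two).2 hB
  obtain ⟨α, α', h2⟩ : IsCoprime ((2 * 2 ^ a : ℕ) : ℤ) B := (h1.mul_left (h1.pow_left a)).cast
  obtain ⟨β, β', h3⟩ : IsCoprime ((3 * B : ℕ) : ℤ) (2 ^ a : ℕ) :=
    ((Nat.Coprime.mul_left (by norm_num) h1.symm).pow_right a).cast
  refine ⟨(2 * β - α') * (3 * α - β'), 2 ^ a * α + B * β, ?_⟩
  push_cast at h2 h3 ⊢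
  rw [show 2 * (2 ^ a * α + B * β) - 1 = B * (2 * β - α') by linear_combination h2,
    show 3 * (2 ^ a * α + B * β) - 1 = 2 ^ a * (3 * α - β') by linear_combination h3]
  ring

theorem nz_int {N : ℤ} (hN : N ≠ 0) : ∃ s t : ℤ, N * s = (2 * t - 1) * (3 * t - 1) := by
  obtain ⟨s, t, h⟩ := nz_nat (Int.natAbs_ne_zero.2 hN)
  obtain ⟨c, hc⟩ : N ∣ (N.natAbs : ℤ) := Int.dvd_natAbs.2 dvd_rfl
  exact ⟨c * s, t, by rw [← h, hc]; ring⟩

theorem pell_nat {p q : ℤ} (h : p ^ 2 - 2 * q ^ 2 = 1) (n : ℕ) :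
    ∃ p' d c : ℤ, p' ^ 2 - 2 * (q * d) ^ 2 = 1 ∧ p' * d = p * (n + q ^ 2 * c) := by
  induction n with
  | zero => exact ⟨1, 0, 0, by ring, by simp⟩
  | succ n ih =>
    obtain ⟨p', d, c, h1, h2⟩ := ih
    refine ⟨p' * p + 2 * (q * d) * q, p' + d * p, 4 * d ^ 2 + c + 4 * n + 4 * q ^ 2 * c, ?_, ?_⟩
    · linear_combination (p' ^ 2 - 2 * (q * d) ^ 2) * h + h1
    · push_cast
      linear_combination p * h1 + (p ^ 2 + 2 * q ^ 2) * h2 + p * (n + q ^ 2 * c) * h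

theorem r0_int {p q : ℤ} (h : p ^ 2 - 2 * q ^ 2 = 1) {z : ℤ} (hz : 4 * z ^ 2 - 1 ∣ q) :
    ∃ p' q' c b : R, ∀ e ∈ r0 (p : R) q z p' q' c b, e = 0 := by
  obtain ⟨b, hb⟩ := hz
  obtain ⟨p', d, c, h1, h2⟩ : ∃ p' d c : ℤ, p' ^ 2 - 2 * (q * d) ^ 2 = 1 ∧
      p' * d = p * (z + q ^ 2 * c) := by
    obtain ⟨n, rfl | rfl⟩ := z.eq_nat_or_neg
    · exact pell_nat h n
    · obtain ⟨p', d, c, h1, h2⟩ := pell_nat h n
      exact ⟨p', -d, -c, by linear_combination h1, by linear_combination -h2⟩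
  have e1 := congrArg (Int.cast : ℤ → R) h1
  have e2 := congrArg (Int.cast : ℤ → R) h2
  have e3 := congrArg (Int.cast : ℤ → R) hb
  push_cast at e1 e2 e3
  refine ⟨p', q * d, c, b, ?_⟩
  simp only [r0, List.forall_mem_cons, List.not_mem_nil, false_imp_iff, implies_true, and_true]
  exact ⟨by linear_combination e1, by linear_combination (q : R) * e2, by linear_combination e3⟩

theorem exists_pell {K : ℤ} (hK : K ≠ 0) :
    ∃ p q : ℤ, p ^ 2 - 2 * q ^ 2 = 1 ∧ p * q ≠ 0 ∧ K ∣ q := by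
  obtain ⟨x, y, hxy, hy⟩ := Pell.exists_of_not_isSquare (d := 2 * K ^ 2) (by positivity) (by
    rintro ⟨j, hj⟩
    obtain ⟨i, rfl⟩ : K ∣ j := (Int.pow_dvd_pow_iff two_ne_zero).1 ⟨2, by linear_combination -hj⟩
    exact Int.prime_two.not_isSquare ⟨i, mul_left_cancel₀ (pow_ne_zero 2 hK)
      (by linear_combination hj)⟩)
  refine ⟨x, K * y, by linear_combination hxy, mul_ne_zero ?_ (mul_ne_zero hK hy),
    dvd_mul_right _ _⟩
  rintro rfl
  nlinarith [sq_nonneg (K * y)]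

theorem inv_int {x : R} (hx : IsIntegral ℤ x) (b : ℤ) : ∃ r : ℤ, b * x - 1 ∣ (b : R) * r - 1 := by
  obtain ⟨P, hP, h0⟩ := hx
  rw [← aeval_def, aeval_eq_sum_range, sum_range_succ, hP.coeff_natDegree, one_smul] at h0
  generalize P.natDegree = n at h0
  refine ⟨-∑ i ∈ range n, P.coeff i * b ^ (n - 1 - i), ?_⟩
  have h1 : (b : R) * ((-∑ i ∈ range n, P.coeff i * b ^ (n - 1 - i) : ℤ) : R) - 1 =
      ∑ i ∈ range n, (P.coeff i : R) * b ^ (n - i) * ((b * x) ^ i - 1) + ((b * x) ^ n - 1) := by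
    have h2 : ∑ i ∈ range n, (P.coeff i : R) * b ^ (n - i) * ((b * x) ^ i - 1) =
        b ^ n * ∑ i ∈ range n, P.coeff i • x ^ i -
          b * ∑ i ∈ range n, (P.coeff i : R) * b ^ (n - 1 - i) := by
      rw [mul_sum, mul_sum, ← sum_sub_distrib]
      refine sum_congr rfl fun i hi => ?_
      obtain ⟨m, rfl⟩ : ∃ m, n = i + m + 1 := ⟨n - 1 - i, by have := mem_range.1 hi; omega⟩
      rw [show i + m + 1 - i = m + 1 by omega, show i + m + 1 - 1 - i = m by omega, zsmul_eq_mul]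
      ring
    rw [h2, mul_pow]
    push_cast
    linear_combination -(b : R) ^ n * h0
  rw [h1]
  have h3 : ∀ i : ℕ, b * x - 1 ∣ ((b : R) * x) ^ i - 1 := fun i => by
    simpa using sub_dvd_pow_sub_pow ((b : R) * x) 1 i
  exact (dvd_sum fun i _ => (h3 i).mul_left _).add (h3 n)

theorem poly_dvd (x : R) (r : ℤ) (f : ℤ[X]) : x - r ∣ aeval x f - (f.eval r : ℤ) := by
  have h := Polynomial.sub_dvd_eval_sub x (r : R) (f.map (Int.castRingHom R))
  rwa [eval_map, eval_map, eval₂_at_intCast, ← algebraMap_int_eq, ← aeval_def] at h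

theorem chain {x θ : R} (hx : IsIntegral ℤ x) {N N' : ℤ} {f h : ℤ[X]} (hf : N * x = aeval θ f)
    (hh : N' * θ = aeval x h) (b : ℤ) :
    ∃ k j : ℤ, (N' * b : ℤ) * x - 1 ∣ θ - k ∧ θ - k ∣ (N * N' : ℤ) * x - j := by
  obtain ⟨r, u, hu⟩ := inv_int hx (N' * b)
  obtain ⟨w, hw⟩ := poly_dvd x r h
  obtain ⟨g, hg⟩ := poly_dvd θ (b * r * h.eval r) f
  refine ⟨b * r * h.eval r, N' * f.eval (b * r * h.eval r),
    ⟨b * r * (r - x * u) * w - θ * u, ?_⟩, ⟨N' * g, ?_⟩⟩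
  · push_cast at hu ⊢
    linear_combination (b * r : R) * hh + (b * r : R) * hw - (θ + b * r * w * x) * hu
  · push_cast at hg ⊢
    linear_combination (N' : R) * hf + (N' : R) * hg

theorem complete {x e v : R} (hx : IsIntegral ℤ x) (hv : (1 + 3 * e) * v = 1) {N N' : ℤ}
    (hN : N ≠ 0) (hN' : N' ≠ 0) {f h : ℤ[X]} (hf : N * x = aeval (1 + 3 * e) f)
    (hh : N' * (1 + 3 * e) = aeval x h) : ∃ y : Fin 35 → R, ∀ a ∈ eqs x y, a = 0 := by
  obtain ⟨k, j, ⟨d, hd⟩, ⟨g, hg⟩⟩ := chain hx hf hh (2 * N)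
  obtain ⟨k', j', ⟨d', hd'⟩, ⟨g', hg'⟩⟩ := chain hx hf hh (-2 * N)
  have o : ∀ z : ℤ, 4 * z ^ 2 - 1 ≠ 0 := fun z => by omega
  obtain ⟨p, q, h1, h2, h3⟩ := exists_pell (K := (4 * (N * N') ^ 2 - 1) * (4 * k ^ 2 - 1) *
    (4 * k' ^ 2 - 1) * (4 * j ^ 2 - 1) * (4 * j' ^ 2 - 1))
    (mul_ne_zero (mul_ne_zero (mul_ne_zero (mul_ne_zero (o _) (o _)) (o _)) (o _)) (o _))
  obtain ⟨s, t, h4⟩ := nz_int (mul_ne_zero h2 (mul_ne_zero hN hN'))
  have h5 := dvd_of_mul_right_dvd h3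
  have h6 := dvd_of_mul_right_dvd h5
  have h7 := dvd_of_mul_right_dvd h6
  obtain ⟨a1, a2, a3, a4, ha⟩ := r0_int (R := R) h1 (dvd_of_mul_right_dvd h7)
  obtain ⟨b1, b2, b3, b4, hb⟩ := r0_int (R := R) h1 (dvd_of_mul_left_dvd h7)
  obtain ⟨c1, c2, c3, c4, hc⟩ := r0_int (R := R) h1 (dvd_of_mul_left_dvd h6)
  obtain ⟨d1, d2, d3, d4, hd0⟩ := r0_int (R := R) h1 (dvd_of_mul_left_dvd h5)
  obtain ⟨e1, e2, e3, e4, he⟩ := r0_int (R := R) h1 (dvd_of_mul_left_dvd h3)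
  have h8 : ∀ a ∈ r2 x (p : R) q s t (N * N' : ℤ) k k' j j' e v d g (-d') g', a = 0 := by
    have i1 := congrArg (Int.cast : ℤ → R) h1
    have i2 := congrArg (Int.cast : ℤ → R) h4
    simp only [r2, List.forall_mem_cons, List.not_mem_nil, false_imp_iff, implies_true, and_true]
    push_cast at i1 i2 hd hg hd' hg' ⊢
    exact ⟨by linear_combination i1, by linear_combination i2, by linear_combination hv,
      by linear_combination hd, by linear_combination hg, by linear_combination hd',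
      by linear_combination hg'⟩
  refine ⟨![p, q, s, t, (N * N' : ℤ), k, k', j, j', e, v, d, g, -d', g', a1, a2, a3, a4, b1, b2,
    b3, b4, c1, c2, c3, c4, d1, d2, d3, d4, e1, e2, e3, e4], ?_⟩
  simp only [eqs, List.forall_mem_append]
  exact ⟨⟨⟨⟨⟨ha, hb⟩, hc⟩, hd0⟩, he⟩, h8⟩

end ring

/-- the abstract setting: a ring with a conjugation and complex points -/
structure Cj (O : Type) [CommRing O] where
  σ : O →+* O
  pt : Set (O →+* ℂ)
  ne : pt.Nonempty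
  inj : ∀ ψ ∈ pt, Function.Injective ψ
  cj : ∀ ψ ∈ pt, ∀ x, ψ (σ x) = conj (ψ x)
  small : ∀ β, (∀ ψ ∈ pt, ‖ψ β‖ < 1) → β = 0

variable {O : Type} [CommRing O] (c : Cj O)

theorem Cj.unit {a v : O} (hv : (1 + 3 * a) * v - 1 = 0) : c.σ a = a := by
  have hv' := congrArg c.σ hv
  simp only [map_sub, map_mul, map_add, map_one, map_zero, map_ofNat] at hv'
  have hβ : (a - c.σ a) * c.σ v = 0 := by
    refine c.small _ fun ψ hψ => ?_
    have h1 : (1 + 3 * a) * c.σ v - 1 = 3 * ((a - c.σ a) * c.σ v) := by linear_combination hv'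
    have h2 := congrArg (fun z => ‖ψ z‖) h1
    have h3 := congrArg (fun z => ‖ψ z‖) (sub_eq_zero.1 hv)
    simp only [map_mul ψ (1 + 3 * a), norm_mul, map_one, norm_one] at h3
    have h4 := norm_sub_le (ψ ((1 + 3 * a) * c.σ v)) 1
    simp only [map_sub ψ _ 1, map_one, map_mul ψ 3, norm_mul, map_ofNat, Complex.norm_ofNat] at h2
    rw [h2, map_mul ψ (1 + 3 * a), norm_mul, c.cj ψ hψ v, Complex.norm_conj, h3, norm_one] at h4
    linarith
  linear_combination (a - c.σ a) * hv' - (1 + 3 * c.σ a) * hβ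

theorem Cj.core {z : O} (h : 4 * z ^ 2 - 1 ∣ z - c.σ z) : c.σ z = z := by
  obtain ⟨β, hβ⟩ := h
  by_cases h0 : 4 * z ^ 2 - 1 = 0
  · rw [h0, zero_mul] at hβ
    exact (sub_eq_zero.1 hβ).symm
  have h1 : β = 0 := by
    refine c.small _ fun ψ hψ => ?_
    have h2 : 0 < ‖ψ (4 * z ^ 2 - 1)‖ := norm_pos_iff.2 ((map_ne_zero_iff ψ (c.inj ψ hψ)).2 h0)
    have h3 := congrArg (fun z => ‖ψ z‖) hβ
    simp only [map_mul ψ _ β, norm_mul, map_sub ψ z, c.cj ψ hψ] at h3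
    have h4 : (2 * ‖ψ z - conj (ψ z)‖) ^ 2 ≤ ‖ψ (4 * z ^ 2 - 1)‖ ^ 2 := by
      rw [mul_pow, Complex.sq_norm, Complex.sq_norm, map_sub ψ, map_mul ψ, map_pow ψ, map_one,
        map_ofNat]
      simp only [Complex.normSq_apply, pow_two, Complex.sub_re, Complex.sub_im, Complex.conj_re,
        Complex.conj_im, Complex.mul_re, Complex.mul_im, Complex.re_ofNat, Complex.im_ofNat,
        Complex.one_re, Complex.one_im]
      nlinarith [sq_nonneg (4 * ((ψ z).re ^ 2 + (ψ z).im ^ 2) - 1)]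
    have h5 := (pow_le_pow_iff_left₀ (by positivity) h2.le two_ne_zero).1 h4
    by_contra h6
    nlinarith
  rw [h1, mul_zero] at hβ
  exact (sub_eq_zero.1 hβ).symm

theorem Cj.pell {p q : O} (h : p ^ 2 - 2 * q ^ 2 - 1 = 0) :
    c.σ (p * q) = p * q ∧ c.σ (q ^ 2) = q ^ 2 := by
  have h' := congrArg c.σ h
  simp only [map_sub, map_mul, map_pow, map_one, map_zero, map_ofNat] at h'
  have h1 : (p * c.σ p - 2 * q * c.σ q) ^ 2 - 2 * (q * c.σ p - p * c.σ q) ^ 2 = 1 := by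
    linear_combination (c.σ p ^ 2 - 2 * c.σ q ^ 2) * h + h'
  have hB : q * c.σ p - p * c.σ q = 0 := by
    refine c.small _ fun ψ hψ => ?_
    have h2 := congrArg (fun z => (ψ z).re) h1
    have h3 : ‖ψ (q * c.σ p - p * c.σ q)‖ ^ 2 < 1 := by
      rw [Complex.sq_norm]
      simp only [map_sub, map_mul, map_one, map_ofNat, c.cj ψ hψ, Complex.normSq_apply, pow_two,
        Complex.sub_re, Complex.sub_im, Complex.conj_re, Complex.conj_im, Complex.mul_re,
        Complex.mul_im, Complex.re_ofNat, Complex.im_ofNat, Complex.one_re] at h2 ⊢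
      nlinarith [sq_nonneg ((ψ p).re ^ 2 + (ψ p).im ^ 2 - 2 * ((ψ q).re ^ 2 + (ψ q).im ^ 2))]
    exact (pow_lt_one_iff_of_nonneg (norm_nonneg _) two_ne_zero).1 h3
  have e1 : c.σ p = p * (p * c.σ p - 2 * q * c.σ q) := by
    linear_combination -c.σ p * h - 2 * q * hB
  have e2 : c.σ q = q * (p * c.σ p - 2 * q * c.σ q) := by
    linear_combination -c.σ q * h - p * hB
  have e3 : (p * c.σ p - 2 * q * c.σ q) ^ 2 = 1 := by
    linear_combination h1 + 2 * (q * c.σ p - p * c.σ q) * hB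
  generalize p * c.σ p - 2 * q * c.σ q = A at e1 e2 e3
  rw [map_mul, map_pow, e1, e2]
  exact ⟨by linear_combination p * q * e3, by linear_combination q ^ 2 * e3⟩

include c in
theorem Cj.cube (hint : ∀ a b : O, a ^ 3 = 2 * b ^ 3 → b ≠ 0 → b ∣ a) (a b : O)
    (h : a ^ 3 = 2 * b ^ 3) : b = 0 := by
  by_contra hb
  obtain ⟨α, rfl⟩ := hint a b h hb
  have h1 : ∀ ψ ∈ c.pt, ∃ r : ℝ, r ^ 3 = 4 ∧ 0 ≤ r ∧ ψ (α * c.σ α) = r := by
    intro ψ hψ
    have h2 : ψ b ≠ 0 := (map_ne_zero_iff ψ (c.inj ψ hψ)).2 hb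
    have h3 := congrArg ψ h
    simp only [map_mul, map_pow, map_ofNat] at h3
    have h4 : ψ α ^ 3 = 2 := mul_left_cancel₀ (pow_ne_zero 3 h2) (by linear_combination h3)
    have h5 := congrArg Complex.normSq h4
    rw [map_pow, Complex.normSq_ofNat] at h5
    exact ⟨_, h5.trans (by norm_num), Complex.normSq_nonneg _, by
      rw [map_mul, c.cj ψ hψ, Complex.mul_conj]⟩
  have h2 : α * c.σ α - 2 = 0 := by
    refine c.small _ fun ψ hψ => ?_
    obtain ⟨r, h3, h4, h5⟩ := h1 ψ hψ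
    rw [map_sub, h5, map_ofNat, show (r : ℂ) - 2 = (r - 2 : ℝ) by push_cast; rfl, Complex.norm_real,
      Real.norm_eq_abs, abs_lt]
    constructor <;> by_contra h6 <;> nlinarith [sq_nonneg r, mul_self_nonneg (r - 1)]
  obtain ⟨ψ, hψ⟩ := c.ne
  obtain ⟨r, h3, -, h5⟩ := h1 ψ hψ
  rw [sub_eq_zero.1 h2, map_ofNat] at h5
  have h6 : r = 2 := by exact_mod_cast h5.symm
  rw [h6] at h3
  norm_num at h3

variable [IsDomain O]

include c in
theorem Cj.nz {y s t : O} (h : y * s - (2 * t - 1) * (3 * t - 1) = 0) : y ≠ 0 := by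
  rintro rfl
  have h1 : ∀ n : ℕ, 2 ≤ n → (n : O) * t - 1 ≠ 0 := by
    intro n hn h2
    have h3 : t = 0 := by
      refine c.small _ fun ψ _ => ?_
      have h3 := congrArg (fun z => ‖ψ z‖) (sub_eq_zero.1 h2)
      simp only [map_mul, norm_mul, map_natCast, Complex.norm_natCast, map_one, norm_one] at h3
      have h4 : (2 : ℝ) ≤ n := by exact_mod_cast hn
      by_contra h5
      nlinarith
    simp [h3] at h2
  rw [zero_mul, zero_sub, neg_eq_zero, mul_eq_zero] at h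
  rcases h with h | h
  · exact h1 2 le_rfl (by exact_mod_cast h)
  · exact h1 3 (by norm_num) (by exact_mod_cast h)

theorem Cj.r0 {p q z p' q' d b : O} (hp : p ^ 2 - 2 * q ^ 2 - 1 = 0) (h0 : p * q ≠ 0)
    (h : ∀ e ∈ r0 p q z p' q' d b, e = 0) : c.σ z = z := by
  simp only [CM.r0, List.forall_mem_cons] at h
  obtain ⟨h1, h2, h3, -⟩ := h
  obtain ⟨h4, h5⟩ := c.pell hp
  have h6 := (c.pell h1).1
  rw [sub_eq_zero.1 h2, map_mul, h4, map_add, map_mul, h5] at h6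
  exact c.core ⟨b * q * (c.σ d - d), by
    linear_combination q * (c.σ d - d) * h3 - mul_left_cancel₀ h0 h6⟩

theorem Cj.sound {x : O} {y : Fin 35 → O} (h : ∀ e ∈ eqs x y, e = 0) : c.σ x = x := by
  simp only [eqs, List.forall_mem_append] at h
  obtain ⟨⟨⟨⟨⟨ha, hk⟩, hk'⟩, hj⟩, hj'⟩, h⟩ := h
  simp only [r2, List.forall_mem_cons] at h
  obtain ⟨h1, h2, h3, h4, h5, h6, h7, -⟩ := h
  have h0 := c.nz h2
  have ha := c.r0 h1 (left_ne_zero_of_mul h0) ha
  have hk := c.r0 h1 (left_ne_zero_of_mul h0) hk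
  have hk' := c.r0 h1 (left_ne_zero_of_mul h0) hk'
  have hj := c.r0 h1 (left_ne_zero_of_mul h0) hj
  have hj' := c.r0 h1 (left_ne_zero_of_mul h0) hj'
  have he := c.unit h3
  have e1 := congrArg c.σ h5
  have e2 := congrArg c.σ h7
  simp only [map_sub, map_mul c.σ _ (y 12), map_mul c.σ _ (y 14), map_mul c.σ 3, map_add, map_one,
    map_zero, map_ofNat, hk, hk', hj, hj', he] at e1 e2
  have e3 := c.core (z := y 4 * x) ⟨y 4 * x * (y 11 * (y 12 - c.σ (y 12))) -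
    (y 4 * x + 1) * (y 13 * (y 14 - c.σ (y 14))), by
      linear_combination y 4 * x * (2 * y 4 * x + 1) * (h5 - e1 + (y 12 - c.σ (y 12)) * h4) -
        (y 4 * x + 1) * (2 * y 4 * x - 1) * (h7 - e2 + (y 14 - c.σ (y 14)) * h6)⟩
  rw [map_mul, ha] at e3
  exact mul_left_cancel₀ (right_ne_zero_of_mul h0) e3

end Pool.Agent.P.MP_5347d0_lc.CM
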