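import Pool.Agent.P.MP_5347d0_lc.CMDefs
import Pool.Agent.P.MP_5347d0_lc.CMRing

/-! The real integers of any subfield of the maximal CM field form a Diophantine set. -/

namespace Pool.Agent.P.MP_5347d0_lc.CM

open NumberField IntermediateField Polynomial
open scoped ComplexConjugate

section general

variable {L : Type} [Field L] [CharZero L] [Algebra.IsAlgebraic ℚ L]

theorem nf (x : L) : NumberField ℚ⟮x⟯ where
  to_charZero := inferInstance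
  to_finiteDimensional :=
    IntermediateField.adjoin.finiteDimensional (Algebra.IsIntegral.isIntegral x)

theorem ext_emb (F : IntermediateField ℚ L) (φ : F →+* ℂ) :
    ∃ ψ : L →ₐ[ℚ] ℂ, ∀ y : F, ψ y = φ y := by
  have : Algebra.IsAlgebraic F L := Algebra.IsAlgebraic.tower_top (K := ℚ) F
  obtain ⟨ψ, hψ⟩ := IsAlgClosed.surjective_domRestrict_of_isAlgebraic (K := ℚ) (L := F) (M := ℂ)
    (E := L) φ.toRatAlgHom
  exact ⟨ψ, fun y => congrArg (fun g : F →ₐ[ℚ] ℂ => g y) hψ⟩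

theorem lemA (β : 𝓞 L) (h : ∀ ψ : L →ₐ[ℚ] ℂ, ‖ψ (β : L)‖ < 1) : β = 0 := by
  by_contra hβ
  have := nf (β : L)
  let b : ℚ⟮(β : L)⟯ := AdjoinSimple.gen ℚ (β : L)
  have hb0 : b ≠ 0 := fun h0 =>
    hβ (RingOfIntegers.ext (show (b : L) = 0 by rw [h0]; rfl))
  have hbi : IsIntegral ℤ b :=
    (isIntegral_algHom_iff ((ℚ⟮(β : L)⟯).val.restrictScalars ℤ) Subtype.val_injective).1
      β.isIntegral_coe
  have hlt : ∀ φ : ℚ⟮(β : L)⟯ →+* ℂ, ‖φ b‖ < 1 := by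
    intro φ
    obtain ⟨ψ, hψ⟩ := ext_emb _ φ
    rw [← hψ]
    exact h ψ
  obtain ⟨n, hn, hpow⟩ := NumberField.Embeddings.pow_eq_one_of_norm_le_one _ ℂ hb0 hbi
    (fun φ => (hlt φ).le)
  let φ : ℚ⟮(β : L)⟯ →+* ℂ := Classical.choice inferInstance
  have h1 : ‖φ b‖ ^ n = 1 := by rw [← norm_pow, ← map_pow, hpow, map_one, norm_one]
  exact absurd h1 (pow_lt_one₀ (norm_nonneg _) (hlt φ) hn.ne').ne

theorem int_poly {θ y : 𝓞 L} (h : (y : L) ∈ ℚ⟮(θ : L)⟯) :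
    ∃ N : ℤ, N ≠ 0 ∧ ∃ f : ℤ[X], N * y = aeval θ f := by
  rw [← mem_toSubalgebra, adjoin_simple_toSubalgebra_of_isAlgebraic
    (Algebra.IsAlgebraic.isAlgebraic _), Algebra.adjoin_singleton_eq_range_aeval] at h
  obtain ⟨g, hg⟩ := h
  obtain ⟨N, hN, hNg⟩ := IsLocalization.integerNormalization_spec (nonZeroDivisors ℤ) g
  refine ⟨N, nonZeroDivisors.ne_zero hN,
    IsLocalization.integerNormalization (nonZeroDivisors ℤ) g, RingOfIntegers.ext ?_⟩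
  have h1 : aeval (θ : L) (IsLocalization.integerNormalization (nonZeroDivisors ℤ) g) =
      (N : L) * y := by
    rw [← aeval_map_algebraMap ℚ, hNg, ← hg]
    simp
  rw [RingOfIntegers.coe_eq_algebraMap (aeval θ _), ← aeval_algebraMap_apply,
    ← RingOfIntegers.coe_eq_algebraMap, h1]
  simp

theorem solvable (x : 𝓞 L) (hx : ∀ ψ : L →ₐ[ℚ] ℂ, (ψ x).im = 0) :
    ∃ y : Fin 35 → 𝓞 L, ∀ a ∈ eqs x y, a = 0 := by
  have := nf (x : L)
  have hreal : ∀ w : InfinitePlace ℚ⟮(x : L)⟯, w.IsReal := by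
    intro w
    rw [InfinitePlace.isReal_iff, ComplexEmbedding.isReal_iff]
    obtain ⟨ψ, hψ⟩ := ext_emb _ w.embedding
    have h : (starRingEnd ℂ).toRatAlgHom.comp w.embedding.toRatAlgHom =
        w.embedding.toRatAlgHom := by
      refine IntermediateField.adjoin_algHom_ext ℚ ?_
      rintro z rfl
      change conj (w.embedding _) = w.embedding _
      rw [← hψ]
      exact Complex.conj_eq_iff_im.2 (hx ψ)
    ext y
    exact DFunLike.congr_fun h y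
  let w₁ : InfinitePlace ℚ⟮(x : L)⟯ := Classical.choice inferInstance
  obtain ⟨u, hu⟩ := NumberField.Units.dirichletUnitTheorem.exists_unit ℚ⟮(x : L)⟯ w₁
  have hI : Ideal.span {(3 : 𝓞 ℚ⟮(x : L)⟯)} ≠ ⊥ := by
    rw [Ne, Ideal.span_singleton_eq_bot]
    exact_mod_cast (by norm_num : (3 : ℕ) ≠ 0)
  have hfin : Finite (𝓞 ℚ⟮(x : L)⟯ ⧸ Ideal.span {(3 : 𝓞 ℚ⟮(x : L)⟯)}) :=
    Ring.HasFiniteQuotients.finiteQuotient hI
  obtain ⟨k, hk, hpow⟩ := (isOfFinOrder_of_finite (Units.map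
    (Ideal.Quotient.mk (Ideal.span {(3 : 𝓞 ℚ⟮(x : L)⟯)})).toMonoidHom u)).exists_pow_eq_one
  obtain ⟨s, hs⟩ : (3 : 𝓞 ℚ⟮(x : L)⟯) ∣ ((u ^ k : (𝓞 ℚ⟮(x : L)⟯)ˣ) : 𝓞 ℚ⟮(x : L)⟯) - 1 := by
    rw [← Ideal.mem_span_singleton, ← Ideal.Quotient.eq]
    simpa using congrArg Units.val hpow
  have hprim : ℚ⟮(((u ^ k : (𝓞 ℚ⟮(x : L)⟯)ˣ) : 𝓞 ℚ⟮(x : L)⟯) : ℚ⟮(x : L)⟯)⟯ = ⊤ := by
    refine NumberField.is_primitive_element_of_infinitePlace_lt (w := w₁) (Units.ne_zero _) ?_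
      (Or.inl (hreal w₁))
    intro w hw
    have h2 : w ((u : 𝓞 ℚ⟮(x : L)⟯) : ℚ⟮(x : L)⟯) < 1 := by
      by_contra h3
      exact absurd (Real.log_nonneg (not_lt.1 h3)) (not_le.2 (hu w hw))
    have h3 : (((u ^ k : (𝓞 ℚ⟮(x : L)⟯)ˣ) : 𝓞 ℚ⟮(x : L)⟯) : ℚ⟮(x : L)⟯) =
        ((u : 𝓞 ℚ⟮(x : L)⟯) : ℚ⟮(x : L)⟯) ^ k := by simp
    rw [h3, map_pow]
    exact pow_lt_one₀ (apply_nonneg _ _) h2 hk.ne'
  have hinv := (u ^ k).mul_inv
  generalize ((u ^ k : (𝓞 ℚ⟮(x : L)⟯)ˣ) : 𝓞 ℚ⟮(x : L)⟯) = θ at hs hprim hinv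
  let ι : 𝓞 ℚ⟮(x : L)⟯ →+* 𝓞 L := RingOfIntegers.mapRingHom (algebraMap ℚ⟮(x : L)⟯ L)
  have e : 1 + 3 * ι s = ι θ := by
    have h := congrArg ι hs
    rw [map_sub, map_one, map_mul, map_ofNat] at h
    linear_combination -h
  have m1 : (x : L) ∈ ℚ⟮((ι θ : 𝓞 L) : L)⟯ := by
    have h1 : ℚ⟮(θ : ℚ⟮(x : L)⟯)⟯ ≤ ℚ⟮((ι θ : 𝓞 L) : L)⟯.comap
        (algebraMap ℚ⟮(x : L)⟯ L).toRatAlgHom :=
      adjoin_simple_le_iff.2 (mem_adjoin_simple_self ℚ ((ι θ : 𝓞 L) : L))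
    rw [hprim] at h1
    exact h1 (x := AdjoinSimple.gen ℚ (x : L)) mem_top
  obtain ⟨N, hN, f, hf⟩ := int_poly m1
  obtain ⟨N', hN', h, hh⟩ := int_poly (θ := x) (y := ι θ) (θ : ℚ⟮(x : L)⟯).2
  rw [← e] at hf hh
  exact complete (Algebra.IsIntegral.isIntegral x) (v := ι _)
    (by rw [e, ← map_mul, hinv, map_one]) hN hN' hf hh

end general

/-- the field generated by all roots of unity and all totally real algebraic numbers -/
noncomputable def Qcm : IntermediateField ℚ ℂ :=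
  IntermediateField.adjoin ℚ ({z : ℂ | ∃ n : ℕ, 0 < n ∧ z ^ n = 1} ∪ {z : ℂ | TotReal z})

theorem sup_eq : Qcyc ⊔ Qtr = Qcm := (IntermediateField.adjoin_union ℚ).symm

theorem root_conj {z : ℂ} {n : ℕ} (h : z ^ (n + 1) = 1) : conj z = z ^ n := by
  rw [← Complex.inv_eq_conj (Complex.norm_eq_one_of_pow_eq_one h n.succ_ne_zero)]
  exact inv_eq_of_mul_eq_one_left (by rwa [← pow_succ])

theorem alg_cm : Algebra.IsAlgebraic ℚ Qcm := by
  refine IntermediateField.isAlgebraic_adjoin ?_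
  rintro z (⟨n, hn, h⟩ | ⟨p, h0, h1, -⟩)
  · exact IsIntegral.of_pow hn (h ▸ isIntegral_one)
  · exact IsAlgebraic.isIntegral ⟨p, h0, h1⟩

theorem conj_mem {z : ℂ} (hz : z ∈ Qcm) : conj z ∈ Qcm := by
  have h : Qcm ≤ Qcm.comap (starRingEnd ℂ).toRatAlgHom := by
    refine IntermediateField.adjoin_le_iff.2 ?_
    rintro z (⟨n, hn, h⟩ | h)
    · exact IntermediateField.subset_adjoin ℚ _
        (Or.inl ⟨n, hn, by change conj z ^ n = 1; rw [← map_pow, h, map_one]⟩)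
    · obtain ⟨p, h0, h1, h2⟩ := id h
      change conj z ∈ Qcm
      rw [Complex.conj_eq_iff_im.2 (h2 z h1)]
      exact IntermediateField.subset_adjoin ℚ _ (Or.inr h)
  exact h hz

/-- complex conjugation -/
noncomputable def cQ : Qcm →+* Qcm :=
  ((starRingEnd ℂ).comp Qcm.val.toRingHom).codRestrict Qcm.toSubalgebra.toSubring
    fun z => conj_mem z.2

theorem cQ_comm (ψ : Qcm →ₐ[ℚ] ℂ) (x : Qcm) : ψ (cQ x) = conj (ψ x) := by
  have h : ψ.comp cQ.toRatAlgHom = (starRingEnd ℂ).toRatAlgHom.comp ψ := by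
    refine IntermediateField.adjoin_algHom_ext ℚ ?_
    intro z hz
    let w : Qcm := ⟨z, IntermediateField.subset_adjoin ℚ _ hz⟩
    change ψ (cQ w) = conj (ψ w)
    rcases hz with ⟨n, hn, h⟩ | ⟨p, h0, h1, h2⟩
    · obtain ⟨n, rfl⟩ : ∃ j, n = j + 1 := ⟨n - 1, by omega⟩
      have h1 : w ^ (n + 1) = 1 := Subtype.ext h
      have h2 : cQ w = w ^ n := Subtype.ext (root_conj h)
      rw [h2, map_pow, root_conj (n := n) (by rw [← map_pow, h1, map_one])]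
    · have h3 : cQ w = w := Subtype.ext (Complex.conj_eq_iff_im.2 (h2 z h1))
      have h4 : aeval w p = 0 := Subtype.ext
        ((aeval_algHom_apply Qcm.val.toRingHom.toRatAlgHom w p).symm.trans h1)
      rw [h3, Complex.conj_eq_iff_im.2 (h2 _ (by rw [aeval_algHom_apply, h4, map_zero]))]
  exact DFunLike.congr_fun h x

/-- the setting -/
noncomputable def cjQ : Cj (𝓞 Qcm) where
  σ := RingOfIntegers.mapRingHom cQ
  pt := Set.range fun ψ : Qcm →ₐ[ℚ] ℂ => ψ.toRingHom.comp (algebraMap (𝓞 Qcm) Qcm)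
  ne := ⟨_, Qcm.val, rfl⟩
  inj := by
    rintro _ ⟨ψ, rfl⟩
    exact ψ.toRingHom.injective.comp RingOfIntegers.coe_injective
  cj := by
    rintro _ ⟨ψ, rfl⟩ x
    exact cQ_comm ψ x
  small := fun β h => have := alg_cm; lemA β fun ψ => h _ ⟨ψ, rfl⟩

theorem no_cube (a b : 𝓞 Qcm) (h : a ^ 3 = 2 * b ^ 3) : b = 0 := by
  refine cjQ.cube (fun a b h hb => ?_) a b h
  have hb' : (b : Qcm) ≠ 0 := fun h0 => hb (RingOfIntegers.ext h0)
  have h1 : ((a : Qcm) / b) ^ 3 = algebraMap ℤ Qcm 2 := by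
    have h2 := congrArg (algebraMap (𝓞 Qcm) Qcm) h
    simp only [map_mul, map_pow, map_ofNat] at h2
    rw [div_pow, div_eq_iff (pow_ne_zero 3 hb'), map_ofNat]
    exact h2
  refine ⟨⟨(a : Qcm) / b, IsIntegral.of_pow (by norm_num) (h1 ▸ isIntegral_algebraMap)⟩,
    RingOfIntegers.ext ?_⟩
  exact (mul_div_cancel₀ _ hb').symm

theorem main : ∃ (n : ℕ) (F : MvPolynomial (Option (Fin n)) ℤ),
    ∀ K : IntermediateField ℚ ℂ, K ≤ Qcm → ∀ a : 𝓞 K,
      (((algebraMap (𝓞 K) K a : K) : ℂ).im = 0 ↔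
        ∃ y : Fin n → 𝓞 K, MvPolynomial.aeval (fun o : Option (Fin n) => o.elim a y) F = 0) := by
  refine ⟨35, comb (eqs (MvPolynomial.X none) fun i => MvPolynomial.X (some i)),
    fun K hK a => ?_⟩
  have h1 : ∀ y : Fin 35 → 𝓞 K, MvPolynomial.aeval (fun o : Option (Fin 35) => o.elim a y)
      (comb (eqs (MvPolynomial.X none : MvPolynomial (Option (Fin 35)) ℤ)
        fun i => MvPolynomial.X (some i))) = comb (eqs a y) := by
    intro y
    have h2 := comb_map (MvPolynomial.aeval (R := ℤ)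
      (fun o : Option (Fin 35) => o.elim a y)).toRingHom
      (eqs (MvPolynomial.X none) fun i => MvPolynomial.X (some i))
    rw [eqs_map] at h2
    simpa using h2
  have := alg_cm
  let j : K →ₐ[ℚ] Qcm := (inclusion hK).toRingHom.toRatAlgHom
  have hj : Function.Injective j := inclusion_injective hK
  have : Algebra.IsAlgebraic ℚ K := Algebra.IsAlgebraic.of_injective j hj
  let ι : 𝓞 K →+* 𝓞 Qcm := RingOfIntegers.mapRingHom j.toRingHom
  have hι : Function.Injective ι := fun u v h =>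
    RingOfIntegers.ext (hj (congrArg (fun z : 𝓞 Qcm => (z : Qcm)) h))
  have hc : ∀ u v : 𝓞 K, u ^ 3 = 2 * v ^ 3 → v = 0 := fun u v h =>
    hι (by
      rw [map_zero]
      exact no_cube (ι u) _ (by simpa only [map_pow, map_mul, map_ofNat] using congrArg ι h))
  simp only [h1, comb_eq_zero hc]
  refine ⟨fun h => solvable a fun ψ => ?_, fun ⟨y, h⟩ => ?_⟩
  · have h2 : ψ a ∈ (minpoly ℚ (j a)).rootSet ℂ := by
      rw [minpoly.algHom_eq _ hj, ← Algebra.IsAlgebraic.range_eval_eq_rootSet_minpoly ℂ]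
      exact ⟨ψ, rfl⟩
    rw [← Algebra.IsAlgebraic.range_eval_eq_rootSet_minpoly ℂ] at h2
    obtain ⟨φ, hφ⟩ := h2
    have h3 : cQ (j a) = j a := Subtype.ext (Complex.conj_eq_iff_im.2 h)
    rw [← hφ, ← Complex.conj_eq_iff_im, ← cQ_comm, h3]
  · have h2 : cjQ.σ (ι a) = ι a := cjQ.sound (y := fun i => ι (y i)) (by
      rw [← eqs_map, List.forall_mem_map]
      intro e he
      rw [h e he, map_zero])
    exact Complex.conj_eq_iff_im.1 (congrArg (fun z : 𝓞 Qcm => ((z : Qcm) : ℂ)) h2)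

/-- The case of the field generated by all roots of unity. -/
theorem cyc_case : ∃ (n : ℕ) (F : MvPolynomial (Option (Fin n)) ℤ), ∀ a : 𝓞 Qcyc,
    (((algebraMap (𝓞 Qcyc) Qcyc a : Qcyc) : ℂ).im = 0 ↔
      ∃ y : Fin n → 𝓞 Qcyc, MvPolynomial.aeval (fun o : Option (Fin n) => o.elim a y) F = 0) :=
  let ⟨n, F, h⟩ := main
  ⟨n, F, h Qcyc (sup_eq ▸ le_sup_left)⟩

end Pool.Agent.P.MP_5347d0_lc.CM
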