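import Mathlib

/-! Multiplicative functions modulo `f` and modulo a power of three with values in a field. -/

namespace Pool.Agent.P.MP_5347d0_lc.Dio

open Finset

theorem lte (γ β j : ℕ) (hγ : 1 ≤ γ) :
    ∃ u, (1 + 3 ^ γ * β) ^ 3 ^ j = 1 + 3 ^ (γ + j) * (β * u) ∧ ¬ 3 ∣ u := by
  induction j with
  | zero => exact ⟨1, by simp, by norm_num⟩
  | succ j ih =>
    obtain ⟨u, hu, h3⟩ := ih
    obtain ⟨c, hc⟩ : ∃ c, γ + j = c + 1 := ⟨γ + j - 1, by omega⟩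
    refine ⟨u * (1 + 3 * (3 ^ c * (β * u) + 3 ^ (2 * c) * (β * u) ^ 2)), ?_, ?_⟩
    · rw [pow_succ 3 j, pow_mul, hu, ← add_assoc γ j 1, hc]
      ring
    · intro h
      rcases (Nat.Prime.dvd_mul Nat.prime_three).1 h with h | h
      · exact h3 h
      · omega

theorem pw (γ c s n : ℕ) (h : n ≤ 2 * γ) :
    (1 + 3 ^ γ * c) ^ s ≡ 1 + 3 ^ γ * (c * s) [MOD 3 ^ n] := by
  induction s with
  | zero => simp [Nat.ModEq]
  | succ s ih =>
    rw [pow_succ]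
    refine (ih.mul_right _).trans ?_
    obtain ⟨e, he⟩ := Nat.exists_eq_add_of_le h
    have e1 : (1 + 3 ^ γ * (c * s)) * (1 + 3 ^ γ * c) =
        1 + 3 ^ γ * (c * (s + 1)) + 3 ^ n * (3 ^ e * (c * s * c)) := by
      rw [← mul_assoc (3 ^ n), ← pow_add, ← he]
      ring
    rw [e1]
    exact Nat.add_mul_mod_self_left _ _ _

theorem sq_eq {y : ℕ} (hy : ¬ 3 ∣ y) : ∃ β, y ^ 2 = 1 + 3 ^ 1 * β := by
  have h : y % 3 = 1 ∨ y % 3 = 2 := by omega
  have h1 : y ^ 2 % 3 = 1 := by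
    rcases h with h | h <;> simp [Nat.pow_mod, h]
  exact ⟨y ^ 2 / 3, by omega⟩

theorem sum_shift {k : Type} [AddCommGroup k] (F : ℕ → k) (T : ℕ) (h : ∀ s, F (s + T) = F s)
    (σ : ℕ) : ∑ s ∈ range T, F (s + σ) = ∑ s ∈ range T, F s := by
  induction σ with
  | zero => simp
  | succ σ ih =>
    rw [← ih]
    have h1 := sum_range_succ (fun s => F (s + σ)) T
    have h2 := sum_range_succ' (fun s => F (s + σ)) T
    have h3 : F (T + σ) = F (0 + σ) := by rw [zero_add, add_comm, h]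
    rw [h1, h3] at h2
    have h4 := add_right_cancel h2
    rw [h4]
    exact sum_congr rfl fun s _ => by rw [add_assoc, add_comm 1 σ]

/-- a pair of multiplicative functions -/
structure Ch (k : Type) [Field k] (f n : ℕ) where
  ψ : ℕ →* k
  θ : ℕ →* k
  hψ : ∀ i j, i ≡ j [MOD f] → ψ i = ψ j
  hθ : ∀ i j, i ≡ j [MOD 3 ^ (n + 1)] → θ i = θ j
  three : θ 3 = 0
  faith : ∀ β, ¬ 3 ∣ β → θ (1 + 3 ^ n * β) ≠ 1
  even : ψ (f * 3 ^ (n + 1) - 1) * θ (f * 3 ^ (n + 1) - 1) = 1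

variable {k : Type} [Field k] {f n : ℕ} (c : Ch k f n)

theorem Ch.one_add (β : ℕ) : c.θ (1 + 3 ^ (n + 1) * β) = 1 := by
  rw [c.hθ _ 1 (Nat.add_mul_mod_self_left _ _ _), map_one]

theorem Ch.dvd {i : ℕ} (hi : 3 ∣ i) : c.θ i = 0 := by
  obtain ⟨j, rfl⟩ := hi
  rw [map_mul, c.three, zero_mul]

theorem Ch.faith' {γ β : ℕ} (h1 : 1 ≤ γ) (h2 : γ ≤ n) (hβ : ¬ 3 ∣ β) :
    c.θ (1 + 3 ^ γ * β) ≠ 1 := by
  obtain ⟨j, rfl⟩ := Nat.exists_eq_add_of_le h2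
  obtain ⟨u, hu, h3⟩ := lte γ β j h1
  intro h
  refine c.faith (β * u) (fun h4 => ?_) ?_
  · rcases (Nat.Prime.dvd_mul Nat.prime_three).1 h4 with h | h
    exacts [hβ h, h3 h]
  · rw [← hu, map_pow, h, one_pow]

theorem Ch.euler {y : ℕ} (hy : ¬ 3 ∣ y) : c.θ y ^ (2 * 3 ^ n) = 1 := by
  obtain ⟨β, hβ⟩ := sq_eq hy
  obtain ⟨u, hu, -⟩ := lte 1 β n le_rfl
  rw [← map_pow, pow_mul, hβ, hu, add_comm 1 n, c.one_add]

theorem Ch.ne {y : ℕ} (hy : ¬ 3 ∣ y) : c.θ y ≠ 0 := by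
  intro h
  have h1 := c.euler hy
  rw [h, zero_pow (by positivity)] at h1
  exact zero_ne_one h1

theorem Ch.cube (hn : 1 ≤ n) {β : ℕ} (hβ : ¬ 3 ∣ β) :
    1 + c.θ (1 + 3 ^ n * β) + c.θ (1 + 3 ^ n * β) ^ 2 = 0 := by
  have h1 : c.θ (1 + 3 ^ n * β) ^ 3 = 1 := by
    rw [← map_pow, c.hθ _ _ (pw n β 3 (n + 1) (by omega)),
      show 1 + 3 ^ n * (β * 3) = 1 + 3 ^ (n + 1) * β by ring, c.one_add]
  have h2 := sub_ne_zero.2 (c.faith β hβ)
  refine mul_left_cancel₀ h2 ?_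
  linear_combination h1

theorem Ch.psi_pow (hf : 0 < f) {P : ℕ} (hP : P ≡ 1 [MOD f.factorial]) (hP0 : 0 < P) (i : ℕ) :
    c.ψ i ^ P = c.ψ i := by
  obtain ⟨s, hs, t, ht, hne, he⟩ := exists_ne_map_eq_of_card_lt_of_maps_to
    (s := range (f + 1)) (t := range f) (by simp) (f := fun s => i ^ s % f)
    (fun s _ => by simpa using Nat.mod_lt _ hf)
  by_cases h0 : c.ψ i = 0
  · rw [h0, zero_pow hP0.ne']
  wlog hst : s < t generalizing s t
  · exact this t ht s hs hne.symm he.symm (by omega)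
  obtain ⟨d, rfl⟩ := Nat.exists_eq_add_of_lt hst
  have h1 : c.ψ i ^ s = c.ψ i ^ (s + d + 1) := by
    rw [← map_pow, ← map_pow]
    exact c.hψ _ _ he
  have h2 : c.ψ i ^ (d + 1) = 1 := by
    rw [add_assoc, pow_add] at h1
    exact (mul_left_cancel₀ (pow_ne_zero s h0) (h1.symm.trans (mul_one _).symm))
  have h3 : d + 1 ∣ f.factorial := Nat.dvd_factorial (by omega) (by simp at ht; omega)
  obtain ⟨e, he⟩ := h3.trans ((Nat.modEq_iff_dvd' hP0).1 hP.symm)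
  rw [show P = (d + 1) * e + 1 by omega, pow_succ, pow_mul, h2, one_pow, one_mul]

/-- the trace along the powers of `P` -/
theorem Ch.trace {a b β P : ℕ} (ha : 1 ≤ a) (hb : 1 ≤ b) (hn : n + 1 = a + b) (hβ : ¬ 3 ∣ β)
    (hP : P = 1 + 3 ^ a * (2 * β)) {y : ℕ} (hy : ¬ 3 ∣ y) :
    ∑ s ∈ range (3 ^ n), c.θ y ^ P ^ s =
      if y ^ 2 ≡ 1 [MOD 3 ^ b] then (3 : k) ^ n * c.θ y else 0 := by
  have hy1 : 1 ≤ y ^ 2 := Nat.one_le_pow _ _ (Nat.pos_of_ne_zero (by rintro rfl; simp at hy))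
  have hPs : ∀ s, ∃ t, P ^ s = 1 + 2 * 3 ^ a * t := by
    intro s
    induction s with
    | zero => exact ⟨0, by simp⟩
    | succ s ih =>
      obtain ⟨t, ht⟩ := ih
      exact ⟨t + β + 2 * 3 ^ a * t * β, by rw [pow_succ, ht, hP]; ring⟩
  split_ifs with h
  · obtain ⟨e, he⟩ := (Nat.modEq_iff_dvd' hy1).1 h.symm
    obtain ⟨u, hu, -⟩ := lte b e a hb
    have h1 : c.θ y ^ (2 * 3 ^ a) = 1 := by
      rw [← map_pow, pow_mul, show y ^ 2 = 1 + 3 ^ b * e by omega, hu, add_comm b a, ← hn,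
        c.one_add]
    rw [sum_congr rfl (g := fun _ => c.θ y) fun s _ => ?_]
    · simp
    · obtain ⟨t, ht⟩ := hPs s
      rw [ht, pow_add, pow_mul, h1, one_pow, mul_one, pow_one]
  · have h0 : y ^ 2 - 1 ≠ 0 := fun h0 => h (by rw [show y ^ 2 = 1 by omega])
    obtain ⟨γ, β1, hβ1, he⟩ := Nat.exists_eq_pow_mul_and_not_dvd h0 3 (by norm_num)
    have hy2 : y ^ 2 = 1 + 3 ^ γ * β1 := by omega
    have hγ1 : 1 ≤ γ := by
      by_contra h1
      obtain ⟨β2, h2⟩ := sq_eq hy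
      have : γ = 0 := by omega
      subst this
      omega
    have hγb : γ < b := by
      by_contra h1
      obtain ⟨e, rfl⟩ := Nat.exists_eq_add_of_le (not_lt.1 h1)
      exact h (by rw [hy2, pow_add, mul_assoc]; exact Nat.add_mul_mod_self_left _ _ _)
    obtain ⟨j, hj⟩ : ∃ j, n = γ + (a + j) := ⟨n - γ - a, by omega⟩
    obtain ⟨u, hu, hu3⟩ := lte a (2 * β) j ha
    obtain ⟨v, hv, hv3⟩ := lte γ β1 (a + j) hγ1
    have hnd : ¬ 3 ∣ β1 * v * (β * u) := by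
      intro h4
      simp only [Nat.Prime.dvd_mul Nat.prime_three] at h4
      tauto
    set ρ := c.θ (1 + 3 ^ n * (β1 * v * (β * u))) with hρ
    have hρ1 : ρ ≠ 1 := c.faith _ hnd
    have hρ3 : ρ ^ 3 = 1 := by
      have := c.cube (by omega) hnd
      rw [← hρ] at this
      linear_combination (ρ - 1) * this
    have h1 : c.θ y ^ P ^ 3 ^ j = c.θ y * ρ := by
      rw [← hj] at hv
      rw [hP, hu, pow_add, pow_one, hρ, ← c.hθ _ _ (pw n (β1 * v) (β * u) (n + 1) (by omega)),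
        ← hv, ← hy2, ← map_pow, ← pow_mul, ← pow_mul]
      congr 3
      ring
    have h2 : ∀ s, ρ ^ P ^ s = ρ := by
      intro s
      obtain ⟨t, ht⟩ := hPs s
      obtain ⟨a', rfl⟩ := Nat.exists_eq_add_of_le ha
      rw [ht, show 1 + 2 * 3 ^ (1 + a') * t = 1 + 3 * (2 * 3 ^ a' * t) by ring, pow_add, pow_mul,
        hρ3, one_pow, mul_one, pow_one]
    have h3 : ∀ s, c.θ y ^ P ^ (s + 3 ^ n) = c.θ y ^ P ^ s := by
      intro s
      obtain ⟨w, hw, -⟩ := lte a (2 * β) n ha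
      rw [add_comm s, pow_add, pow_mul, hP, hw,
        show 1 + 3 ^ (a + n) * (2 * β * w) = 1 + 2 * 3 ^ n * (3 ^ a * β * w) by ring, pow_add,
        pow_mul, c.euler hy, one_pow, mul_one, pow_one]
    have h4 := sum_shift (fun s => c.θ y ^ P ^ s) (3 ^ n) h3 (3 ^ j)
    have h5 : ∑ s ∈ range (3 ^ n), c.θ y ^ P ^ (s + 3 ^ j) =
        (∑ s ∈ range (3 ^ n), c.θ y ^ P ^ s) * ρ := by
      rw [sum_mul]
      refine sum_congr rfl fun s _ => ?_
      rw [add_comm s, pow_add, pow_mul, h1, mul_pow, h2]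
    rw [h5] at h4
    refine mul_right_cancel₀ (sub_ne_zero.2 hρ1) ?_
    linear_combination h4

/-- a small number is not sent to an element fixed by the power `P` -/
theorem Ch.ne_of_small {P b : ℕ} (hψ : ∀ i, c.ψ i ^ P = c.ψ i) {e : ℕ} (hP : P = 2 * e + 1)
    (he : 0 < e) (hb : 2 ≤ b) (h3 : ¬ 3 ∣ b) (hlt : b ^ P < 3 ^ n) {l : k} (hl : l ≠ 0)
    (hlP : l ^ P = l) : c.ψ b * c.θ b ≠ l := by
  intro h
  have hψ0 : c.ψ b ≠ 0 := fun h0 => hl (by rw [← h, h0, zero_mul])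
  have h1 : c.θ b ^ P = c.θ b := by
    rw [← h, mul_pow, hψ] at hlP
    exact mul_left_cancel₀ hψ0 hlP
  have h2 : c.θ (b ^ (2 * e)) = 1 := by
    rw [hP, pow_succ] at h1
    rw [map_pow]
    exact mul_right_cancel₀ (c.ne h3) (h1.trans (one_mul _).symm)
  have h4 : 1 < b ^ (2 * e) := Nat.one_lt_pow (by omega) (by omega)
  obtain ⟨γ, β1, hβ1, hγ⟩ := Nat.exists_eq_pow_mul_and_not_dvd (n := b ^ (2 * e) - 1) (by omega) 3
    (by norm_num)
  have h5 : b ^ (2 * e) = 1 + 3 ^ γ * β1 := by omega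
  have hγ1 : 1 ≤ γ := by
    by_contra h6
    obtain ⟨β2, h7⟩ := sq_eq (y := b ^ e) fun h8 => h3 (Nat.prime_three.dvd_of_dvd_pow h8)
    rw [← pow_mul, mul_comm] at h7
    have : γ = 0 := by omega
    subst this
    omega
  have hγn : γ ≤ n := by
    have h6 : 0 < β1 := Nat.pos_of_ne_zero (by rintro rfl; simp at hβ1)
    have h7 : 3 ^ γ ≤ 3 ^ γ * β1 := Nat.le_mul_of_pos_right _ h6
    have h8 : b ^ (2 * e) ≤ b ^ P := Nat.pow_le_pow_right (by omega) (by omega)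
    exact ((Nat.pow_lt_pow_iff_right (by norm_num : 1 < 3)).1 (by omega)).le
  exact c.faith' hγ1 hγn hβ1 (h5 ▸ h2)

end Pool.Agent.P.MP_5347d0_lc.Dio
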