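import Pool.Agent.P.MP_5347d0_lc.DReal

/-! Solvability of the system at real points. -/

namespace Pool.Agent.P.MP_5347d0_lc.Dio

open Finset Polynomial
open scoped ComplexConjugate

variable {O : Type} [CommRing O]

theorem Cj.cube (c : Cj O) (hint : ∀ a b : O, a ^ 3 = 2 * b ^ 3 → b ≠ 0 → b ∣ a) (a b : O)
    (h : a ^ 3 = 2 * b ^ 3) : b = 0 := by
  by_contra hb
  obtain ⟨α, rfl⟩ := hint a b h hb
  have h1 : ∀ ψ ∈ c.pt, ∃ r : ℝ, r ^ 3 = 4 ∧ 0 ≤ r ∧ ψ (α * c.σ α) = r := by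
    intro ψ hψ
    have h2 : ψ b ≠ 0 := (map_ne_zero_iff ψ (c.inj ψ hψ)).2 hb
    have h3 := congrArg ψ h
    simp only [map_mul, map_pow, map_ofNat] at h3
    have h4 : ψ α ^ 3 = 2 := mul_left_cancel₀ (pow_ne_zero 3 h2) (by linear_combination h3)
    have h5 := congrArg Complex.normSq h4
    rw [map_pow, Complex.normSq_ofNat] at h5
    exact ⟨_, h5.trans (by norm_num), Complex.normSq_nonneg _, by
      rw [map_mul, c.cj ψ hψ, Complex.mul_conj]⟩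
  have h2 : α * c.σ α - 2 = 0 := by
    refine c.small _ fun ψ hψ => ?_
    obtain ⟨r, h3, h4, h5⟩ := h1 ψ hψ
    rw [map_sub, h5, map_ofNat, show (r : ℂ) - 2 = (r - 2 : ℝ) by push_cast; rfl, Complex.norm_real,
      Real.norm_eq_abs, abs_lt]
    constructor <;> by_contra h6 <;> nlinarith [sq_nonneg r, mul_self_nonneg (r - 1)]
  obtain ⟨ψ, hψ⟩ := c.ne
  obtain ⟨r, h3, -, h5⟩ := h1 ψ hψ
  rw [sub_eq_zero.1 h2, map_ofNat] at h5
  have h6 : r = 2 := by exact_mod_cast h5.symm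
  rw [h6] at h3
  norm_num at h3

theorem lam_sym {m : ℕ} {z z' : O} (hz : z * z' = 1)
    (h : ∀ j, ¬ 3 ∣ j → z ^ j + z' ^ j ∈ Lam m O) (Y : ℤ[X]) :
    (z + z') * (aeval (z ^ 3) Y + aeval (z' ^ 3) Y) ∈ Lam m O := by
  induction Y using Polynomial.induction_on' with
  | add a b ha hb =>
    rw [map_add, map_add, add_add_add_comm, mul_add]
    exact add_mem ha hb
  | monomial i a =>
    simp only [aeval_monomial, eq_intCast]
    rw [← mul_add, mul_left_comm, ← zsmul_eq_mul]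
    refine zsmul_mem ?_ a
    rcases i with _ | i
    · have h1 := h 1 (by norm_num)
      rw [pow_one, pow_one] at h1
      rw [pow_zero, pow_zero, mul_add, mul_one]
      exact add_mem h1 h1
    · rw [show (z + z') * ((z ^ 3) ^ (i + 1) + (z' ^ 3) ^ (i + 1)) =
        z ^ (3 * i + 4) + z' ^ (3 * i + 4) + (z ^ (3 * i + 2) + z' ^ (3 * i + 2)) by
          linear_combination (z ^ (3 * i + 2) + z' ^ (3 * i + 2)) * hz]
      exact add_mem (h _ (by omega)) (h _ (by omega))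

theorem complete (σ : O →+* O) {r : O} (hr : r * r = 2)
    (halg : ∀ y : O, y ≠ 0 → ∃ N : ℕ, N ≠ 0 ∧ y ∣ N) (h2 : ∀ y : O, 4 * y ^ 2 - 1 ≠ 0)
    {x : O} (hx : σ x = x) {f M : ℕ} (hf : 0 < f) (hf3 : ¬ 3 ∣ f) (hM : M ≠ 0)
    (h : ∀ n₀, ∃ n, n₀ ≤ n ∧ ∃ z z' : O, z * z' = 1 ∧ σ z = z' ∧
      (z ^ (f * 3 ^ n)) ^ 2 + z ^ (f * 3 ^ n) + 1 = 0 ∧ ∃ Y : ℤ[X], M * x = aeval (z ^ 3) Y) :
    ∃ y : Fin 31 → O, ∀ e ∈ eqs x y, e = 0 := by
  obtain ⟨F, hF⟩ : ∃ F, F = (f + 3).factorial := ⟨_, rfl⟩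
  have hF0 : F ≠ 0 := hF ▸ Nat.factorial_ne_zero _
  obtain ⟨M', hM'⟩ : ∃ M', M' = 2 * M * F := ⟨_, rfl⟩
  have hM0 : M' ≠ 0 := by rw [hM']; positivity
  obtain ⟨N₁, hN₁, hd₁⟩ := halg _ (h2 (M' * x))
  obtain ⟨N, hN, hNF, k, hk⟩ := strip (y := 4 * (M' * x) ^ 2 - 1) (F := F)
    ⟨-1, 4 * (2 * M * x) ^ 2 * F, by rw [hM']; push_cast; ring⟩ N₁ hN₁ hd₁
  obtain ⟨a, t, ht, hat⟩ := Nat.exists_eq_pow_mul_and_not_dvd hF0 2 (by norm_num)
  have ht2 : Nat.Coprime t 2 := ((Nat.Prime.coprime_iff_not_dvd Nat.prime_two).2 ht).symm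
  have hq : Nat.Coprime (t ^ 2 + 4) F := by
    rw [hat]
    refine Nat.Coprime.mul_right (Nat.Coprime.pow_right a ?_) ?_
    · rw [show 4 = 2 * 2 from rfl, Nat.coprime_add_mul_right_left]
      exact ht2.pow_left 2
    · rw [add_comm, pow_two, Nat.coprime_add_mul_right_left]
      exact ht2.symm.pow_left 2
  obtain ⟨m, hm⟩ : ∃ m, m = (t ^ 2 + 4) * N := ⟨_, rfl⟩
  have hm0 : m ≠ 0 := by rw [hm]; positivity
  have hco : Nat.Coprime m (f + 3).factorial := by rw [hm, ← hF]; exact hq.mul_left hNF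
  obtain ⟨n, hn, z, z', hz, hσ, hrel, Y, hY⟩ := h (bnd f m)
  have hL := fun j hj => lam_mem (j := j) hf hf3 hm0 hco hn hz hrel hj
  obtain ⟨y, hy, w₀, hw₀⟩ := hL 1 (by norm_num)
  obtain ⟨y', hy', w₁, hw₁⟩ := nsmul_mem (lam_sym hz hL Y) F
  have hY' := congrArg σ hY
  rw [map_mul, map_natCast, hx, hom_aeval, map_pow, hσ] at hY'
  rw [← hY, ← hY', nsmul_eq_mul] at hw₁
  rw [pow_one, pow_one] at hw₀
  obtain ⟨u, hu⟩ : z + z' ∣ 3 := by
    refine Dvd.dvd.trans ⟨z, by linear_combination -hz⟩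
      (one_sub_dvd (z := -z ^ 2) (T := 2 * (f * 3 ^ n)) ?_)
    rw [pow_mul, neg_sq, ← pow_mul z 2 2, pow_right_comm z (2 * 2)]
    exact cube_pow (b := 2 * 2) hrel (by norm_num)
  obtain ⟨α, β, hαβ⟩ : IsCoprime ((3 : ℕ) : O) m :=
    (hco.coprime_dvd_right (Nat.dvd_factorial (by omega) (by omega))).symm.cast
  obtain ⟨a₀, ha₀⟩ := hy.exists_right_inv
  obtain ⟨a₁, ha₁⟩ := hy'.exists_right_inv
  obtain ⟨s', t', hst⟩ := nz_of_dvd (y := (M' : O) * m) (N := (M' * m : ℕ))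
    (by exact_mod_cast mul_ne_zero hM0 hm0) (by push_cast; exact dvd_rfl)
  obtain ⟨b1, b2, b3, b4, b5, b6, hb⟩ := r1_nat hr M'
  obtain ⟨c1, c2, c3, c4, c5, c6, hc⟩ := r1_nat hr t
  obtain ⟨d1, d2, d3, d4, d5, d6, hd⟩ := r1_nat hr m
  have h3 : ∀ e ∈ r2 x M' t m N ((t ^ 2 + 4) * k) y (α * u) (β + α * u * w₀)
      (w₁ - w₀ * (M' * x)) a₀ a₁ s' t', e = 0 := by
    have e1 := congrArg (Nat.cast : ℕ → O) hm
    have e2 := congrArg (Nat.cast : ℕ → O) hM'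
    push_cast at e1 e2 hαβ
    simp only [r2, List.forall_mem_cons, List.not_mem_nil, false_imp_iff, implies_true, and_true]
    refine ⟨sub_eq_zero.2 e1, by linear_combination e1 + (t ^ 2 + 4) * hk,
      by linear_combination hαβ - α * hu - α * u * hw₀, sub_eq_zero.2 ha₀, ?_, hst⟩
    rw [show y * (M' * x) - m * (w₁ - w₀ * (M' * x)) = y' by
      linear_combination hw₁ - M' * x * hw₀ + (z + z') * x * e2, ha₁, sub_self]
  refine ⟨![M', b1, b2, b3, b4, b5, b6, t, c1, c2, c3, c4, c5, c6, m, d1, d2, d3, d4, d5, d6,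
    N, (t ^ 2 + 4) * k, y, α * u, β + α * u * w₀, w₁ - w₀ * (M' * x), a₀, a₁, s', t'], ?_⟩
  simp only [eqs, List.forall_mem_append]
  exact ⟨⟨⟨hb, hc⟩, hd⟩, h3⟩

end Pool.Agent.P.MP_5347d0_lc.Dio
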