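import Pool.Agent.P.MP_5347d0_lc.DChar

/-! The nonvanishing theorem (an argument in the style of Sinnott and Washington). -/

namespace Pool.Agent.P.MP_5347d0_lc.Dio

open Finset Polynomial

variable {k : Type} [Field k]

/-- the additive functional with the value `φ i` at `X ^ i` -/
noncomputable def LZ (φ : ℕ → k) : ℤ[X] →ₗ[ℤ] k :=
  Polynomial.lsum fun i => LinearMap.toSpanSingleton ℤ k (φ i)

theorem LZ_eq (φ : ℕ → k) (Y : ℤ[X]) : LZ φ Y = ∑ i ∈ Y.support, (Y.coeff i : k) * φ i := by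
  simp [LZ, Polynomial.lsum, Polynomial.sum]

theorem LZ_monomial (φ : ℕ → k) (i : ℕ) (a : ℤ) : LZ φ (monomial i a) = (a : k) * φ i := by
  simp [LZ, Polynomial.lsum, Polynomial.sum_monomial_index]

theorem LZ_range (φ : ℕ → k) (Y : ℤ[X]) {D : ℕ} (h : Y.natDegree < D) :
    LZ φ Y = ∑ i ∈ range D, (Y.coeff i : k) * φ i := by
  rw [LZ_eq]
  refine sum_subset (supp_subset_range h) fun i _ hi => ?_
  rw [notMem_support_iff.1 hi]
  simp

theorem LZ_X_pow_mul (φ : ℕ → k) (j : ℕ) (Y : ℤ[X]) :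
    LZ φ (X ^ j * Y) = LZ (fun i => φ (i + j)) Y := by
  induction Y using Polynomial.induction_on' with
  | add p q hp hq => rw [mul_add, map_add, map_add, hp, hq]
  | monomial i a => rw [X_pow_mul_monomial, LZ_monomial, LZ_monomial]

theorem LZ_expand (φ : ℕ → k) (j : ℕ) (Y : ℤ[X]) :
    LZ φ (expand ℤ j Y) = LZ (fun i => φ (i * j)) Y := by
  induction Y using Polynomial.induction_on' with
  | add p q hp hq => rw [map_add, map_add, map_add, hp, hq]
  | monomial i a => rw [expand_monomial, LZ_monomial, LZ_monomial]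

/-- the same functional as a function of `φ` -/
noncomputable def LF (Y : ℤ[X]) : (ℕ → k) →ₗ[k] k where
  toFun φ := LZ φ Y
  map_add' φ φ' := by simp [LZ_eq, mul_add, sum_add_distrib]
  map_smul' a φ := by
    simp only [LZ_eq, Pi.smul_apply, smul_eq_mul, RingHom.id_apply, mul_sum]
    exact sum_congr rfl fun i _ => by ring

theorem LZ_phi {φ : ℕ → k} {T : ℕ} (h : ∀ i, φ i + φ (i + T) + φ (i + 2 * T) = 0) (A : ℤ[X]) :
    LZ φ ((X ^ (2 * T) + X ^ T + 1) * A) = 0 := by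
  rw [add_mul, add_mul, one_mul, map_add, map_add, LZ_X_pow_mul, LZ_X_pow_mul]
  have h1 : (fun i => φ (i + 2 * T)) + (fun i => φ (i + T)) + φ = 0 := by
    funext i
    simp only [Pi.add_apply, Pi.zero_apply]
    linear_combination h i
  have h2 := congrArg (LF (k := k) A) h1
  rw [map_add, map_add, map_zero] at h2
  exact h2

theorem LZ_p (p : ℕ) [CharP k p] (φ : ℕ → k) (A : ℤ[X]) : LZ φ ((p : ℤ[X]) * A) = 0 := by
  rw [← nsmul_eq_mul, map_nsmul, nsmul_eq_mul, CharP.cast_eq_zero, zero_mul]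

theorem LZ_frob (p : ℕ) [Fact p.Prime] [CharP k p] (φ : ℕ → k) (e : ℕ) (Y : ℤ[X]) :
    LZ (fun i => φ i ^ p ^ e) Y = LZ φ Y ^ p ^ e := by
  rw [LZ_eq, LZ_eq, ← iterateFrobenius_def (R := k) p e, map_sum]
  refine sum_congr rfl fun i _ => ?_
  rw [map_mul, map_intCast, iterateFrobenius_def]

theorem sq_modEq {b i r : ℕ} (hr : ¬ 3 ∣ r) :
    i ^ 2 ≡ r ^ 2 [MOD 3 ^ b] ↔ (3 : ℤ) ^ b ∣ (i : ℤ) - r ∨ (3 : ℤ) ^ b ∣ (i : ℤ) + r := by
  rw [Nat.modEq_iff_dvd]
  push_cast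
  rw [show (r : ℤ) ^ 2 - (i : ℤ) ^ 2 = -((i - r) * (i + r)) by ring, dvd_neg]
  refine ⟨fun h => ?_, fun h => h.elim (fun h => h.mul_right _) fun h => h.mul_left _⟩
  by_cases h3 : (3 : ℤ) ∣ (i : ℤ) - r
  · refine Or.inl (Int.prime_three.pow_dvd_of_dvd_mul_right b (fun h4 => hr ?_) h)
    omega
  · exact Or.inr (Int.prime_three.pow_dvd_of_dvd_mul_left b h3 h)

variable {f n : ℕ} (c : Ch k f n)

/-- step one: the partial sums over the classes `± r` vanish -/
theorem Ch.part (p : ℕ) [Fact p.Prime] [CharP k p] (hp3 : p ≠ 3) {a b β E : ℕ} (ha : 1 ≤ a)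
    (hb : 1 ≤ b) (hn : n + 1 = a + b) (hβ : ¬ 3 ∣ β) (hP : p ^ E = 1 + 3 ^ a * (2 * β))
    (hψ : ∀ i, c.ψ i ^ p ^ E = c.ψ i) {Y : ℤ[X]} (hY : LZ (fun i => c.ψ i * c.θ i) Y = 0)
    {r : ℕ} (hr : ¬ 3 ∣ r) :
    LZ (fun i => if i ^ 2 ≡ r ^ 2 [MOD 3 ^ b] then c.ψ i * c.θ i else 0) Y = 0 := by
  have h3 : (3 : k) ≠ 0 := by
    intro h
    have h1 : p ∣ 3 := (CharP.cast_eq_zero_iff k p 3).1 (by exact_mod_cast h)
    exact hp3 ((Nat.prime_dvd_prime_iff_eq Fact.out Nat.prime_three).1 h1)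
  have hco : Nat.Coprime r (3 ^ b) :=
    Nat.Coprime.pow_right _ ((Nat.Prime.coprime_iff_not_dvd Nat.prime_three).2 hr).symm
  obtain ⟨r', hr'⟩ : ∃ r', r * r' ≡ 1 [MOD 3 ^ b] := by
    obtain ⟨m, -, hm⟩ := Nat.exists_mul_mod_eq_one_of_coprime hco (Nat.one_lt_pow (by omega)
      (by norm_num))
    exact ⟨m, by rw [Nat.ModEq, hm, Nat.mod_eq_of_lt (Nat.one_lt_pow (by omega) (by norm_num))]⟩
  have hr3 : ¬ 3 ∣ r' := by
    intro h
    have h1 := (hr'.of_dvd (dvd_pow_self 3 (by omega : b ≠ 0)))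
    have h2 : 3 ∣ r * r' := h.mul_left _
    unfold Nat.ModEq at h1
    omega
  have hψs : ∀ s i, c.ψ i ^ (p ^ E) ^ s = c.ψ i := by
    intro s i
    induction s with
    | zero => simp
    | succ s ih => rw [pow_succ, pow_mul, ih, hψ]
  have key : ∑ s ∈ range (3 ^ n), c.θ r' ^ (p ^ E) ^ s • (fun i => (c.ψ i * c.θ i) ^ p ^ (E * s)) =
      ((3 : k) ^ n * c.θ r') •
        fun i => if i ^ 2 ≡ r ^ 2 [MOD 3 ^ b] then c.ψ i * c.θ i else 0 := by
    funext i
    rw [Finset.sum_apply]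
    simp only [Pi.smul_apply, smul_eq_mul]
    by_cases hi : 3 ∣ i
    · have h0 : ∀ s, p ^ (E * s) ≠ 0 := fun s => pow_ne_zero _ (Fact.out : p.Prime).ne_zero
      simp [c.dvd hi, zero_pow (h0 _)]
    have h1 := c.trace ha hb hn hβ hP (y := i * r') (by
      rw [Nat.Prime.dvd_mul Nat.prime_three]; tauto)
    have h2 : (i * r') ^ 2 ≡ 1 [MOD 3 ^ b] ↔ i ^ 2 ≡ r ^ 2 [MOD 3 ^ b] := by
      have h4 : (r * r') ^ 2 ≡ 1 [MOD 3 ^ b] := by simpa using hr'.pow 2
      constructor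
      · intro h
        have h5 := (h4.mul_left (i ^ 2)).symm.trans
          (show i ^ 2 * (r * r') ^ 2 ≡ r ^ 2 * 1 [MOD 3 ^ b] by
            rw [show i ^ 2 * (r * r') ^ 2 = r ^ 2 * (i * r') ^ 2 by ring]
            exact h.mul_left _)
        simpa using h5
      · intro h
        rw [mul_pow] at h4 ⊢
        exact (h.mul_right _).trans h4
    rw [sum_congr rfl (g := fun s => c.ψ i * c.θ (i * r') ^ (p ^ E) ^ s) fun s _ => by
      rw [pow_mul, mul_pow, hψs, map_mul, mul_pow]; ring, ← mul_sum, h1]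
    simp only [h2]
    split_ifs
    · rw [map_mul]; ring
    · simp
  have h4 := congrArg (LF (k := k) Y) key
  rw [map_sum, map_smul, sum_eq_zero fun s _ => ?_] at h4
  · exact (mul_eq_zero.1 h4.symm).resolve_left (mul_ne_zero (pow_ne_zero _ h3) (c.ne hr3))
  · rw [map_smul]
    show _ • LZ _ Y = 0
    rw [LZ_frob, hY, zero_pow (pow_ne_zero _ (Fact.out : p.Prime).ne_zero), smul_zero]

/-- step two: pass to the values at the roots of `X ^ 3 ^ b = θ (1 + 3 ^ b)` -/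
theorem Ch.sym (hf : 0 < f) {a b : ℕ} (ha : 1 ≤ a) (hab : a ≤ b) (hn : n + 1 = a + b) {w : k}
    (hw : w ^ 3 ^ b = c.θ (1 + 3 ^ b)) {Y : ℤ[X]}
    (hY : ∀ r, ¬ 3 ∣ r →
      LZ (fun i => if i ^ 2 ≡ r ^ 2 [MOD 3 ^ b] then c.ψ i * c.θ i else 0) Y = 0) :
    LZ (fun i => (if i ≡ 1 [MOD 3 ^ a] then c.ψ i else 0) * w ^ i)
      (Y + expand ℤ (f * 3 ^ (n + 1) - 1) Y) = 0 := by
  set N1 := f * 3 ^ (n + 1) - 1 with hN1
  have hN : (N1 : ℤ) = f * 3 ^ (n + 1) - 1 := by
    rw [hN1, Nat.cast_sub (Nat.one_le_iff_ne_zero.2 (by positivity))]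
    push_cast
    ring
  have h31 : ∀ r, r ≡ 1 [MOD 3 ^ a] → ¬ 3 ∣ r := by
    intro r hr h
    have h1 := hr.of_dvd (dvd_pow_self 3 (by omega : a ≠ 0))
    unfold Nat.ModEq at h1
    omega
  let φ : ℕ → k := fun i => (if i ≡ 1 [MOD 3 ^ a] then c.ψ i else 0) * w ^ i
  let φp : ℕ → ℕ → k := fun r i => if (3 : ℤ) ^ b ∣ (i : ℤ) - r then c.ψ i * c.θ i else 0
  let co : ℕ → k := fun r => if r ≡ 1 [MOD 3 ^ a] then w ^ r * (c.θ r)⁻¹ else 0
  have h1 : ∀ i, φ i = ∑ r ∈ range (3 ^ b), co r * φp r i := by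
    intro i
    have hb0 : 0 < 3 ^ b := by positivity
    rw [sum_eq_single (i % 3 ^ b)]
    · obtain ⟨s, hs⟩ : ∃ s, i = i % 3 ^ b + 3 ^ b * s := ⟨i / 3 ^ b, (Nat.mod_add_div _ _).symm⟩
      generalize i % 3 ^ b = r at hs
      have h2 : (3 : ℤ) ^ b ∣ (i : ℤ) - r := ⟨s, by rw [hs]; push_cast; ring⟩
      have h3 : i ≡ r [MOD 3 ^ a] := by
        obtain ⟨e, rfl⟩ := Nat.exists_eq_add_of_le hab
        rw [hs, pow_add, mul_assoc]
        exact Nat.add_mul_mod_self_left _ _ _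
      simp only [φ, φp, co, h2, if_true]
      by_cases hr : r ≡ 1 [MOD 3 ^ a]
      · rw [if_pos hr, if_pos (h3.trans hr)]
        have hr0 := c.ne (h31 r hr)
        obtain ⟨t, ht⟩ := (Nat.modEq_iff_dvd' (Nat.pos_of_ne_zero
          (fun h : r = 0 => h31 r hr (by rw [h]; exact dvd_zero 3)))).1 hr.symm
        have h4 : c.θ i = c.θ r * c.θ (1 + 3 ^ b) ^ s := by
          rw [← map_pow, ← map_mul]
          refine c.hθ _ _ (Nat.ModEq.symm ?_)
          have h5 := pw b 1 s (n + 1) (by omega)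
          simp only [mul_one, one_mul] at h5
          refine (h5.mul_left r).trans ?_
          have h6 : r = 1 + 3 ^ a * t := by
            have : r ≠ 0 := fun h => h31 r hr (by rw [h]; exact dvd_zero 3)
            omega
          rw [show r * (1 + 3 ^ b * s) = i + 3 ^ (n + 1) * (t * s) by rw [hs, hn, h6]; ring]
          exact Nat.add_mul_mod_self_left _ _ _
        rw [h4, ← hw, ← pow_mul]
        nth_rewrite 2 [hs]
        rw [pow_add]
        field_simp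
      · rw [if_neg hr, if_neg fun h => hr (h3.symm.trans h), zero_mul, zero_mul]
    · intro r hr hne
      have h2 : ¬ (3 : ℤ) ^ b ∣ (i : ℤ) - r := by
        intro h
        have h3 : r ≡ i [MOD 3 ^ b] := by
          rw [Nat.modEq_iff_dvd]
          exact_mod_cast h
        exact hne (by rw [← h3, Nat.mod_eq_of_lt (mem_range.1 hr)])
      simp [φp, h2]
    · intro h
      exact absurd (mem_range.2 (Nat.mod_lt _ hb0)) h
  have h2 : ∀ r, ¬ 3 ∣ r → ∀ i, φp r i + φp r (i * N1) =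
      if i ^ 2 ≡ r ^ 2 [MOD 3 ^ b] then c.ψ i * c.θ i else 0 := by
    intro r hr i
    have h3 : (3 : ℤ) ^ b ∣ ((i * N1 : ℕ) : ℤ) - r ↔ (3 : ℤ) ^ b ∣ (i : ℤ) + r := by
      rw [Nat.cast_mul, hN, hn,
        show (i : ℤ) * (f * 3 ^ (a + b) - 1) - r = 3 ^ b * (i * f * 3 ^ a) - (i + r) by ring,
        dvd_sub_right (dvd_mul_right _ _)]
    have h4 : c.ψ (i * N1) * c.θ (i * N1) = c.ψ i * c.θ i := by
      rw [map_mul, map_mul]
      linear_combination (c.ψ i * c.θ i) * c.even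
    have h5 : ¬ ((3 : ℤ) ^ b ∣ (i : ℤ) - r ∧ (3 : ℤ) ^ b ∣ (i : ℤ) + r) := by
      rintro ⟨h6, h7⟩
      have h8 := (dvd_pow_self (3 : ℤ) (by omega : b ≠ 0)).trans h6
      have h9 := (dvd_pow_self (3 : ℤ) (by omega : b ≠ 0)).trans h7
      omega
    simp only [φp, h3, h4, sq_modEq hr]
    by_cases h6 : (3 : ℤ) ^ b ∣ (i : ℤ) - r <;> by_cases h7 : (3 : ℤ) ^ b ∣ (i : ℤ) + r <;>
      simp [h6, h7] at h5 ⊢
  have key : φ + (fun i => φ (i * N1)) = ∑ r ∈ range (3 ^ b), co r •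
      (φp r + fun i => φp r (i * N1)) := by
    funext i
    rw [Finset.sum_apply]
    simp only [Pi.add_apply, Pi.smul_apply, smul_eq_mul, mul_add, sum_add_distrib]
    rw [← h1, ← h1]
  have h3 := congrArg (LF (k := k) Y) key
  rw [map_add, map_sum, sum_eq_zero fun r _ => ?_] at h3
  · rw [map_add, LZ_expand]
    exact h3
  · rw [map_smul]
    by_cases hr : r ≡ 1 [MOD 3 ^ a]
    · rw [show (φp r + fun i => φp r (i * N1)) = _ from funext (h2 r (h31 r hr))]
      show _ • LZ _ Y = 0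
      rw [hY r (h31 r hr), smul_zero]
    · simp [co, hr]

/-- the nonvanishing theorem -/
theorem Ch.core [IsAlgClosed k] (p : ℕ) [Fact p.Prime] [CharP k p] (hp2 : p ≠ 2) (hp3 : p ≠ 3)
    (hf : 0 < f) (hf3 : ¬ 3 ∣ f) {a b β E : ℕ} (ha : 1 ≤ a) (hab : a ≤ b) (hn : n + 1 = a + b)
    (hβ : ¬ 3 ∣ β) (hP : p ^ E = 1 + 3 ^ a * (2 * β)) (hψ : ∀ i, c.ψ i ^ p ^ E = c.ψ i)
    (hbig : p + p * (f * 3 ^ a) < 3 ^ b) {Y q A B A' B' : ℤ[X]}
    (hq : (1 - X) ^ p = 1 - X ^ p + (p : ℤ[X]) * q)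
    (h1 : (1 - X ^ p) * Y = q + (X ^ (2 * (f * 3 ^ n)) + X ^ (f * 3 ^ n) + 1) * A +
      (p : ℤ[X]) * B)
    (h2 : expand ℤ (f * 3 ^ (n + 1) - 1) Y =
      Y + (X ^ (2 * (f * 3 ^ n)) + X ^ (f * 3 ^ n) + 1) * A' + (p : ℤ[X]) * B') :
    LZ (fun i => c.ψ i * c.θ i) Y ≠ 0 := by
  classical
  intro hY
  have hp : p.Prime := Fact.out
  have hne : ∀ l : ℕ, l.Prime → p ≠ l → (l : k) ≠ 0 := fun l hl hpl h =>
    hpl ((Nat.prime_dvd_prime_iff_eq hp hl).1 ((CharP.cast_eq_zero_iff k p l).1 h))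
  let g : ℕ → k := fun i => if i ≡ 1 [MOD 3 ^ a] then c.ψ i else 0
  have hg : ∀ i j, g (i + f * 3 ^ a * j) = g i := by
    intro i j
    have e1 : i + f * 3 ^ a * j ≡ i [MOD 3 ^ a] := by
      rw [show i + f * 3 ^ a * j = i + 3 ^ a * (f * j) by ring]
      exact Nat.add_mul_mod_self_left _ _ _
    have e2 : c.ψ (i + f * 3 ^ a * j) = c.ψ i := by
      refine c.hψ _ _ ?_
      rw [mul_assoc]
      exact Nat.add_mul_mod_self_left _ _ _
    simp only [g, e2]
    exact if_congr ⟨fun h => e1.symm.trans h, fun h => e1.trans h⟩ rfl rfl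
  obtain ⟨G, hG⟩ : ∃ G, f * 3 ^ a = G + 1 := ⟨f * 3 ^ a - 1, by
    have : 0 < f * 3 ^ a := by positivity
    omega⟩
  set H : ℤ[X] := ∑ i ∈ range (G + 1), (X ^ p) ^ i with hH
  have hqd : q.natDegree ≤ p := by
    have e1 : (C (p : ℤ) * q) = (1 - X) ^ p - (1 - X ^ p) := by
      rw [hq]; simp
    rw [← natDegree_C_mul (p := q) (a := (p : ℤ)) (by exact_mod_cast hp.ne_zero), e1]
    refine (natDegree_sub_le _ _).trans (max_le (natDegree_pow_le.trans ?_) ?_)
    · have : (1 - X : ℤ[X]).natDegree ≤ 1 := (natDegree_sub_le _ _).trans (by simp)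
      nlinarith
    · exact (natDegree_sub_le _ _).trans (by simp)
  have hq1 : q.coeff 1 = -1 := by
    have e1 := congrArg (fun Z : ℤ[X] => eval 0 (derivative Z)) hq
    obtain ⟨p', rfl⟩ : ∃ p', p = p' + 2 := ⟨p - 2, by have := hp.two_le; omega⟩
    simp only [derivative_pow, derivative_sub, derivative_one, derivative_X, derivative_add,
      derivative_mul, derivative_natCast, eval_mul, eval_add, eval_sub, eval_pow, eval_C,
      eval_one, eval_X, eval_zero, eval_natCast, ← coeff_zero_eq_eval_zero,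
      coeff_derivative] at e1
    have e2 : ((p' + 2 : ℕ) : ℤ) ≠ 0 := by positivity
    refine mul_left_cancel₀ e2 ?_
    simp at e1 ⊢
    linear_combination -e1
  have hdeg : (q * H).natDegree < 3 ^ b := by
    refine (natDegree_mul_le.trans (add_le_add hqd (natDegree_sum_le_of_forall_le _ _
      (n := p * (f * 3 ^ a)) fun i hi => ?_))).trans_lt hbig
    rw [← pow_mul, natDegree_X_pow]
    exact Nat.mul_le_mul_left _ (by rw [hG]; exact (mem_range.1 hi).le)
  let R : k[X] := ∑ i ∈ range ((q * H).natDegree + 1), monomial i (((q * H).coeff i : k) * g i)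
  have hl : c.θ (1 + 3 ^ b) ≠ 0 := c.ne (by
    obtain ⟨e, rfl⟩ : ∃ e, b = e + 1 := ⟨b - 1, by omega⟩
    omega)
  have hR : R = 0 := by
    refine eq_zero_of_natDegree_lt_card_of_eval_eq_zero' R
      (X ^ 3 ^ b - C (c.θ (1 + 3 ^ b))).roots.toFinset (fun w hw => ?_) ?_
    · have hw : w ^ 3 ^ b = c.θ (1 + 3 ^ b) := by
        have := (mem_roots'.1 (Multiset.mem_toFinset.1 hw)).2
        simpa [sub_eq_zero] using this
      obtain ⟨a', rfl⟩ := Nat.exists_eq_add_of_le ha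
      have hn' : n = b + a' := by omega
      have hρ : 1 + w ^ (f * 3 ^ n) + (w ^ (f * 3 ^ n)) ^ 2 = 0 := by
        obtain ⟨u, hu, hu3⟩ := lte b 1 a' (by omega)
        rw [← hn', mul_one, one_mul] at hu
        have e1 : w ^ (f * 3 ^ n) = c.θ (1 + 3 ^ n * (u * f)) := by
          rw [← c.hθ _ _ (pw n u f (n + 1) (by omega)), ← hu, map_pow, map_pow, ← hw, ← pow_mul,
            ← pow_mul, ← mul_assoc, ← pow_add, ← hn', mul_comm]
        rw [e1]
        exact c.cube (by omega) (by rw [Nat.Prime.dvd_mul Nat.prime_three]; tauto)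
      obtain ⟨j, hj⟩ : ∃ j, f * 3 ^ n = f * 3 ^ (1 + a') * j :=
        ⟨3 ^ (b - 1), by rw [mul_assoc, ← pow_add]; congr 2; omega⟩
      have hΦ := LZ_phi (φ := fun i => g i * w ^ i) (T := f * 3 ^ n) fun i => by
        have e1 : g (i + f * 3 ^ n) = g i := by rw [hj, hg]
        have e2 : g (i + 2 * (f * 3 ^ n)) = g i := by
          rw [hj, show 2 * (f * 3 ^ (1 + a') * j) = f * 3 ^ (1 + a') * (2 * j) by ring, hg]
        rw [e1, e2]
        linear_combination (g i * w ^ i) * hρ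
      have e3 := c.sym hf ha hab hn hw fun r hr => c.part p hp3 ha (by omega) hn hβ hP hψ hY hr
      rw [h2, map_add, map_add, map_add, hΦ, LZ_p, add_zero, add_zero, ← two_mul] at e3
      have e4 : LZ (fun i => g i * w ^ i) Y = 0 :=
        (mul_eq_zero.1 e3).resolve_left (by exact_mod_cast hne 2 Nat.prime_two hp2)
      have e5 : q * H = Y - X ^ (p * (G + 1)) * Y -
          (X ^ (2 * (f * 3 ^ n)) + X ^ (f * 3 ^ n) + 1) * (A * H) - (p : ℤ[X]) * (B * H) := by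
        have e6 := mul_neg_geom_sum (X ^ p : ℤ[X]) (G + 1)
        rw [← hH, ← pow_mul] at e6
        linear_combination (-H) * h1 + Y * e6
      have e7 : LZ (fun i => g i * w ^ i) (q * H) = 0 := by
        rw [e5, map_sub, map_sub, map_sub, hΦ, LZ_p, e4, LZ_X_pow_mul]
        have e8 : (fun i => g (i + p * (G + 1)) * w ^ (i + p * (G + 1))) =
            w ^ (p * (G + 1)) • fun i => g i * w ^ i := by
          funext i
          rw [← hG, mul_comm p, hg, Pi.smul_apply, smul_eq_mul]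
          ring
        have e9 := map_smul (LF (k := k) Y) (w ^ (p * (G + 1))) fun i => g i * w ^ i
        rw [← e8] at e9
        change LZ _ Y = _ • LZ _ Y at e9
        rw [e9, e4]
        simp
      rw [LZ_range _ _ (Nat.lt_succ_self _)] at e7
      rw [← e7, eval_finsetSum]
      exact sum_congr rfl fun i _ => by rw [eval_monomial]; ring
    · rw [Multiset.toFinset_card_of_nodup (nodup_roots (separable_X_pow_sub_C _ (by
        exact_mod_cast pow_ne_zero b (hne 3 Nat.prime_three hp3)) hl)),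
        IsAlgClosed.card_roots_eq_natDegree, natDegree_X_pow_sub_C]
      refine lt_of_le_of_lt (natDegree_sum_le_of_forall_le _ _ fun i hi => ?_) hdeg
      exact (natDegree_monomial_le _).trans (Nat.lt_succ_iff.1 (mem_range.1 hi))
  have hc1 : (q * H).coeff 1 = -1 := by
    rw [hH, geom_sum_succ, mul_add, mul_one, coeff_add, hq1, mul_left_comm,
      coeff_X_pow_mul', if_neg (by have := hp.two_le; omega), zero_add]
  have h3 := congrArg (fun Z : k[X] => Z.coeff 1) hR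
  simp only [R, finsetSum_coeff, coeff_monomial, sum_ite_eq', mem_range, coeff_zero] at h3
  rw [if_pos (Nat.lt_succ_of_le (le_natDegree_of_ne_zero (by rw [hc1]; norm_num))), hc1] at h3
  simp [g, Nat.ModEq] at h3

end Pool.Agent.P.MP_5347d0_lc.Dio
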