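import Pool.Agent.P.MP_5347d0_lc.DUnit

/-! The residues of the units congruent to one contain the real cyclotomic integers. -/

namespace Pool.Agent.P.MP_5347d0_lc.Dio

open Finset Polynomial

theorem exists_Ch {k : Type} [Field k] {f n : ℕ} (hf3 : ¬ 3 ∣ f) (hn : 1 ≤ n) (h3 : (3 : k) ≠ 0)
    (χ : ℕ →* k) (per : ∀ i j, i ≡ j [MOD f * 3 ^ (n + 1)] → χ i = χ j) (three : χ 3 = 0)
    (cube : χ 1 + χ (1 + f * 3 ^ n) + χ (1 + 2 * (f * 3 ^ n)) = 0)
    (even : χ (f * 3 ^ (n + 1) - 1) = 1) : ∃ c : Ch k f n, ∀ i, c.ψ i * c.θ i = χ i := by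
  have co : Nat.Coprime f (3 ^ (n + 1)) :=
    (((Nat.Prime.coprime_iff_not_dvd Nat.prime_three).2 hf3).symm).pow_right _
  have per' : ∀ i j, i ≡ j [MOD f] → i ≡ j [MOD 3 ^ (n + 1)] → χ i = χ j := fun i j h1 h2 =>
    per i j ((Nat.modEq_and_modEq_iff_modEq_mul co).1 ⟨h1, h2⟩)
  let r : ℕ → ℕ → ℕ := fun a b => Nat.chineseRemainder co a b
  have r1 : ∀ a b, r a b ≡ a [MOD f] := fun a b => (Nat.chineseRemainder co a b).2.1
  have r2 : ∀ a b, r a b ≡ b [MOD 3 ^ (n + 1)] := fun a b => (Nat.chineseRemainder co a b).2.2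
  have rm : ∀ a b a' b', χ (r (a * a') (b * b')) = χ (r a b) * χ (r a' b') := by
    intro a b a' b'
    rw [← map_mul]
    exact per' _ _ ((r1 _ _).trans ((r1 _ _).mul (r1 _ _)).symm)
      ((r2 _ _).trans ((r2 _ _).mul (r2 _ _)).symm)
  have rd : ∀ a, χ (r a a) = χ a := fun a => per' _ _ (r1 _ _) (r2 _ _)
  let ψ : ℕ →* k := ⟨⟨fun i => χ (r i 1), by rw [rd, map_one]⟩, fun a b => rm a 1 b 1⟩
  let θ : ℕ →* k := ⟨⟨fun i => χ (r 1 i), by rw [rd, map_one]⟩, fun a b => rm 1 a 1 b⟩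
  have hψθ : ∀ i, ψ i * θ i = χ i := fun i => by
    have := rm i 1 1 i
    rw [mul_one, one_mul, rd] at this
    exact this.symm
  have hψ : ∀ i j, i ≡ j [MOD f] → ψ i = ψ j := fun i j h =>
    per' _ _ ((r1 _ _).trans (h.trans (r1 _ _).symm)) ((r2 _ _).trans (r2 _ _).symm)
  have hθ : ∀ i j, i ≡ j [MOD 3 ^ (n + 1)] → θ i = θ j := fun i j h =>
    per' _ _ ((r1 _ _).trans (r1 _ _).symm) ((r2 _ _).trans (h.trans (r2 _ _).symm))
  refine ⟨⟨ψ, θ, hψ, hθ, ?_, fun β hβ h => ?_, (hψθ _).trans even⟩, hψθ⟩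
  · obtain ⟨j, hj⟩ : 3 ∣ r 1 3 :=
      ((r2 1 3).dvd_iff (dvd_pow_self 3 n.succ_ne_zero)).2 dvd_rfl
    change χ (r 1 3) = 0
    rw [hj, map_mul, three, zero_mul]
  · have h1 : ∀ s, θ (1 + 3 ^ n * s) = θ (1 + 3 ^ n * 1) ^ s := fun s => by
      rw [← map_pow, hθ _ _ (pw n 1 s (n + 1) (by omega)), one_mul]
    have h2 : θ (1 + 3 ^ n * 1) ^ 3 = 1 := by
      rw [← h1, ← pow_succ, hθ _ 1 (Nat.add_mod_right _ _), map_one]
    have h4 : θ (1 + 3 ^ n * 1) = 1 := by
      rw [h1, ← Nat.mod_add_div β 3, pow_add, pow_mul, h2, one_pow, mul_one] at h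
      have h5 : β % 3 = 1 ∨ β % 3 = 2 := by omega
      rcases h5 with h5 | h5 <;> rw [h5] at h
      · rwa [pow_one] at h
      · rwa [pow_succ, h, one_mul] at h2
    have h5 : ∀ s, χ (1 + s * (f * 3 ^ n)) = 1 := fun s => by
      rw [← hψθ, hψ _ 1 (by
        rw [show 1 + s * (f * 3 ^ n) = 1 + f * (s * 3 ^ n) by ring]
        exact Nat.add_mul_mod_self_left _ _ _),
        show 1 + s * (f * 3 ^ n) = 1 + 3 ^ n * (s * f) by ring, h1, h4, one_pow, map_one, one_mul]
    have h6 := h5 1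
    rw [one_mul] at h6
    rw [h6, h5 2, map_one] at cube
    exact h3 (by linear_combination cube)

/-- residues modulo `m` of the elements `y` such that `1 + m * y` is a unit -/
def Lam (m : ℕ) (R : Type) [CommRing R] : AddSubgroup R where
  carrier := {y | ∃ y' : R, IsUnit (1 + m * y') ∧ (m : R) ∣ y - y'}
  zero_mem' := ⟨0, by simp, by simp⟩
  add_mem' := by
    rintro a b ⟨a', ha, c, hc⟩ ⟨b', hb, d, hd⟩
    refine ⟨a' + b' + m * a' * b', ?_, c + d - a' * b', by linear_combination hc + hd⟩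
    rw [show 1 + m * (a' + b' + m * a' * b') = (1 + m * a') * (1 + m * b') by ring]
    exact ha.mul hb
  neg_mem' := by
    rintro a ⟨a', ha, c, hc⟩
    obtain ⟨v, hv⟩ := ha.exists_right_inv
    refine ⟨-(a' * v), ?_, -c - a' * a' * v, by linear_combination a' * hv - hc⟩
    rw [show 1 + m * -(a' * v) = v by linear_combination -hv]
    exact IsUnit.of_mul_eq_one_right _ hv

theorem Lam_map {m : ℕ} {R S : Type} [CommRing R] [CommRing S] (σ : R →+* S) {y : R}
    (h : y ∈ Lam m R) : σ y ∈ Lam m S := by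
  obtain ⟨y', h1, h2⟩ := h
  refine ⟨σ y', by simpa using h1.map σ, by simpa using map_dvd σ h2⟩

theorem Lam_mul {m : ℕ} {R : Type} [CommRing R] (y : R) : m * y ∈ Lam m R :=
  ⟨0, by simp, by simp⟩

theorem lam_main {f n m : ℕ} (hf : 0 < f) (hf3 : ¬ 3 ∣ f) (hm : m ≠ 0)
    (hco : Nat.Coprime m (f + 3).factorial) (hn : bnd f m ≤ n) {j : ℕ} (hj : ¬ 3 ∣ j) :
    zz (f * 3 ^ n) ^ j + (zz (f * 3 ^ n) ^ (f * 3 ^ (n + 1) - 1)) ^ j ∈
      Lam m (BB (f * 3 ^ n)) := by
  have hn1 : 1 ≤ n := by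
    have : 1 ≤ m := Nat.pos_of_ne_zero hm
    unfold bnd at hn
    omega
  have hm3 : Nat.Coprime 3 m :=
    (hco.coprime_dvd_right (Nat.dvd_factorial (by omega) (by omega))).symm
  set T := f * 3 ^ n with hT
  have hT0 : 0 < T := by positivity
  have hT3 : 3 ∣ T := (dvd_pow_self 3 (by omega)).mul_left f
  have hN : f * 3 ^ (n + 1) = 3 * T := by rw [hT]; ring
  set N := f * 3 ^ (n + 1) - 1 with hN1
  have hN3 : ¬ 3 ∣ N := by omega
  have hZ : zz T ^ N * zz T = 1 := by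
    rw [← pow_succ, show N + 1 = 3 * T by omega, zz_three]
  let s : ℕ →* AddMonoid.End (BB T) :=
    { toFun := fun b => if 3 ∣ b then 0 else (sg T b).toAddMonoidHom
      map_one' := by
        rw [if_neg (by norm_num)]
        refine AddMonoidHom.ext fun y => ?_
        obtain ⟨Y, rfl⟩ := zz_surj y
        exact (sg_aeval (by norm_num) Y).trans (by rw [pow_one]; rfl)
      map_mul' := fun a b => by
        by_cases ha : 3 ∣ a
        · rw [if_pos ha, if_pos (ha.mul_right b), zero_mul]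
        by_cases hb : 3 ∣ b
        · rw [if_pos hb, if_pos (hb.mul_left a), mul_zero]
        rw [if_neg ha, if_neg hb, if_neg (not_dvd_mul ha hb)]
        exact AddMonoidHom.ext fun y => (sg_mul ha hb y).symm }
  let A := MonoidAlgebra.lift ℤ (AddMonoid.End (BB T)) ℕ s
  let o := MonoidAlgebra.of ℤ ℕ
  have hA : ∀ φ, ∀ y ∈ Lam m (BB T), A φ y ∈ Lam m (BB T) := by
    intro φ y hy
    induction φ using MonoidAlgebra.induction_on with
    | of b =>
      rw [MonoidAlgebra.lift_of]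
      change (if 3 ∣ b then (0 : AddMonoid.End (BB T)) else (sg T b).toAddMonoidHom) y ∈ _
      split_ifs
      · exact zero_mem _
      · exact Lam_map _ hy
    | add a b ha hb => rw [map_add]; exact add_mem ha hb
    | smul r a ha => rw [map_smul]; exact zsmul_mem ha r
  let e : BB T := 3 * (zz T + zz T ^ N)
  have hw : ∀ i, A (o i) e = if 3 ∣ i then 0 else 3 * (zz T ^ i + (zz T ^ N) ^ i) := by
    intro i
    rw [MonoidAlgebra.lift_of]
    change (if 3 ∣ i then (0 : AddMonoid.End (BB T)) else (sg T i).toAddMonoidHom) e = _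
    split_ifs with h
    · rfl
    · change sg T i (3 * (zz T + zz T ^ N)) = _
      rw [map_mul, map_add, map_pow, sg_zz h, map_ofNat, pow_right_comm]
  let I : Ideal (MonoidAlgebra ℤ ℕ) :=
    { carrier := {φ | A φ e ∈ Lam m (BB T)}
      add_mem' := fun {a b} ha hb => by
        change A (a + b) e ∈ Lam m (BB T)
        rw [map_add]
        exact add_mem ha hb
      zero_mem' := by
        change A 0 e ∈ Lam m (BB T)
        rw [map_zero]
        exact zero_mem _
      smul_mem' := fun a b hb => by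
        change A (a * b) e ∈ Lam m (BB T)
        rw [map_mul A]
        exact hA a _ hb }
  by_cases hI : I = ⊤
  · have h1 : A (o j) e ∈ Lam m (BB T) := (hI ▸ Submodule.mem_top : o j ∈ I)
    rw [hw, if_neg hj] at h1
    obtain ⟨u, v, huv⟩ : IsCoprime ((3 : ℕ) : ℤ) m := hm3.cast
    have h2 := add_mem (zsmul_mem h1 u) (Lam_mul (m := m) (v * (zz T ^ j + (zz T ^ N) ^ j)))
    have h3 := congrArg (Int.cast : ℤ → BB T) huv
    push_cast at h3
    rwa [zsmul_eq_mul, show (u : BB T) * (3 * (zz T ^ j + (zz T ^ N) ^ j)) +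
      m * (v * (zz T ^ j + (zz T ^ N) ^ j)) = zz T ^ j + (zz T ^ N) ^ j by
        linear_combination (zz T ^ j + (zz T ^ N) ^ j) * h3] at h2
  exfalso
  obtain ⟨M, hM, hIM⟩ := Ideal.exists_le_maximal I hI
  let _ := Ideal.Quotient.field M
  let k := AlgebraicClosure (MonoidAlgebra ℤ ℕ ⧸ M)
  let π : MonoidAlgebra ℤ ℕ →+* k :=
    (algebraMap (MonoidAlgebra ℤ ℕ ⧸ M) k).comp (Ideal.Quotient.mk M)
  have hπ : ∀ φ, A φ e ∈ Lam m (BB T) → π φ = 0 := fun φ h => by
    rw [RingHom.comp_apply, Ideal.Quotient.eq_zero_iff_mem.2 (hIM h), map_zero]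
  have hπ' : ∀ φ φ', A φ e = A φ' e → π φ = π φ' := fun φ φ' h => by
    rw [← sub_eq_zero, ← map_sub]
    refine hπ _ ?_
    rw [map_sub]
    change A φ e - A φ' e ∈ _
    rw [h, sub_self]
    exact zero_mem _
  let χ : ℕ →* k := π.toMonoidHom.comp o
  have hmk : (m : k) = 0 := by
    rw [← map_natCast π]
    refine hπ _ ?_
    rw [map_natCast, AddMonoid.End.natCast_apply, nsmul_eq_mul]
    exact Lam_mul e
  have := ringChar.charP k
  have hpm := (CharP.cast_eq_zero_iff k (ringChar k) m).1 hmk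
  have : Fact (ringChar k).Prime := ⟨(CharP.char_is_prime_or_zero k _).resolve_right fun h =>
    hm (by rwa [h, zero_dvd_iff] at hpm)⟩
  have h3 : (3 : k) ≠ 0 := fun h => this.out.ne_one (Nat.eq_one_of_dvd_coprimes hm3
    ((CharP.cast_eq_zero_iff k (ringChar k) 3).1 (by exact_mod_cast h)) hpm)
  have hcube : ∀ i, χ i + χ (i + T) + χ (i + 2 * T) = 0 := by
    intro i
    refine Eq.trans (by rw [map_add π, map_add π]; rfl) (hπ (o i + o (i + T) + o (i + 2 * T)) ?_)
    rw [map_add, map_add]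
    change A (o i) e + A (o (i + T)) e + A (o (i + 2 * T)) e ∈ _
    rw [hw, hw, hw]
    by_cases hi : 3 ∣ i
    · rw [if_pos hi, if_pos (by omega), if_pos (by omega), add_zero, add_zero]
      exact zero_mem _
    · have h1 := cube_pow (zz_rel T) hN3
      rw [pow_right_comm _ T N] at h1
      rw [if_neg hi, if_neg (by omega), if_neg (by omega), show 3 * (zz T ^ i + (zz T ^ N) ^ i) +
        3 * (zz T ^ (i + T) + (zz T ^ N) ^ (i + T)) +
        3 * (zz T ^ (i + 2 * T) + (zz T ^ N) ^ (i + 2 * T)) = 0 by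
          linear_combination 3 * zz T ^ i * zz_rel T + 3 * (zz T ^ N) ^ i * h1]
      exact zero_mem _
  obtain ⟨c, hc⟩ := exists_Ch hf3 hn1 h3 χ (fun a b h => hπ' _ _ (by
      have h1 : zz T ^ a = zz T ^ b := by
        rw [hN] at h
        rw [pow_eq_pow_mod a (zz_three T), h, ← pow_eq_pow_mod b (zz_three T)]
      rw [hw, hw, pow_right_comm _ N a, pow_right_comm _ N b, h1]
      exact if_congr (h.dvd_iff ⟨T, hN⟩) rfl rfl))
    (hπ _ (by rw [hw, if_pos dvd_rfl]; exact zero_mem _)) (hcube 1)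
    ((hπ' _ (o 1) (by
      have h1 : (zz T ^ N) ^ N = zz T := by
        have h2 : (zz T ^ N) ^ N * zz T ^ N = 1 := by rw [← mul_pow, hZ, one_pow]
        linear_combination zz T * h2 - (zz T ^ N) ^ N * hZ
      rw [hw, hw, if_neg hN3, if_neg (by norm_num), h1, pow_one, pow_one, add_comm])).trans
      (map_one χ))
  obtain ⟨Y, hY, hY0⟩ := exists_unit (ringChar k) hf hf3 hm hpm hco hn c fun i => by
    rw [hc, hc, hc]; exact hcube i
  have h1 : ¬ 3 ∣ 1 + T := by omega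
  have h2 : ¬ 3 ∣ 1 + 2 * T := by omega
  let D : BB T → BB T := fun d => d + d - sg T (1 + T) d - sg T (1 + 2 * T) d
  have key : ∀ Y : ℤ[X], ∃ φ, π φ = LZ (fun i => c.ψ i * c.θ i) Y ∧
      A φ e = D (aeval (zz T) Y) + sg T N (D (aeval (zz T) Y)) := by
    intro Y
    induction Y using Polynomial.induction_on' with
    | add a b ha hb =>
      obtain ⟨φ, h3, h4⟩ := ha
      obtain ⟨φ', h5, h6⟩ := hb
      refine ⟨φ + φ', by rw [map_add, map_add, h3, h5], ?_⟩
      rw [map_add]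
      change A φ e + A φ' e = _
      simp only [h4, h6, D, map_add, map_sub]
      ring
    | monomial i a =>
      refine ⟨a • o i, by rw [LZ_monomial, hc, map_zsmul, zsmul_eq_mul]; rfl, ?_⟩
      have h3 : D (aeval (zz T) (monomial i a)) = a * if 3 ∣ i then 0 else 3 * zz T ^ i := by
        simp only [D, aeval_monomial, eq_intCast, map_mul, map_intCast, map_pow, sg_zz h1, sg_zz h2]
        split_ifs with hi
        · obtain ⟨l, rfl⟩ := hi
          have h4 : (zz T ^ (3 * T)) ^ l = 1 := by rw [zz_three, one_pow]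
          linear_combination -(a * zz T ^ (3 * l) * (2 + (zz T ^ (3 * T)) ^ l)) * h4
        · linear_combination -(a * zz T ^ i) * cube_pow (zz_rel T) hi
      rw [map_zsmul, h3]
      change a • A (o i) e = _
      rw [hw, zsmul_eq_mul]
      split_ifs
      · simp
      · rw [map_mul, map_mul, map_intCast, map_pow, sg_zz hN3, map_ofNat]
        ring
  obtain ⟨φ, h3, h4⟩ := key Y
  have h5 : aeval (zz T) Y ∈ Lam m (BB T) := ⟨_, hY, by rw [sub_self]; exact dvd_zero _⟩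
  have h6 : D (aeval (zz T) Y) ∈ Lam m (BB T) :=
    sub_mem (sub_mem (add_mem h5 h5) (Lam_map _ h5)) (Lam_map _ h5)
  exact hY0 (h3 ▸ hπ φ (h4 ▸ add_mem h6 (Lam_map _ h6)))

/-- the form used later -/
theorem lam_mem {R : Type} [CommRing R] {f n m : ℕ} (hf : 0 < f) (hf3 : ¬ 3 ∣ f) (hm : m ≠ 0)
    (hco : Nat.Coprime m (f + 3).factorial) (hn : bnd f m ≤ n) {z z' : R} (hz' : z * z' = 1)
    (hz : (z ^ (f * 3 ^ n)) ^ 2 + z ^ (f * 3 ^ n) + 1 = 0) {j : ℕ} (hj : ¬ 3 ∣ j) :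
    z ^ j + z' ^ j ∈ Lam m R := by
  obtain ⟨σ, hσ⟩ := exists_hom hz
  have h1 := Lam_map σ (lam_main hf hf3 hm hco hn hj)
  have h2 := congrArg σ (zz_three (f * 3 ^ n))
  have h3 : 0 < f * 3 ^ n := by positivity
  rw [map_pow, map_one, hσ, show 3 * (f * 3 ^ n) = f * 3 ^ (n + 1) - 1 + 1 by
    rw [pow_succ 3 n, ← mul_assoc f]; omega, pow_succ] at h2
  rwa [map_add, map_pow, map_pow, map_pow, hσ, show z ^ (f * 3 ^ (n + 1) - 1) = z' by
    linear_combination z' * h2 - z ^ (f * 3 ^ (n + 1) - 1) * hz'] at h1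

end Pool.Agent.P.MP_5347d0_lc.Dio
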