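import Pool.Agent.P.MP_5347d0_lc.DComp
import Pool.Agent.P.MP_5347d0_lc.DDefs

/-! The real cyclotomic integers form a Diophantine set. -/

namespace Pool.Agent.P.MP_5347d0_lc.Dio

open NumberField Finset Polynomial
open scoped ComplexConjugate

theorem root_int {z : ℂ} (h : ∃ n : ℕ, 0 < n ∧ z ^ n = 1) : IsIntegral ℤ z := by
  obtain ⟨n, hn, h⟩ := h
  exact IsIntegral.of_pow hn (h ▸ isIntegral_one)

theorem root_conj {z : ℂ} {n : ℕ} (h : z ^ (n + 1) = 1) : conj z = z ^ n := by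
  rw [← Complex.inv_eq_conj (Complex.norm_eq_one_of_pow_eq_one h n.succ_ne_zero)]
  exact inv_eq_of_mul_eq_one_left (by rwa [← pow_succ])

instance : Algebra.IsAlgebraic ℚ Qcyc :=
  IntermediateField.isAlgebraic_adjoin fun _ h => (root_int h).tower_top

theorem conj_mem {z : ℂ} (hz : z ∈ Qcyc) : conj z ∈ Qcyc := by
  have h : Qcyc ≤ Qcyc.comap (starRingEnd ℂ).toRatAlgHom := by
    refine IntermediateField.adjoin_le_iff.2 ?_
    rintro z ⟨n, hn, h⟩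
    exact IntermediateField.subset_adjoin ℚ _
      ⟨n, hn, by change conj z ^ n = 1; rw [← map_pow, h, map_one]⟩
  exact h hz

/-- complex conjugation -/
noncomputable def cQ : Qcyc →+* Qcyc :=
  ((starRingEnd ℂ).comp Qcyc.val.toRingHom).codRestrict Qcyc.toSubalgebra.toSubring
    fun z => conj_mem z.2

theorem cQ_comm (ψ : Qcyc →ₐ[ℚ] ℂ) (x : Qcyc) : ψ (cQ x) = conj (ψ x) := by
  have h : ψ.comp cQ.toRatAlgHom = (starRingEnd ℂ).toRatAlgHom.comp ψ := by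
    refine IntermediateField.adjoin_algHom_ext ℚ ?_
    rintro z ⟨n, hn, h⟩
    obtain ⟨n, rfl⟩ : ∃ j, n = j + 1 := ⟨n - 1, by omega⟩
    let w : Qcyc := ⟨z, IntermediateField.subset_adjoin ℚ _ ⟨n + 1, hn, h⟩⟩
    have h1 : w ^ (n + 1) = 1 := Subtype.ext h
    have h2 : cQ w = w ^ n := Subtype.ext (root_conj h)
    change ψ (cQ w) = conj (ψ w)
    rw [h2, map_pow, root_conj (n := n) (by rw [← map_pow, h1, map_one])]
  exact DFunLike.congr_fun h x

/-- the inclusion -/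
noncomputable def io : 𝓞 Qcyc →+* ℂ := Qcyc.val.toRingHom.comp (algebraMap (𝓞 Qcyc) Qcyc)

theorem io_inj : Function.Injective io :=
  Qcyc.val.toRingHom.injective.comp RingOfIntegers.coe_injective

/-- the setting -/
noncomputable def cjQ : Cj (𝓞 Qcyc) where
  σ := RingOfIntegers.mapRingHom cQ
  pt := Set.range fun ψ : Qcyc →ₐ[ℚ] ℂ => ψ.toRingHom.comp (algebraMap (𝓞 Qcyc) Qcyc)
  ne := ⟨_, Qcyc.val, rfl⟩
  inj := by
    rintro _ ⟨ψ, rfl⟩
    exact ψ.toRingHom.injective.comp RingOfIntegers.coe_injective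
  cj := by
    rintro _ ⟨ψ, rfl⟩ x
    exact cQ_comm ψ x
  small := fun β h => lemA β fun ψ => h _ ⟨ψ, rfl⟩

theorem io_cj (x : 𝓞 Qcyc) : io (cjQ.σ x) = conj (io x) := rfl

theorem lift_root {z : ℂ} (h : ∃ n : ℕ, 0 < n ∧ z ^ n = 1) : ∃ w, io w = z :=
  ⟨⟨⟨z, IntermediateField.subset_adjoin ℚ _ h⟩,
    (isIntegral_algHom_iff (Qcyc.val.restrictScalars ℤ) Subtype.val_injective).1 (root_int h)⟩, rfl⟩

theorem level {x : ℂ} (hx : x ∈ Qcyc) : ∃ N M : ℕ, N ≠ 0 ∧ M ≠ 0 ∧ ∀ (K : ℕ) (z : ℂ), K ≠ 0 →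
    N ∣ K → IsPrimitiveRoot z K → ∃ Y : ℤ[X], M * x = aeval z Y := by
  have h : x ∈ Algebra.adjoin ℚ {z : ℂ | ∃ n : ℕ, 0 < n ∧ z ^ n = 1} := by
    rw [← IntermediateField.adjoin_toSubalgebra_of_isAlgebraic
      (S := {z : ℂ | ∃ n : ℕ, 0 < n ∧ z ^ n = 1}) fun _ h => (root_int h).tower_top.isAlgebraic]
    exact hx
  clear hx
  induction h using Algebra.adjoin_induction with
  | mem x hx =>
    obtain ⟨n, hn, h⟩ := hx
    refine ⟨n, 1, hn.ne', one_ne_zero, ?_⟩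
    rintro _ z h0 ⟨j, rfl⟩ hz
    have : NeZero (n * j) := ⟨h0⟩
    obtain ⟨i, -, hi⟩ := hz.eq_pow_of_pow_eq_one (ξ := x) (by rw [pow_mul, h, one_pow])
    exact ⟨X ^ i, by simp [hi]⟩
  | algebraMap q =>
    refine ⟨1, q.den, one_ne_zero, q.den_nz, fun K z _ _ _ => ⟨C q.num, ?_⟩⟩
    have h := congrArg (Rat.cast : ℚ → ℂ) (Rat.den_mul_eq_num q)
    rw [Rat.cast_mul, Rat.cast_natCast, Rat.cast_intCast] at h
    simpa using h
  | add x y _ _ hx hy =>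
    obtain ⟨N, M, h1, h2, h3⟩ := hx
    obtain ⟨N', M', h4, h5, h6⟩ := hy
    refine ⟨N * N', M * M', mul_ne_zero h1 h4, mul_ne_zero h2 h5, fun K z h0 hK hz => ?_⟩
    obtain ⟨Y, hY⟩ := h3 K z h0 ((dvd_mul_right _ _).trans hK) hz
    obtain ⟨Y', hY'⟩ := h6 K z h0 ((dvd_mul_left _ _).trans hK) hz
    refine ⟨M' * Y + M * Y', ?_⟩
    rw [map_add, map_mul, map_mul, map_natCast, map_natCast, ← hY, ← hY', Nat.cast_mul]
    ring
  | mul x y _ _ hx hy =>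
    obtain ⟨N, M, h1, h2, h3⟩ := hx
    obtain ⟨N', M', h4, h5, h6⟩ := hy
    refine ⟨N * N', M * M', mul_ne_zero h1 h4, mul_ne_zero h2 h5, fun K z h0 hK hz => ?_⟩
    obtain ⟨Y, hY⟩ := h3 K z h0 ((dvd_mul_right _ _).trans hK) hz
    obtain ⟨Y', hY'⟩ := h6 K z h0 ((dvd_mul_left _ _).trans hK) hz
    refine ⟨Y * Y', ?_⟩
    rw [map_mul, ← hY, ← hY', Nat.cast_mul]
    ring

theorem exists_sqrt_two : ∃ s : 𝓞 Qcyc, s * s = 2 := by
  have hζ := Complex.isPrimitiveRoot_exp 8 (by norm_num)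
  obtain ⟨w, hw⟩ := lift_root ⟨8, by norm_num, hζ.pow_eq_one⟩
  rw [← hw] at hζ
  have h4 : io w ^ 4 = -1 :=
    (hζ.pow (by norm_num) (show 8 = 4 * 2 by norm_num)).eq_neg_one_of_two_right
  refine ⟨w + w ^ 7, io_inj ?_⟩
  rw [map_mul, map_add, map_pow, map_ofNat]
  linear_combination (io w ^ 10 - io w ^ 6 + 2 * io w ^ 4 + io w ^ 2 - 2) * h4

theorem solvable {x : 𝓞 Qcyc} (hx : cjQ.σ x = x) :
    ∃ y : Fin 31 → 𝓞 Qcyc, ∀ e ∈ eqs x y, e = 0 := by
  obtain ⟨r, hr⟩ := exists_sqrt_two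
  obtain ⟨N, M, hN, hM, h⟩ := level (x : Qcyc).2
  obtain ⟨s, f, hf3, rfl⟩ := Nat.exists_eq_pow_mul_and_not_dvd hN 3 (by norm_num)
  have hf : 0 < f := Nat.pos_of_ne_zero (right_ne_zero_of_mul hN)
  refine complete cjQ.σ hr (fun y hy => ?_) (fun y hy => ?_) hx hf hf3 hM fun n₀ => ?_
  · obtain ⟨a, ha, h1⟩ := (Algebra.IsIntegral.isIntegral (R := ℤ) y).isAlgebraic.exists_nonzero_dvd
      (mem_nonZeroDivisors_of_ne_zero hy)
    exact ⟨a.natAbs, Int.natAbs_ne_zero.2 ha,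
      h1.trans (map_dvd (algebraMap ℤ (𝓞 Qcyc)) (Int.dvd_natAbs.2 dvd_rfl))⟩
  · have h1 : y = 0 := by
      refine cjQ.small _ fun ψ _ => ?_
      have h2 := congrArg (fun z => ‖ψ z‖) (sub_eq_zero.1 hy)
      simp only [map_mul, map_pow, norm_mul, norm_pow, map_ofNat, map_one, norm_one,
        Complex.norm_ofNat] at h2
      by_contra h3
      nlinarith
    simp [h1] at hy
  · refine ⟨n₀ + s, le_self_add, ?_⟩
    have hT : 0 < f * 3 ^ (n₀ + s) := by positivity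
    have hd : 3 ^ s * f ∣ f * 3 ^ (n₀ + s) := ⟨3 ^ n₀, by ring⟩
    generalize f * 3 ^ (n₀ + s) = T at hT hd
    have hζ := Complex.isPrimitiveRoot_exp (3 * T) (by omega)
    obtain ⟨z, hz⟩ := lift_root ⟨3 * T, by omega, hζ.pow_eq_one⟩
    rw [← hz] at hζ
    obtain ⟨Y, hY⟩ := h T _ hT.ne' hd (hζ.pow (by omega) rfl)
    refine ⟨z, cjQ.σ z, io_inj ?_, rfl, io_inj ?_, Y, io_inj ?_⟩
    · rw [map_mul, io_cj, Complex.mul_conj', hζ.norm'_eq_one (by omega)]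
      simp
    · have h1 := (hζ.pow (by omega) (mul_comm 3 T)).geom_sum_eq_zero (by norm_num)
      simp only [sum_range_succ, range_zero, sum_empty] at h1
      simp only [map_add, map_pow, map_one, map_zero]
      linear_combination h1
    · rw [hom_aeval, map_pow, ← hY, map_mul, map_natCast]
      rfl

theorem no_cube (a b : 𝓞 Qcyc) (h : a ^ 3 = 2 * b ^ 3) : b = 0 := by
  refine cjQ.cube (fun a b h hb => ?_) a b h
  have hb' : (b : Qcyc) ≠ 0 := fun h0 => hb (RingOfIntegers.ext h0)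
  have h1 : ((a : Qcyc) / b) ^ 3 = algebraMap ℤ Qcyc 2 := by
    have h2 := congrArg (algebraMap (𝓞 Qcyc) Qcyc) h
    simp only [map_mul, map_pow, map_ofNat] at h2
    rw [div_pow, div_eq_iff (pow_ne_zero 3 hb'), map_ofNat]
    exact h2
  refine ⟨⟨(a : Qcyc) / b, IsIntegral.of_pow (by norm_num) (h1 ▸ isIntegral_algebraMap)⟩,
    RingOfIntegers.ext ?_⟩
  exact (mul_div_cancel₀ _ hb').symm

theorem main : ∃ (n : ℕ) (F : MvPolynomial (Option (Fin n)) ℤ), ∀ a : 𝓞 Qcyc,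
    ((algebraMap (𝓞 Qcyc) Qcyc a : Qcyc) : ℂ).im = 0 ↔
      ∃ y : Fin n → 𝓞 Qcyc, MvPolynomial.aeval (fun o : Option (Fin n) => o.elim a y) F = 0 := by
  refine ⟨31, comb (eqs (MvPolynomial.X none) fun i => MvPolynomial.X (some i)), fun a => ?_⟩
  have h1 : ∀ y : Fin 31 → 𝓞 Qcyc, MvPolynomial.aeval (fun o : Option (Fin 31) => o.elim a y)
      (comb (eqs (MvPolynomial.X none : MvPolynomial (Option (Fin 31)) ℤ)
        fun i => MvPolynomial.X (some i))) = comb (eqs a y) := by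
    intro y
    have h2 := comb_map (MvPolynomial.aeval (R := ℤ)
      (fun o : Option (Fin 31) => o.elim a y)).toRingHom
      (eqs (MvPolynomial.X none) fun i => MvPolynomial.X (some i))
    rw [eqs_map] at h2
    simpa using h2
  simp only [h1, comb_eq_zero no_cube]
  rw [← Complex.conj_eq_iff_im]
  exact ⟨fun h => solvable (io_inj h), fun ⟨y, h⟩ => congrArg io (cjQ.sound h)⟩

end Pool.Agent.P.MP_5347d0_lc.Dio
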