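import Pool.Agent.P.MP_5347d0_lc.DLam

/-! The system of equations and its soundness. -/

namespace Pool.Agent.P.MP_5347d0_lc.Dio

open NumberField IntermediateField Finset
open scoped ComplexConjugate

section ring

variable {R : Type} [CommRing R]

/-- three equations that force `z` to be real and are solvable for natural `z` -/
def r1 (z k w u v s t : R) : List R :=
  [(1 + 3 * ((4 * z ^ 2 - 1) * k)) * u - 1,
    (1 + 3 * ((4 * z ^ 2 - 1) * k * (z - 3 * ((4 * z ^ 2 - 1) * k) * w))) * v - 1,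
    3 * ((4 * z ^ 2 - 1) * k) * s - (2 * t - 1) * (3 * t - 1)]

/-- the remaining equations -/
def r2 (x M t m s k y u v w a b s' t' : R) : List R :=
  [m - (t ^ 2 + 4) * s, m - (4 * (M * x) ^ 2 - 1) * k, y * u + m * v - 1, (1 + m * y) * a - 1,
    (1 + m * (y * (M * x) - m * w)) * b - 1, M * m * s' - (2 * t' - 1) * (3 * t' - 1)]

/-- the whole system -/
def eqs (x : R) (y : Fin 31 → R) : List R :=
  r1 (y 0) (y 1) (y 2) (y 3) (y 4) (y 5) (y 6) ++ r1 (y 7) (y 8) (y 9) (y 10) (y 11) (y 12) (y 13) ++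
    r1 (y 14) (y 15) (y 16) (y 17) (y 18) (y 19) (y 20) ++
    r2 x (y 0) (y 7) (y 14) (y 21) (y 22) (y 23) (y 24) (y 25) (y 26) (y 27) (y 28) (y 29) (y 30)

/-- one expression for a list -/
def comb (l : List R) : R := l.foldr (fun a b => a ^ 3 - 2 * b ^ 3) 0

theorem comb_map {S : Type} [CommRing S] (σ : R →+* S) (l : List R) :
    σ (comb l) = comb (l.map σ) := by
  induction l with
  | nil => simp [comb]
  | cons a l ih =>
    simp only [comb, List.foldr_cons, List.map_cons, map_sub, map_mul, map_pow, map_ofNat] at ih ⊢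
    rw [ih]

theorem eqs_map {S : Type} [CommRing S] (σ : R →+* S) (x : R) (y : Fin 31 → R) :
    (eqs x y).map σ = eqs (σ x) fun i => σ (y i) := by
  simp only [eqs, r1, r2, List.map_append, List.map_cons, List.map_nil, map_sub, map_mul, map_pow,
    map_add, map_one, map_ofNat]

theorem comb_eq_zero [IsDomain R] (h : ∀ a b : R, a ^ 3 = 2 * b ^ 3 → b = 0) (l : List R) :
    comb l = 0 ↔ ∀ a ∈ l, a = 0 := by
  induction l with
  | nil => simp [comb]
  | cons a l ih =>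
    rw [List.forall_mem_cons, ← ih]
    change a ^ 3 - 2 * comb l ^ 3 = 0 ↔ _
    refine ⟨fun h1 => ?_, fun h1 => by simp [h1.1, h1.2]⟩
    have h2 := h _ _ (sub_eq_zero.1 h1)
    rw [h2] at h1
    exact ⟨by simpa using h1, h2⟩

theorem nz_int {N : ℕ} (hN : N ≠ 0) : ∃ s t : ℤ, N * s = (2 * t - 1) * (3 * t - 1) := by
  obtain ⟨a, B, hB, rfl⟩ := Nat.exists_eq_pow_mul_and_not_dvd hN 2 (by norm_num)
  have h1 : Nat.Coprime 2 B := (Nat.Prime.coprime_iff_not_dvd Nat.prime_two).2 hB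
  obtain ⟨α, α', h2⟩ : IsCoprime ((2 * 2 ^ a : ℕ) : ℤ) B := (h1.mul_left (h1.pow_left a)).cast
  obtain ⟨β, β', h3⟩ : IsCoprime ((3 * B : ℕ) : ℤ) (2 ^ a : ℕ) :=
    ((Nat.Coprime.mul_left (by norm_num) h1.symm).pow_right a).cast
  refine ⟨(2 * β - α') * (3 * α - β'), 2 ^ a * α + B * β, ?_⟩
  push_cast at h2 h3 ⊢
  rw [show 2 * (2 ^ a * α + B * β) - 1 = B * (2 * β - α') by linear_combination h2,
    show 3 * (2 ^ a * α + B * β) - 1 = 2 ^ a * (3 * α - β') by linear_combination h3]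
  ring

theorem nz_of_dvd {y : R} {N : ℤ} (hN : N ≠ 0) (h : y ∣ N) :
    ∃ s t : R, y * s - (2 * t - 1) * (3 * t - 1) = 0 := by
  obtain ⟨s, t, h1⟩ := nz_int (Int.natAbs_ne_zero.2 hN)
  obtain ⟨c, hc⟩ := h.trans (map_dvd (Int.castRingHom R) (Int.dvd_natAbs.2 dvd_rfl))
  have h2 := congrArg (Int.castRingHom R) h1
  simp only [map_mul, map_sub, map_one, map_ofNat] at h2
  exact ⟨c * Int.castRingHom R s, Int.castRingHom R t, by
    linear_combination h2 - Int.castRingHom R s * hc⟩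

theorem r1_nat {r : R} (hr : r * r = 2) (n : ℕ) :
    ∃ k w u v s t : R, ∀ e ∈ r1 (n : R) k w u v s t, e = 0 := by
  obtain ⟨K, hK⟩ : ∃ K : ℤ, K = 3 * (4 * n ^ 2 - 1) := ⟨_, rfl⟩
  have hK0 : K ≠ 0 := by omega
  obtain ⟨x, y, hxy, hy⟩ := Pell.exists_of_not_isSquare (d := 2 * K ^ 2) (by positivity) (by
    rintro ⟨j, hj⟩
    obtain ⟨i, rfl⟩ : K ∣ j := (Int.pow_dvd_pow_iff two_ne_zero).1 ⟨2, by linear_combination -hj⟩
    exact Int.prime_two.not_isSquare ⟨i, mul_left_cancel₀ (pow_ne_zero 2 hK0)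
      (by linear_combination hj)⟩)
  have h1 := congrArg (Int.cast : ℤ → R) hxy
  have h2 := congrArg (Int.cast : ℤ → R) hK
  push_cast at h1 h2
  obtain ⟨κ, hκ⟩ : ∃ κ : R, κ = 2 * y * (2 * K * y + x * r) := ⟨_, rfl⟩
  have h3 : (1 + K * κ) * (x - K * y * r) ^ 2 = 1 := by
    rw [show 1 + K * κ = (x + K * y * r) ^ 2 by
      rw [hκ]; linear_combination -h1 - (K * y) ^ 2 * hr, ← mul_pow,
      show (x + K * y * r) * (x - K * y * r) = 1 by linear_combination h1 - (K * y) ^ 2 * hr,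
      one_pow]
  obtain ⟨s, t, h4⟩ := nz_of_dvd (y := K * κ) (N := -4 * y * K) (by simp [hy, hK0])
    ⟨2 * K * y - x * r, by
      push_cast
      rw [hκ]
      linear_combination 4 * K * y * h1 + 2 * K * y * x ^ 2 * hr⟩
  obtain ⟨w, hw⟩ : K * κ ∣ n - ∑ i ∈ range n, (1 + K * κ) ^ i := by
    rw [show (n : R) = ∑ _i ∈ range n, 1 by simp, ← sum_sub_distrib]
    refine dvd_sum fun i _ => ?_
    have h5 := sub_dvd_pow_sub_pow (1 + K * κ) 1 i
    rw [add_sub_cancel_left, one_pow] at h5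
    exact dvd_sub_comm.1 h5
  have h5 := mul_geom_sum (1 + K * κ) n
  refine ⟨κ, w, (x - K * y * r) ^ 2, ((x - K * y * r) ^ 2) ^ n, s, t, ?_⟩
  simp only [r1, List.forall_mem_cons, List.not_mem_nil, false_imp_iff, implies_true, and_true]
  have h6 : 3 * ((4 * (n : R) ^ 2 - 1) * κ) = K * κ := by rw [h2]; ring
  refine ⟨by rw [h6, h3, sub_self], ?_, by rw [h6, h4]⟩
  rw [← mul_assoc, h6, show 1 + K * κ * (n - K * κ * w) = (1 + K * κ) ^ n by
    linear_combination h5 + K * κ * hw, ← mul_pow, h3, one_pow, sub_self]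

theorem strip {y : R} {F : ℕ} (hy : IsCoprime y F) (N : ℕ) (hN : N ≠ 0) (h : y ∣ N) :
    ∃ N' : ℕ, N' ≠ 0 ∧ Nat.Coprime N' F ∧ y ∣ N' := by
  induction N using Nat.strong_induction_on with
  | h N ih =>
    by_cases hc : Nat.Coprime N F
    · exact ⟨N, hN, hc, h⟩
    obtain ⟨l, hl, ⟨N', rfl⟩, h2⟩ := Nat.Prime.not_coprime_iff_dvd.1 hc
    have h0 : N' ≠ 0 := right_ne_zero_of_mul hN
    refine ih N' (lt_mul_left (Nat.pos_of_ne_zero h0) hl.one_lt) h0 ?_
    rw [Nat.cast_mul] at h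
    exact (hy.of_isCoprime_of_dvd_right (Nat.cast_dvd_cast h2)).dvd_of_dvd_mul_left h

end ring

variable {L : Type} [Field L] [CharZero L] [Algebra.IsAlgebraic ℚ L]

theorem lemA (β : 𝓞 L) (h : ∀ ψ : L →ₐ[ℚ] ℂ, ‖ψ (β : L)‖ < 1) : β = 0 := by
  by_contra hβ
  have : NumberField ℚ⟮(β : L)⟯ :=
    { to_charZero := inferInstance
      to_finiteDimensional :=
        IntermediateField.adjoin.finiteDimensional (Algebra.IsIntegral.isIntegral _) }
  let b : ℚ⟮(β : L)⟯ := AdjoinSimple.gen ℚ (β : L)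
  have hb0 : b ≠ 0 := fun h0 =>
    hβ (RingOfIntegers.ext (show (b : L) = 0 by rw [h0]; rfl))
  have hbi : IsIntegral ℤ b :=
    (isIntegral_algHom_iff ((ℚ⟮(β : L)⟯).val.restrictScalars ℤ) Subtype.val_injective).1
      β.isIntegral_coe
  have hlt : ∀ φ : ℚ⟮(β : L)⟯ →+* ℂ, ‖φ b‖ < 1 := by
    intro φ
    have : Algebra.IsAlgebraic ℚ⟮(β : L)⟯ L := Algebra.IsAlgebraic.tower_top (K := ℚ) _
    obtain ⟨ψ, hψ⟩ := IsAlgClosed.surjective_domRestrict_of_isAlgebraic (K := ℚ)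
      (L := ℚ⟮(β : L)⟯) (M := ℂ) (E := L) φ.toRatAlgHom
    have h1 : ψ (β : L) = φ b := congrArg (fun g : ℚ⟮(β : L)⟯ →ₐ[ℚ] ℂ => g b) hψ
    exact h1 ▸ h ψ
  obtain ⟨n, hn, hpow⟩ := NumberField.Embeddings.pow_eq_one_of_norm_le_one _ ℂ hb0 hbi
    (fun φ => (hlt φ).le)
  let φ : ℚ⟮(β : L)⟯ →+* ℂ := Classical.choice inferInstance
  have h1 : ‖φ b‖ ^ n = 1 := by rw [← norm_pow, ← map_pow, hpow, map_one, norm_one]
  exact absurd h1 (pow_lt_one₀ (norm_nonneg _) (hlt φ) hn.ne').ne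

/-- the abstract setting: an integral domain with a conjugation and complex points -/
structure Cj (O : Type) [CommRing O] where
  σ : O →+* O
  pt : Set (O →+* ℂ)
  ne : pt.Nonempty
  inj : ∀ ψ ∈ pt, Function.Injective ψ
  cj : ∀ ψ ∈ pt, ∀ x, ψ (σ x) = conj (ψ x)
  small : ∀ β, (∀ ψ ∈ pt, ‖ψ β‖ < 1) → β = 0

variable {O : Type} [CommRing O] [IsDomain O] (c : Cj O)

omit [IsDomain O] in
theorem Cj.unit {q a v : O} (hq : c.σ q = q) (hq2 : ∀ ψ ∈ c.pt, 2 < ‖ψ q‖)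
    (hv : (1 + q * a) * v - 1 = 0) : c.σ a = a := by
  have hv' := congrArg c.σ hv
  simp only [map_sub, map_mul, map_add, map_one, map_zero, hq] at hv'
  have hβ : (a - c.σ a) * c.σ v = 0 := by
    refine c.small _ fun ψ hψ => ?_
    have h1 : (1 + q * a) * c.σ v - 1 = q * ((a - c.σ a) * c.σ v) := by linear_combination hv'
    have h2 := congrArg (fun z => ‖ψ z‖) h1
    have h3 := congrArg (fun z => ‖ψ z‖) (sub_eq_zero.1 hv)
    simp only [map_mul ψ, norm_mul, map_one, norm_one] at h3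
    have h4 := norm_sub_le (ψ ((1 + q * a) * c.σ v)) 1
    simp only [map_sub ψ _ 1, map_one, map_mul ψ q, norm_mul] at h2
    rw [h2, map_mul ψ (1 + q * a), norm_mul, c.cj ψ hψ v, Complex.norm_conj, h3, norm_one] at h4
    by_contra h5
    nlinarith [hq2 ψ hψ]
  linear_combination (a - c.σ a) * hv' - (1 + q * c.σ a) * hβ

omit [IsDomain O] in
theorem Cj.core {z : O} (h : 4 * z ^ 2 - 1 ∣ z - c.σ z) : c.σ z = z := by
  obtain ⟨β, hβ⟩ := h
  by_cases h0 : 4 * z ^ 2 - 1 = 0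
  · rw [h0, zero_mul] at hβ
    exact (sub_eq_zero.1 hβ).symm
  have h1 : β = 0 := by
    refine c.small _ fun ψ hψ => ?_
    have h2 : 0 < ‖ψ (4 * z ^ 2 - 1)‖ := norm_pos_iff.2 ((map_ne_zero_iff ψ (c.inj ψ hψ)).2 h0)
    have h3 := congrArg (fun z => ‖ψ z‖) hβ
    simp only [map_mul ψ _ β, norm_mul, map_sub ψ z, c.cj ψ hψ] at h3
    have h4 : (2 * ‖ψ z - conj (ψ z)‖) ^ 2 ≤ ‖ψ (4 * z ^ 2 - 1)‖ ^ 2 := by
      rw [mul_pow, Complex.sq_norm, Complex.sq_norm, map_sub ψ, map_mul ψ, map_pow ψ, map_one,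
        map_ofNat]
      simp only [Complex.normSq_apply, pow_two, Complex.sub_re, Complex.sub_im, Complex.conj_re,
        Complex.conj_im, Complex.mul_re, Complex.mul_im, Complex.re_ofNat, Complex.im_ofNat,
        Complex.one_re, Complex.one_im]
      nlinarith [sq_nonneg (4 * ((ψ z).re ^ 2 + (ψ z).im ^ 2) - 1)]
    have h5 := (pow_le_pow_iff_left₀ (by positivity) h2.le two_ne_zero).1 h4
    by_contra h6
    nlinarith
  rw [h1, mul_zero] at hβ
  exact (sub_eq_zero.1 hβ).symm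

include c in
theorem Cj.nz {y s t : O} (h : y * s - (2 * t - 1) * (3 * t - 1) = 0) : y ≠ 0 := by
  rintro rfl
  have h1 : ∀ n : ℕ, 2 ≤ n → (n : O) * t - 1 ≠ 0 := by
    intro n hn h2
    have h3 : t = 0 := by
      refine c.small _ fun ψ _ => ?_
      have h3 := congrArg (fun z => ‖ψ z‖) (sub_eq_zero.1 h2)
      simp only [map_mul, norm_mul, map_natCast, Complex.norm_natCast, map_one, norm_one] at h3
      have h4 : (2 : ℝ) ≤ n := by exact_mod_cast hn
      by_contra h5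
      nlinarith
    simp [h3] at h2
  rw [zero_mul, zero_sub, neg_eq_zero, mul_eq_zero] at h
  rcases h with h | h
  · exact h1 2 le_rfl (by exact_mod_cast h)
  · exact h1 3 (by norm_num) (by exact_mod_cast h)

theorem Cj.r1 {z k w u v s t : O} (h : ∀ e ∈ r1 z k w u v s t, e = 0) : c.σ z = z := by
  simp only [Dio.r1, List.forall_mem_cons] at h
  obtain ⟨h1, h2, h3, -⟩ := h
  have h4 : ∀ ψ ∈ c.pt, 2 < ‖ψ 3‖ := fun ψ _ => by rw [map_ofNat]; norm_num
  have h5 := c.unit (map_ofNat _ 3) h4 h1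
  have h6 := c.unit (map_ofNat _ 3) h4 h2
  have h7 : (4 * z ^ 2 - 1) * k ≠ 0 := right_ne_zero_of_mul (c.nz h3)
  rw [map_mul, h5, map_sub, map_mul, map_mul, h5, map_ofNat] at h6
  exact c.core ⟨3 * k * (w - c.σ w), by linear_combination -mul_left_cancel₀ h7 h6⟩

theorem Cj.sound {x : O} {y : Fin 31 → O} (h : ∀ e ∈ eqs x y, e = 0) : c.σ x = x := by
  simp only [eqs, List.forall_mem_append] at h
  obtain ⟨⟨⟨hM, ht⟩, hm⟩, h⟩ := h
  have hM := c.r1 hM
  have ht := c.r1 ht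
  have hm := c.r1 hm
  simp only [r2, List.forall_mem_cons] at h
  obtain ⟨h1, h2, h3, h4, h5, h6, -⟩ := h
  generalize y 0 = M at *
  generalize y 7 = t at *
  generalize y 14 = m at *
  have h0 := c.nz h6
  have hq : c.σ (t ^ 2 + 4) = t ^ 2 + 4 := by rw [map_add, map_pow, ht, map_ofNat]
  have hq2 : ∀ ψ ∈ c.pt, 2 < ‖ψ (t ^ 2 + 4)‖ := by
    intro ψ hψ
    have e1 := c.cj ψ hψ t
    rw [ht, eq_comm, Complex.conj_eq_iff_im] at e1
    refine lt_of_lt_of_le ?_ (Complex.re_le_norm _)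
    rw [map_add, map_pow, map_ofNat]
    simp only [pow_two, Complex.add_re, Complex.mul_re, e1, Complex.re_ofNat]
    nlinarith [sq_nonneg (ψ t).re]
  have key : ∀ a v, (1 + m * a) * v - 1 = 0 → c.σ a = a := by
    intro a v hv
    have e1 := c.unit (a := y 21 * a) (v := v) hq hq2 (by linear_combination hv - a * v * h1)
    have e2 := congrArg c.σ (show m * a = (t ^ 2 + 4) * (y 21 * a) by linear_combination a * h1)
    rw [map_mul, map_mul c.σ (t ^ 2 + 4), hq, e1, hm] at e2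
    exact mul_left_cancel₀ (right_ne_zero_of_mul h0) (by linear_combination e2 - a * h1)
  have e1 := key _ _ h4
  have e2 := key _ _ h5
  rw [map_sub, map_mul, map_mul c.σ m, e1, hm] at e2
  have e3 := c.core (z := M * x) ⟨y 22 * (y 24 * (y 26 - c.σ (y 26)) +
    y 25 * (M * x - c.σ (M * x))), by
      linear_combination (y 24 * (y 26 - c.σ (y 26)) + y 25 * (M * x - c.σ (M * x))) * h2 -
        (M * x - c.σ (M * x)) * h3 - y 24 * e2⟩
  rw [map_mul, hM] at e3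
  exact mul_left_cancel₀ (left_ne_zero_of_mul h0) e3

end Pool.Agent.P.MP_5347d0_lc.Dio
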