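import Mathlib

/-! The logarithmic derivative of Frobenius modulo the square of a prime. -/

namespace Pool.Agent.P.MP_5347d0_lc.Dio

open Finset Polynomial

variable {B : Type} [CommRing B]

/-- the Frobenius congruence -/
theorem frob_cong {p : ℕ} (hp : p.Prime) (z : B) (Y : ℤ[X]) :
    (p : B) ∣ aeval z Y ^ p - aeval (z ^ p) Y := by
  induction Y using Polynomial.induction_on' with
  | add a b ha hb =>
    obtain ⟨r, hr⟩ := exists_add_pow_prime_eq hp (aeval z a) (aeval z b)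
    rw [map_add, map_add, hr, show aeval z a ^ p + aeval z b ^ p + p * aeval z a * aeval z b * r -
      (aeval (z ^ p) a + aeval (z ^ p) b) = (aeval z a ^ p - aeval (z ^ p) a) +
        (aeval z b ^ p - aeval (z ^ p) b) + p * (aeval z a * aeval z b * r) by ring]
    exact (ha.add hb).add (dvd_mul_right _ _)
  | monomial i a =>
    have : Fact p.Prime := ⟨hp⟩
    obtain ⟨c, hc⟩ : (p : ℤ) ∣ a ^ p - a := by
      rw [← ZMod.intCast_zmod_eq_zero_iff_dvd]
      push_cast
      rw [ZMod.pow_card, sub_self]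
    have h1 : (a : B) ^ p - a = p * c := by exact_mod_cast congrArg (Int.cast : ℤ → B) hc
    refine ⟨c * (z ^ i) ^ p, ?_⟩
    simp only [aeval_monomial, algebraMap_int_eq, eq_intCast]
    rw [mul_pow, ← pow_mul z p i, mul_comm p i, pow_mul]
    linear_combination (z ^ i) ^ p * h1

/-- `y ^ p = τ y * (1 + p * d)` modulo `p ^ 2` -/
def Rel (p : ℕ) (τ : B →+* B) (y d : B) : Prop := (p : B) * p ∣ y ^ p - τ y * (1 + p * d)

variable {p : ℕ} {τ : B →+* B}

theorem Rel.mul {y y' d d' : B} (h : Rel p τ y d) (h' : Rel p τ y' d') :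
    Rel p τ (y * y') (d + d') := by
  obtain ⟨a, ha⟩ := h
  obtain ⟨b, hb⟩ := h'
  refine ⟨a * y' ^ p + τ y * (1 + p * d) * b + τ y * τ y' * d * d', ?_⟩
  rw [mul_pow, map_mul]
  linear_combination y' ^ p * ha + τ y * (1 + p * d) * hb

theorem Rel.pow {y d : B} (h : Rel p τ y d) (j : ℕ) : Rel p τ (y ^ j) (j * d) := by
  induction j with
  | zero => exact ⟨0, by simp⟩
  | succ j ih =>
    rw [pow_succ, Nat.cast_succ, add_mul, one_mul]
    exact ih.mul h

theorem Rel.map {y d : B} (h : Rel p τ y d) (σ : B →+* B) (hσ : σ (τ y) = τ (σ y)) :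
    Rel p τ (σ y) (σ d) := by
  have h1 := map_dvd σ h
  simpa only [Rel, map_mul, map_sub, map_pow, map_add, map_one, map_natCast, hσ] using h1

theorem Rel.ex {y : B} (hy : IsCoprime y p) (h : (p : B) ∣ y ^ p - τ y) : ∃ d, Rel p τ y d := by
  obtain ⟨c, hc⟩ := h
  obtain ⟨u, v, huv⟩ := hy.map τ
  rw [map_natCast] at huv
  exact ⟨u * c, c * v, by linear_combination hc - p * c * huv⟩

theorem Rel.uniq (htf : ∀ a : B, p * a = 0 → a = 0) {y d d' : B} (hy : IsCoprime y p)
    (h : Rel p τ y d) (h' : Rel p τ y d') : (p : B) ∣ d - d' := by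
  obtain ⟨a, ha⟩ := h
  obtain ⟨b, hb⟩ := h'
  have h1 := hy.map τ
  rw [map_natCast] at h1
  refine h1.symm.dvd_of_dvd_mul_left ⟨b - a, sub_eq_zero.1 (htf _ ?_)⟩
  linear_combination hb - ha

theorem pow_step (hp : Odd p) {s : B} (hs : (p : B) ∣ s) (d : B) :
    ∃ c, (1 + s * d) ^ p = 1 + p * s * (d + p * c) := by
  obtain ⟨t, rfl⟩ := hs
  obtain ⟨c, hc⟩ := odd_sq_dvd_geom_sum₂_sub (R := B) (a := 1) (b := t * d) hp
  simp only [one_pow, mul_one] at hc
  have h1 := mul_geom_sum (1 + p * (t * d)) p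
  refine ⟨c * d, ?_⟩
  rw [mul_assoc]
  linear_combination (p * (t * d)) * hc - h1

end Pool.Agent.P.MP_5347d0_lc.Dio
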