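import Pool.Agent.P.MP_5347d0_lc.DCore
import Pool.Agent.P.MP_5347d0_lc.DRel

/-! The universal ring with a root of `X ^ (2 * T) + X ^ T + 1`. -/

namespace Pool.Agent.P.MP_5347d0_lc.Dio

open Finset Polynomial

theorem cube_pow {R : Type} [CommRing R] {ρ : R} (h : ρ ^ 2 + ρ + 1 = 0) {b : ℕ} (hb : ¬ 3 ∣ b) :
    (ρ ^ b) ^ 2 + ρ ^ b + 1 = 0 := by
  have h3 : ρ ^ 3 = 1 := by linear_combination (ρ - 1) * h
  rw [← Nat.mod_add_div b 3, pow_add, pow_mul, h3, one_pow, mul_one]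
  have h1 : b % 3 = 1 ∨ b % 3 = 2 := by omega
  rcases h1 with h1 | h1 <;> rw [h1]
  · linear_combination h
  · linear_combination h + ρ * h3

/-- the polynomial -/
noncomputable def Ph (T : ℕ) : ℤ[X] := X ^ (2 * T) + X ^ T + 1

/-- the ring -/
abbrev BB (T : ℕ) : Type := AdjoinRoot (Ph T)

/-- the root -/
noncomputable def zz (T : ℕ) : BB T := AdjoinRoot.root (Ph T)

variable {T : ℕ}

theorem Ph_monic (hT : 0 < T) : (Ph T).Monic := by
  rw [Ph, add_assoc]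
  refine monic_X_pow_add ((degree_add_le _ _).trans_lt (max_lt ?_ ?_))
  · rw [degree_X_pow]
    exact_mod_cast (by omega : T < 2 * T)
  · rw [degree_one]
    exact_mod_cast (by omega : 0 < 2 * T)

theorem zz_surj (y : BB T) : ∃ Y : ℤ[X], aeval (zz T) Y = y := by
  obtain ⟨Y, rfl⟩ := AdjoinRoot.mk_surjective y
  exact ⟨Y, AdjoinRoot.aeval_eq Y⟩

theorem zz_ker {Y : ℤ[X]} : aeval (zz T) Y = 0 ↔ Ph T ∣ Y := by
  rw [zz, AdjoinRoot.aeval_eq, AdjoinRoot.mk_eq_zero]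

theorem zz_rel (T : ℕ) : (zz T ^ T) ^ 2 + zz T ^ T + 1 = 0 := by
  have h := (zz_ker (T := T)).2 dvd_rfl
  rw [← pow_mul, mul_comm]
  simpa [Ph] using h

theorem zz_three (T : ℕ) : zz T ^ (3 * T) = 1 := by
  rw [mul_comm, pow_mul]
  linear_combination (zz T ^ T - 1) * zz_rel T

theorem one_sub_dvd {R : Type} [CommRing R] {z : R} {T : ℕ} (h : (z ^ T) ^ 2 + z ^ T + 1 = 0) :
    1 - z ∣ 3 :=
  ⟨(∑ i ∈ range T, z ^ i) * (2 + z ^ T), by
    linear_combination h - (2 + z ^ T) * mul_neg_geom_sum z T⟩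

theorem BB_tf (hT : 0 < T) {p : ℕ} (hp : p ≠ 0) (a : BB T) (h : p * a = 0) : a = 0 := by
  refine (AdjoinRoot.mk_leftInverse (Ph_monic hT)).injective ?_
  have h1 := congrArg (AdjoinRoot.modByMonicHom (Ph_monic hT)) h
  rw [← nsmul_eq_mul, map_nsmul, map_zero, nsmul_eq_mul, mul_eq_zero] at h1
  rw [map_zero]
  exact h1.resolve_left (by exact_mod_cast hp)

/-- a map out of the universal ring -/
theorem exists_hom {R : Type} [CommRing R] {z : R} (h : (z ^ T) ^ 2 + z ^ T + 1 = 0) :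
    ∃ σ : BB T →+* R, σ (zz T) = z :=
  ⟨AdjoinRoot.lift (Int.castRingHom R) z (by
    rw [← pow_mul, mul_comm] at h
    simpa [Ph] using h), AdjoinRoot.lift_root _⟩

theorem exists_sg (T b : ℕ) : ∃ σ : BB T →+* BB T, ¬ 3 ∣ b → σ (zz T) = zz T ^ b := by
  by_cases hb : 3 ∣ b
  · exact ⟨RingHom.id _, fun h => absurd hb h⟩
  · obtain ⟨σ, hσ⟩ := exists_hom (T := T) (z := zz T ^ b) (by
      rw [pow_right_comm _ b T]
      exact cube_pow (zz_rel T) hb)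
    exact ⟨σ, fun _ => hσ⟩

/-- the endomorphism that raises the root to the power `b` -/
noncomputable def sg (T b : ℕ) : BB T →+* BB T := (exists_sg T b).choose

theorem sg_zz {b : ℕ} (hb : ¬ 3 ∣ b) : sg T b (zz T) = zz T ^ b := (exists_sg T b).choose_spec hb

theorem hom_aeval {R S : Type} [CommRing R] [CommRing S] [Algebra ℤ R] [Algebra ℤ S]
    (σ : R →+* S) (z : R) (Y : ℤ[X]) : σ (aeval z Y) = aeval (σ z) Y := by
  induction Y using Polynomial.induction_on' with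
  | add a b ha hb => rw [map_add, map_add, map_add, ha, hb]
  | monomial i a => simp only [aeval_monomial, eq_intCast, map_mul, map_pow, map_intCast]

theorem sg_aeval {b : ℕ} (hb : ¬ 3 ∣ b) (Y : ℤ[X]) :
    sg T b (aeval (zz T) Y) = aeval (zz T ^ b) Y := by
  rw [hom_aeval, sg_zz hb]

theorem not_dvd_mul {a b : ℕ} (ha : ¬ 3 ∣ a) (hb : ¬ 3 ∣ b) : ¬ 3 ∣ a * b := by
  rw [Nat.Prime.dvd_mul Nat.prime_three]
  tauto

theorem sg_mul {a b : ℕ} (ha : ¬ 3 ∣ a) (hb : ¬ 3 ∣ b) (y : BB T) :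
    sg T a (sg T b y) = sg T (a * b) y := by
  obtain ⟨Y, rfl⟩ := zz_surj y
  rw [sg_aeval hb, sg_aeval (not_dvd_mul ha hb), hom_aeval, map_pow, sg_zz ha, pow_mul]

theorem sg_comm {a b : ℕ} (ha : ¬ 3 ∣ a) (hb : ¬ 3 ∣ b) (y : BB T) :
    sg T a (sg T b y) = sg T b (sg T a y) := by
  rw [sg_mul ha hb, sg_mul hb ha, mul_comm]

theorem sg_frob {p : ℕ} (hp : p.Prime) (h3 : ¬ 3 ∣ p) (y : BB T) :
    (p : BB T) ∣ y ^ p - sg T p y := by
  obtain ⟨Y, rfl⟩ := zz_surj y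
  rw [sg_aeval h3]
  exact frob_cong hp _ _

theorem exists_L (hT : 0 < T) {k : Type} [Field k] {χ : ℕ → k}
    (h : ∀ i, χ i + χ (i + T) + χ (i + 2 * T) = 0) :
    ∃ L : BB T →ₗ[ℤ] k, ∀ Y, L (aeval (zz T) Y) = LZ χ Y := by
  refine ⟨LZ χ ∘ₗ AdjoinRoot.modByMonicHom (Ph_monic hT), fun Y => ?_⟩
  rw [zz, AdjoinRoot.aeval_eq, LinearMap.comp_apply, AdjoinRoot.modByMonicHom_mk,
    modByMonic_eq_sub_mul_div, map_sub, Ph, LZ_phi h, sub_zero]

/-- the geometric sum of length prime to `3 * T` is a unit -/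
theorem isUnit_geom (hT : 0 < T) {p : ℕ} (hp : Nat.Coprime p (3 * T)) :
    IsUnit (∑ i ∈ range p, zz T ^ i) := by
  obtain ⟨q, -, hq⟩ := Nat.exists_mul_mod_eq_one_of_coprime hp (by omega)
  have h1 : (zz T ^ p) ^ q = zz T := by
    rw [← pow_mul, ← Nat.mod_add_div (p * q) (3 * T), hq, pow_add, pow_mul, zz_three, one_pow,
      mul_one, pow_one]
  have h2 := mul_neg_geom_sum (zz T ^ p) q
  have h3 := mul_neg_geom_sum (zz T) p
  obtain ⟨c, hc⟩ := one_sub_dvd (zz_rel T)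
  rw [h1] at h2
  refine IsUnit.of_mul_eq_one (∑ i ∈ range q, (zz T ^ p) ^ i) (sub_eq_zero.1
    (BB_tf hT (p := 3) (by norm_num) _ ?_))
  push_cast
  rw [hc]
  linear_combination c * h2 + c * (∑ i ∈ range q, (zz T ^ p) ^ i) * h3

end Pool.Agent.P.MP_5347d0_lc.Dio
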