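import Pool.Agent.P.MP_5347d0_lc.DRing

/-! Cyclotomic units congruent to one with nonvanishing character sum. -/

namespace Pool.Agent.P.MP_5347d0_lc.Dio

open Finset Polynomial

/-- the abstract part: from one good unit to a unit congruent to one modulo `m` -/
theorem unit_step {B k : Type} [CommRing B] [Field k] {p m : ℕ} (hp : p.Prime) (hp2 : Odd p)
    [CharP k p] (hm : m ≠ 0) (hpm : p ∣ m) (σ : ℕ → B →+* B) (χ : ℕ → k) (L : B →+ k)
    (htf : ∀ a : B, p * a = 0 → a = 0)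
    (hfr : ∀ l, l.Prime → l ∣ m → ∀ y, (l : B) ∣ y ^ l - σ l y)
    (hcm : ∀ l, l.Prime → l ∣ m → ∀ y, σ l (σ p y) = σ p (σ l y))
    (hL : ∀ l, l.Prime → l ∣ m → ∀ y, L (σ l y) = χ l * L y)
    (hχ : ∀ l, l.Prime → l ∣ m → l ≠ p → χ l ≠ l) (hχp : χ p ≠ 1)
    {y₀ d₀ u : B} (hy₀ : IsCoprime y₀ p) (h₀ : Rel p (σ p) y₀ d₀) (hd₀ : L d₀ ≠ 0)
    (hu : IsUnit u) (hu₀ : u * y₀ = σ p y₀) : ∃ d : B, IsUnit (1 + m * d) ∧ L d ≠ 0 := by
  have hn : ∀ (j : ℕ) (d : B), L (j * d) = j * L d := fun j d => by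
    rw [← nsmul_eq_mul, map_nsmul, nsmul_eq_mul]
  have hp0 : ∀ d, L (p * d) = 0 := fun d => by rw [hn, CharP.cast_eq_zero, zero_mul]
  have hun : ∀ y : B, IsUnit y → IsCoprime y p := fun y hy => by
    obtain ⟨v, hv⟩ := hy.exists_left_inv
    exact ⟨v, 0, by rw [hv, zero_mul, add_zero]⟩
  have quot : ∀ y a da db : B, IsUnit y → IsCoprime a p → Rel p (σ p) a da →
      Rel p (σ p) (y * a) db → ∃ d, Rel p (σ p) y d ∧ L d = L db - L da := by
    intro y a da db hy ha h1 h2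
    obtain ⟨d, hd⟩ := Rel.ex (hun y hy) (hfr p hp hpm y)
    obtain ⟨c, hc⟩ := (hd.mul h1).uniq htf ((hun y hy).mul_left ha) h2
    have h3 := congrArg L hc
    rw [hp0, map_sub, map_add] at h3
    exact ⟨d, hd, by linear_combination h3⟩
  have key : ∀ q : ℕ, q ∣ m → ¬ p ∣ q →
      ∃ y, IsUnit y ∧ (q : B) ∣ y - 1 ∧ ∃ d, Rel p (σ p) y d ∧ L d ≠ 0 := by
    intro q
    induction q using induction_on_primes with
    | zero => exact fun _ h => absurd (dvd_zero p) h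
    | one =>
      intro _ _
      obtain ⟨d, hd, h1⟩ := quot u y₀ d₀ (σ p d₀) hu hy₀ h₀ (hu₀ ▸ h₀.map (σ p) rfl)
      refine ⟨u, hu, by simp, d, hd, ?_⟩
      rw [h1, hL p hp hpm, ← sub_one_mul]
      exact mul_ne_zero (sub_ne_zero.2 hχp) hd₀
    | prime_mul l a hl ih =>
      intro h1 h2
      obtain ⟨y, hy, ha, d, hd, hd0⟩ := ih (Dvd.dvd.trans (dvd_mul_left a l) h1)
        fun h => h2 (h.mul_left l)
      have hlm : l ∣ m := (dvd_mul_right l a).trans h1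
      have hlp : l ≠ p := fun h => h2 (h ▸ dvd_mul_right l a)
      by_cases hla : l ∣ a
      · refine ⟨y ^ l, hy.pow l, ?_, l * d, hd.pow l, ?_⟩
        · have h3 := dvd_geom_sum₂_self ((Nat.cast_dvd_cast hla).trans ha)
          have h4 := geom_sum₂_mul y 1 l
          rw [one_pow] at h4
          rw [← h4, Nat.cast_mul]
          exact mul_dvd_mul h3 ha
        · rw [hn]
          refine mul_ne_zero (fun h => hlp ?_) hd0
          exact ((Nat.prime_dvd_prime_iff_eq hp hl).1 ((CharP.cast_eq_zero_iff k p l).1 h)).symm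
      · obtain ⟨v, hv⟩ := (hy.map (σ l)).exists_left_inv
        have hv' : IsUnit v := IsUnit.of_mul_eq_one _ hv
        have h3 : y ^ l * v * σ l y = y ^ l := by rw [mul_assoc, hv, mul_one]
        obtain ⟨d', hd', h4⟩ := quot (y ^ l * v) (σ l y) (σ l d) (l * d) ((hy.pow l).mul hv')
          (hun _ (hy.map _)) (hd.map _ (hcm l hl hlm y)) (by rw [h3]; exact hd.pow l)
        refine ⟨y ^ l * v, (hy.pow l).mul hv', ?_, d', hd', ?_⟩
        · rw [Nat.cast_mul, show y ^ l * v - 1 = (y ^ l - σ l y) * v by linear_combination hv]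
          refine Dvd.dvd.mul_right (((Nat.Prime.coprime_iff_not_dvd hl).2 hla).cast.mul_dvd
            (hfr l hl hlm y) ?_) v
          have h5 := map_dvd (σ l) ha
          rw [map_natCast, map_sub, map_one] at h5
          have h6 := ha.trans (sub_dvd_pow_sub_pow y 1 l)
          rw [one_pow] at h6
          simpa using h6.sub h5
        · rw [h4, hn, hL l hl hlm, ← sub_mul]
          exact mul_ne_zero (sub_ne_zero.2 (hχ l hl hlm hlp).symm) hd0
  obtain ⟨e, q, hq, rfl⟩ := Nat.exists_eq_pow_mul_and_not_dvd hm p hp.ne_one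
  obtain ⟨y, hy, ha, d, ⟨c, hc⟩, hd0⟩ := key q (dvd_mul_left _ _) hq
  obtain ⟨v, hv⟩ := (hy.map (σ p)).exists_left_inv
  have h1 : y ^ p * v = 1 + p * (d + p * (c * v)) := by
    linear_combination v * hc + (1 + p * d) * hv
  obtain ⟨d₁, hd₁⟩ : (q : B) ∣ d + p * (c * v) := by
    refine ((Nat.Prime.coprime_iff_not_dvd hp).2 hq).symm.cast.dvd_of_dvd_mul_left ?_
    rw [show p * (d + p * (c * v)) = (y ^ p - σ p y) * v by linear_combination hv - h1]
    have h5 := map_dvd (σ p) ha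
    rw [map_natCast, map_sub, map_one] at h5
    have h6 := ha.trans (sub_dvd_pow_sub_pow y 1 p)
    rw [one_pow] at h6
    exact Dvd.dvd.mul_right (by simpa using h6.sub h5) v
  have h2 : ∀ j : ℕ, ∃ d, IsUnit (1 + ((p ^ (j + 1) * q : ℕ) : B) * d) ∧ L d ≠ 0 := by
    intro j
    induction j with
    | zero =>
      refine ⟨d₁, ?_, fun h => hd0 ?_⟩
      · rw [zero_add, pow_one, Nat.cast_mul, mul_assoc, ← hd₁, ← h1]
        exact (hy.pow p).mul (IsUnit.of_mul_eq_one _ hv)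
      · have h3 := congrArg L hd₁
        rwa [map_add, hp0, hn, h, mul_zero, add_zero] at h3
    | succ j ih =>
      obtain ⟨d, hd, hd'⟩ := ih
      obtain ⟨c, hc⟩ := pow_step hp2 (s := ((p ^ (j + 1) * q : ℕ) : B))
        (Nat.cast_dvd_cast ((dvd_pow_self p j.succ_ne_zero).mul_right q)) d
      refine ⟨d + p * c, ?_, by rwa [map_add, hp0, add_zero]⟩
      rw [pow_succ' p (j + 1), mul_assoc p, Nat.cast_mul, ← hc]
      exact hd.pow p
  obtain ⟨j, rfl⟩ : ∃ j, e = j + 1 := ⟨e - 1, by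
    rcases Nat.eq_zero_or_pos e with rfl | h
    · exact absurd (by simpa using hpm) hq
    · omega⟩
  exact h2 j

/-- the bound for the level -/
def bnd (f m : ℕ) : ℕ := 2 * m ^ (f + 3).factorial.totient + m +
  m * (f * m ^ (f + 3).factorial.totient) + m ^ m ^ (f + 3).factorial.totient

theorem exists_unit {k : Type} [Field k] [IsAlgClosed k] (p : ℕ) [Fact p.Prime] [CharP k p]
    {f n m : ℕ} (hf : 0 < f) (hf3 : ¬ 3 ∣ f) (hm : m ≠ 0) (hpm : p ∣ m)
    (hco : Nat.Coprime m (f + 3).factorial) (hn : bnd f m ≤ n) (c : Ch k f n)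
    (hcube : ∀ i, c.ψ i * c.θ i + c.ψ (i + f * 3 ^ n) * c.θ (i + f * 3 ^ n) +
      c.ψ (i + 2 * (f * 3 ^ n)) * c.θ (i + 2 * (f * 3 ^ n)) = 0) :
    ∃ Y : ℤ[X], IsUnit (1 + m * aeval (zz (f * 3 ^ n)) Y) ∧
      LZ (fun i => c.ψ i * c.θ i) Y ≠ 0 := by
  have hp : p.Prime := Fact.out
  have hT : 0 < f * 3 ^ n := by positivity
  have hm1 : 1 ≤ m := Nat.pos_of_ne_zero hm
  have hF : ∀ j, 0 < j → j ≤ f + 3 → ∀ l, l ∣ m → Nat.Coprime l j := fun j h1 h2 l hl =>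
    (hco.coprime_dvd_left hl).coprime_dvd_right (Nat.dvd_factorial h1 h2)
  have h3 : ∀ l, l ∣ m → ¬ 3 ∣ l := fun l hl =>
    (Nat.Prime.coprime_iff_not_dvd Nat.prime_three).1 (hF 3 (by omega) (by omega) l hl).symm
  have h2 : ¬ 2 ∣ p :=
    (Nat.Prime.coprime_iff_not_dvd Nat.prime_two).1 (hF 2 (by omega) (by omega) p hpm).symm
  have hp2 : p ≠ 2 := fun h => h2 (h ▸ dvd_rfl)
  have hp3 : p ≠ 3 := fun h => h3 p hpm (h ▸ dvd_rfl)
  have hodd : Odd p := hp.odd_of_ne_two hp2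
  unfold bnd at hn
  set E := (f + 3).factorial.totient with hE
  have hE0 : 0 < E := Nat.totient_pos.2 (Nat.factorial_pos _)
  have hP : p ^ E ≡ 1 [MOD (f + 3).factorial] :=
    Nat.ModEq.pow_totient (hco.coprime_dvd_left hpm)
  have hP1 : 1 < p ^ E := Nat.one_lt_pow hE0.ne' hp.one_lt
  have hψ : ∀ i, c.ψ i ^ p ^ E = c.ψ i := c.psi_pow hf
    (hP.of_dvd (Nat.factorial_dvd_factorial (by omega))) (by omega)
  obtain ⟨a, β', hβ', ha⟩ := Nat.exists_eq_pow_mul_and_not_dvd (n := p ^ E - 1) (by omega) 3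
    (by norm_num)
  have hd : ∀ j, 0 < j → j ≤ 3 → j ∣ 3 ^ a * β' := fun j h1 h2 =>
    ha ▸ (Nat.modEq_iff_dvd' hP1.le).1 (hP.of_dvd (Nat.dvd_factorial h1 (by omega))).symm
  obtain ⟨β, rfl⟩ : 2 ∣ β' := (Nat.Coprime.pow_right a (by norm_num)).dvd_of_dvd_mul_left
    (hd 2 (by omega) (by omega))
  have hβ : ¬ 3 ∣ β := fun h => hβ' (h.mul_left 2)
  have ha1 : 1 ≤ a := by
    rcases Nat.eq_zero_or_pos a with rfl | h
    · exact absurd (by simpa using hd 3 (by omega) le_rfl) hβ'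
    · exact h
  have hPe : p ^ E = 1 + 3 ^ a * (2 * β) := by omega
  have hβ0 : 0 < β := Nat.pos_of_ne_zero (by rintro rfl; simp at hβ)
  have hpm' : p ≤ m := Nat.le_of_dvd hm1 hpm
  have hQ : p ^ E ≤ m ^ E := Nat.pow_le_pow_left hpm' E
  have ha3 : 3 ^ a ≤ m ^ E := by
    have : 3 ^ a ≤ 3 ^ a * (2 * β) := Nat.le_mul_of_pos_right _ (by omega)
    omega
  have ha4 : a < 3 ^ a := Nat.lt_pow_self (by norm_num)
  have hsm : ∀ l, l.Prime → l ∣ m → ∀ r : k, r ≠ 0 → r ^ p ^ E = r → c.ψ l * c.θ l ≠ r := by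
    intro l hl hlm r hr hr'
    refine c.ne_of_small hψ (e := 3 ^ a * β) (by rw [hPe]; ring) (by positivity) hl.two_le
      (h3 l hlm) ?_ hr hr'
    have h5 : l ^ p ^ E ≤ m ^ m ^ E :=
      (Nat.pow_le_pow_left (Nat.le_of_dvd hm1 hlm) _).trans (Nat.pow_le_pow_right hm1 hQ)
    have h6 : n < 3 ^ n := Nat.lt_pow_self (by norm_num)
    omega
  obtain ⟨L, hL⟩ := exists_L hT (χ := fun i => c.ψ i * c.θ i) hcube
  have htf := BB_tf hT hp.ne_zero
  have hy₀ : IsCoprime (1 - zz (f * 3 ^ n)) p := by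
    have h5 : IsCoprime ((3 : ℕ) : BB (f * 3 ^ n)) p := (hF 3 (by omega) (by omega) p hpm).symm.cast
    exact h5.of_isCoprime_of_dvd_left (by exact_mod_cast one_sub_dvd (zz_rel _))
  obtain ⟨d₀, h₀⟩ := Rel.ex hy₀ (sg_frob hp (h3 p hpm) _)
  obtain ⟨Y, rfl⟩ := zz_surj d₀
  have hN : ¬ 3 ∣ f * 3 ^ (n + 1) - 1 := by
    have : 0 < f * 3 ^ n := hT
    rw [pow_succ, ← mul_assoc]
    omega
  have hd₀ : L (aeval (zz (f * 3 ^ n)) Y) ≠ 0 := by
    obtain ⟨r, hr⟩ := exists_add_pow_prime_eq hp (1 : ℤ[X]) (-X)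
    have hq : (1 - X : ℤ[X]) ^ p = 1 - X ^ p + (p : ℤ[X]) * (-X * r) := by
      rw [sub_eq_add_neg, hr, hodd.neg_pow]
      ring
    obtain ⟨A, B, h5⟩ : ∃ A B, (1 - X ^ p) * Y = -X * r + Ph (f * 3 ^ n) * A + (p : ℤ[X]) * B := by
      obtain ⟨w, hw⟩ := h₀
      obtain ⟨W, rfl⟩ := zz_surj w
      have h6 := congrArg (aeval (zz (f * 3 ^ n))) hq
      simp only [map_sub, map_pow, map_one, map_add, map_mul, map_natCast, aeval_X,
        sg_zz (h3 p hpm)] at h6 hw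
      obtain ⟨A, hA⟩ := (zz_ker (T := f * 3 ^ n)
        (Y := (1 - X ^ p) * Y - -X * r + (p : ℤ[X]) * W)).1 (htf _ (by
          simp only [map_sub, map_pow, map_one, map_add, map_mul, map_natCast, aeval_X]
          linear_combination h6 - hw))
      exact ⟨A, -W, by linear_combination hA⟩
    obtain ⟨A', B', h6⟩ : ∃ A' B', expand ℤ (f * 3 ^ (n + 1) - 1) Y =
        Y + Ph (f * 3 ^ n) * A' + (p : ℤ[X]) * B' := by
      have h7 : Rel p (sg (f * 3 ^ n) p) (-zz (f * 3 ^ n) ^ (f * 3 ^ (n + 1) - 1)) 0 :=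
        ⟨0, by rw [hodd.neg_pow, map_neg, map_pow, sg_zz (h3 p hpm), pow_right_comm]; ring⟩
      have h8 := h₀.map (sg (f * 3 ^ n) (f * 3 ^ (n + 1) - 1)) (sg_comm hN (h3 p hpm) _)
      have h9 : -zz (f * 3 ^ n) ^ (f * 3 ^ (n + 1) - 1) * (1 - zz (f * 3 ^ n)) =
          sg (f * 3 ^ n) (f * 3 ^ (n + 1) - 1) (1 - zz (f * 3 ^ n)) := by
        have h10 := zz_three (f * 3 ^ n)
        rw [show 3 * (f * 3 ^ n) = f * 3 ^ (n + 1) - 1 + 1 by
          rw [pow_succ 3 n, ← mul_assoc f]; omega, pow_succ] at h10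
        rw [map_sub, map_one, sg_zz hN]
        linear_combination h10
      have h10 := hy₀.map (sg (f * 3 ^ n) (f * 3 ^ (n + 1) - 1))
      rw [map_natCast] at h10
      obtain ⟨w, hw⟩ := h8.uniq htf h10 (h9 ▸ h7.mul h₀)
      obtain ⟨W, rfl⟩ := zz_surj w
      obtain ⟨A, hA⟩ := (zz_ker (T := f * 3 ^ n)
        (Y := expand ℤ (f * 3 ^ (n + 1) - 1) Y - Y - (p : ℤ[X]) * W)).1 (by
          rw [sg_aeval hN] at hw
          rw [map_sub, map_sub, map_mul, map_natCast, expand_aeval]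
          linear_combination hw)
      exact ⟨A, W, by linear_combination hA⟩
    rw [hL]
    refine c.core p hp2 hp3 hf hf3 (b := n + 1 - a) ha1 (by omega) (by omega) hβ hPe hψ ?_ hq h5 h6
    have h7 : p * (f * 3 ^ a) ≤ m * (f * m ^ E) :=
      Nat.mul_le_mul hpm' (Nat.mul_le_mul_left _ ha3)
    have h8 : n + 1 - a < 3 ^ (n + 1 - a) := Nat.lt_pow_self (by norm_num)
    omega
  obtain ⟨d, hd, hd'⟩ := unit_step hp hodd hm hpm (sg (f * 3 ^ n)) (fun i => c.ψ i * c.θ i)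
    L.toAddMonoidHom htf (fun l hl hlm => sg_frob hl (h3 l hlm))
    (fun l _ hlm => sg_comm (h3 l hlm) (h3 p hpm)) (fun l _ hlm y => by
      obtain ⟨W, rfl⟩ := zz_surj y
      rw [LinearMap.toAddMonoidHom_coe, sg_aeval (h3 l hlm), ← expand_aeval, hL, hL, LZ_expand]
      refine Eq.trans ?_ (map_smul (LF W) (c.ψ l * c.θ l) fun i => c.ψ i * c.θ i)
      refine congrArg (LF W) (funext fun i => ?_)
      simp only [map_mul, Pi.smul_apply, smul_eq_mul]
      ring)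
    (fun l hl hlm hlp => hsm l hl hlm _ (fun h => hlp ((Nat.prime_dvd_prime_iff_eq hp hl).1
      ((CharP.cast_eq_zero_iff k p l).1 h)).symm) (map_natCast (iterateFrobenius k p E) l))
    (hsm p hp hpm 1 one_ne_zero (one_pow _)) hy₀ h₀ hd₀
    (isUnit_geom hT (p := p) ((hF 3 (by omega) (by omega) p hpm).mul_right
      ((hF f hf (by omega) p hpm).mul_right ((hF 3 (by omega) (by omega) p hpm).pow_right n))))
    (by rw [map_sub, map_one, sg_zz (h3 p hpm), geom_sum_mul_neg])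
  obtain ⟨W, rfl⟩ := zz_surj d
  exact ⟨W, hd, hL W ▸ hd'⟩

end Pool.Agent.P.MP_5347d0_lc.Dio
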