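import Mathlib

namespace Pool.Agent.P.MP_5347d0_lc

/-- The function symbols `+`, `*`, `0`, `1`, indexed by their arity. -/
inductive RingFn : ℕ → Type
  | add : RingFn 2
  | mul : RingFn 2
  | zero : RingFn 0
  | one : RingFn 0

/-- The first-order language of rings with symbols `+`, `*`, `0`, `1`. -/
def Lring : FirstOrder.Language := ⟨RingFn, fun _ => Empty⟩

/-- A ring as a structure for that language. -/
@[reducible] def ringStr (R : Type) [Ring R] : Lring.Structure R where
  funMap := fun {n} f v =>
    match n, f, v with
    | _, RingFn.add, v => v 0 + v 1
    | _, RingFn.mul, v => v 0 * v 1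
    | _, RingFn.zero, _ => 0
    | _, RingFn.one, _ => 1
  RelMap := fun r _ => r.elim

/-- The maximal abelian extension of the rationals inside the complex numbers: the compositum
of all subfields that are abelian Galois extensions of the rationals. -/
noncomputable def Qab : IntermediateField ℚ ℂ :=
  sSup {K : IntermediateField ℚ ℂ | IsAbelianGalois ℚ K}

end Pool.Agent.P.MP_5347d0_lc
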