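import Mathlib

/-! Valuations: integrality, the value group of cyclotomic fields, the element of odd valuation. -/

namespace Pool.Agent.P.MP_5347d0_lc.Loc

open NumberField IsDedekindDomain Finset

section val

variable {L Γ : Type} [Field L] [LinearOrderedCommGroupWithZero Γ] (v : Valuation L Γ)

theorem val_int {x : L} (hx : IsIntegral ℤ x) : v x ≤ 1 :=
  (Valuation.integer.integers v).mem_of_integral hx.tower_top

theorem val_nat (n : ℕ) : v (n : L) ≤ 1 := val_int v (by exact_mod_cast isIntegral_algebraMap (x := (n : ℤ)))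

theorem val_coprime {a b : ℕ} (h : a.Coprime b) (ha : v (a : L) < 1) : v (b : L) = 1 := by
  refine (val_nat v b).eq_or_lt.resolve_right fun hb => ?_
  obtain ⟨r, s, e⟩ : IsCoprime (a : ℤ) b := h.cast
  have e' : (r : L) * a + s * b = 1 := by exact_mod_cast congrArg (Int.cast : ℤ → L) e
  have i : ∀ z : ℤ, v (z : L) ≤ 1 := fun z => val_int v (isIntegral_algebraMap (x := z))
  have := v.map_add_lt (x := (r : L) * a) (y := s * b) (g := 1)
    (by rw [map_mul]; exact mul_lt_one_of_nonneg_of_lt_one_right (i r) zero_le ha)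
    (by rw [map_mul]; exact mul_lt_one_of_nonneg_of_lt_one_right (i s) zero_le hb)
  rw [e', map_one] at this
  exact lt_irrefl _ this

theorem val_prime {N : ℕ} (hN : N ≠ 0) (h : v (N : L) < 1) :
    ∃ p, p.Prime ∧ p ∣ N ∧ v (p : L) < 1 := by
  induction N using Nat.recOnMul with
  | zero => exact absurd rfl hN
  | one => simp at h
  | prime p hp => exact ⟨p, hp, dvd_rfl, h⟩
  | mul a b ha hb =>
    rcases (val_nat v a).eq_or_lt with h1 | h1
    · rw [Nat.cast_mul, map_mul, h1, one_mul] at h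
      obtain ⟨p, h2, h3, h4⟩ := hb (right_ne_zero_of_mul hN) h
      exact ⟨p, h2, h3.mul_left _, h4⟩
    · obtain ⟨p, h2, h3, h4⟩ := ha (left_ne_zero_of_mul hN) h1
      exact ⟨p, h2, h3.mul_right _, h4⟩

theorem val_root {ξ : L} {n : ℕ} (hn : n ≠ 0) (h : ξ ^ n = 1) : v ξ = 1 :=
  (pow_eq_one_iff_left hn).1 (by rw [← map_pow, h, map_one])

theorem val_one_sub_pow {ξ : L} (h : v ξ = 1) (j : ℕ) : v (1 - ξ ^ j) ≤ v (1 - ξ) := by
  rw [← mul_neg_geom_sum, map_mul]
  exact mul_le_of_le_one_right' (v.map_sum_le fun i _ => by rw [map_pow, h, one_pow])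

theorem val_one_sub {ξ : L} {p : ℕ} (hp : p.Prime) (h : IsPrimitiveRoot ξ p) :
    v (1 - ξ) ^ (p - 1) = v (p : L) := by
  obtain ⟨n, rfl⟩ : ∃ n, p = n + 1 := ⟨p - 1, (Nat.succ_pred_eq_of_pos hp.pos).symm⟩
  have e := congrArg v h.prod_one_sub_pow_eq_order
  rw [map_prod, prod_congr rfl (g := fun _ => v (1 - ξ)), prod_const, card_range] at e
  · push_cast
    exact e
  · intro k hk
    have h1 := val_root v hp.ne_zero h.pow_eq_one
    refine le_antisymm (val_one_sub_pow v h1 _) ?_
    have hc : (k + 1).Coprime (n + 1) :=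
      (Nat.coprime_of_lt_prime (by omega) (by have := mem_range.1 hk; omega) hp).symm
    obtain ⟨j, -, hj⟩ := (h.pow_of_coprime _ hc).eq_pow_of_pow_eq_one h.pow_eq_one
    have h2 := val_one_sub_pow v (ξ := ξ ^ (k + 1)) (by rw [map_pow, h1, one_pow]) j
    rwa [hj] at h2

end val

/-- elements of the ring of integers with `N` inverted -/
def Lc {L : Type} [Field L] (N : ℕ) (z : L) : Prop := ∃ k : ℕ, IsIntegral ℤ ((N : L) ^ k * z)

theorem int_of_val {L : Type} [Field L] {N : ℕ} {z : L} (hz : Lc N z)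
    (h : ∀ V : ValuationSubring L, V.valuation (N : L) < 1 → V.valuation z ≤ 1) :
    IsIntegral ℤ z := by
  have h1 : z ∈ (integralClosure (Subring.closure (∅ : Set L)) L).toSubring := by
    rw [← iInf_valuationSubring_superset, Subring.mem_iInf]
    rintro ⟨V, -⟩
    change z ∈ V
    rw [← V.valuation_le_one_iff]
    rcases (val_nat V.valuation N).eq_or_lt with h2 | h2
    · obtain ⟨k, hk⟩ := hz
      have := val_int V.valuation hk
      rwa [map_mul, map_pow, h2, one_pow, one_mul] at this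
    · exact h V h2
  have h2 : IsIntegral (Subring.closure (∅ : Set L)) z := h1
  have : Algebra.IsIntegral ℤ (Subring.closure (∅ : Set L)) := ⟨fun x => by
    obtain ⟨n, hn⟩ := Subring.mem_bot.1 ((Subring.closure_empty (R := L)).le x.2)
    have e : x = algebraMap ℤ _ n := Subtype.ext (by simpa using hn.symm)
    rw [e]
    exact isIntegral_algebraMap⟩
  exact isIntegral_trans z h2

theorem gamma {E Γ : Type} [Field E] [NumberField E] [LinearOrderedCommGroupWithZero Γ]
    {n p k m : ℕ} [NeZero n] [IsCyclotomicExtension {n} ℚ E] (hp : p.Prime) (h2 : p ≠ 2)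
    (hn : n = p ^ (k + 1) * m) (hm : ¬ p ∣ m) (v : Valuation E Γ) (hv : v (p : E) < 1) (u : E) :
    v u ^ (2 * (p - 1)) ≠ v (p : E) := by
  have := Fact.mk hp
  have i : ∀ x : 𝓞 E, v (x : E) ≤ 1 := fun x => val_int v x.isIntegral_coe
  let P : Ideal (𝓞 E) :=
    { carrier := {x | v (x : E) < 1}
      add_mem' := fun ha hb => v.map_add_lt ha hb
      zero_mem' := by simp
      smul_mem' := fun c x hx => by
        change v ((c : E) * x) < 1
        rw [map_mul]
        exact mul_lt_one_of_nonneg_of_lt_one_right (i c) zero_le hx }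
  have hP : ∀ x : 𝓞 E, x ∈ P ↔ v (x : E) < 1 := fun _ => Iff.rfl
  have hprime : P.IsPrime := by
    refine ⟨(Ideal.ne_top_iff_one P).2 (by simp [hP]), fun {x y} h => ?_⟩
    by_contra hc
    rw [not_or, hP, hP] at hc
    have h' : v ((x : E) * y) < 1 := h
    rw [map_mul, (i x).eq_or_lt.resolve_right hc.1, (i y).eq_or_lt.resolve_right hc.2, one_mul] at h'
    exact lt_irrefl _ h'
  have hpP : ((p : ℕ) : 𝓞 E) ∈ P := hv
  have hp0 : (p : E) ≠ 0 := Nat.cast_ne_zero.2 hp.ne_zero
  have hne : P ≠ ⊥ := fun h => by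
    rw [h, Ideal.mem_bot] at hpP
    exact hp.ne_zero (Nat.cast_eq_zero.1 hpP)
  have hpz : Prime (p : ℤ) := Nat.prime_iff_prime_int.1 hp
  have hsp : (Ideal.span {(p : ℤ)}).IsPrime := (Ideal.span_singleton_prime hpz.ne_zero).2 hpz
  have hs0 : Ideal.span {(p : ℤ)} ≠ ⊥ := by simpa using hp.ne_zero
  have hlo : P.LiesOver (Ideal.span {(p : ℤ)}) := ⟨(hsp.isMaximal hs0).eq_of_le
    (Ideal.IsPrime.under ℤ P).ne_top (by
      rw [Ideal.span_singleton_le_iff_mem, Ideal.under_def, Ideal.mem_comap]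
      simpa using hpP)⟩
  let w : HeightOneSpectrum (𝓞 E) := ⟨P, hprime, hne⟩
  let w0 : HeightOneSpectrum ℤ := ⟨_, hsp, hs0⟩
  have hle : w.valuationSubringAtPrime E ≤ v.valuationSubring := by
    rintro x ⟨a, s, hs, rfl⟩
    have h1 : v (s : E) = 1 := (i s).eq_or_lt.resolve_right hs
    change v ((a : E) * (s : E)⁻¹) ≤ 1
    rw [map_mul, map_inv₀, h1, inv_one, mul_one]
    exact i a
  have hnt : v.valuationSubring ≠ ⊤ := fun h => by
    have h1 : (p : E)⁻¹ ∈ v.valuationSubring := h ▸ ValuationSubring.mem_top _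
    rw [Valuation.mem_valuationSubring_iff, map_inv₀,
      inv_le_one₀ ((v.pos_iff).2 hp0)] at h1
    exact absurd hv (not_lt.2 h1)
  have heq : (w.valuation E).IsEquiv v := by
    rw [Valuation.isEquiv_iff_valuationSubring,
      ← HeightOneSpectrum.valuationSubringAtPrime_eq_valuationSubring]
    exact ValuationSubring.eq_of_le_of_ne_top _ hle hnt
  rw [← map_pow, Ne, ← heq.eq_iff, map_pow]
  have : w.asIdeal.LiesOver w0.asIdeal := hlo
  have e1 := HeightOneSpectrum.intValuation_liesOver w0 w (p : ℤ)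
  rw [w0.intValuation_singleton hpz.ne_zero rfl,
    Ideal.ramificationIdx'_eq_ramificationIdx _ _ hs0,
    show Ideal.ramificationIdx w.asIdeal ℤ = p ^ k * (p - 1) from
      IsCyclotomicExtension.Rat.ramificationIdx_eq n E P hn hm,
    ← w.valuation_of_algebraMap (K := E)] at e1
  have e2 : w.valuation E (p : E) = WithZero.exp (-1 : ℤ) ^ (p ^ k * (p - 1)) := by
    rw [e1]
    simp
  rw [e2]
  intro h
  have hu : w.valuation E u ≠ 0 := by
    intro h0
    have : 2 * (p - 1) ≠ 0 := by have := hp.two_le; omega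
    rw [h0, zero_pow this] at h
    exact pow_ne_zero _ WithZero.exp_ne_zero h.symm
  rw [← WithZero.exp_log hu, ← WithZero.exp_nsmul, ← WithZero.exp_nsmul, WithZero.exp_inj] at h
  generalize WithZero.log (w.valuation E u) = j at h
  have h3 : ((p - 1 : ℕ) : ℤ) ≠ 0 := by have := hp.two_le; omega
  have h4 : (2 : ℤ) * (-j) = (p ^ k : ℕ) := by
    apply mul_left_cancel₀ h3
    simp only [nsmul_eq_mul, Nat.cast_mul, Nat.cast_ofNat] at h
    linear_combination -h
  have h5 : Odd (p ^ k) := (hp.odd_of_ne_two h2).pow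
  obtain ⟨r, hr⟩ := h5
  omega

end Pool.Agent.P.MP_5347d0_lc.Loc
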