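import Pool.Agent.P.MP_5347d0_lc.CMRing

/-! The system of equations over a ring with `N` inverted, and the ring-level part of its
solvability. -/

namespace Pool.Agent.P.MP_5347d0_lc.Loc

open Finset Polynomial CM

variable {R : Type} [CommRing R]

/-- the Pell equation -/
def pr (π x y : R) : R := (1 + 4 * y) ^ 2 - π * (4 * x) ^ 2 - 1

/-- two equations that force `z` to be real and are solvable for integers `z` -/
def rz (π x y z c e b : R) : List R :=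
  [pr π (x * (z + 4 * y * c)) (y * e), 4 * y - (4 * π * z ^ 2 - 1) * b]

/-- the remaining equations -/
def rm (N : ℕ) (π a x y s t C ρ k j x1 y1 d g : R) : List R :=
  [pr π x y, x * C * s - (2 * t - 1) * ((2 * N + 1) * t - 1), pr π x1 y1,
    1 + 4 * y1 - k - (4 * π * (C * a + ρ) ^ 2 - 1) * d, C * a + ρ - j - (1 + 4 * y1 - k) * g]

/-- the system for a given `π` -/
def sys (N : ℕ) (π a : R) (y : Fin 24 → R) : List R :=
  rz π (y 0) (y 1) (y 4) (y 12) (y 13) (y 14) ++ rz π (y 0) (y 1) (y 5) (y 15) (y 16) (y 17) ++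
    rz π (y 0) (y 1) (y 6) (y 18) (y 19) (y 20) ++ rz π (y 0) (y 1) (y 7) (y 21) (y 22) (y 23) ++
    rm N π a (y 0) (y 1) (y 2) (y 3) (y 4) (y 5) (y 6) (y 7) (y 8) (y 9) (y 10) (y 11)

/-- the element of odd valuation -/
noncomputable def piF (M : ℕ) (ζ ι : R) : R :=
  M * 2 ^ M.primeFactors.card +
    ∏ p ∈ M.primeFactors, ι * (ζ ^ (M / p) - (ζ ^ (M / p)) ^ (p - 1))

/-- the whole system -/
noncomputable def eqn (N : ℕ) (a : R) (y : Fin 26 → R) : List R :=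
  aeval (y 0) (cyclotomic (3 * N) ℤ) :: (y 1 ^ 2 + 1) ::
    sys N (piF (3 * N) (y 0) (y 1)) a fun i => y i.succ.succ

section map

variable {S : Type} [CommRing S] (σ : R →+* S)

theorem piF_map (M : ℕ) (ζ ι : R) : σ (piF M ζ ι) = piF M (σ ζ) (σ ι) := by
  simp only [piF, map_add, map_mul, map_pow, map_prod, map_sub, map_natCast, map_ofNat]

theorem sys_map (N : ℕ) (π a : R) (y : Fin 24 → R) :
    (sys N π a y).map σ = sys N (σ π) (σ a) fun i => σ (y i) := by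
  simp only [sys, rz, rm, pr, List.map_append, List.map_cons, List.map_nil, map_sub, map_mul,
    map_pow, map_add, map_one, map_ofNat, map_natCast]

theorem eqn_map (N : ℕ) (a : R) (y : Fin 26 → R) :
    (eqn N a y).map σ = eqn N (σ a) fun i => σ (y i) := by
  have h : σ (aeval (y 0) (cyclotomic (3 * N) ℤ)) = aeval (σ (y 0)) (cyclotomic (3 * N) ℤ) :=
    (aeval_algHom_apply σ.toIntAlgHom (y 0) _).symm
  simp only [eqn, List.map_cons, sys_map, piF_map, h, map_add, map_pow, map_one]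

end map

theorem nz_nat' {b n : ℕ} (hb : Odd b) (hn : n ≠ 0) :
    ∃ s t : ℤ, n * s = (2 * t - 1) * (b * t - 1) := by
  obtain ⟨a, B, hB, rfl⟩ := Nat.exists_eq_pow_mul_and_not_dvd hn 2 (by norm_num)
  have h1 : Nat.Coprime 2 B := (Nat.Prime.coprime_iff_not_dvd Nat.prime_two).2 hB
  obtain ⟨α, α', h2⟩ : IsCoprime ((2 * 2 ^ a : ℕ) : ℤ) B := (h1.mul_left (h1.pow_left a)).cast
  obtain ⟨β, β', h3⟩ : IsCoprime ((b * B : ℕ) : ℤ) (2 ^ a : ℕ) :=
    ((Nat.Coprime.mul_left (Nat.coprime_two_right.2 hb) h1.symm).pow_right a).cast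
  refine ⟨(2 * β - α') * (b * α - β'), 2 ^ a * α + B * β, ?_⟩
  push_cast at h2 h3 ⊢
  rw [show 2 * (2 ^ a * α + B * β) - 1 = B * (2 * β - α') by linear_combination h2,
    show b * (2 ^ a * α + B * β) - 1 = 2 ^ a * (b * α - β') by linear_combination h3]
  ring

theorem nz_dvd (N : ℕ) {h : R} {n : ℤ} (hn : n ≠ 0) (hd : h ∣ n) :
    ∃ s t : R, h * s - (2 * t - 1) * ((2 * N + 1) * t - 1) = 0 := by
  obtain ⟨s, t, e⟩ := nz_nat' (b := 2 * N + 1) ⟨N, rfl⟩ (Int.natAbs_ne_zero.2 hn)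
  obtain ⟨c, hc⟩ : n ∣ (n.natAbs : ℤ) := Int.dvd_natAbs.2 dvd_rfl
  obtain ⟨u, hu⟩ := hd
  rw [hc] at e
  have e' := congrArg (Int.cast : ℤ → R) e
  push_cast at e'
  exact ⟨u * c * s, t, by linear_combination e' - (c * s : R) * hu⟩

theorem pell_pow {π x y : R} (h : pr π x y = 0) (n : ℕ) :
    ∃ c e : R, pr π (x * (n + 4 * y * c)) (y * e) = 0 := by
  induction n with
  | zero => exact ⟨0, 0, by simp [pr]⟩
  | succ n ih =>
    obtain ⟨c, e, h1⟩ := ih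
    refine ⟨n + c * (1 + 4 * y) + e, 1 + e * (1 + 4 * y) + (2 + 4 * y) * (n + 4 * y * c), ?_⟩
    unfold pr at h h1 ⊢
    push_cast
    generalize hd : (n : R) + 4 * y * c = d at h1 ⊢
    have e1 : (n : R) + 1 + 4 * y * (n + c * (1 + 4 * y) + e) =
        d * (1 + 4 * y) + (1 + 4 * (y * e)) := by
      rw [← hd]; ring
    have e2 : 1 + 4 * (y * (1 + e * (1 + 4 * y) + (2 + 4 * y) * d)) =
        (1 + 4 * (y * e)) * (1 + 4 * y) + π * (4 * x) ^ 2 * d := by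
      linear_combination d * h
    rw [e1, e2]
    linear_combination ((1 + 4 * (y * e)) ^ 2 - π * (4 * (x * d)) ^ 2) * h + h1

theorem rz_int {π x y : R} (h : pr π x y = 0) (z : ℤ) (hz : 4 * π * z ^ 2 - 1 ∣ y) :
    ∃ c e b : R, ∀ q ∈ rz π x y z c e b, q = 0 := by
  obtain ⟨b, hb⟩ := hz
  obtain ⟨c, e, h1⟩ : ∃ c e : R, pr π (x * (z + 4 * y * c)) (y * e) = 0 := by
    obtain ⟨n, rfl | rfl⟩ := z.eq_nat_or_neg
    · exact_mod_cast pell_pow h n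
    · obtain ⟨c, e, h1⟩ := pell_pow h n
      refine ⟨-c, e, ?_⟩
      unfold pr at h1 ⊢
      push_cast
      linear_combination h1
  refine ⟨c, e, 4 * b, ?_⟩
  simp only [rz, List.forall_mem_cons, List.not_mem_nil, false_imp_iff, implies_true, and_true]
  exact ⟨h1, by linear_combination 4 * hb⟩

theorem link {A V Y : R} (hV : IsIntegral ℤ V) {n1 n2 : ℤ} {f h : ℤ[X]}
    (hf : n1 * A = aeval Y f) (hh : n2 * Y = aeval V h) :
    ∃ k j : ℤ, 4 * (n1 * n2) ^ 2 * V - 1 ∣ Y - k ∧ Y - k ∣ n1 * n2 * A - j := by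
  obtain ⟨r, u, hu⟩ := inv_int hV (n2 * (4 * n1 ^ 2 * n2))
  obtain ⟨w, hw⟩ := poly_dvd V r h
  obtain ⟨g, hg⟩ := poly_dvd Y (4 * n1 ^ 2 * n2 * r * h.eval r) f
  refine ⟨4 * n1 ^ 2 * n2 * r * h.eval r, n2 * f.eval (4 * n1 ^ 2 * n2 * r * h.eval r),
    ⟨4 * n1 ^ 2 * n2 * r * (r - V * u) * w - Y * u, ?_⟩, ⟨n2 * g, ?_⟩⟩
  · push_cast at hu ⊢
    linear_combination (4 * n1 ^ 2 * n2 * r : R) * hh + (4 * n1 ^ 2 * n2 * r : R) * hw -
      (Y + 4 * n1 ^ 2 * n2 * r * w * V) * hu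
  · push_cast at hg ⊢
    linear_combination (n2 : R) * hf + (n2 : R) * hg

/-- solvability, given a supply of solutions of the Pell equation -/
theorem sys_solve (N l r : ℕ) (hN : N ≠ 0) {π a x1 y1 : R} (h1 : pr π x1 y1 = 0)
    (hV : IsIntegral ℤ (π * ((N : R) ^ l * a + r) ^ 2)) {n1 n2 : ℤ} (hn1 : n1 ≠ 0) (hn2 : n2 ≠ 0)
    {f h : ℤ[X]} (hf : n1 * ((N : R) ^ l * a + r) = aeval (1 + 4 * y1) f)
    (hh : n2 * (1 + 4 * y1) = aeval (π * ((N : R) ^ l * a + r) ^ 2) h)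
    (base : ∀ z1 z2 z3 z4 : ℤ, ∃ x y : R, pr π x y = 0 ∧ (∃ n : ℤ, n ≠ 0 ∧ x ∣ n) ∧
      (4 * π * z1 ^ 2 - 1) * (4 * π * z2 ^ 2 - 1) * (4 * π * z3 ^ 2 - 1) *
        (4 * π * z4 ^ 2 - 1) ∣ y) :
    ∃ y : Fin 24 → R, ∀ q ∈ sys N π a y, q = 0 := by
  obtain ⟨k, j, ⟨d, hd⟩, ⟨g, hg⟩⟩ := link hV hf hh
  obtain ⟨x, y, h2, ⟨n, hn, hx⟩, h3⟩ := base (n1 * n2 * N ^ l) (n1 * n2 * r) k j
  have h4 := dvd_of_mul_right_dvd h3
  have h5 := dvd_of_mul_right_dvd h4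
  obtain ⟨a1, a2, a3, ha⟩ := rz_int h2 _ (dvd_of_mul_right_dvd h5)
  obtain ⟨b1, b2, b3, hb⟩ := rz_int h2 _ (dvd_of_mul_left_dvd h5)
  obtain ⟨c1, c2, c3, hc⟩ := rz_int h2 _ (dvd_of_mul_left_dvd h4)
  obtain ⟨d1, d2, d3, hd0⟩ := rz_int h2 _ (dvd_of_mul_left_dvd h3)
  obtain ⟨s, t, hs⟩ := nz_dvd N (h := x * ((n1 * n2 * N ^ l : ℤ) : R)) (n := n * (n1 * n2 * N ^ l))
    (mul_ne_zero hn (mul_ne_zero (mul_ne_zero hn1 hn2) (pow_ne_zero _ (Nat.cast_ne_zero.2 hN))))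
    (by rw [Int.cast_mul n]; exact mul_dvd_mul_right hx _)
  have h8 : ∀ q ∈ rm N π a x y s t ((n1 * n2 * N ^ l : ℤ) : R) ((n1 * n2 * r : ℤ) : R) k j
      x1 y1 d g, q = 0 := by
    simp only [rm, List.forall_mem_cons, List.not_mem_nil, false_imp_iff, implies_true, and_true]
    refine ⟨h2, hs, h1, ?_, ?_⟩
    · push_cast
      linear_combination hd
    · push_cast
      linear_combination hg
  refine ⟨![x, y, s, t, ((n1 * n2 * N ^ l : ℤ) : R), ((n1 * n2 * r : ℤ) : R), k, j, x1, y1, d, g,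
    a1, a2, a3, b1, b2, b3, c1, c2, c3, d1, d2, d3], ?_⟩
  simp only [sys, List.forall_mem_append]
  exact ⟨⟨⟨⟨ha, hb⟩, hc⟩, hd0⟩, h8⟩

end Pool.Agent.P.MP_5347d0_lc.Loc
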