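import Pool.Agent.P.MP_5347d0_lc.CMMain
import Pool.Agent.P.MP_5347d0_lc.CMAb
import Pool.Agent.P.MP_5347d0_lc.LcG
import Pool.Agent.P.MP_5347d0_lc.LcR

/-! The totally positive element of odd valuation. -/

namespace Pool.Agent.P.MP_5347d0_lc.Loc

open NumberField IntermediateField CM Polynomial
open scoped ComplexConjugate

theorem o_level {x : ℂ} (hx : x ∈ Qcyc) : ∃ N : ℕ, N ≠ 0 ∧ ∀ (K : ℕ) (z : ℂ), K ≠ 0 → N ∣ K →
    IsPrimitiveRoot z K → x ∈ ℚ⟮z⟯ := by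
  unfold Qcyc at hx
  induction hx using IntermediateField.adjoin_induction with
  | mem x hx =>
    obtain ⟨n, hn, h⟩ := hx
    refine ⟨n, hn.ne', ?_⟩
    rintro _ z h0 ⟨j, rfl⟩ hz
    have : NeZero (n * j) := ⟨h0⟩
    obtain ⟨i, -, hi⟩ := hz.eq_pow_of_pow_eq_one (ξ := x) (by rw [pow_mul, h, one_pow])
    exact hi ▸ pow_mem (mem_adjoin_simple_self ℚ z) i
  | algebraMap q => exact ⟨1, one_ne_zero, fun K z _ _ _ => IntermediateField.algebraMap_mem _ q⟩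
  | add x y _ _ hx hy =>
    obtain ⟨N, h1, h3⟩ := hx
    obtain ⟨N', h4, h6⟩ := hy
    exact ⟨N * N', mul_ne_zero h1 h4, fun K z h0 hK hz =>
      add_mem (h3 K z h0 ((dvd_mul_right _ _).trans hK) hz)
        (h6 K z h0 ((dvd_mul_left _ _).trans hK) hz)⟩
  | inv x _ hx =>
    obtain ⟨N, h1, h3⟩ := hx
    exact ⟨N, h1, fun K z h0 hK hz => inv_mem (h3 K z h0 hK hz)⟩
  | mul x y _ _ hx hy =>
    obtain ⟨N, h1, h3⟩ := hx
    obtain ⟨N', h4, h6⟩ := hy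
    exact ⟨N * N', mul_ne_zero h1 h4, fun K z h0 hK hz =>
      mul_mem (h3 K z h0 ((dvd_mul_right _ _).trans hK) hz)
        (h6 K z h0 ((dvd_mul_left _ _).trans hK) hz)⟩

/-- above an odd prime `p` the value of `p` is not the power `2 (p - 1)` of a cyclotomic value -/
theorem gammaL {Γ : Type} [LinearOrderedCommGroupWithZero Γ] {L : IntermediateField ℚ ℂ}
    (hL : Qcyc ≤ L) (v : Valuation L Γ) {p : ℕ} (hp : p.Prime) (hp2 : p ≠ 2)
    (hv : v (p : L) < 1) (u : L) (hu : (u : ℂ) ∈ Qcyc) : v u ^ (2 * (p - 1)) ≠ v (p : L) := by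
  obtain ⟨N, hN, h⟩ := o_level hu
  obtain ⟨k, m, hm, e⟩ := Nat.exists_eq_pow_mul_and_not_dvd hN p hp.ne_one
  have hn : N * p ≠ 0 := mul_ne_zero hN hp.ne_zero
  have : NeZero (N * p) := ⟨hn⟩
  have hz := Complex.isPrimitiveRoot_exp (N * p) hn
  set z := Complex.exp (2 * Real.pi * Complex.I / (N * p : ℕ))
  have hzi : IsIntegral ℚ z := (hz.isIntegral (Nat.pos_of_ne_zero hn)).tower_top
  have hle : ℚ⟮z⟯ ≤ L := le_trans (adjoin_simple_le_iff.2
    (subset_adjoin ℚ {z : ℂ | ∃ n : ℕ, 0 < n ∧ z ^ n = 1}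
      ⟨N * p, Nat.pos_of_ne_zero hn, hz.pow_eq_one⟩)) hL
  have : NumberField ℚ⟮z⟯ :=
    { to_charZero := inferInstance, to_finiteDimensional := adjoin.finiteDimensional hzi }
  have : IsCyclotomicExtension {N * p} ℚ ℚ⟮z⟯ :=
    (IntermediateField.isCyclotomicExtension_singleton_iff_eq_adjoin (N * p) ℚ ℂ _ hz).2 rfl
  have h1 := gamma (n := N * p) (k := k) (m := m) hp hp2
    (by rw [e]; ring) hm (v.comap (inclusion hle).toRingHom)
    (by rwa [Valuation.comap_apply, map_natCast]) ⟨u, h _ z hn (dvd_mul_right _ _) hz⟩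
  rwa [Valuation.comap_apply, Valuation.comap_apply, map_natCast] at h1

theorem o_mem {R σ : Type} [CommRing R] [SetLike σ R] [SubringClass σ R] (S : σ) (M : ℕ)
    {ζ ι : R} (hζ : ζ ∈ S) (hι : ι ∈ S) : piF M ζ ι ∈ S :=
  add_mem (mul_mem (natCast_mem S M) (pow_mem (ofNat_mem S 2) _))
    (prod_mem fun _ _ => mul_mem hι (sub_mem (pow_mem hζ _) (pow_mem (pow_mem hζ _) _)))

theorem o_four {R : Type} [CommRing R] {ι : R} (hι : ι ^ 2 + 1 = 0) : ι ^ 4 = 1 := by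
  linear_combination (ι ^ 2 - 1) * hι

section val

variable {L Γ : Type} [Field L] [LinearOrderedCommGroupWithZero Γ] (v : Valuation L Γ)

theorem o_fac {q : ℕ} (hq : q.Prime) (h2 : Odd q) {ξ ι : L} (hξ : IsPrimitiveRoot ξ q)
    (hι : ι ^ 2 + 1 = 0) : v (ι * (ξ - ξ ^ (q - 1))) ^ (q - 1) = v (q : L) := by
  have h1 := val_root v hq.ne_zero hξ.pow_eq_one
  have h3 := val_root v (n := 4) (by norm_num) (o_four hι)
  have h4 : ξ * ξ ^ (q - 1) = 1 := by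
    rw [← pow_succ', Nat.sub_add_cancel hq.one_le, hξ.pow_eq_one]
  have h5 : ξ * (ξ - ξ ^ (q - 1)) = -(1 - ξ ^ 2) := by linear_combination -h4
  have h6 := congrArg v h5
  rw [map_mul, h1, one_mul, Valuation.map_neg] at h6
  rw [map_mul, h3, one_mul, h6]
  exact val_one_sub v hq (hξ.pow_of_coprime 2 (Nat.coprime_two_left.2 h2))

theorem o_val [CharZero L] {M p : ℕ} (hM : Odd M) (hp : p.Prime) (hpM : p ∣ M) {ζ ι : L}
    (hζ : IsPrimitiveRoot ζ M) (hι : ι ^ 2 + 1 = 0) (hv : v (p : L) < 1) :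
    v (piF M ζ ι) ^ (p - 1) = v (p : L) := by
  have hf : ∀ q ∈ M.primeFactors,
      v (ι * (ζ ^ (M / q) - (ζ ^ (M / q)) ^ (q - 1))) ^ (q - 1) = v (q : L) := fun q hq =>
    o_fac v (Nat.prime_of_mem_primeFactors hq) (hM.of_dvd_nat (Nat.dvd_of_mem_primeFactors hq))
      (hζ.pow hM.pos (Nat.div_mul_cancel (Nat.dvd_of_mem_primeFactors hq)).symm) hι
  have hpm : p ∈ M.primeFactors := Nat.mem_primeFactors.2 ⟨hp, hpM, hM.pos.ne'⟩
  have hp3 : 1 < p - 1 := by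
    have := hp.two_le
    obtain ⟨j, hj⟩ := hM.of_dvd_nat hpM
    omega
  have h1 : v (∏ q ∈ M.primeFactors, ι * (ζ ^ (M / q) - (ζ ^ (M / q)) ^ (q - 1))) =
      v (ι * (ζ ^ (M / p) - (ζ ^ (M / p)) ^ (p - 1))) := by
    rw [map_prod]
    refine Finset.prod_eq_single_of_mem p hpm fun q hq hne => ?_
    have hq' := Nat.prime_of_mem_primeFactors hq
    have h2 := hf q hq
    rw [val_coprime v ((Nat.coprime_primes hp hq').2 hne.symm) hv] at h2
    exact (pow_eq_one_iff_left (by have := hq'.two_le; omega)).1 h2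
  have h2 := hf p hpm
  rw [← h1] at h2
  have h0 : v (p : L) ≠ 0 := v.ne_zero_iff.2 (Nat.cast_ne_zero.2 hp.ne_zero)
  have h3 : v ((M : L) * 2 ^ M.primeFactors.card) ≤ v (p : L) := by
    obtain ⟨m, hm⟩ := hpM
    have e : (M : L) * 2 ^ M.primeFactors.card = p * ((m * 2 ^ M.primeFactors.card : ℕ) : L) := by
      generalize M.primeFactors.card = w
      rw [hm]
      push_cast
      ring
    rw [e, map_mul]
    exact mul_le_of_le_one_right' (val_nat v _)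
  unfold piF
  generalize ∏ q ∈ M.primeFactors, ι * (ζ ^ (M / q) - (ζ ^ (M / q)) ^ (q - 1)) = f at h2 ⊢
  have h4 : 0 < v f := zero_lt_iff.2 fun h => h0 (by rw [← h2, h, zero_pow (by omega)])
  have h5 : v f < 1 := by
    by_contra h
    exact absurd (h2 ▸ one_le_pow₀ (not_lt.1 h)) (not_le.2 hv)
  have h6 : v (p : L) < v f := by
    have := pow_right_strictAnti₀ h4 h5 hp3
    simp only [pow_one] at this
    rwa [h2] at this
  rw [v.map_add_eq_of_lt_right (h3.trans_lt h6), h2]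

end val

theorem o_real {q : ℕ} (hq : q ≠ 0) {z j : ℂ} (hz : z ^ q = 1) (hj : j ^ 2 + 1 = 0) :
    ∃ s : ℝ, |s| ≤ 2 ∧ j * (z - z ^ (q - 1)) = s := by
  obtain ⟨n, rfl⟩ : ∃ n, q = n + 1 := ⟨q - 1, by omega⟩
  have h1 : |z.im| ≤ 1 :=
    (Complex.abs_im_le_norm z).trans (Complex.norm_eq_one_of_pow_eq_one hz hq).le
  have h2 : (j - Complex.I) * (j + Complex.I) = 0 := by
    linear_combination hj - Complex.I_sq
  rw [Nat.add_sub_cancel, ← root_conj hz, Complex.sub_conj]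
  have h3 := abs_le.1 h1
  rcases mul_eq_zero.1 h2 with h | h
  · refine ⟨-(2 * z.im), abs_le.2 ⟨by linarith [h3.2], by linarith [h3.1]⟩, ?_⟩
    rw [sub_eq_zero.1 h]
    push_cast
    linear_combination (2 * (z.im : ℂ)) * Complex.I_sq
  · refine ⟨2 * z.im, abs_le.2 ⟨by linarith [h3.1], by linarith [h3.2]⟩, ?_⟩
    rw [eq_neg_of_add_eq_zero_left h]
    push_cast
    linear_combination (-(2 * (z.im : ℂ))) * Complex.I_sq

theorem o_pos {M : ℕ} (hM : 2 ≤ M) {z j : ℂ} (hz : z ^ M = 1) (hj : j ^ 2 + 1 = 0) :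
    ∃ t : ℝ, 0 < t ∧ piF M z j = t := by
  have h : ∀ q : ℕ, ∃ s : ℝ, q ∈ M.primeFactors →
      |s| ≤ 2 ∧ j * (z ^ (M / q) - (z ^ (M / q)) ^ (q - 1)) = s := by
    intro q
    by_cases hq : q ∈ M.primeFactors
    · obtain ⟨s, hs⟩ := o_real (Nat.prime_of_mem_primeFactors hq).ne_zero (z := z ^ (M / q))
        (by rw [← pow_mul, Nat.div_mul_cancel (Nat.dvd_of_mem_primeFactors hq), hz]) hj
      exact ⟨s, fun _ => hs⟩
    · exact ⟨0, fun h => absurd h hq⟩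
  choose s hs using h
  have h1 : |∏ q ∈ M.primeFactors, s q| ≤ 2 ^ M.primeFactors.card := by
    rw [Finset.abs_prod, ← Finset.prod_const]
    exact Finset.prod_le_prod (fun _ _ => abs_nonneg _) fun q hq => (hs q hq).1
  have h2 : (2 : ℝ) ≤ M := by exact_mod_cast hM
  have h3 : (0 : ℝ) < 2 ^ M.primeFactors.card := by positivity
  refine ⟨M * 2 ^ M.primeFactors.card + ∏ q ∈ M.primeFactors, s q, ?_, ?_⟩
  · nlinarith [(abs_le.1 h1).1]
  · unfold piF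
    rw [Finset.prod_congr rfl fun q hq => (hs q hq).2]
    push_cast
    rfl

theorem o_sqrt {π : Qcm} (h : ∀ ψ : Qcm →+* ℂ, ∃ t : ℝ, 0 < t ∧ ψ π = t) :
    ∃ θ : Qcm, θ ^ 2 = π ∧ cQ θ = θ := by
  have := alg_cm
  obtain ⟨t, ht, e⟩ := h Qcm.val.toRingHom
  have e1 : ((Real.sqrt t : ℝ) : ℂ) ^ 2 = (π : ℂ) := by
    rw [← Complex.ofReal_pow, Real.sq_sqrt ht.le]
    exact e.symm
  have hT : TotReal ((Real.sqrt t : ℝ) : ℂ) := by
    refine ⟨(minpoly ℚ π).comp (X ^ 2), fun h => ?_, ?_, fun w hw => ?_⟩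
    · rw [comp_eq_zero_iff] at h
      rcases h with h | ⟨_, h⟩
      · exact minpoly.ne_zero (Algebra.IsIntegral.isIntegral _) h
      · have h2 := congrArg (fun p : ℚ[X] => p.coeff 2) h
        simp at h2
    · rw [aeval_comp, map_pow, aeval_X, e1]
      exact aeval_val _
    · rw [aeval_comp, map_pow, aeval_X] at hw
      obtain ⟨ψ, h1⟩ := exists_emb _ hw
      obtain ⟨u, hu, h2⟩ := h ψ.toRingHom
      have h3 : w ^ 2 = ((Real.sqrt u : ℝ) : ℂ) ^ 2 := by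
        rw [← Complex.ofReal_pow, Real.sq_sqrt hu.le, ← h1]
        exact h2
      rcases sq_eq_sq_iff_eq_or_eq_neg.1 h3 with h4 | h4
      · rw [h4, Complex.ofReal_im]
      · rw [h4, Complex.neg_im, Complex.ofReal_im, neg_zero]
  exact ⟨⟨_, IntermediateField.subset_adjoin ℚ _ (Or.inr hT)⟩, Subtype.ext e1,
    Subtype.ext (Complex.conj_ofReal _)⟩

theorem pi_facts {M : ℕ} (hM : Odd M) (h3 : 3 ∣ M) {ζ ι : Qcm} (hζ : IsPrimitiveRoot ζ M)
    (hι : ι ^ 2 + 1 = 0) :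
    IsIntegral ℤ (piF M ζ ι) ∧ ((piF M ζ ι : Qcm) : ℂ) ∈ Qcyc ∧
    (∀ ψ : Qcm →+* ℂ, ∃ t : ℝ, 0 < t ∧ ψ (piF M ζ ι) = t) ∧
    (∀ V : ValuationSubring Qcm, V.valuation (M : Qcm) < 1 → ∀ w : Qcm, (w : ℂ) ∈ Qcyc →
      V.valuation (piF M ζ ι * w ^ 2) ≠ 1) ∧
    (∃ θ : Qcm, θ ^ 2 = piF M ζ ι ∧ cQ θ = θ) ∧
    ∀ w : Qcm, (w : ℂ) ∈ Qcyc → w ^ 2 ≠ piF M ζ ι := by
  have hM3 : 3 ≤ M := Nat.le_of_dvd hM.pos h3
  have hpos : ∀ ψ : Qcm →+* ℂ, ∃ t : ℝ, 0 < t ∧ ψ (piF M ζ ι) = t := fun ψ => by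
    rw [piF_map]
    exact o_pos (by omega) (by rw [← map_pow, hζ.pow_eq_one, map_one])
      (by rw [← map_pow, ← map_one ψ, ← map_add, hι, map_zero])
  have hodd : ∀ V : ValuationSubring Qcm, V.valuation (M : Qcm) < 1 → ∀ w : Qcm,
      (w : ℂ) ∈ Qcyc → V.valuation (piF M ζ ι * w ^ 2) ≠ 1 := by
    intro V hV w hw h
    obtain ⟨p, hp, hpM, hv⟩ := val_prime V.valuation hM.pos.ne' hV
    have h2 : p ≠ 2 := by
      obtain ⟨j, hj⟩ := hM.of_dvd_nat hpM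
      omega
    refine gammaL (sup_eq ▸ le_sup_left) V.valuation hp h2 hv w⁻¹ (inv_mem hw) ?_
    rw [map_mul, map_pow] at h
    rw [← o_val V.valuation hM hp hpM hζ hι hv, eq_inv_of_mul_eq_one_left h, map_inv₀, pow_mul,
      inv_pow]
  refine ⟨o_mem (integralClosure ℤ Qcm) M (hζ.isIntegral hM.pos)
    (IsIntegral.of_pow (n := 4) (by norm_num) (o_four hι ▸ isIntegral_one)), ?_, hpos, hodd,
    o_sqrt hpos, fun w hw h => ?_⟩
  · have e : ((piF M ζ ι : Qcm) : ℂ) = piF M (ζ : ℂ) (ι : ℂ) := piF_map Qcm.val.toRingHom M ζ ι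
    rw [e]
    exact o_mem Qcyc M
      (IntermediateField.subset_adjoin ℚ _ ⟨M, hM.pos, congrArg Subtype.val hζ.pow_eq_one⟩)
      (IntermediateField.subset_adjoin ℚ _ ⟨4, by norm_num, congrArg Subtype.val (o_four hι)⟩)
  · have hw0 : w ≠ 0 := by
      rintro rfl
      obtain ⟨t, ht, e⟩ := hpos Qcm.val.toRingHom
      rw [← h, zero_pow two_ne_zero, map_zero] at e
      exact ht.ne (by exact_mod_cast e)
    have hM0 : (M : Qcm) ≠ 0 := Nat.cast_ne_zero.2 hM.pos.ne'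
    have h1 : IsIntegral ℤ (M : Qcm)⁻¹ := by
      refine int_of_val (N := M) ⟨1, ?_⟩ fun V hV => absurd ?_ (hodd V hV w⁻¹ (inv_mem hw))
      · rw [pow_one, mul_inv_cancel₀ hM0]
        exact isIntegral_one
      · rw [← h, ← mul_pow, mul_inv_cancel₀ hw0, one_pow, map_one]
    have e : (M : Qcm)⁻¹ = algebraMap ℚ Qcm (M : ℚ)⁻¹ := by rw [map_inv₀, map_natCast]
    rw [e, isIntegral_algebraMap_iff (algebraMap ℚ Qcm).injective,
      IsIntegrallyClosed.isIntegral_iff] at h1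
    obtain ⟨n, hn⟩ := h1
    have h4 : (M : ℚ) ≠ 0 := Nat.cast_ne_zero.2 hM.pos.ne'
    have h5 : ((n * M : ℤ) : ℚ) = 1 := by
      rw [Int.cast_mul, Int.cast_natCast, ← eq_intCast (algebraMap ℤ ℚ) n, hn, inv_mul_cancel₀ h4]
    have h6 : n * M = 1 := by exact_mod_cast h5
    obtain ⟨m, rfl⟩ := h3
    have h7 : 3 * (n * m) = 1 := by
      rw [← h6]
      push_cast
      ring
    omega

end Pool.Agent.P.MP_5347d0_lc.Loc
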