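import Mathlib

/-! Solutions of the Pell equation over totally real number fields. -/

namespace Pool.Agent.P.MP_5347d0_lc.Loc

open NumberField IntermediateField

theorem unit_rel {M : Type} [Field M] [NumberField M] (hre : ∀ ψ : M →+* ℂ, ∀ x, (ψ x).im = 0)
    (σ : M →+* M) (hσ : ∀ x, σ (σ x) = x) (ψ₁ : M →+* ℂ) (h1 : ψ₁.comp σ ≠ ψ₁) (m : 𝓞 M)
    (hm : m ≠ 0) : ∃ e : 𝓞 M, (e : M) * σ e = 1 ∧ m ∣ e - 1 ∧ 1 < ‖ψ₁ e‖ ∧
      ∀ ψ : M →+* ℂ, ψ ≠ ψ₁ → ψ.comp σ ≠ ψ₁ → ‖ψ e‖ < ‖ψ₁ e‖ := by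
  classical
  have hc : ∀ ψ : M →+* ℂ, ComplexEmbedding.IsReal ψ := fun ψ =>
    ComplexEmbedding.isReal_iff.2 (RingHom.ext fun x => Complex.conj_eq_iff_im.2 (hre ψ x))
  have hw : ∀ w : InfinitePlace M, (w.mult : ℝ) = 1 := fun w => by
    rw [(InfinitePlace.isReal_iff.2 (hc _)).mult_eq_one, Nat.cast_one]
  obtain ⟨u, hu⟩ := NumberField.Units.dirichletUnitTheorem.exists_unit M (InfinitePlace.mk ψ₁)
  have hs := NumberField.Units.sum_mult_mul_log u
  simp only [hw, one_mul] at hs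
  obtain ⟨U, hU⟩ : ∃ U : M, U = ((u : 𝓞 M) : M) := ⟨_, rfl⟩
  have hU0 : U ≠ 0 := hU ▸ NumberField.Units.coe_ne_zero u
  have pos : ∀ ψ : M →+* ℂ, 0 < ‖ψ U‖ := fun ψ => norm_pos_iff.2 ((map_ne_zero ψ).2 hU0)
  have key : ∀ ψ : M →+* ℂ, ψ ≠ ψ₁ → ‖ψ U‖ < 1 ∧ 1 ≤ ‖ψ U‖ * ‖ψ₁ U‖ := by
    intro ψ h
    have h2 : InfinitePlace.mk ψ ≠ InfinitePlace.mk ψ₁ := fun h0 =>
      h ((InfinitePlace.mk_eq_iff.1 h0).elim id fun h3 =>
        (ComplexEmbedding.isReal_iff.1 (hc ψ)).symm.trans h3)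
    have h3 : Real.log ‖ψ U‖ < 0 := hU ▸ hu _ h2
    refine ⟨(Real.log_neg_iff (pos ψ)).1 h3, ?_⟩
    rw [← Real.log_nonneg_iff (mul_pos (pos ψ) (pos ψ₁)), Real.log_mul (pos ψ).ne' (pos ψ₁).ne']
    have h4 := Finset.sum_le_sum_of_subset_of_nonneg
      (f := fun w : InfinitePlace M => -Real.log (w u))
      (Finset.subset_univ {InfinitePlace.mk ψ, InfinitePlace.mk ψ₁}) fun w _ h5 =>
        neg_nonneg.2 (hu w fun h6 => h5 (by simp [h6])).le
    rw [Finset.sum_pair h2, Finset.sum_neg_distrib, hs, ← neg_add, neg_zero, neg_nonpos] at h4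
    rw [hU]
    exact h4
  let u' : (𝓞 M)ˣ := u * (Units.map (RingOfIntegers.mapRingHom σ).toMonoidHom u)⁻¹
  have hu' : ((u' : 𝓞 M) : M) = U / σ U := by
    rw [eq_div_iff ((map_ne_zero σ).2 hU0), hU]
    exact congrArg (fun z : (𝓞 M)ˣ => ((z : 𝓞 M) : M))
      (inv_mul_cancel_right u (Units.map (RingOfIntegers.mapRingHom σ).toMonoidHom u))
  have hfin : Finite (𝓞 M ⧸ Ideal.span {m}) :=
    Ring.HasFiniteQuotients.finiteQuotient (by rwa [Ne, Ideal.span_singleton_eq_bot])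
  obtain ⟨k, hk, hpow⟩ := (isOfFinOrder_of_finite (Units.map
    (Ideal.Quotient.mk (Ideal.span {m})).toMonoidHom u')).exists_pow_eq_one
  have he : (((u' : 𝓞 M) ^ k : 𝓞 M) : M) = (U / σ U) ^ k := by rw [← hu']; rfl
  obtain ⟨a1, a2⟩ := key _ h1
  have p1 : 0 < ‖ψ₁ (σ U)‖ := pos (ψ₁.comp σ)
  have a3 : ‖ψ₁ U‖ < ‖ψ₁ U‖ / ‖ψ₁ (σ U)‖ := by
    rw [lt_div_iff₀ p1]
    exact mul_lt_of_lt_one_right (pos ψ₁) a1
  refine ⟨(u' : 𝓞 M) ^ k, ?_, ?_, ?_, fun ψ h2 h3 => ?_⟩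
  · rw [he, map_pow, ← mul_pow, map_div₀, hσ, div_mul_div_cancel₀ ((map_ne_zero σ).2 hU0),
      div_self hU0, one_pow]
  · rw [← Ideal.mem_span_singleton, ← Ideal.Quotient.eq]
    simpa using congrArg Units.val hpow
  · rw [he, map_pow, norm_pow, map_div₀, norm_div]
    refine one_lt_pow₀ (lt_of_le_of_lt ?_ a3) hk.ne'
    exact a2.trans (mul_le_of_le_one_left (pos ψ₁).le a1.le)
  · simp only [he, map_pow, norm_pow, map_div₀, norm_div]
    refine pow_lt_pow_left₀ (lt_trans ?_ a3) (by positivity) hk.ne'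
    rw [div_lt_iff₀ (show 0 < ‖ψ (σ U)‖ from pos (ψ.comp σ)), mul_comm]
    exact (key ψ h2).1.trans_le (key _ h3).2

theorem pell {F : Type} [Field F] [NumberField F] (hre : ∀ φ : F →+* ℂ, ∀ x, (φ x).im = 0)
    (π : 𝓞 F) (hpos : ∀ φ : F →+* ℂ, 0 < (φ π).re) (hsq : ∀ r : F, r ^ 2 ≠ π)
    (m : 𝓞 F) (hm : m ≠ 0) :
    ∃ X Y : 𝓞 F, Y ^ 2 - π * X ^ 2 = 1 ∧ m ∣ X ∧ m ∣ Y - 1 ∧ X ≠ 0 ∧ ℚ⟮(Y : F)⟯ = ⊤ := by
  have : Fact (∀ r : F, r ^ 2 ≠ (π : F) + 0 * r) := ⟨fun r => by simpa using hsq r⟩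
  let M := QuadraticAlgebra F (π : F) 0
  have : NumberField M := NumberField.of_module_finite F M
  let i : F →+* M := algebraMap F M
  let ω : M := QuadraticAlgebra.omega
  let σ : M →+* M := starRingEnd M
  have hω : ω ^ 2 = i π := by
    ext <;> simp [ω, i, M, sq]
  have dec : ∀ z : M, z = i z.re + i z.im * ω := fun z => by
    ext <;> simp [ω, i, M]
  have dec' : ∀ z : M, σ z = i z.re - i z.im * ω := fun z => by
    ext <;> simp [ω, i, M, σ, starRingEnd_apply]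
  have hσ : ∀ x : F, σ (i x) = i x := fun x => by
    rw [dec']
    simp [i, M]
  have hπ : (π : F) ≠ 0 := fun h0 => hsq 0 (by rw [h0]; simp)
  have hM : ∀ ψ : M →+* ℂ, ∀ x, (ψ x).im = 0 := by
    intro ψ x
    have h1 := congrArg ψ hω
    rw [map_pow] at h1
    have h2 := congrArg Complex.im h1
    have h3 := congrArg Complex.re h1
    have h4 : (ψ (i π)).im = 0 := hre (ψ.comp i) π
    have h5 : 0 < (ψ (i π)).re := hpos (ψ.comp i)
    rw [sq, Complex.mul_im, h4] at h2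
    rw [sq, Complex.mul_re] at h3
    have h6 : (ψ ω).im = 0 := by
      by_contra h6
      have h7 : (ψ ω).re = 0 := mul_right_cancel₀ h6 (by linarith)
      rw [h7] at h3
      nlinarith [mul_self_nonneg (ψ ω).im]
    have h7 : (ψ (i x.re)).im = 0 := hre (ψ.comp i) _
    have h8 : (ψ (i x.im)).im = 0 := hre (ψ.comp i) _
    rw [dec x, map_add, map_mul, Complex.add_im, Complex.mul_im, h6, h7, h8]
    ring
  let ψ₁ : M →+* ℂ := Classical.choice inferInstance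
  have hω0 : ω ≠ 0 := fun h0 => hπ (i.injective (by rw [← hω, h0, map_zero]; simp))
  have h1 : ψ₁.comp σ ≠ ψ₁ := by
    intro h
    have h2 : σ ω = ω := ψ₁.injective (DFunLike.congr_fun h ω)
    have h3 := congrArg QuadraticAlgebra.im h2
    simp [σ, ω, M, starRingEnd_apply] at h3
    norm_num at h3
  let j : 𝓞 F →+* 𝓞 M := RingOfIntegers.mapRingHom i
  obtain ⟨e, e1, ⟨s, e2⟩, e3, e4⟩ := unit_rel hM σ star_star ψ₁ h1 (j (2 * π * m)) (by
    intro h0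
    have h2 : i ((2 * π * m : 𝓞 F) : F) = 0 := congrArg (fun z : 𝓞 M => (z : M)) h0
    exact mul_ne_zero (mul_ne_zero (by exact_mod_cast (by norm_num : (2 : ℕ) ≠ 0))
      (fun h => hπ (by rw [h]; rfl))) hm (RingOfIntegers.ext ((map_eq_zero i).1 h2)))
  have up : ∀ x : F, IsIntegral ℤ (i x) → IsIntegral ℤ x := fun x =>
    (isIntegral_algHom_iff i.toIntAlgHom i.injective).1
  have si : IsIntegral ℤ (s : M) := s.isIntegral_coe
  have si' : IsIntegral ℤ (σ s) := si.map σ.toIntAlgHom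
  have ωi : IsIntegral ℤ ω := IsIntegral.of_pow two_pos (hω ▸ π.isIntegral_coe.map i.toIntAlgHom)
  let A : 𝓞 F := ⟨2 * (s : M).re, up _ (by
    rw [show i (2 * (s : M).re) = s + σ s by
      rw [map_mul, map_ofNat]; linear_combination - dec s - dec' s]
    exact si.add si')⟩
  let B : 𝓞 F := ⟨2 * (s : M).im * π, up _ (by
    rw [show i (2 * (s : M).im * π) = (s - σ s) * ω by
      rw [map_mul, map_mul, map_ofNat]
      linear_combination ω * (dec' s - dec s) - 2 * i (s : M).im * hω]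
    exact (si.sub si').mul ωi)⟩
  have e5 : (e : M) - 1 = 2 * i π * i m * s := by
    have h2 : (e : M) - 1 = i (2 * π * m) * s := congrArg (fun z : 𝓞 M => (z : M)) e2
    rwa [map_mul, map_mul, map_ofNat] at h2
  have hA : i A = 2 * i (s : M).re := by
    change i (2 * (s : M).re) = _
    rw [map_mul, map_ofNat]
  have hB : i B = 2 * i (s : M).im * i π := by
    change i (2 * (s : M).im * π) = _
    rw [map_mul, map_mul, map_ofNat]
  obtain ⟨X, hX⟩ : ∃ X, X = m * B := ⟨_, rfl⟩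
  obtain ⟨Y, hY⟩ : ∃ Y, Y = 1 + m * (π * A) := ⟨_, rfl⟩
  have hX' : i X = i m * i B := by rw [hX, ← map_mul]; rfl
  have hY' : i Y = 1 + i m * (i π * i A) := by
    rw [hY, ← map_mul, ← map_mul, ← map_one i, ← map_add]; rfl
  have e6 : (e : M) = i Y + i X * ω := by
    rw [hX', hY', hA, hB]
    linear_combination e5 + 2 * i π * i m * dec s
  have e7 : σ e = i Y - i X * ω := by
    have h2 := congrArg σ e5
    rw [map_sub, map_one, map_mul, map_mul, map_mul, map_ofNat, hσ, hσ] at h2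
    rw [hX', hY', hA, hB]
    linear_combination h2 + 2 * i π * i m * dec' s
  refine ⟨X, Y, RingOfIntegers.ext (i.injective ?_), ⟨B, hX⟩, ⟨π * A, by rw [hY]; ring⟩,
    fun h0 => ?_, ?_⟩
  · change i (Y ^ 2 - π * X ^ 2) = i 1
    rw [map_sub, map_mul, map_pow, map_pow, map_one, ← e1, e7, e6]
    linear_combination (i X) ^ 2 * hω
  · have h2 : i X = 0 := by rw [h0]; exact map_zero i
    have h3 : (e : M) * e = 1 := by
      rw [← e1, e7, e6, h2]
      ring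
    have h4 := congrArg (fun z => ‖ψ₁ z‖) h3
    simp only [map_mul, norm_mul, map_one, norm_one] at h4
    nlinarith
  · refine (Field.primitive_element_iff_algHom_eq_of_eval ℚ ℂ (fun x => IsAlgClosed.splits _) _
      (ψ₁.comp i).toRatAlgHom).2 fun φ h => ?_
    let ψ : M →+* ℂ := ComplexEmbedding.lift M φ.toRingHom
    have hψ : ∀ x, ψ (i x) = φ x := ComplexEmbedding.lift_algebraMap_apply M φ.toRingHom
    by_contra hc
    have n1 : ψ ≠ ψ₁ := fun h0 => hc (AlgHom.ext fun x => by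
      rw [← hψ, h0]; rfl)
    have n2 : ψ.comp σ ≠ ψ₁ := fun h0 => hc (AlgHom.ext fun x => by
      rw [← hψ, ← hσ, ← h0]; rfl)
    have l1 := e4 ψ n1 n2
    have l2 : ‖ψ (σ e)‖ < ‖ψ₁ e‖ := e4 (ψ.comp σ) n2 (by
      rwa [show (ψ.comp σ).comp σ = ψ from RingHom.ext fun x => congrArg ψ (star_star x)])
    have e8 : (e : M) + σ e = 2 * i Y := by linear_combination e6 + e7
    have h2 : ψ₁ (i Y) = ψ (i Y) := (hψ Y).symm ▸ h
    have s1 := congrArg ψ e8
    have s2 := congrArg ψ₁ e8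
    have s3 := congrArg ψ e1
    have s4 := congrArg ψ₁ e1
    simp only [map_add, map_mul, map_ofNat, map_one] at s1 s2 s3 s4
    have h3 : (ψ₁ e - ψ e) * (ψ₁ e - ψ (σ e)) = 0 := by
      linear_combination ψ₁ e * (s2 - s1) + 2 * ψ₁ e * h2 + s3 - s4
    rcases mul_eq_zero.1 h3 with h4 | h4
    · exact l1.ne' (by rw [sub_eq_zero.1 h4])
    · exact l2.ne' (by rw [sub_eq_zero.1 h4])

end Pool.Agent.P.MP_5347d0_lc.Loc
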