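import Pool.Agent.P.MP_5347d0_lc.LcS
import Pool.Agent.P.MP_5347d0_lc.LcP
import Pool.Agent.P.MP_5347d0_lc.LcO

/-! The real elements of the ring of cyclotomic integers with an odd number inverted form a
Diophantine set. -/

namespace Pool.Agent.P.MP_5347d0_lc.Loc

open NumberField IntermediateField Polynomial CM
open scoped ComplexConjugate

section nf

variable {F : Type} [Field F] [NumberField F]

theorem gen {A π : F} (hπ : π ≠ 0)
    (h : ∀ φ ψ : F →ₐ[ℚ] ℂ, φ A = ψ A → φ π = ψ π → φ = ψ) :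
    ∃ r : ℕ, ℚ⟮π * (A + r) ^ 2⟯ = ⊤ := by
  by_contra hc
  let φ : F →ₐ[ℚ] ℂ := (Classical.choice (inferInstance : Nonempty (F →+* ℂ))).toRatAlgHom
  have h1 : ∀ r : ℕ, ∃ ψ : F →ₐ[ℚ] ℂ, φ (π * (A + r) ^ 2) = ψ (π * (A + r) ^ 2) ∧ φ ≠ ψ := by
    intro r
    by_contra h2
    refine hc ⟨r, (Field.primitive_element_iff_algHom_eq_of_eval ℚ ℂ
      (fun x => IsAlgClosed.splits _) _ φ).2 fun ψ h3 => ?_⟩
    by_contra h4
    exact h2 ⟨ψ, h3, h4⟩
  choose g h2 h3 using h1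
  obtain ⟨ψ, hψ⟩ := Finite.exists_infinite_fiber g
  have h4 : (g ⁻¹' {ψ}).Infinite := Set.infinite_coe_iff.1 hψ
  have h5 : (C (φ π) * (C (φ A) + X) ^ 2 - C (ψ π) * (C (ψ A) + X) ^ 2 : ℂ[X]) = 0 := by
    refine eq_zero_of_infinite_isRoot _
      ((h4.image (f := fun r : ℕ => (r : ℂ)) Nat.cast_injective.injOn).mono ?_)
    rintro _ ⟨r, hr, rfl⟩
    have h6 := h2 r
    rw [show g r = ψ from hr] at h6
    simp only [map_mul, map_pow, map_add, map_natCast] at h6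
    simp only [Set.mem_ofPred_eq, IsRoot.def, eval_sub, eval_mul, eval_pow, eval_add, eval_C,
      eval_X]
    exact sub_eq_zero.2 h6
  have h6 : ∀ t : ℂ, φ π * (φ A + t) ^ 2 - ψ π * (ψ A + t) ^ 2 = 0 := fun t => by
    simpa only [eval_sub, eval_mul, eval_pow, eval_add, eval_C, eval_X, eval_zero] using
      congrArg (eval t) h5
  have h7 : φ π = ψ π := by linear_combination (h6 1 + h6 (-1) - 2 * h6 0) / 2
  have h8 : φ A = ψ A := mul_left_cancel₀ ((map_ne_zero φ).2 hπ) (by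
    linear_combination (h6 1 - h6 (-1)) / 4 - ψ A * h7)
  obtain ⟨r, hr⟩ := h4.nonempty
  exact h3 r ((h φ ψ h8 h7).trans (show g r = ψ from hr).symm)

theorem solve_nf (hre : ∀ φ : F →+* ℂ, ∀ x, (φ x).im = 0) (π A : 𝓞 F)
    (hpos : ∀ φ : F →+* ℂ, 0 < (φ π).re) (hsq : ∀ r : F, r ^ 2 ≠ π)
    (h : ∀ φ ψ : F →ₐ[ℚ] ℂ, φ A = ψ A → φ π = ψ π → φ = ψ)
    {R : Type} [CommRing R] (ρ : 𝓞 F →+* R) {N l : ℕ} (hN : N ≠ 0) {a : R}
    (hA : ρ A = (N : R) ^ l * a) : ∃ y : Fin 24 → R, ∀ q ∈ sys N (ρ π) a y, q = 0 := by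
  have hπ : (π : F) ≠ 0 := fun h0 => hsq 0 (by rw [h0]; simp)
  obtain ⟨r, hr⟩ := gen hπ h
  have key : ∀ m : 𝓞 F, m ≠ 0 → ∃ x y : 𝓞 F, pr π x y = 0 ∧ x ≠ 0 ∧ m ∣ y ∧
      ℚ⟮((1 + 4 * y : 𝓞 F) : F)⟯ = ⊤ := by
    intro m hm
    obtain ⟨X, Y, h1, ⟨x, rfl⟩, ⟨y, h2⟩, h3, h4⟩ := pell hre π hpos hsq (4 * m)
      (mul_ne_zero (by exact_mod_cast (by norm_num : (4 : ℕ) ≠ 0)) hm)
    have e : 1 + 4 * (m * y) = Y := by linear_combination -h2
    refine ⟨m * x, m * y, ?_, mul_ne_zero hm (right_ne_zero_of_mul h3), dvd_mul_right _ _, ?_⟩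
    · unfold pr
      rw [e]
      linear_combination h1
    · rwa [e]
  have hpr : ∀ x y : 𝓞 F, pr π x y = 0 → pr (ρ π) (ρ x) (ρ y) = 0 := fun x y h1 => by
    simpa only [pr, map_sub, map_mul, map_pow, map_add, map_one, map_ofNat, map_zero] using
      congrArg ρ h1
  obtain ⟨x1, y1, h1, -, -, h2⟩ := key 1 one_ne_zero
  obtain ⟨n1, hn1, f, hf⟩ := int_poly (θ := 1 + 4 * y1) (y := A + (r : 𝓞 F))
    (by rw [h2]; exact mem_top)
  have hr' : ((π * (A + (r : 𝓞 F)) ^ 2 : 𝓞 F) : F) = π * (A + r) ^ 2 := by simp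
  obtain ⟨n2, hn2, g, hg⟩ := int_poly (θ := π * (A + (r : 𝓞 F)) ^ 2) (y := 1 + 4 * y1)
    (by rw [hr', hr]; exact mem_top)
  have ae : ∀ (u : 𝓞 F) (q : ℤ[X]), ρ (aeval u q) = aeval (ρ u) q := fun u q =>
    (aeval_algHom_apply ρ.toIntAlgHom u q).symm
  have hf' := (congrArg ρ hf).trans (ae _ _)
  have hg' := (congrArg ρ hg).trans (ae _ _)
  have hV := (Algebra.IsIntegral.isIntegral (R := ℤ) (π * (A + (r : 𝓞 F)) ^ 2)).map ρ.toIntAlgHom
  simp only [RingHom.toIntAlgHom_apply, map_mul, map_pow, map_add, map_one, map_ofNat,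
    map_natCast, map_intCast, hA] at hf' hg' hV
  refine sys_solve N l r hN (hpr _ _ h1) hV hn1 hn2 hf' hg' fun z1 z2 z3 z4 => ?_
  have h3 : ∀ z : ℤ, 4 * π * (z : 𝓞 F) ^ 2 - 1 ≠ 0 := by
    intro z h0
    have h4 : 4 * (π : F) * (z : F) ^ 2 - 1 = 0 := by
      simpa only [map_sub, map_mul, map_pow, map_one, map_ofNat, map_intCast, map_zero] using
        congrArg (algebraMap (𝓞 F) F) h0
    exact hsq (2 * z * π) (by linear_combination (π : F) * h4)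
  obtain ⟨x, y, h4, h5, h6, -⟩ := key _
    (mul_ne_zero (mul_ne_zero (mul_ne_zero (h3 z1) (h3 z2)) (h3 z3)) (h3 z4))
  obtain ⟨n, hn, h7⟩ := (Algebra.IsIntegral.isIntegral (R := ℤ) x).isAlgebraic.exists_nonzero_dvd
    (mem_nonZeroDivisors_of_ne_zero h5)
  refine ⟨ρ x, ρ y, hpr _ _ h4, ⟨n, hn, by simpa using map_dvd ρ h7⟩, ?_⟩
  simpa only [map_sub, map_mul, map_pow, map_one, map_ofNat, map_intCast] using map_dvd ρ h6

end nf

theorem cyc_le : Qcyc ≤ Qcm := sup_eq ▸ le_sup_left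

theorem int_val {x : Qcm} : IsIntegral ℤ (x : ℂ) ↔ IsIntegral ℤ x :=
  isIntegral_algHom_iff (Qcm.val.restrictScalars ℤ) Subtype.val_injective

theorem conj_cyc {z : ℂ} (hz : z ∈ Qcyc) : conj z ∈ Qcyc := by
  have h : Qcyc ≤ Qcyc.comap (starRingEnd ℂ).toRatAlgHom := by
    refine IntermediateField.adjoin_le_iff.2 ?_
    rintro z ⟨n, hn, h⟩
    exact IntermediateField.subset_adjoin ℚ _
      ⟨n, hn, by change conj z ^ n = 1; rw [← map_pow, h, map_one]⟩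
  exact h hz

theorem prim_iff {M : ℕ} (hM : 0 < M) (ζ : Qcm) :
    aeval ζ (cyclotomic M ℤ) = 0 ↔ IsPrimitiveRoot ζ M := by
  rw [← isRoot_cyclotomic_iff_charZero hM, ← map_cyclotomic_int M Qcm, IsRoot.def, eval_map,
    aeval_def, algebraMap_int_eq]

variable {N : ℕ} {R : Subring ℂ} (hR : ∀ z ∈ R, z ∈ Qcyc ∧ Lc N z)

/-- the inclusion in the maximal CM field -/
noncomputable def jR : R →+* Qcm :=
  R.subtype.codRestrict Qcm.toSubalgebra.toSubring fun z => cyc_le (hR z z.2).1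

theorem jR_lc (z : R) : Lc N (jR hR z) :=
  let ⟨k, hk⟩ := (hR z z.2).2
  ⟨k, int_val.1 (by exact_mod_cast hk)⟩

theorem jR_inj : Function.Injective (jR hR) := fun _ _ h =>
  Subtype.ext (congrArg (fun z : Qcm => (z : ℂ)) h)

include hR

theorem cube_R (hN : N ≠ 0) (u v : R) (h : u ^ 3 = 2 * v ^ 3) : v = 0 := by
  obtain ⟨k, hk⟩ := jR_lc hR u
  obtain ⟨l, hl⟩ := jR_lc hR v
  have h1 := congrArg (jR hR) h
  rw [map_pow, map_mul, map_pow, map_ofNat] at h1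
  have h2 := no_cube ⟨_, ((int_nat N).pow l).mul hk⟩ ⟨_, ((int_nat N).pow k).mul hl⟩
    (RingOfIntegers.ext (by
      change ((N : Qcm) ^ l * (N ^ k * jR hR u)) ^ 3 =
        2 * ((N : Qcm) ^ k * (N ^ l * jR hR v)) ^ 3
      linear_combination (N : Qcm) ^ (3 * (k + l)) * h1))
  have h3 : (N : Qcm) ^ k * (N ^ l * jR hR v) = 0 := congrArg (fun z : 𝓞 Qcm => (z : Qcm)) h2
  have h4 : (N : Qcm) ≠ 0 := Nat.cast_ne_zero.2 hN
  refine jR_inj hR ?_
  rw [map_zero]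
  exact (mul_eq_zero.1 ((mul_eq_zero.1 h3).resolve_left (pow_ne_zero _ h4))).resolve_left
    (pow_ne_zero _ h4)

theorem sound (hN : Odd N) {a : R} {y : Fin 26 → R} (h : ∀ q ∈ eqn N a y, q = 0) :
    (a : ℂ).im = 0 := by
  have h1 : ∀ q ∈ eqn N (jR hR a) fun i => jR hR (y i), q = 0 := by
    rw [← eqn_map, List.forall_mem_map]
    intro e he
    rw [h e he, map_zero]
  rw [eqn, List.forall_mem_cons, List.forall_mem_cons] at h1
  obtain ⟨h2, h3, h4⟩ := h1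
  have hM : Odd (3 * N) := Odd.mul (by decide) hN
  obtain ⟨i1, -, -, i2, ⟨θ, i3, i4⟩, i5⟩ :=
    pi_facts hM (dvd_mul_right 3 N) ((prim_iff hM.pos _).1 h2) h3
  have := alg_cm
  let c : Su Qcm N :=
    { σ := cQ
      σσ := fun x => Subtype.ext (Complex.conj_conj (x : ℂ))
      pt := Set.range fun ψ : Qcm →ₐ[ℚ] ℂ => ψ.toRingHom
      cj := by
        rintro _ ⟨ψ, rfl⟩ x
        exact cQ_comm ψ x
      small := fun β hβ h => congrArg (fun z : 𝓞 Qcm => (z : Qcm))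
        (lemA ⟨β, hβ⟩ fun ψ => h _ ⟨ψ, rfl⟩)
      K := Qcyc.toSubfield.comap Qcm.val.toRingHom
      σK := fun x hx => conj_cyc hx
      θ := θ
      σθ := i4
      θi := IsIntegral.of_pow two_pos (i3 ▸ i1)
      θ0 := fun h0 => i5 0 (zero_mem _) (by rw [← i3, h0])
      odd := fun V hV w hw h0 => i2 V (by
          rw [Nat.cast_mul, map_mul]
          exact mul_lt_one_of_nonneg_of_lt_one_right (val_nat _ 3) zero_le hV) w hw
        (by rw [← i3, ← mul_pow, map_pow, h0, one_pow])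
      hN := hN }
  have h5 : cQ (jR hR a) = jR hR a := c.sound (y := fun i => jR hR (y i.succ.succ))
    (hR a a.2).1 (fun i => ⟨(hR _ (y _).2).1, jR_lc hR _⟩)
    (by rw [show c.θ ^ 2 = _ from i3]; exact h4)
  exact Complex.conj_eq_iff_im.1 (congrArg (fun z : Qcm => (z : ℂ)) h5)

theorem solvable (hN : Odd N) {K : IntermediateField ℚ ℂ} (hμ : ∀ z : ℂ, z ^ (12 * N) = 1 → z ∈ K)
    (h1 : ∀ z ∈ K, IsIntegral ℤ z → z ∈ R) (h2 : ∀ z ∈ R, z ∈ K) {a : R} (ha : (a : ℂ).im = 0) :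
    ∃ y : Fin 26 → R, ∀ q ∈ eqn N a y, q = 0 := by
  have hM : Odd (3 * N) := Odd.mul (by decide) hN
  have root : ∀ z : ℂ, z ^ (12 * N) = 1 → z ∈ R := fun z h =>
    h1 z (hμ z h) (IsIntegral.of_pow (Nat.mul_pos (by norm_num) hN.pos) (h ▸ isIntegral_one))
  have hz := Complex.isPrimitiveRoot_exp (3 * N) hM.pos.ne'
  let ζ : R := ⟨_, root _ ((hz.pow_eq_one_iff_dvd _).2 ⟨4, by ring⟩)⟩
  let ι : R := ⟨Complex.I, root _ (by
    rw [show 12 * N = 4 * (3 * N) by ring, pow_mul, Complex.I_pow_four, one_pow])⟩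
  have hζ : IsPrimitiveRoot (jR hR ζ) (3 * N) :=
    IsPrimitiveRoot.of_map_of_injective (f := Qcm.val.toRingHom) hz Subtype.val_injective
  have hι : ι ^ 2 + 1 = 0 := Subtype.ext (by
    change Complex.I ^ 2 + 1 = 0
    rw [Complex.I_sq, neg_add_cancel])
  obtain ⟨i1, -, i3, -, ⟨θ, i4, i5⟩, i6⟩ := pi_facts hM (dvd_mul_right 3 N) hζ (ι := jR hR ι)
    (by simpa only [map_add, map_pow, map_one, map_zero] using congrArg (jR hR) hι)
  rw [← piF_map] at i1 i3 i4 i6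
  have h0 : aeval ζ (cyclotomic (3 * N) ℤ) = 0 := jR_inj hR (by
    rw [map_zero]
    exact (aeval_algHom_apply (jR hR).toIntAlgHom ζ _).symm.trans ((prim_iff hM.pos _).2 hζ))
  suffices h : ∃ y : Fin 24 → R, ∀ q ∈ sys N (piF (3 * N) ζ ι) a y, q = 0 by
    obtain ⟨y, hy⟩ := h
    refine ⟨Fin.cons ζ (Fin.cons ι y), ?_⟩
    rw [eqn, List.forall_mem_cons, List.forall_mem_cons]
    exact ⟨h0, hι, hy⟩
  generalize piF (3 * N) ζ ι = π at i1 i3 i4 i6
  obtain ⟨l, hl⟩ := jR_lc hR a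
  have := alg_cm
  let A : Qcm := (N : Qcm) ^ l * jR hR a
  let F : IntermediateField ℚ Qcm := ℚ⟮A, jR hR π⟯
  have : FiniteDimensional ℚ F := IntermediateField.finiteDimensional_adjoin
    fun x _ => Algebra.IsIntegral.isIntegral x
  have : NumberField F := {}
  have hF : ∀ x : F, ((x : Qcm) : ℂ) ∈ K ⊓ Qcyc ∧ cQ x = x := by
    rintro ⟨x, hx⟩
    change (x : ℂ) ∈ K ⊓ Qcyc ∧ cQ x = x
    induction hx using IntermediateField.adjoin_induction with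
    | mem x hx =>
      rcases hx with rfl | rfl
      · refine ⟨mul_mem (pow_mem (_root_.natCast_mem _ N) l) ⟨h2 a a.2, (hR a a.2).1⟩, ?_⟩
        rw [map_mul, map_pow, map_natCast,
          show cQ (jR hR a) = jR hR a from Subtype.ext (Complex.conj_eq_iff_im.2 ha)]
      · exact ⟨⟨h2 π π.2, (hR π π.2).1⟩, by rw [← i4, map_pow, i5]⟩
    | algebraMap q => exact ⟨(K ⊓ Qcyc).algebraMap_mem q, cQ.toRatAlgHom.commutes q⟩
    | add x y _ _ hx hy => exact ⟨add_mem hx.1 hy.1, by rw [map_add, hx.2, hy.2]⟩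
    | inv x _ hx => exact ⟨inv_mem hx.1, by rw [map_inv₀, hx.2]⟩
    | mul x y _ _ hx hy => exact ⟨mul_mem hx.1 hy.1, by rw [map_mul, hx.2, hy.2]⟩
  have up : ∀ x : F, IsIntegral ℤ (x : Qcm) ↔ IsIntegral ℤ x := fun x =>
    isIntegral_algHom_iff (F.val.restrictScalars ℤ) Subtype.val_injective
  let ρ : 𝓞 F →+* R :=
    (Qcm.val.toRingHom.comp (F.val.toRingHom.comp (algebraMap (𝓞 F) F))).codRestrict R
      fun x => h1 _ (hF x).1.1 (int_val.2 ((up x).2 x.isIntegral_coe))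
  let A' : 𝓞 F := ⟨⟨A, subset_adjoin ℚ _ (Or.inl rfl)⟩, (up _).1 hl⟩
  let π' : 𝓞 F := ⟨⟨jR hR π, subset_adjoin ℚ _ (Or.inr rfl)⟩, (up _).1 i1⟩
  refine solve_nf (F := F) (fun φ x => ?_) π' A' (fun φ => ?_) (fun r hr => ?_)
    (fun φ ψ h1 h2 => ?_) ρ (l := l) hN.pos.ne' (Subtype.ext rfl)
  · obtain ⟨ψ, hψ⟩ := ext_emb F φ
    rw [← hψ, ← Complex.conj_eq_iff_im, ← cQ_comm, (hF x).2]
  · obtain ⟨ψ, hψ⟩ := ext_emb F φ
    obtain ⟨t, h1, h2⟩ := i3 ψ.toRingHom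
    rw [← hψ, show ψ ((π' : F) : Qcm) = t from h2]
    exact h1
  · exact i6 r (hF r).1.2 (congrArg (fun z : F => (z : Qcm)) hr)
  · refine IntermediateField.adjoin_algHom_ext ℚ ?_
    rintro z (rfl | rfl)
    · exact h1
    · exact h2

omit hR

theorem main (N : ℕ) (hN : Odd N) : ∃ (n : ℕ) (F : MvPolynomial (Option (Fin n)) ℤ),
    ∀ K : IntermediateField ℚ ℂ, K ≤ Qcyc → (∀ z : ℂ, z ^ (12 * N) = 1 → z ∈ K) →
      ∀ R : Subring ℂ, (∀ z ∈ K, IsIntegral ℤ z → z ∈ R) →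
        (∀ z ∈ R, z ∈ K ∧ ∃ k : ℕ, IsIntegral ℤ ((N : ℂ) ^ k * z)) → ∀ a : R,
          ((a : ℂ).im = 0 ↔
            ∃ y : Fin n → R, MvPolynomial.aeval (fun o : Option (Fin n) => o.elim a y) F = 0) := by
  refine ⟨26, comb (eqn N (MvPolynomial.X none) fun i => MvPolynomial.X (some i)),
    fun K hK hμ R h1 h2 a => ?_⟩
  have hR : ∀ z ∈ R, z ∈ Qcyc ∧ Lc N z := fun z hz => ⟨hK (h2 z hz).1, (h2 z hz).2⟩
  have h3 : ∀ y : Fin 26 → R, MvPolynomial.aeval (fun o : Option (Fin 26) => o.elim a y)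
      (comb (eqn N (MvPolynomial.X none : MvPolynomial (Option (Fin 26)) ℤ)
        fun i => MvPolynomial.X (some i))) = comb (eqn N a y) := by
    intro y
    have h2 := comb_map (MvPolynomial.aeval (R := ℤ)
      (fun o : Option (Fin 26) => o.elim a y)).toRingHom
      (eqn N (MvPolynomial.X none) fun i => MvPolynomial.X (some i))
    rw [eqn_map] at h2
    simpa using h2
  simp only [h3, comb_eq_zero (cube_R hR hN.pos.ne')]
  exact ⟨solvable hR hN hμ h1 fun z hz => (h2 z hz).1, fun ⟨_, h⟩ => sound hR hN h⟩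

theorem mem_closure {N : ℕ} {z : ℂ}
    (hz : z ∈ Subring.closure {z : ℂ | (z ∈ Qcyc ∧ IsIntegral ℤ z) ∨ z * N = 1}) :
    z ∈ Qcyc ∧ Lc N z := by
  induction hz using Subring.closure_induction with
  | mem x hx =>
    rcases hx with hx | hx
    · exact ⟨hx.1, Lc.of_int hx.2⟩
    · refine ⟨?_, 1, ?_⟩
      · rw [eq_inv_of_mul_eq_one_left hx]
        exact inv_mem (_root_.natCast_mem _ N)
      · rw [pow_one, mul_comm, hx]
        exact isIntegral_one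
  | zero => exact ⟨zero_mem _, Lc.of_int isIntegral_zero⟩
  | one => exact ⟨one_mem _, Lc.of_int isIntegral_one⟩
  | add x y _ _ hx hy => exact ⟨add_mem hx.1 hy.1, hx.2.add hy.2⟩
  | neg x _ hx => exact ⟨neg_mem hx.1, hx.2.neg⟩
  | mul x y _ _ hx hy => exact ⟨mul_mem hx.1 hy.1, hx.2.mul hy.2⟩

end Pool.Agent.P.MP_5347d0_lc.Loc
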