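import Pool.Agent.P.MP_5347d0_lc.LcG
import Pool.Agent.P.MP_5347d0_lc.LcR

/-! Soundness of the system. -/

namespace Pool.Agent.P.MP_5347d0_lc.Loc

open scoped ComplexConjugate

variable {L : Type} [Field L] {N : ℕ}

theorem int_nat (n : ℕ) : IsIntegral ℤ (n : L) := by
  exact_mod_cast isIntegral_algebraMap (R := ℤ) (A := L) (x := (n : ℤ))

theorem Lc.of_int {z : L} (h : IsIntegral ℤ z) : Lc N z := ⟨0, by simpa using h⟩

theorem Lc.add {a b : L} (ha : Lc N a) (hb : Lc N b) : Lc N (a + b) := by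
  obtain ⟨k, hk⟩ := ha
  obtain ⟨l, hl⟩ := hb
  refine ⟨k + l, ?_⟩
  rw [show (N : L) ^ (k + l) * (a + b) = N ^ l * (N ^ k * a) + N ^ k * (N ^ l * b) by ring]
  exact (((int_nat N).pow l).mul hk).add (((int_nat N).pow k).mul hl)

theorem Lc.mul {a b : L} (ha : Lc N a) (hb : Lc N b) : Lc N (a * b) := by
  obtain ⟨k, hk⟩ := ha
  obtain ⟨l, hl⟩ := hb
  refine ⟨k + l, ?_⟩
  rw [show (N : L) ^ (k + l) * (a * b) = (N ^ k * a) * (N ^ l * b) by ring]
  exact hk.mul hl

theorem Lc.neg {a : L} (ha : Lc N a) : Lc N (-a) := by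
  obtain ⟨k, hk⟩ := ha
  exact ⟨k, by rw [mul_neg]; exact hk.neg⟩

theorem Lc.sub {a b : L} (ha : Lc N a) (hb : Lc N b) : Lc N (a - b) := by
  rw [sub_eq_add_neg]
  exact ha.add hb.neg

theorem Lc.map {L' : Type} [Field L'] (σ : L →+* L') {a : L} (ha : Lc N a) : Lc N (σ a) := by
  obtain ⟨k, hk⟩ := ha
  refine ⟨k, ?_⟩
  have h := hk.map σ.toIntAlgHom
  simpa using h

/-- the abstract setting -/
structure Su (L : Type) [Field L] (N : ℕ) where
  σ : L →+* L
  σσ : ∀ x, σ (σ x) = x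
  pt : Set (L →+* ℂ)
  cj : ∀ ψ ∈ pt, ∀ x, ψ (σ x) = conj (ψ x)
  small : ∀ β, IsIntegral ℤ β → (∀ ψ ∈ pt, ‖ψ β‖ < 1) → β = 0
  K : Subfield L
  σK : ∀ x ∈ K, σ x ∈ K
  θ : L
  σθ : σ θ = θ
  θi : IsIntegral ℤ θ
  θ0 : θ ≠ 0
  odd : ∀ V : ValuationSubring L, V.valuation (N : L) < 1 → ∀ w ∈ K, V.valuation (θ * w) ≠ 1
  hN : Odd N

variable (c : Su L N)

theorem Su.unit {a b : L} (ha : IsIntegral ℤ a) (hb : IsIntegral ℤ b)
    (hv : (1 + 4 * a) * (1 + 4 * b) = 1) : c.σ a = a := by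
  obtain ⟨v, hvv⟩ : ∃ v, v = 1 + 4 * b := ⟨_, rfl⟩
  have vi : IsIntegral ℤ v := hvv ▸ isIntegral_one.add ((int_nat 4).mul hb)
  rw [← hvv] at hv
  have hv' := congrArg c.σ hv
  simp only [map_mul, map_add, map_one, map_ofNat] at hv'
  have hβ : (a - c.σ a) * c.σ v = 0 := by
    refine c.small _ ((ha.sub (ha.map c.σ.toIntAlgHom)).mul (vi.map c.σ.toIntAlgHom))
      fun ψ hψ => ?_
    have h1 : (1 + 4 * a) * c.σ v - 1 = 4 * ((a - c.σ a) * c.σ v) := by linear_combination hv'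
    have h2 := congrArg (fun z => ‖ψ z‖) h1
    have h3 := congrArg (fun z => ‖ψ z‖) hv
    simp only [map_mul ψ (1 + 4 * a), norm_mul, map_one, norm_one] at h3
    have h4 := norm_sub_le (ψ ((1 + 4 * a) * c.σ v)) 1
    simp only [map_sub ψ _ 1, map_one, map_mul ψ 4, norm_mul, map_ofNat, Complex.norm_ofNat] at h2
    rw [h2, map_mul ψ (1 + 4 * a), norm_mul, c.cj ψ hψ v, Complex.norm_conj, h3, norm_one] at h4
    linarith
  linear_combination (a - c.σ a) * hv' - (1 + 4 * c.σ a) * hβ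

include c in
theorem Su.two (V : ValuationSubring L) (h : V.valuation (N : L) < 1) :
    V.valuation (2 : L) = 1 := by
  exact_mod_cast val_coprime V.valuation (Nat.coprime_two_right.2 c.hN) h

variable [CharZero L]

theorem Su.pr {x y : L} (hx : x ∈ c.K ∧ Lc N x) (hy : y ∈ c.K ∧ Lc N y)
    (h : pr (c.θ ^ 2) x y = 0) : c.σ x = x ∧ c.σ y = y := by
  unfold Loc.pr at h
  have key : ∀ V : ValuationSubring L, V.valuation (N : L) < 1 →
      V.valuation y ≤ 1 ∧ V.valuation (c.θ * x) ≤ 1 := by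
    intro V hV
    have h4 : V.valuation (4 : L) = 1 := by
      rw [show (4 : L) = 2 * 2 by norm_num, map_mul, c.two V hV, one_mul]
    have e : (c.θ * (4 * x)) ^ 2 = (1 + 4 * y) ^ 2 - 1 := by linear_combination -h
    have hY : V.valuation (1 + 4 * y) ≤ 1 := by
      by_contra h1
      rw [not_le] at h1
      have h0 : (1 + 4 * y) ≠ 0 := fun h0 => by simp [h0] at h1
      have h2 : V.valuation ((1 + 4 * y) ^ 2 - 1) = V.valuation ((1 + 4 * y) ^ 2) :=
        V.valuation.map_sub_eq_of_lt_left (by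
          rw [map_one, map_pow]
          exact one_lt_pow₀ h1 two_ne_zero)
      rw [← e, map_pow, map_pow, pow_left_inj₀ zero_le zero_le two_ne_zero] at h2
      refine c.odd V hV (4 * x / (1 + 4 * y)) (div_mem (mul_mem (natCast_mem _ 4) hx.1)
        (add_mem (one_mem _) (mul_mem (natCast_mem _ 4) hy.1))) ?_
      rw [← mul_div_assoc, map_div₀, h2, div_self ((V.valuation.ne_zero_iff).2 h0)]
    constructor
    · have h1 := V.valuation.map_sub_le hY (map_one V.valuation).le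
      rwa [add_sub_cancel_left, map_mul, h4, one_mul] at h1
    · have h1 : V.valuation ((1 + 4 * y) ^ 2 - 1) ≤ 1 := V.valuation.map_sub_le
        (by rw [map_pow]; exact pow_le_one₀ zero_le hY) (map_one V.valuation).le
      rw [← e, map_pow, pow_le_one_iff_of_nonneg zero_le two_ne_zero, mul_left_comm, map_mul,
        h4, one_mul] at h1
      exact h1
  have iy : IsIntegral ℤ y := int_of_val hy.2 fun V hV => (key V hV).1
  have ix : IsIntegral ℤ (c.θ * x) :=
    int_of_val ((Lc.of_int c.θi).mul hx.2) fun V hV => (key V hV).2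
  have a := c.unit (iy.add ix) (iy.sub ix) (by linear_combination h)
  have b := c.unit (iy.sub ix) (iy.add ix) (by linear_combination h)
  rw [map_add, map_mul, c.σθ] at a
  rw [map_sub, map_mul, c.σθ] at b
  refine ⟨mul_left_cancel₀ (mul_ne_zero two_ne_zero c.θ0) ?_,
    mul_left_cancel₀ (two_ne_zero' L) ?_⟩
  · linear_combination a - b
  · linear_combination a + b

omit [CharZero L] in
theorem Su.val_g (V : ValuationSubring L) (hV : V.valuation (N : L) < 1) {w : L} (hw : w ∈ c.K) :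
    1 ≤ V.valuation (4 * (c.θ * w) ^ 2 - 1) ∧
      V.valuation (c.θ * w) ^ 2 ≤ V.valuation (4 * (c.θ * w) ^ 2 - 1) := by
  have e : V.valuation (4 * (c.θ * w) ^ 2) = V.valuation (c.θ * w) ^ 2 := by
    rw [show (4 : L) = 2 * 2 by norm_num, map_mul, map_mul, c.two V hV, one_mul, one_mul, map_pow]
  rcases (c.odd V hV w hw).lt_or_gt with h | h
  · have h1 := pow_lt_one₀ zero_le h two_ne_zero
    rw [V.valuation.map_sub_eq_of_lt_right (by rw [e, map_one]; exact h1), map_one]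
    exact ⟨le_rfl, h1.le⟩
  · have h1 := one_lt_pow₀ h two_ne_zero
    rw [V.valuation.map_sub_eq_of_lt_left (by rw [e, map_one]; exact h1), e]
    exact ⟨h1.le, le_rfl⟩

omit [CharZero L] in
theorem Su.core {w t : L} (hw : w ∈ c.K) (ht : Lc N t)
    (h : w - c.σ w = (4 * c.θ ^ 2 * w ^ 2 - 1) * t) : c.σ w = w := by
  obtain ⟨W, hW⟩ : ∃ W, W = c.θ * w := ⟨_, rfl⟩
  obtain ⟨β, hb⟩ : ∃ β, β = c.θ * t := ⟨_, rfl⟩
  have hW' : c.σ W = c.θ * c.σ w := by rw [hW, map_mul, c.σθ]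
  have hβ : W - c.σ W = (4 * W ^ 2 - 1) * β := by
    rw [hW', hW, hb]
    linear_combination c.θ * h
  have lb : Lc N β := hb ▸ (Lc.of_int c.θi).mul ht
  suffices hs : W - c.σ W = 0 by
    rw [hW', hW, ← mul_sub, mul_eq_zero] at hs
    exact (sub_eq_zero.1 (hs.resolve_left c.θ0)).symm
  by_cases h0 : 4 * W ^ 2 - 1 = 0
  · rw [hβ, h0, zero_mul]
  have hβ' := congrArg c.σ hβ
  simp only [map_sub, map_mul, map_pow, map_one, map_ofNat, c.σσ] at hβ'
  have hi : IsIntegral ℤ (β * c.σ β) := by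
    refine int_of_val (lb.mul (lb.map c.σ)) fun V hV => ?_
    have g1 := c.val_g V hV hw
    have g2 := c.val_g V hV (c.σK w hw)
    rw [← hW] at g1
    rw [← hW'] at g2
    have e : V.valuation (W - c.σ W) ^ 2 = V.valuation (4 * W ^ 2 - 1) *
        V.valuation (4 * c.σ W ^ 2 - 1) * V.valuation (β * c.σ β) := by
      rw [pow_two]
      nth_rewrite 2 [V.valuation.map_sub_swap]
      rw [hβ', hβ, map_mul, map_mul, map_mul, mul_mul_mul_comm]
    have b : V.valuation (W - c.σ W) ^ 2 ≤ V.valuation (4 * W ^ 2 - 1) *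
        V.valuation (4 * c.σ W ^ 2 - 1) := by
      rcases le_max_iff.1 (V.valuation.map_sub W (c.σ W)) with h1 | h1
      · exact ((pow_le_pow_left₀ zero_le h1 2).trans g1.2).trans (le_mul_of_one_le_right' g2.1)
      · exact ((pow_le_pow_left₀ zero_le h1 2).trans g2.2).trans (le_mul_of_one_le_left' g1.1)
    rw [e] at b
    exact (mul_le_iff_le_one_right (mul_pos (zero_lt_one.trans_le g1.1)
      (zero_lt_one.trans_le g2.1))).1 b
  have h1 : β * c.σ β = 0 := by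
    refine c.small _ hi fun ψ hψ => ?_
    have h2 : 0 < ‖ψ (4 * W ^ 2 - 1)‖ := norm_pos_iff.2 ((map_ne_zero ψ).2 h0)
    have h3 := congrArg (fun z => ‖ψ z‖) hβ
    simp only [map_mul ψ _ β, norm_mul, map_sub ψ W, c.cj ψ hψ] at h3
    have h4 : (2 * ‖ψ W - conj (ψ W)‖) ^ 2 ≤ ‖ψ (4 * W ^ 2 - 1)‖ ^ 2 := by
      rw [mul_pow, Complex.sq_norm, Complex.sq_norm, map_sub ψ, map_mul ψ, map_pow ψ, map_one,
        map_ofNat]
      simp only [Complex.normSq_apply, pow_two, Complex.sub_re, Complex.sub_im, Complex.conj_re,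
        Complex.conj_im, Complex.mul_re, Complex.mul_im, Complex.re_ofNat, Complex.im_ofNat,
        Complex.one_re, Complex.one_im]
      nlinarith [sq_nonneg (4 * ((ψ W).re ^ 2 + (ψ W).im ^ 2) - 1)]
    have h5 := (pow_le_pow_iff_left₀ (by positivity) h2.le two_ne_zero).1 h4
    have h6 : ‖ψ β‖ < 1 := by
      by_contra h6
      nlinarith
    rw [map_mul, norm_mul, c.cj ψ hψ, Complex.norm_conj]
    nlinarith [norm_nonneg (ψ β)]
  rcases mul_eq_zero.1 h1 with h2 | h2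
  · rw [hβ, h2, mul_zero]
  · rw [hβ, (map_eq_zero c.σ).1 h2, mul_zero]

omit [CharZero L] in
include c in
theorem Su.nz {y s t : L} (ht : Lc N t) (h : y * s - (2 * t - 1) * ((2 * N + 1) * t - 1) = 0) :
    y ≠ 0 := by
  rintro rfl
  have h1 : ∀ n : ℕ, 2 ≤ n → N.Coprime n → (n : L) * t - 1 ≠ 0 := by
    intro n hn hc h2
    have h3 : t = 0 := by
      refine c.small _ (int_of_val ht fun V hV => ?_) fun ψ _ => ?_
      · have h3 := congrArg V.valuation (sub_eq_zero.1 h2)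
        rw [map_mul, val_coprime V.valuation hc hV, one_mul, map_one] at h3
        exact h3.le
      · have h3 := congrArg (fun z => ‖ψ z‖) (sub_eq_zero.1 h2)
        simp only [map_mul, norm_mul, map_natCast, Complex.norm_natCast, map_one, norm_one] at h3
        have h4 : (2 : ℝ) ≤ n := by exact_mod_cast hn
        by_contra h5
        nlinarith
    simp [h3] at h2
  rw [zero_mul, zero_sub, neg_eq_zero, mul_eq_zero] at h
  rcases h with h | h
  · exact h1 2 le_rfl (Nat.coprime_two_right.2 c.hN) (by exact_mod_cast h)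
  · exact h1 (2 * N + 1) (by have := c.hN.pos; omega) (by simp) (by exact_mod_cast h)

theorem Su.rz {x y z d e b : L} (hx : x ∈ c.K ∧ Lc N x) (hy : y ∈ c.K ∧ Lc N y)
    (hz : z ∈ c.K ∧ Lc N z) (hd : d ∈ c.K ∧ Lc N d) (he : e ∈ c.K ∧ Lc N e) (hb : Lc N b)
    (hp : Loc.pr (c.θ ^ 2) x y = 0) (h0 : x ≠ 0) (h : ∀ q ∈ rz (c.θ ^ 2) x y z d e b, q = 0) :
    c.σ z = z := by
  simp only [Loc.rz, List.forall_mem_cons] at h
  obtain ⟨h1, h2, -⟩ := h
  obtain ⟨h4, h5⟩ := c.pr hx hy hp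
  have h6 := (c.pr ⟨mul_mem hx.1 (add_mem hz.1 (mul_mem (mul_mem (natCast_mem _ 4) hy.1) hd.1)),
    hx.2.mul (hz.2.add (((Lc.of_int (int_nat 4)).mul hy.2).mul hd.2))⟩
    ⟨mul_mem hy.1 he.1, hy.2.mul he.2⟩ h1).1
  simp only [map_mul, map_add, Nat.cast_ofNat, map_ofNat, h4, h5] at h6
  refine c.core hz.1 (hb.mul ((hd.2.map c.σ).sub hd.2)) ?_
  linear_combination (c.σ d - d) * h2 - mul_left_cancel₀ h0 h6

theorem Su.sound {a : L} {y : Fin 24 → L} (ha : a ∈ c.K) (hy : ∀ i, y i ∈ c.K ∧ Lc N (y i))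
    (h : ∀ q ∈ sys N (c.θ ^ 2) a y, q = 0) : c.σ a = a := by
  simp only [sys, List.forall_mem_append] at h
  obtain ⟨⟨⟨⟨hC, hρ⟩, hk⟩, hj⟩, h⟩ := h
  simp only [rm, List.forall_mem_cons] at h
  obtain ⟨h1, h2, h3, h4, h5, -⟩ := h
  have h0 := c.nz (hy 3).2 h2
  have hx := left_ne_zero_of_mul h0
  have hC := c.rz (hy _) (hy _) (hy _) (hy _) (hy _) (hy _).2 h1 hx hC
  have hρ := c.rz (hy _) (hy _) (hy _) (hy _) (hy _) (hy _).2 h1 hx hρ
  have hk := c.rz (hy _) (hy _) (hy _) (hy _) (hy _) (hy _).2 h1 hx hk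
  have hj := c.rz (hy _) (hy _) (hy _) (hy _) (hy _) (hy _).2 h1 hx hj
  have he := (c.pr (hy _) (hy _) h3).2
  have e1 := congrArg c.σ h5
  simp only [map_sub, map_mul c.σ _ (y 11), map_mul c.σ 4, map_add c.σ 1, map_one, map_zero,
    map_ofNat, hk, hj, he] at e1
  have e3 := c.core (w := y 4 * a + y 5) (add_mem (mul_mem (hy _).1 ha) (hy _).1)
    ((hy 10).2.mul ((hy 11).2.sub ((hy 11).2.map c.σ)))
    (by linear_combination h5 - e1 + (y 11 - c.σ (y 11)) * h4)
  rw [map_add, map_mul, hC, hρ] at e3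
  exact mul_left_cancel₀ (right_ne_zero_of_mul h0) (add_right_cancel e3)

end Pool.Agent.P.MP_5347d0_lc.Loc
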