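import Pool.Agent.P.MP_5347d0_lc.LcS
import Pool.Agent.P.MP_5347d0_lc.LdR

/-! Soundness of the system with modulus `q`. -/

namespace Pool.Agent.P.MP_5347d0_lc.All

open Loc
open scoped ComplexConjugate

variable {L : Type} [Field L] {N q : ℕ}

/-- the abstract setting -/
structure Sv (L : Type) [Field L] (N q : ℕ) where
  σ : L →+* L
  σσ : ∀ x, σ (σ x) = x
  pt : Set (L →+* ℂ)
  cj : ∀ ψ ∈ pt, ∀ x, ψ (σ x) = conj (ψ x)
  small : ∀ β, IsIntegral ℤ β → (∀ ψ ∈ pt, ‖ψ β‖ < 1) → β = 0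
  K : Subfield L
  σK : ∀ x ∈ K, σ x ∈ K
  θ : L
  σθ : σ θ = θ
  θi : IsIntegral ℤ θ
  θ0 : θ ≠ 0
  ns : ∀ V : ValuationSubring L, V.valuation (N : L) < 1 → ∀ w ∈ K,
    V.valuation 2 ≤ V.valuation (θ * w - 1)
  hN : N ≠ 0
  h5 : 5 ≤ q
  hq : N.Coprime q

variable (c : Sv L N q)

theorem Sv.unit {a b : L} (ha : IsIntegral ℤ a) (hb : IsIntegral ℤ b)
    (hv : (1 + q * a) * (1 + q * b) = 1) : c.σ a = a := by
  obtain ⟨v, hvv⟩ : ∃ v, v = 1 + q * b := ⟨_, rfl⟩
  have vi : IsIntegral ℤ v := hvv ▸ isIntegral_one.add ((int_nat q).mul hb)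
  rw [← hvv] at hv
  have hv' := congrArg c.σ hv
  simp only [map_mul, map_add, map_one, map_natCast] at hv'
  have hβ : (a - c.σ a) * c.σ v = 0 := by
    refine c.small _ ((ha.sub (ha.map c.σ.toIntAlgHom)).mul (vi.map c.σ.toIntAlgHom))
      fun ψ hψ => ?_
    have h1 : (1 + q * a) * c.σ v - 1 = q * ((a - c.σ a) * c.σ v) := by linear_combination hv'
    have h2 := congrArg (fun z => ‖ψ z‖) h1
    have h3 := congrArg (fun z => ‖ψ z‖) hv
    simp only [map_mul ψ (1 + q * a), norm_mul, map_one, norm_one] at h3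
    have h4 := norm_sub_le (ψ ((1 + q * a) * c.σ v)) 1
    simp only [map_sub ψ _ 1, map_one, map_mul ψ (q : L), norm_mul, map_natCast,
      Complex.norm_natCast] at h2
    rw [h2, map_mul ψ (1 + q * a), norm_mul, c.cj ψ hψ v, Complex.norm_conj, h3, norm_one] at h4
    have h5 : (5 : ℝ) ≤ q := by exact_mod_cast c.h5
    by_contra h6
    nlinarith
  linear_combination (a - c.σ a) * hv' - (1 + q * c.σ a) * hβ

variable [CharZero L]

omit [CharZero L] in
theorem Sv.le_one (V : ValuationSubring L) (hV : V.valuation (N : L) < 1) {X Y : L}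
    (hX : X ∈ c.K) (hY : Y ∈ c.K) (h : (Y + c.θ * X) * (Y - c.θ * X) = 1) :
    V.valuation (Y + c.θ * X) ≤ 1 := by
  by_contra h1
  rw [not_le] at h1
  have h2 := congrArg V.valuation h
  rw [map_mul, map_one] at h2
  have h3 : V.valuation (Y - c.θ * X) < 1 := by
    by_contra h3
    exact absurd h2 (one_lt_mul_of_lt_of_le' h1 (not_lt.1 h3)).ne'
  have h4 : V.valuation 2 * V.valuation Y = V.valuation (Y + c.θ * X) := by
    rw [← map_mul, show 2 * Y = (Y + c.θ * X) + (Y - c.θ * X) by ring]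
    exact V.valuation.map_add_eq_of_lt_left (h3.trans h1)
  have h0 : Y ≠ 0 := fun h0 => by
    rw [← h4, h0, map_zero, mul_zero] at h1
    exact not_lt_zero h1
  have h5 := mul_le_mul_left (c.ns V hV (X / Y) (div_mem hX hY)) (V.valuation Y)
  rw [h4, ← map_mul, show (c.θ * (X / Y) - 1) * Y = -(Y - c.θ * X) by field_simp; ring,
    Valuation.map_neg] at h5
  exact absurd (h3.trans h1) (not_lt.2 h5)

theorem Sv.pr {x y : L} (hx : x ∈ c.K ∧ Lc N x) (hy : y ∈ c.K ∧ Lc N y)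
    (h : pr q (c.θ ^ 2) x y = 0) : c.σ x = x ∧ c.σ y = y := by
  unfold All.pr at h
  have key : ∀ x : L, x ∈ c.K → Lc N x → (1 + q * y) ^ 2 - c.θ ^ 2 * (q * x) ^ 2 - 1 = 0 →
      IsIntegral ℤ (y + c.θ * x) := by
    intro x h1 h2 h3
    refine int_of_val (hy.2.add ((Lc.of_int c.θi).mul h2)) fun V hV => ?_
    have h4 := c.le_one V hV (mul_mem (natCast_mem _ q) h1)
      (add_mem (one_mem _) (mul_mem (natCast_mem _ q) hy.1)) (by linear_combination h3)
    have h5 := V.valuation.map_sub_le h4 (map_one V.valuation).le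
    rwa [show 1 + q * y + c.θ * (q * x) - 1 = q * (y + c.θ * x) by ring, map_mul,
      val_coprime V.valuation c.hq hV, one_mul] at h5
  have i1 := key x hx.1 hx.2 h
  have i2 := key (-x) (neg_mem hx.1) hx.2.neg (by linear_combination h)
  have a := c.unit i1 i2 (by linear_combination h)
  have b := c.unit i2 i1 (by linear_combination h)
  rw [map_add, map_mul, c.σθ] at a
  rw [map_add, map_mul, c.σθ, map_neg] at b
  refine ⟨mul_left_cancel₀ (mul_ne_zero two_ne_zero c.θ0) ?_,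
    mul_left_cancel₀ (two_ne_zero' L) ?_⟩
  · linear_combination a - b
  · linear_combination a + b

omit [CharZero L] in
theorem Sv.val_g (V : ValuationSubring L) (hV : V.valuation (N : L) < 1) {w : L} (hw : w ∈ c.K) :
    V.valuation 4 ≤ V.valuation (q ^ 2 * (c.θ * w) ^ 2 - 1) ∧
      V.valuation 4 * V.valuation (c.θ * w) ^ 2 ≤ V.valuation (q ^ 2 * (c.θ * w) ^ 2 - 1) := by
  have h4 : V.valuation (4 : L) ≤ 1 := by exact_mod_cast val_nat V.valuation 4
  have h1 : V.valuation 4 ≤ V.valuation (q ^ 2 * (c.θ * w) ^ 2 - 1) := by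
    have h2 := c.ns V hV _ (mul_mem (natCast_mem _ q) hw)
    have h3 := c.ns V hV _ (neg_mem (mul_mem (natCast_mem _ q) hw))
    rw [show (4 : L) = 2 * 2 by norm_num, show (q : L) ^ 2 * (c.θ * w) ^ 2 - 1 =
      -((c.θ * (q * w) - 1) * (c.θ * -(q * w) - 1)) by ring, Valuation.map_neg, map_mul, map_mul]
    exact mul_le_mul' h2 h3
  refine ⟨h1, ?_⟩
  rcases le_or_gt (V.valuation (c.θ * w)) 1 with h | h
  · exact (mul_le_of_le_one_right' (pow_le_one₀ zero_le h)).trans h1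
  · have e : V.valuation (q ^ 2 * (c.θ * w) ^ 2) = V.valuation (c.θ * w) ^ 2 := by
      rw [map_mul, map_pow, val_coprime V.valuation c.hq hV, one_pow, one_mul, map_pow]
    rw [V.valuation.map_sub_eq_of_lt_left (by
      rw [e, map_one]; exact one_lt_pow₀ h two_ne_zero), e]
    exact mul_le_of_le_one_left' h4

theorem Sv.core {w t : L} (hw : w ∈ c.K) (ht : Lc N t)
    (h : w - c.σ w = (q ^ 2 * c.θ ^ 2 * w ^ 2 - 1) * t) : c.σ w = w := by
  obtain ⟨W, hW⟩ : ∃ W, W = c.θ * w := ⟨_, rfl⟩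
  obtain ⟨β, hb⟩ : ∃ β, β = c.θ * t := ⟨_, rfl⟩
  have hW' : c.σ W = c.θ * c.σ w := by rw [hW, map_mul, c.σθ]
  have hβ : W - c.σ W = (q ^ 2 * W ^ 2 - 1) * β := by
    rw [hW', hW, hb]
    linear_combination c.θ * h
  have lb : Lc N β := hb ▸ (Lc.of_int c.θi).mul ht
  suffices hs : W - c.σ W = 0 by
    rw [hW', hW, ← mul_sub, mul_eq_zero] at hs
    exact (sub_eq_zero.1 (hs.resolve_left c.θ0)).symm
  by_cases h0 : q ^ 2 * W ^ 2 - 1 = 0
  · rw [hβ, h0, zero_mul]
  have hβ' := congrArg c.σ hβ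
  simp only [map_sub, map_mul, map_pow, map_one, map_natCast, c.σσ] at hβ'
  have hi : IsIntegral ℤ (4 * 4 * (β * c.σ β)) := by
    refine int_of_val ((Lc.of_int ((int_nat 4).mul (int_nat 4))).mul (lb.mul (lb.map c.σ)))
      fun V hV => ?_
    have g1 := c.val_g V hV hw
    have g2 := c.val_g V hV (c.σK w hw)
    rw [← hW] at g1
    rw [← hW'] at g2
    have p4 : 0 < V.valuation (4 : L) := V.valuation.pos_iff.2 (by norm_num)
    have e : V.valuation 4 * V.valuation 4 * V.valuation (W - c.σ W) ^ 2 =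
        V.valuation (q ^ 2 * W ^ 2 - 1) * V.valuation (q ^ 2 * c.σ W ^ 2 - 1) *
          V.valuation (4 * 4 * (β * c.σ β)) := by
      rw [← map_pow, ← map_mul, ← map_mul, ← map_mul, ← map_mul, ← V.valuation.map_neg]
      refine congrArg _ ?_
      linear_combination (16 * (c.σ W - W)) * hβ + (16 * ((q ^ 2 * W ^ 2 - 1) * β)) * hβ'
    have b : V.valuation 4 * V.valuation 4 * V.valuation (W - c.σ W) ^ 2 ≤
        V.valuation (q ^ 2 * W ^ 2 - 1) * V.valuation (q ^ 2 * c.σ W ^ 2 - 1) := by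
      rcases le_max_iff.1 (V.valuation.map_sub W (c.σ W)) with h1 | h1
      · rw [mul_right_comm]
        exact mul_le_mul' ((mul_le_mul_right (pow_le_pow_left₀ zero_le h1 2) _).trans g1.2) g2.1
      · rw [mul_assoc]
        exact mul_le_mul' g1.1 ((mul_le_mul_right (pow_le_pow_left₀ zero_le h1 2) _).trans g2.2)
    rw [e] at b
    exact (mul_le_iff_le_one_right (mul_pos (p4.trans_le g1.1) (p4.trans_le g2.1))).1 b
  have h1 : 4 * 4 * (β * c.σ β) = 0 := by
    refine c.small _ hi fun ψ hψ => ?_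
    have h2 : 0 < ‖ψ (q ^ 2 * W ^ 2 - 1)‖ := norm_pos_iff.2 ((map_ne_zero ψ).2 h0)
    have h3 := congrArg (fun z => ‖ψ z‖) hβ
    simp only [map_mul ψ _ β, norm_mul, map_sub ψ W, c.cj ψ hψ] at h3
    have h4 : (q * ‖ψ W - conj (ψ W)‖) ^ 2 ≤ ‖ψ (q ^ 2 * W ^ 2 - 1)‖ ^ 2 := by
      rw [mul_pow, Complex.sq_norm, Complex.sq_norm, map_sub ψ, map_mul ψ, map_pow ψ, map_pow ψ,
        map_one, map_natCast]
      simp only [Complex.normSq_apply, pow_two, Complex.sub_re, Complex.sub_im, Complex.conj_re,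
        Complex.conj_im, Complex.mul_re, Complex.mul_im, Complex.natCast_re, Complex.natCast_im,
        Complex.one_re, Complex.one_im]
      nlinarith [sq_nonneg ((q : ℝ) ^ 2 * ((ψ W).re ^ 2 + (ψ W).im ^ 2) - 1)]
    have h5 := (pow_le_pow_iff_left₀ (by positivity) h2.le two_ne_zero).1 h4
    have h7 : (5 : ℝ) ≤ q := by exact_mod_cast c.h5
    have h6 : q * ‖ψ β‖ ≤ 1 := by
      by_contra h6
      nlinarith
    have h8 := norm_nonneg (ψ β)
    have h9 : ‖ψ β‖ ≤ 1 / 5 := by nlinarith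
    simp only [map_mul, norm_mul, c.cj ψ hψ, Complex.norm_conj, map_ofNat, Complex.norm_ofNat]
    nlinarith
  rcases mul_eq_zero.1 ((mul_eq_zero.1 h1).resolve_left (by norm_num)) with h2 | h2
  · rw [hβ, h2, mul_zero]
  · rw [hβ, (map_eq_zero c.σ).1 h2, mul_zero]

omit [CharZero L] in
include c in
theorem Sv.nz {y s t : L} (ht : Lc N t) (h : y * s - (q * t - 1) * ((q * N + 1) * t - 1) = 0) :
    y ≠ 0 := by
  rintro rfl
  have h1 : ∀ n : ℕ, 2 ≤ n → N.Coprime n → (n : L) * t - 1 ≠ 0 := by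
    intro n hn hc h2
    have h3 : t = 0 := by
      refine c.small _ (int_of_val ht fun V hV => ?_) fun ψ _ => ?_
      · have h3 := congrArg V.valuation (sub_eq_zero.1 h2)
        rw [map_mul, val_coprime V.valuation hc hV, one_mul, map_one] at h3
        exact h3.le
      · have h3 := congrArg (fun z => ‖ψ z‖) (sub_eq_zero.1 h2)
        simp only [map_mul, norm_mul, map_natCast, Complex.norm_natCast, map_one, norm_one] at h3
        have h4 : (2 : ℝ) ≤ n := by exact_mod_cast hn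
        by_contra h5
        nlinarith
    simp [h3] at h2
  rw [zero_mul, zero_sub, neg_eq_zero, mul_eq_zero] at h
  have h5 := c.h5
  rcases h with h | h
  · exact h1 q (by omega) c.hq h
  · exact h1 (q * N + 1) (by
      have := Nat.mul_pos (show 0 < q by omega) (Nat.pos_of_ne_zero c.hN); omega) (by simp)
      (by exact_mod_cast h)

theorem Sv.rz {x y z d e b : L} (hx : x ∈ c.K ∧ Lc N x) (hy : y ∈ c.K ∧ Lc N y)
    (hz : z ∈ c.K ∧ Lc N z) (hd : d ∈ c.K ∧ Lc N d) (he : e ∈ c.K ∧ Lc N e) (hb : Lc N b)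
    (hp : All.pr q (c.θ ^ 2) x y = 0) (h0 : x ≠ 0)
    (h : ∀ u ∈ rz q (c.θ ^ 2) x y z d e b, u = 0) : c.σ z = z := by
  simp only [All.rz, List.forall_mem_cons] at h
  obtain ⟨h1, h2, -⟩ := h
  obtain ⟨h4, h5⟩ := c.pr hx hy hp
  have h6 := (c.pr ⟨mul_mem hx.1 (add_mem hz.1 (mul_mem (mul_mem (natCast_mem _ q) hy.1) hd.1)),
    hx.2.mul (hz.2.add (((Lc.of_int (int_nat q)).mul hy.2).mul hd.2))⟩
    ⟨mul_mem hy.1 he.1, hy.2.mul he.2⟩ h1).1
  simp only [map_mul, map_add, map_natCast, h4, h5] at h6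
  refine c.core hz.1 (hb.mul ((hd.2.map c.σ).sub hd.2)) ?_
  linear_combination (c.σ d - d) * h2 - mul_left_cancel₀ h0 h6

theorem Sv.sound {a : L} {y : Fin 24 → L} (ha : a ∈ c.K) (hy : ∀ i, y i ∈ c.K ∧ Lc N (y i))
    (h : ∀ u ∈ sys N q (c.θ ^ 2) a y, u = 0) : c.σ a = a := by
  simp only [All.sys, List.forall_mem_append] at h
  obtain ⟨⟨⟨⟨hC, hρ⟩, hk⟩, hj⟩, h⟩ := h
  simp only [All.rm, List.forall_mem_cons] at h
  obtain ⟨h1, h2, h3, h4, h5, -⟩ := h
  have h0 := c.nz (hy 3).2 h2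
  have hx := left_ne_zero_of_mul h0
  have hC := c.rz (hy _) (hy _) (hy _) (hy _) (hy _) (hy _).2 h1 hx hC
  have hρ := c.rz (hy _) (hy _) (hy _) (hy _) (hy _) (hy _).2 h1 hx hρ
  have hk := c.rz (hy _) (hy _) (hy _) (hy _) (hy _) (hy _).2 h1 hx hk
  have hj := c.rz (hy _) (hy _) (hy _) (hy _) (hy _) (hy _).2 h1 hx hj
  have he := (c.pr (hy _) (hy _) h3).2
  have e1 := congrArg c.σ h5
  simp only [map_sub, map_mul c.σ _ (y 11), map_mul c.σ (q : L), map_add c.σ 1, map_one,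
    map_zero,
    map_natCast, hk, hj, he] at e1
  have e3 := c.core (w := y 4 * a + y 5) (add_mem (mul_mem (hy _).1 ha) (hy _).1)
    ((hy 10).2.mul ((hy 11).2.sub ((hy 11).2.map c.σ)))
    (by linear_combination h5 - e1 + (y 11 - c.σ (y 11)) * h4)
  rw [map_add, map_mul, hC, hρ] at e3
  exact mul_left_cancel₀ (right_ne_zero_of_mul h0) (add_right_cancel e3)

end Pool.Agent.P.MP_5347d0_lc.All
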