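import Pool.Agent.P.MP_5347d0_lc.LcO

/-! Above the prime two, a square root of two is far from the squares of cyclotomic numbers. -/

namespace Pool.Agent.P.MP_5347d0_lc.Loc

open NumberField IsDedekindDomain IntermediateField CM

section val

variable {L Γ : Type} [Field L] [LinearOrderedCommGroupWithZero Γ] (v : Valuation L Γ)

theorem t_root (hv : v (2 : L) < 1) (k : ℕ) : ∀ {ξ : L}, ξ ^ 2 ^ k = 1 → v (ξ - 1) < 1 := by
  induction k with
  | zero =>
    intro ξ h
    rw [pow_zero, pow_one] at h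
    rw [h, sub_self, map_zero]
    exact zero_lt_one
  | succ k ih =>
    intro ξ h
    have h1 : v (ξ ^ 2 - 1) < 1 := ih (by rw [← pow_mul, ← pow_succ']; exact h)
    by_contra hc
    have h2 : 1 ≤ v (ξ - 1) := not_lt.1 hc
    have h3 : v (ξ + 1) = v (ξ - 1) := by
      have e : ξ + 1 = (ξ - 1) + 2 := by ring
      rw [e, v.map_add_eq_of_lt_left (hv.trans_le h2)]
    have e : ξ ^ 2 - 1 = (ξ + 1) * (ξ - 1) := by ring
    rw [e, map_mul, h3] at h1
    exact absurd h1 (not_lt.2 (one_le_mul h2 h2))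

theorem t_near {x y : L} (h : v (x * y) < v (4 : L)) : v x < v (2 : L) ∨ v y < v (2 : L) := by
  by_contra hc
  rw [not_or, not_lt, not_lt] at hc
  have e : (4 : L) = 2 * 2 := by norm_num
  rw [e, map_mul, map_mul] at h
  exact absurd h (not_lt.2 (mul_le_mul' hc.1 hc.2))

theorem t_mul {x y : L} {g : Γ} (hx : v x < g) (hy : v y ≤ 1) : v (x * y) < g := by
  rw [map_mul]
  exact (mul_le_of_le_one_right' hy).trans_lt hx

/-- the commutator argument -/
theorem t_core (s t : L →+* L) (hs : ∀ x y, v x < v y → v (s x) < v (s y))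
    (ht : ∀ x y, v x < v y → v (t x) < v (t y)) {r u i : L} (hc : s (t u) = t (s u))
    (hsr : s r = -r) (htr : t r = r) (hi : i ^ 2 = -1) (hti : t i = -i) :
    ¬ v (r * u ^ 2 - 1) < v (4 : L) := by
  intro h
  have h4 : v (4 : L) ≤ 1 := by exact_mod_cast val_nat v 4
  have h2 : v (2 : L) ≤ 1 := by exact_mod_cast val_nat v 2
  have hA : v (r * u ^ 2) = 1 := by
    have e : r * u ^ 2 = 1 + (r * u ^ 2 - 1) := by ring
    rw [e, v.map_one_add_of_lt (h.trans_le h4)]
  have hA0 : r * u ^ 2 ≠ 0 := fun h0 => by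
    rw [h0, map_zero] at hA
    exact zero_ne_one hA
  have hr0 : r ≠ 0 := left_ne_zero_of_mul hA0
  have hu0 : u ≠ 0 := fun h0 => hA0 (by rw [h0]; ring)
  have hB0 : s u ≠ 0 := (map_ne_zero s).2 hu0
  have hC0 : t u ≠ 0 := (map_ne_zero t).2 hu0
  have h5 := hs _ _ h
  have h6 := ht _ _ h
  rw [map_sub, map_mul, map_pow, map_one, map_ofNat, hsr] at h5
  rw [map_sub, map_mul, map_pow, map_one, map_ofNat, htr] at h6
  have ha : v ((s u / u - i) * (s u / u + i)) < v (4 : L) := by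
    have e : (s u / u - i) * (s u / u + i) * (r * u ^ 2) =
        (r * u ^ 2 - 1) - (-r * s u ^ 2 - 1) := by
      have e1 : (s u / u - i) * (s u / u + i) = (s u / u) ^ 2 + 1 := by linear_combination -hi
      rw [e1]
      field_simp
      ring
    have h7 := v.map_sub_lt h h5
    rwa [← e, map_mul, hA, mul_one] at h7
  have hb : v ((t u / u - 1) * (t u / u + 1)) < v (4 : L) := by
    have e : (t u / u - 1) * (t u / u + 1) * (r * u ^ 2) =
        (r * t u ^ 2 - 1) - (r * u ^ 2 - 1) := by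
      field_simp
      ring
    have h7 := v.map_sub_lt h6 h
    rwa [← e, map_mul, hA, mul_one] at h7
  obtain ⟨e, he1, he2, he3⟩ : ∃ e : L, e ^ 4 = 1 ∧ t e = -e ∧ v (s u / u - e) < v (2 : L) := by
    rcases t_near v ha with h7 | h7
    · exact ⟨i, by linear_combination (i ^ 2 - 1) * hi, hti, h7⟩
    · exact ⟨-i, by linear_combination (i ^ 2 - 1) * hi, by rw [map_neg, hti],
        by rwa [sub_neg_eq_add]⟩
  obtain ⟨f, hf1, hf2, hf3⟩ : ∃ f : L, f ^ 2 = 1 ∧ s f = f ∧ v (t u / u - f) < v (2 : L) := by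
    rcases t_near v hb with h7 | h7
    · exact ⟨1, one_pow 2, map_one s, h7⟩
    · exact ⟨-1, by ring, by rw [map_neg, map_one], by rwa [sub_neg_eq_add]⟩
  have he := val_root v (by norm_num) he1
  have hf := val_root v (by norm_num) hf1
  have hk : s (t u / u) * (s u / u) = t (s u / u) * (t u / u) := by
    rw [map_div₀, map_div₀, hc]
    field_simp
  have h8 := hs _ _ hf3
  have h9 := ht _ _ he3
  rw [map_sub, map_ofNat, hf2] at h8
  rw [map_sub, map_ofNat, he2] at h9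
  generalize s u / u = a at *
  generalize t u / u = b at *
  have hva : v a ≤ 1 := by
    have e1 : a = (a - e) + e := by ring
    rw [e1]
    exact v.map_add_le (he3.le.trans h2) he.le
  have hvb : v b ≤ 1 := by
    have e1 : b = (b - f) + f := by ring
    rw [e1]
    exact v.map_add_le (hf3.le.trans h2) hf.le
  have e2 : 2 * e * f =
      ((t a - -e) * b - (b - f) * e) - ((s b - f) * a + (a - e) * f) := by
    linear_combination hk
  have h10 := v.map_sub_lt (v.map_sub_lt (t_mul v h9 hvb) (t_mul v hf3 he.le))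
    (v.map_add_lt (t_mul v h8 hva) (t_mul v he3 hf.le))
  rw [← e2, map_mul, map_mul, he, hf, mul_one, mul_one] at h10
  exact lt_irrefl _ h10

end val

section nf

variable {E Γ : Type} [Field E] [NumberField E] [LinearOrderedCommGroupWithZero Γ]

theorem t_centre (v : Valuation E Γ) (hv : v (2 : E) < 1) :
    ∃ w : HeightOneSpectrum (𝓞 E), ∀ x : 𝓞 E, x ∈ w.asIdeal ↔ v (x : E) < 1 := by
  have i : ∀ x : 𝓞 E, v (x : E) ≤ 1 := fun x => val_int v x.isIntegral_coe
  let P : Ideal (𝓞 E) :=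
    { carrier := {x | v (x : E) < 1}
      add_mem' := fun ha hb => v.map_add_lt ha hb
      zero_mem' := by simp
      smul_mem' := fun c x hx => by
        change v ((c : E) * x) < 1
        rw [map_mul]
        exact mul_lt_one_of_nonneg_of_lt_one_right (i c) zero_le hx }
  have hP : ∀ x : 𝓞 E, x ∈ P ↔ v (x : E) < 1 := fun _ => Iff.rfl
  have hprime : P.IsPrime := by
    refine ⟨(Ideal.ne_top_iff_one P).2 (by simp [hP]), fun {x y} h => ?_⟩
    by_contra hc
    rw [not_or, hP, hP] at hc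
    have h' : v ((x : E) * y) < 1 := h
    rw [map_mul, (i x).eq_or_lt.resolve_right hc.1, (i y).eq_or_lt.resolve_right hc.2, one_mul] at h'
    exact lt_irrefl _ h'
  have hpP : (2 : 𝓞 E) ∈ P := hv
  have hne : P ≠ ⊥ := fun h => by
    rw [h, Ideal.mem_bot] at hpP
    exact two_ne_zero hpP
  exact ⟨⟨P, hprime, hne⟩, hP⟩

theorem t_ring (v : Valuation E Γ) (hv : v (2 : E) < 1) (w : HeightOneSpectrum (𝓞 E))
    (hw : ∀ x : 𝓞 E, x ∈ w.asIdeal ↔ v (x : E) < 1) :
    w.valuationSubringAtPrime E = v.valuationSubring := by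
  have i : ∀ x : 𝓞 E, v (x : E) ≤ 1 := fun x => val_int v x.isIntegral_coe
  have hle : w.valuationSubringAtPrime E ≤ v.valuationSubring := by
    rintro x ⟨a, s, hs, rfl⟩
    have h1 : v (s : E) = 1 := (i s).eq_or_lt.resolve_right fun h => hs ((hw s).2 h)
    change v ((a : E) * (s : E)⁻¹) ≤ 1
    rw [map_mul, map_inv₀, h1, inv_one, mul_one]
    exact i a
  have hnt : v.valuationSubring ≠ ⊤ := fun h => by
    have h1 : (2 : E)⁻¹ ∈ v.valuationSubring := h ▸ ValuationSubring.mem_top _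
    rw [Valuation.mem_valuationSubring_iff, map_inv₀,
      inv_le_one₀ ((v.pos_iff).2 two_ne_zero)] at h1
    exact absurd hv (not_lt.2 h1)
  exact ValuationSubring.eq_of_le_of_ne_top _ hle hnt

/-- an automorphism that acts trivially on the residue ring keeps the order of values -/
theorem t_inert (v : Valuation E Γ) (hv : v (2 : E) < 1) (s : E →+* E)
    (h : ∀ x, IsIntegral ℤ x → v (s x - x) < 1) (x y : E) (hxy : v x < v y) :
    v (s x) < v (s y) := by
  obtain ⟨w, hw⟩ := t_centre v hv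
  have h1 := t_ring v hv w hw
  have h2 := t_ring (v.comap s) (by rwa [Valuation.comap_apply, map_ofNat]) w fun x => by
    rw [hw, Valuation.comap_apply]
    have h3 := h x x.isIntegral_coe
    constructor
    · intro h4
      have e : s x = (s x - x) + x := by ring
      rw [e]
      exact v.map_add_lt h3 h4
    · intro h4
      have e : (x : E) = s x - (s x - x) := by ring
      rw [e]
      exact v.map_sub_lt h4 h3
  have h5 : v.IsEquiv (v.comap s) := by
    rw [Valuation.isEquiv_iff_valuationSubring, ← h1, h2]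
  exact h5.lt_iff_lt.1 hxy

theorem t_aut {n k m : ℕ} [NeZero n] [IsCyclotomicExtension {n} ℚ E] (hn : n = 2 ^ k * m)
    (v : Valuation E Γ) (hv : v (2 : E) < 1) (c : ℕ) :
    ∃ s : E ≃ₐ[ℚ] E, (∀ x : E, x ^ n = 1 → s x = x ^ (1 + 2 * c * m)) ∧
      ∀ x y, v x < v y → v (s x) < v (s y) := by
  have hc : (1 + 2 * c * m).Coprime n := by
    rw [hn]
    refine Nat.Coprime.mul_right (Nat.Coprime.pow_right _ (Nat.coprime_two_right.2 ?_)) ?_
    · exact ⟨c * m, by ring⟩
    · rw [Nat.coprime_add_mul_right_left]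
      exact Nat.coprime_one_left m
  let s : E ≃ₐ[ℚ] E :=
    (IsCyclotomicExtension.Rat.galEquivZMod n E).symm (ZMod.unitOfCoprime _ hc)
  have hs : ∀ x : E, x ^ n = 1 → s x = x ^ (1 + 2 * c * m) := fun x hx => by
    rw [IsCyclotomicExtension.Rat.galEquivZMod_apply_of_pow_eq n E s hx, MulEquiv.apply_symm_apply,
      ZMod.coe_unitOfCoprime, ZMod.val_natCast, ← pow_eq_pow_mod _ hx]
  refine ⟨s, hs, t_inert v hv s.toRingEquiv.toRingHom fun x hx => ?_⟩
  have hζ := IsCyclotomicExtension.zeta_spec n ℚ E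
  set ζ := IsCyclotomicExtension.zeta n ℚ E
  have hI := IsCyclotomicExtension.Rat.isIntegralClosure_adjoin_singleton hζ
  obtain ⟨⟨y, hy⟩, rfl⟩ := hI.isIntegral_iff.1 hx
  change v (s y - y) < 1
  clear hx
  induction hy using Algebra.adjoin_induction with
  | mem z hz =>
    rw [Set.mem_singleton_iff.1 hz, hs ζ hζ.pow_eq_one]
    have e : ζ ^ (1 + 2 * c * m) - ζ = (ζ ^ (2 * c * m) - 1) * ζ := by ring
    rw [e]
    refine t_mul v (t_root v hv k ?_) (val_root v (NeZero.ne n) hζ.pow_eq_one).le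
    rw [← pow_mul, show 2 * c * m * 2 ^ k = n * (2 * c) by rw [hn]; ring, pow_mul, hζ.pow_eq_one,
      one_pow]
  | algebraMap q =>
    rw [eq_intCast, map_intCast, sub_self, map_zero]
    exact zero_lt_one
  | add a b _ _ ha hb =>
    have e : s (a + b) - (a + b) = (s a - a) + (s b - b) := by rw [map_add]; ring
    rw [e]
    exact v.map_add_lt ha hb
  | mul a b h1 h2 ha hb =>
    have h3 : v a ≤ 1 := val_int v (hI.isIntegral_iff.2 ⟨⟨a, h1⟩, rfl⟩)
    have h4 : v b ≤ 1 := val_int v (hI.isIntegral_iff.2 ⟨⟨b, h2⟩, rfl⟩)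
    have e : s (a * b) - a * b = (s a - a) * (s b - b) + ((s a - a) * b + (s b - b) * a) := by
      rw [map_mul]; ring
    rw [e]
    exact v.map_add_lt (t_mul v ha hb.le) (v.map_add_lt (t_mul v ha h4) (t_mul v hb h3))

theorem t_cyc {n k m : ℕ} [NeZero n] [IsCyclotomicExtension {n} ℚ E] (hn : n = 2 ^ (k + 3) * m)
    (hm : Odd m) (v : Valuation E Γ) (hv : v (2 : E) < 1) :
    (∃ ρ : E, ρ ^ 2 = 2) ∧ ∀ r u : E, r ^ 2 = 2 → ¬ v (r * u ^ 2 - 1) < v (4 : E) := by
  obtain ⟨s, hs1, hs2⟩ := t_aut hn v hv 2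
  obtain ⟨t, ht1, ht2⟩ := t_aut hn v hv (3 * m)
  have hζ := IsCyclotomicExtension.zeta_spec n ℚ E
  have hω := hζ.pow (NeZero.pos n) (show n = 2 ^ k * m * 8 by rw [hn]; ring)
  generalize IsCyclotomicExtension.zeta n ℚ E ^ (2 ^ k * m) = ω at hω
  have h4 : ω ^ 4 = -1 :=
    (hω.pow (by norm_num) (show 8 = 4 * 2 by norm_num)).eq_neg_one_of_two_right
  have h8 : ω ^ 8 = 1 := hω.pow_eq_one
  have hωn : ω ^ n = 1 := by
    rw [show n = 8 * (2 ^ k * m) by rw [hn]; ring, pow_mul, h8, one_pow]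
  obtain ⟨j, hj⟩ := hm
  have hsω : s ω = -ω := by
    rw [hs1 ω hωn, show 1 + 2 * 2 * m = 8 * j + 5 by rw [hj]; ring, pow_add, pow_mul, h8]
    linear_combination ω * h4
  have htω : t ω = -ω ^ 3 := by
    rw [ht1 ω hωn, show 1 + 2 * (3 * m) * m = 8 * (3 * j ^ 2 + 3 * j) + 7 by rw [hj]; ring,
      pow_add, pow_mul, h8]
    linear_combination ω ^ 3 * h4
  have hρ : (ω - ω ^ 3) ^ 2 = 2 := by linear_combination (ω ^ 2 - 2) * h4
  have hsρ : s (ω - ω ^ 3) = -(ω - ω ^ 3) := by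
    rw [map_sub, map_pow, hsω]
    ring
  have htρ : t (ω - ω ^ 3) = ω - ω ^ 3 := by
    rw [map_sub, map_pow, htω]
    linear_combination ω * h8
  have hti : t (ω ^ 2) = -ω ^ 2 := by
    rw [map_pow, htω]
    linear_combination ω ^ 2 * h4
  have hst : s * t = t * s := (IsCyclotomicExtension.Rat.galEquivZMod n E).injective (by
    rw [map_mul, map_mul, mul_comm])
  refine ⟨⟨_, hρ⟩, fun r u hr => ?_⟩
  have hc : s (t u) = t (s u) := congrArg (fun g : E ≃ₐ[ℚ] E => g u) hst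
  have hi : (ω ^ 2) ^ 2 = -1 := by linear_combination h4
  rcases sq_eq_sq_iff_eq_or_eq_neg.1 (hr.trans hρ.symm) with h | h
  · rw [h]
    exact t_core v s.toRingEquiv.toRingHom t.toRingEquiv.toRingHom hs2 ht2 hc hsρ htρ hi hti
  · rw [h]
    refine t_core v s.toRingEquiv.toRingHom t.toRingEquiv.toRingHom hs2 ht2 hc ?_ ?_ hi hti
    · rw [map_neg]
      exact congrArg Neg.neg hsρ
    · rw [map_neg]
      exact congrArg Neg.neg htρ

end nf

theorem two_ns {Γ : Type} [LinearOrderedCommGroupWithZero Γ] (v : Valuation Qcm Γ)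
    (hv : v (2 : Qcm) < 1) {r u : Qcm} (hr : r ^ 2 = 2) (hu : (u : ℂ) ∈ Qcyc) :
    ¬ v (r * u ^ 2 - 1) < v (4 : Qcm) := by
  obtain ⟨N, hN, h⟩ := o_level hu
  obtain ⟨k, m, hm, e⟩ := Nat.exists_eq_two_pow_mul_odd hN
  have hn : N * 8 ≠ 0 := mul_ne_zero hN (by norm_num)
  have : NeZero (N * 8) := ⟨hn⟩
  have hz := Complex.isPrimitiveRoot_exp (N * 8) hn
  set z := Complex.exp (2 * Real.pi * Complex.I / (N * 8 : ℕ))
  have hzi : IsIntegral ℚ z := (hz.isIntegral (Nat.pos_of_ne_zero hn)).tower_top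
  have hL : Qcyc ≤ Qcm := sup_eq ▸ le_sup_left
  have hle : ℚ⟮z⟯ ≤ Qcm := le_trans (adjoin_simple_le_iff.2
    (subset_adjoin ℚ {z : ℂ | ∃ n : ℕ, 0 < n ∧ z ^ n = 1}
      ⟨N * 8, Nat.pos_of_ne_zero hn, hz.pow_eq_one⟩)) hL
  have : NumberField ℚ⟮z⟯ :=
    { to_charZero := inferInstance, to_finiteDimensional := adjoin.finiteDimensional hzi }
  have : IsCyclotomicExtension {N * 8} ℚ ℚ⟮z⟯ :=
    (IntermediateField.isCyclotomicExtension_singleton_iff_eq_adjoin (N * 8) ℚ ℂ _ hz).2 rfl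
  let φ : ℚ⟮z⟯ →+* Qcm := (inclusion hle).toRingHom
  obtain ⟨⟨ρ, hρ⟩, h1⟩ := t_cyc (n := N * 8) (k := k) (m := m) (by rw [e]; ring) hm (v.comap φ)
    (by rwa [Valuation.comap_apply, map_ofNat])
  obtain ⟨r0, h2, rfl⟩ : ∃ r0 : ℚ⟮z⟯, r0 ^ 2 = 2 ∧ φ r0 = r := by
    have h3 : φ ρ ^ 2 = r ^ 2 := by rw [← map_pow, hρ, map_ofNat, hr]
    rcases sq_eq_sq_iff_eq_or_eq_neg.1 h3 with h4 | h4
    · exact ⟨ρ, hρ, h4⟩
    · exact ⟨-ρ, by rw [neg_sq, hρ], by rw [map_neg, h4, neg_neg]⟩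
  have h5 := h1 r0 ⟨u, h _ z hn (dvd_mul_right _ _) hz⟩ h2
  rw [Valuation.comap_apply, Valuation.comap_apply, map_ofNat, map_sub, map_mul, map_pow,
    map_one] at h5
  exact h5

end Pool.Agent.P.MP_5347d0_lc.Loc
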