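import Pool.Agent.P.MP_5347d0_lc.LcM
import Pool.Agent.P.MP_5347d0_lc.LdS
import Pool.Agent.P.MP_5347d0_lc.LdT

/-! The real elements of the ring of cyclotomic integers with a positive integer inverted form a
Diophantine set. -/

namespace Pool.Agent.P.MP_5347d0_lc.All

open NumberField IntermediateField Polynomial CM
open scoped ComplexConjugate

section pi

open Loc

variable {M : ℕ} (hM : Odd M) {ζ ι r θ w : Qcm} (hζ : IsPrimitiveRoot ζ M) (hι : ι ^ 2 + 1 = 0)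
  (hr : r ^ 2 - 2 = 0) (hθ : θ ^ 2 = piG M ζ ι r) (hw : (w : ℂ) ∈ Qcyc)

include hr in
theorem int_r : IsIntegral ℤ r :=
  IsIntegral.of_pow two_pos (by rw [sub_eq_zero.1 hr]; exact_mod_cast int_nat 2)

include hM hζ hι in
theorem int_f : IsIntegral ℤ (piF M ζ ι) :=
  o_mem (integralClosure ℤ Qcm) M (hζ.isIntegral hM.pos)
    (IsIntegral.of_pow (n := 4) (by norm_num) (o_four hι ▸ isIntegral_one))

include hM hζ hι hr hθ hw

theorem ns_odd (V : ValuationSubring Qcm) {p : ℕ} (hp : p.Prime) (hpM : p ∣ M)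
    (hv : V.valuation (p : Qcm) < 1) : V.valuation 2 ≤ V.valuation (θ * w - 1) := by
  have hodd := hM.of_dvd_nat hpM
  have h2 : V.valuation (2 : Qcm) = 1 := by
    exact_mod_cast val_coprime V.valuation (Nat.coprime_two_right.2 hodd) hv
  have hp3 : 1 < p - 1 := by
    have := hp.two_le
    obtain ⟨j, hj⟩ := hodd
    omega
  have h3 := o_val V.valuation hM hp hpM hζ hι hv
  have h0 : V.valuation (p : Qcm) ≠ 0 := V.valuation.ne_zero_iff.2 (Nat.cast_ne_zero.2 hp.ne_zero)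
  have h4 : 0 < V.valuation (piF M ζ ι) :=
    zero_lt_iff.2 fun h => h0 (by rw [← h3, h, zero_pow (by omega)])
  have h5 : V.valuation (piF M ζ ι) < 1 := by
    by_contra h
    exact absurd (h3 ▸ one_le_pow₀ (not_lt.1 h)) (not_le.2 hv)
  have h6 : V.valuation (p : Qcm) < V.valuation (piF M ζ ι) := by
    have := pow_right_strictAnti₀ h4 h5 hp3
    simp only [pow_one] at this
    rwa [h3] at this
  have h7 : V.valuation (8 * piF M ζ ι) = V.valuation (piF M ζ ι) := by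
    rw [show (8 : Qcm) = 2 ^ 3 by norm_num, map_mul, map_pow, h2, one_pow, one_mul]
  have h8 : V.valuation ((M : Qcm) ^ 2 * (r + 16)) ≤ V.valuation (p : Qcm) := by
    obtain ⟨m, hm⟩ := hpM
    rw [show (M : Qcm) ^ 2 * (r + 16) = p * (((m * M : ℕ) : Qcm) * (r + (16 : ℕ))) by
      rw [hm]; push_cast; ring, map_mul]
    exact mul_le_of_le_one_right'
      (val_int _ ((int_nat _).mul ((int_r hr).add (int_nat 16))))
  have h9 : V.valuation θ ^ 2 = V.valuation (piF M ζ ι) := by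
    rw [← map_pow, hθ, piG, V.valuation.map_add_eq_of_lt_right (h7 ▸ h8.trans_lt h6), h7]
  have h1 : V.valuation (θ * w) ≠ 1 := by
    intro h
    refine gammaL cyc_le V.valuation hp (by omega) hv w⁻¹ (inv_mem hw) ?_
    rw [map_mul] at h
    rw [← h3, ← h9, eq_inv_of_mul_eq_one_left h, map_inv₀, pow_mul]
  rw [h2]
  rcases h1.lt_or_gt with h | h
  · rw [V.valuation.map_sub_eq_of_lt_right (by rwa [map_one]), map_one]
  · rw [V.valuation.map_sub_eq_of_lt_left (by rwa [map_one])]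
    exact h.le

theorem ns_two (V : ValuationSubring Qcm) (hv : V.valuation (2 : Qcm) < 1) :
    V.valuation 2 ≤ V.valuation (θ * w - 1) := by
  by_contra h
  rw [not_le] at h
  have p2 : 0 < V.valuation (2 : Qcm) := V.valuation.pos_iff.2 two_ne_zero
  have e4 : V.valuation (4 : Qcm) = V.valuation 2 * V.valuation 2 := by
    rw [← map_mul]; norm_num
  have hMv : V.valuation (M : Qcm) = 1 :=
    val_coprime V.valuation (Nat.coprime_two_left.2 hM) (by exact_mod_cast hv)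
  have h1 : V.valuation (θ ^ 2 * w ^ 2 - 1) < V.valuation 4 := by
    rw [show θ ^ 2 * w ^ 2 - 1 = (θ * w - 1) * ((θ * w - 1) + 2) by ring, map_mul,
      V.valuation.map_add_eq_of_lt_right h, e4]
    exact mul_lt_mul_of_pos_right h p2
  have er : V.valuation r * V.valuation r = V.valuation 2 := by
    rw [← map_mul, ← sq, sub_eq_zero.1 hr]
  have pr : 0 < V.valuation r := zero_lt_iff.2 fun h0 => p2.ne' (by rw [← er, h0, mul_zero])
  have r1 : V.valuation r < 1 := by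
    by_contra h0
    exact absurd (er ▸ one_le_mul (not_lt.1 h0) (not_lt.1 h0)) (not_le.2 hv)
  have r2 : V.valuation 2 < V.valuation r := er ▸ mul_lt_of_lt_one_right pr r1
  obtain ⟨c, hc⟩ : ∃ c : Qcm, c = (2 * M ^ 2 : ℕ) + piF M ζ ι := ⟨_, rfl⟩
  have ci : V.valuation c ≤ 1 := val_int _ (hc ▸ (int_nat _).add (int_f hM hζ hι))
  have e : θ ^ 2 = M ^ 2 * r + 4 * (2 * c) := by
    rw [hθ, piG, hc]
    push_cast
    ring
  have h4 : V.valuation (4 : Qcm) ≤ 1 := by exact_mod_cast val_nat V.valuation 4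
  have c2 : V.valuation (2 * c) < V.valuation r := by
    rw [map_mul]
    exact (mul_le_of_le_one_right' ci).trans_lt r2
  have em : V.valuation (M ^ 2 * r) = V.valuation r := by
    rw [map_mul, map_pow, hMv, one_pow, one_mul]
  have h2 : V.valuation (θ ^ 2) = V.valuation r := by
    rw [e, V.valuation.map_add_eq_of_lt_left (by
      rw [em, map_mul]; exact (mul_le_of_le_one_left' h4).trans_lt c2), em]
  have h3 : V.valuation r * V.valuation (w ^ 2) = 1 := by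
    rw [← h2, ← map_mul, ← sub_add_cancel (θ ^ 2 * w ^ 2) 1,
      V.valuation.map_add_eq_of_lt_right (by rw [map_one]; exact h1.trans_le h4), map_one]
  have h5 : V.valuation (4 * (2 * c * w ^ 2)) < V.valuation 4 := by
    rw [map_mul, map_mul _ (2 * c)]
    refine mul_lt_of_lt_one_right (e4 ▸ mul_pos p2 p2) (h3 ▸ mul_lt_mul_of_pos_right c2 ?_)
    exact zero_lt_iff.2 fun h0 => zero_ne_one (by rw [← h3, h0, mul_zero])
  refine two_ns V.valuation hv (sub_eq_zero.1 hr) (u := M * w)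
    (mul_mem (_root_.natCast_mem _ M) hw) ?_
  rw [show r * (M * w) ^ 2 - 1 = (θ ^ 2 * w ^ 2 - 1) - 4 * (2 * c * w ^ 2) by rw [e]; ring]
  exact V.valuation.map_sub_lt h1 h5

omit hθ hw

theorem piG_int : IsIntegral ℤ (piG M ζ ι r) :=
  (((int_nat M).pow 2).mul ((int_r hr).add (int_nat 16))).add ((int_nat 8).mul (int_f hM hζ hι))

omit hM in
theorem piG_pos (h2 : 2 ≤ M) (ψ : Qcm →+* ℂ) : ∃ t : ℝ, 0 < t ∧ ψ (piG M ζ ι r) = t := by
  obtain ⟨t, ht, e⟩ := o_pos h2 (z := ψ ζ) (j := ψ ι)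
    (by rw [← map_pow, hζ.pow_eq_one, map_one])
    (by rw [← map_pow, ← map_one ψ, ← map_add, hι, map_zero])
  have h1 : ψ r ^ 2 = ((Real.sqrt 2 : ℝ) : ℂ) ^ 2 := by
    rw [← Complex.ofReal_pow, Real.sq_sqrt zero_le_two, ← map_pow, sub_eq_zero.1 hr, map_ofNat]
    norm_num
  have h3 : Real.sqrt 2 < 16 := Real.sqrt_lt' (by norm_num) |>.2 (by norm_num)
  have h4 := Real.sqrt_nonneg 2
  obtain ⟨s, hs, e1⟩ : ∃ s : ℝ, 0 < s + 16 ∧ ψ r = s := by
    rcases sq_eq_sq_iff_eq_or_eq_neg.1 h1 with h | h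
    · exact ⟨_, by linarith, h⟩
    · exact ⟨-Real.sqrt 2, by linarith, by rw [h, Complex.ofReal_neg]⟩
  refine ⟨M ^ 2 * (s + 16) + 8 * t, by positivity, ?_⟩
  rw [piG_map, piG, e, e1]
  push_cast
  rfl

theorem piG_nsq (h2 : 2 ≤ M) (w : Qcm) (hw : (w : ℂ) ∈ Qcyc) : w ^ 2 ≠ piG M ζ ι r := by
  intro h
  have hw0 : w ≠ 0 := by
    rintro rfl
    obtain ⟨t, ht, e⟩ := piG_pos hζ hι hr h2 Qcm.val.toRingHom
    rw [← h, zero_pow two_ne_zero, map_zero] at e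
    exact ht.ne (by exact_mod_cast e)
  have h1 : IsIntegral ℤ (2 : Qcm)⁻¹ := by
    refine int_of_val (N := 2) ⟨1, ?_⟩ fun V hV => ?_
    · rw [pow_one, Nat.cast_ofNat, mul_inv_cancel₀ two_ne_zero]
      exact isIntegral_one
    · have h3 := ns_two hM hζ hι hr h (w := w⁻¹) (inv_mem hw) V (by exact_mod_cast hV)
      rw [mul_inv_cancel₀ hw0, sub_self, map_zero] at h3
      exact absurd (V.valuation.pos_iff.2 two_ne_zero) (not_lt.2 h3)
  have := alg_cm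
  have h3 : (2 : Qcm)⁻¹ = 0 := congrArg (fun z : 𝓞 Qcm => (z : Qcm))
    (lemA ⟨_, h1⟩ fun ψ => by
      change ‖ψ (2 : Qcm)⁻¹‖ < 1
      rw [map_inv₀, map_ofNat, norm_inv, Complex.norm_ofNat]
      norm_num)
  exact inv_ne_zero two_ne_zero h3

end pi

theorem solve_nf {F : Type} [Field F] [NumberField F] {q : ℕ} (hq : q.Prime)
    (hre : ∀ φ : F →+* ℂ, ∀ x, (φ x).im = 0) (π A : 𝓞 F)
    (hpos : ∀ φ : F →+* ℂ, 0 < (φ π).re) (hsq : ∀ r : F, r ^ 2 ≠ π)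
    (h : ∀ φ ψ : F →ₐ[ℚ] ℂ, φ A = ψ A → φ π = ψ π → φ = ψ)
    {R : Type} [CommRing R] (ρ : 𝓞 F →+* R) {N l : ℕ} (hN : N ≠ 0) {a : R}
    (hA : ρ A = (N : R) ^ l * a) : ∃ y : Fin 24 → R, ∀ u ∈ sys N q (ρ π) a y, u = 0 := by
  have hπ : (π : F) ≠ 0 := fun h0 => hsq 0 (by rw [h0]; simp)
  obtain ⟨r, hr⟩ := Loc.gen hπ h
  have key : ∀ m : 𝓞 F, m ≠ 0 → ∃ x y : 𝓞 F, pr q π x y = 0 ∧ x ≠ 0 ∧ m ∣ y ∧
      ℚ⟮((1 + q * y : 𝓞 F) : F)⟯ = ⊤ := by
    intro m hm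
    obtain ⟨X, Y, h1, ⟨x, rfl⟩, ⟨y, h2⟩, h3, h4⟩ := Loc.pell hre π hpos hsq (q * m)
      (mul_ne_zero (Nat.cast_ne_zero.2 hq.ne_zero) hm)
    have e : 1 + q * (m * y) = Y := by linear_combination -h2
    refine ⟨m * x, m * y, ?_, mul_ne_zero hm (right_ne_zero_of_mul h3), dvd_mul_right _ _, ?_⟩
    · unfold pr
      rw [e]
      linear_combination h1
    · rwa [e]
  have hpr : ∀ x y : 𝓞 F, pr q π x y = 0 → pr q (ρ π) (ρ x) (ρ y) = 0 := fun x y h1 => by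
    simpa only [pr, map_sub, map_mul, map_pow, map_add, map_one, map_natCast, map_zero] using
      congrArg ρ h1
  obtain ⟨x1, y1, h1, -, -, h2⟩ := key 1 one_ne_zero
  obtain ⟨n1, hn1, f, hf⟩ := int_poly (θ := 1 + (q : 𝓞 F) * y1) (y := A + (r : 𝓞 F))
    (by rw [h2]; exact mem_top)
  have hr' : ((π * (A + (r : 𝓞 F)) ^ 2 : 𝓞 F) : F) = π * (A + r) ^ 2 := by simp
  obtain ⟨n2, hn2, g, hg⟩ := int_poly (θ := π * (A + (r : 𝓞 F)) ^ 2) 
    (y := 1 + (q : 𝓞 F) * y1)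
    (by rw [hr', hr]; exact mem_top)
  have ae : ∀ (u : 𝓞 F) (q : ℤ[X]), ρ (aeval u q) = aeval (ρ u) q := fun u q =>
    (aeval_algHom_apply ρ.toIntAlgHom u q).symm
  have hf' := (congrArg ρ hf).trans (ae _ _)
  have hg' := (congrArg ρ hg).trans (ae _ _)
  have hV := (Algebra.IsIntegral.isIntegral (R := ℤ) (π * (A + (r : 𝓞 F)) ^ 2)).map ρ.toIntAlgHom
  simp only [RingHom.toIntAlgHom_apply, map_mul, map_pow, map_add, map_one,
    map_natCast, map_intCast, hA] at hf' hg' hV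
  refine sys_solve hq N l r hN (hpr _ _ h1) hV hn1 hn2 hf' hg' fun z1 z2 z3 z4 => ?_
  have h3 : ∀ z : ℤ, (q : 𝓞 F) ^ 2 * π * (z : 𝓞 F) ^ 2 - 1 ≠ 0 := by
    intro z h0
    have h4 : (q : F) ^ 2 * (π : F) * (z : F) ^ 2 - 1 = 0 := by
      simpa only [map_sub, map_mul, map_pow, map_one, map_natCast, map_intCast, map_zero] using
        congrArg (algebraMap (𝓞 F) F) h0
    exact hsq (q * z * π) (by linear_combination (π : F) * h4)
  obtain ⟨x, y, h4, h5, h6, -⟩ := key _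
    (mul_ne_zero (mul_ne_zero (mul_ne_zero (h3 z1) (h3 z2)) (h3 z3)) (h3 z4))
  obtain ⟨n, hn, h7⟩ := (Algebra.IsIntegral.isIntegral (R := ℤ) x).isAlgebraic.exists_nonzero_dvd
    (mem_nonZeroDivisors_of_ne_zero h5)
  refine ⟨ρ x, ρ y, hpr _ _ h4, ⟨n, hn, by simpa using map_dvd ρ h7⟩, ?_⟩
  simpa only [map_sub, map_mul, map_pow, map_one, map_natCast, map_intCast] using map_dvd ρ h6

open Loc (Lc jR jR_lc jR_inj cube_R prim_iff conj_cyc int_val val_prime o_sqrt)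

variable {N q M : ℕ} {R : Subring ℂ} (hR : ∀ z ∈ R, z ∈ Qcyc ∧ Lc N z) (hM : Odd M) (h2M : 2 ≤ M)

include hR hM h2M

theorem sound (hN : N ≠ 0) (h5 : 5 ≤ q) (hq : N.Coprime q)
    (hNM : ∀ p, p.Prime → p ∣ N → p = 2 ∨ p ∣ M) {a : R} {y : Fin 27 → R}
    (h : ∀ u ∈ eqn N q M a y, u = 0) : (a : ℂ).im = 0 := by
  have h1 : ∀ u ∈ eqn N q M (jR hR a) fun i => jR hR (y i), u = 0 := by
    rw [← eqn_map, List.forall_mem_map]
    intro e he
    rw [h e he, map_zero]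
  rw [eqn, List.forall_mem_cons, List.forall_mem_cons, List.forall_mem_cons] at h1
  obtain ⟨h2, h3, hr, h4⟩ := h1
  have hζ := (prim_iff hM.pos _).1 h2
  obtain ⟨θ, i3, i4⟩ := o_sqrt (piG_pos hζ h3 hr h2M)
  have := alg_cm
  let c : Sv Qcm N q :=
    { σ := cQ
      σσ := fun x => Subtype.ext (Complex.conj_conj (x : ℂ))
      pt := Set.range fun ψ : Qcm →ₐ[ℚ] ℂ => ψ.toRingHom
      cj := by
        rintro _ ⟨ψ, rfl⟩ x
        exact cQ_comm ψ x
      small := fun β hβ h => congrArg (fun z : 𝓞 Qcm => (z : Qcm))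
        (lemA ⟨β, hβ⟩ fun ψ => h _ ⟨ψ, rfl⟩)
      K := Qcyc.toSubfield.comap Qcm.val.toRingHom
      σK := fun x hx => conj_cyc hx
      θ := θ
      σθ := i4
      θi := IsIntegral.of_pow two_pos (i3 ▸ piG_int hM hζ h3 hr)
      θ0 := fun h0 => piG_nsq hM hζ h3 hr h2M 0 (zero_mem _) (by rw [← i3, h0])
      ns := fun V hV w hw => by
        obtain ⟨p, hp, h6, h7⟩ := val_prime V.valuation hN hV
        rcases hNM p hp h6 with rfl | h8
        · exact ns_two hM hζ h3 hr i3 hw V (by exact_mod_cast h7)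
        · exact ns_odd hM hζ h3 hr i3 hw V hp h8 h7
      hN := hN
      h5 := h5
      hq := hq }
  have h5 : cQ (jR hR a) = jR hR a := c.sound (y := fun i => jR hR (y i.succ.succ.succ))
    (hR a a.2).1 (fun i => ⟨(hR _ (y _).2).1, jR_lc hR _⟩)
    (by rw [show c.θ ^ 2 = _ from i3]; exact h4)
  exact Complex.conj_eq_iff_im.1 (congrArg (fun z : Qcm => (z : ℂ)) h5)

theorem solvable (hN : N ≠ 0) (hq : q.Prime) {K : IntermediateField ℚ ℂ}
    (hμ : ∀ z : ℂ, z ^ (8 * M) = 1 → z ∈ K)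
    (h1 : ∀ z ∈ K, IsIntegral ℤ z → z ∈ R) (h2 : ∀ z ∈ R, z ∈ K) {a : R} (ha : (a : ℂ).im = 0) :
    ∃ y : Fin 27 → R, ∀ u ∈ eqn N q M a y, u = 0 := by
  have root : ∀ z : ℂ, z ^ (8 * M) = 1 → z ∈ R := fun z h =>
    h1 z (hμ z h) (IsIntegral.of_pow (Nat.mul_pos (by norm_num) hM.pos) (h ▸ isIntegral_one))
  have hz := Complex.isPrimitiveRoot_exp M hM.pos.ne'
  have h8 := Complex.isPrimitiveRoot_exp 8 (by norm_num)
  let ζ : R := ⟨_, root _ ((hz.pow_eq_one_iff_dvd _).2 (dvd_mul_left _ _))⟩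
  let ω : R := ⟨_, root _ ((h8.pow_eq_one_iff_dvd _).2 (dvd_mul_right _ _))⟩
  have hω : ω ^ 4 = -1 := Subtype.ext
    (h8.pow (by norm_num) (show 8 = 4 * 2 from rfl)).eq_neg_one_of_two_right
  have hζ : IsPrimitiveRoot (jR hR ζ) M :=
    IsPrimitiveRoot.of_map_of_injective (f := Qcm.val.toRingHom) hz Subtype.val_injective
  obtain ⟨ι, hι⟩ : ∃ ι : R, ι ^ 2 + 1 = 0 := ⟨ω ^ 2, by linear_combination hω⟩
  obtain ⟨r, hr⟩ : ∃ r : R, r ^ 2 - 2 = 0 :=
    ⟨ω - ω ^ 3, by linear_combination (ω ^ 2 - 2) * hω⟩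
  have hι' : jR hR ι ^ 2 + 1 = 0 := by
    simpa only [map_add, map_pow, map_one, map_zero] using congrArg (jR hR) hι
  have hr' : jR hR r ^ 2 - 2 = 0 := by
    simpa only [map_sub, map_pow, map_ofNat, map_zero] using congrArg (jR hR) hr
  have i1 := piG_int hM hζ hι' hr'
  have i3 := piG_pos hζ hι' hr' h2M
  have i6 := piG_nsq hM hζ hι' hr' h2M
  obtain ⟨θ, i4, i5⟩ := o_sqrt i3
  rw [← piG_map] at i1 i3 i4 i6
  have h0 : aeval ζ (cyclotomic M ℤ) = 0 := jR_inj hR (by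
    rw [map_zero]
    exact (aeval_algHom_apply (jR hR).toIntAlgHom ζ _).symm.trans ((prim_iff hM.pos _).2 hζ))
  suffices h : ∃ y : Fin 24 → R, ∀ u ∈ sys N q (piG M ζ ι r) a y, u = 0 by
    obtain ⟨y, hy⟩ := h
    refine ⟨Fin.cons ζ (Fin.cons ι (Fin.cons r y)), ?_⟩
    rw [eqn, List.forall_mem_cons, List.forall_mem_cons, List.forall_mem_cons]
    exact ⟨h0, hι, hr, hy⟩
  generalize piG M ζ ι r = π at i1 i3 i4 i6
  obtain ⟨l, hl⟩ := jR_lc hR a
  have := alg_cm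
  let A : Qcm := (N : Qcm) ^ l * jR hR a
  let F : IntermediateField ℚ Qcm := ℚ⟮A, jR hR π⟯
  have : FiniteDimensional ℚ F := IntermediateField.finiteDimensional_adjoin
    fun x _ => Algebra.IsIntegral.isIntegral x
  have : NumberField F := {}
  have hF : ∀ x : F, ((x : Qcm) : ℂ) ∈ K ⊓ Qcyc ∧ cQ x = x := by
    rintro ⟨x, hx⟩
    change (x : ℂ) ∈ K ⊓ Qcyc ∧ cQ x = x
    induction hx using IntermediateField.adjoin_induction with
    | mem x hx =>
      rcases hx with rfl | rfl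
      · refine ⟨mul_mem (pow_mem (_root_.natCast_mem _ N) l) ⟨h2 a a.2, (hR a a.2).1⟩, ?_⟩
        rw [map_mul, map_pow, map_natCast,
          show cQ (jR hR a) = jR hR a from Subtype.ext (Complex.conj_eq_iff_im.2 ha)]
      · exact ⟨⟨h2 π π.2, (hR π π.2).1⟩, by rw [← i4, map_pow, i5]⟩
    | algebraMap q => exact ⟨(K ⊓ Qcyc).algebraMap_mem q, cQ.toRatAlgHom.commutes q⟩
    | add x y _ _ hx hy => exact ⟨add_mem hx.1 hy.1, by rw [map_add, hx.2, hy.2]⟩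
    | inv x _ hx => exact ⟨inv_mem hx.1, by rw [map_inv₀, hx.2]⟩
    | mul x y _ _ hx hy => exact ⟨mul_mem hx.1 hy.1, by rw [map_mul, hx.2, hy.2]⟩
  have up : ∀ x : F, IsIntegral ℤ (x : Qcm) ↔ IsIntegral ℤ x := fun x =>
    isIntegral_algHom_iff (F.val.restrictScalars ℤ) Subtype.val_injective
  let ρ : 𝓞 F →+* R :=
    (Qcm.val.toRingHom.comp (F.val.toRingHom.comp (algebraMap (𝓞 F) F))).codRestrict R
      fun x => h1 _ (hF x).1.1 (int_val.2 ((up x).2 x.isIntegral_coe))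
  let A' : 𝓞 F := ⟨⟨A, subset_adjoin ℚ _ (Or.inl rfl)⟩, (up _).1 hl⟩
  let π' : 𝓞 F := ⟨⟨jR hR π, subset_adjoin ℚ _ (Or.inr rfl)⟩, (up _).1 i1⟩
  refine solve_nf (F := F) hq (fun φ x => ?_) π' A' (fun φ => ?_) (fun r hr => ?_)
    (fun φ ψ h1 h2 => ?_) ρ (l := l) hN (Subtype.ext rfl)
  · obtain ⟨ψ, hψ⟩ := ext_emb F φ
    rw [← hψ, ← Complex.conj_eq_iff_im, ← cQ_comm, (hF x).2]
  · obtain ⟨ψ, hψ⟩ := ext_emb F φ
    obtain ⟨t, h1, h2⟩ := i3 ψ.toRingHom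
    rw [← hψ, show ψ ((π' : F) : Qcm) = t from h2]
    exact h1
  · exact i6 r (hF r).1.2 (congrArg (fun z : F => (z : Qcm)) hr)
  · refine IntermediateField.adjoin_algHom_ext ℚ ?_
    rintro z (rfl | rfl)
    · exact h1
    · exact h2

omit hR hM h2M

theorem main (N : ℕ) (hN : N ≠ 0) : ∃ (n : ℕ) (F : MvPolynomial (Option (Fin n)) ℤ),
    ∀ K : IntermediateField ℚ ℂ, K ≤ Qcyc → (∀ z : ℂ, z ^ (24 * N) = 1 → z ∈ K) →
      ∀ R : Subring ℂ, (∀ z ∈ K, IsIntegral ℤ z → z ∈ R) →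
        (∀ z ∈ R, z ∈ K ∧ ∃ k : ℕ, IsIntegral ℤ ((N : ℂ) ^ k * z)) → ∀ a : R,
          ((a : ℂ).im = 0 ↔
            ∃ y : Fin n → R, MvPolynomial.aeval (fun o : Option (Fin n) => o.elim a y) F = 0) := by
  obtain ⟨q, h5, hq⟩ := Nat.exists_infinite_primes (N + 5)
  obtain ⟨e, m, hm, hNm⟩ := Nat.exists_eq_pow_mul_and_not_dvd hN 2 (by norm_num)
  have hM : Odd (3 * m) := Odd.mul (by decide) (Nat.odd_iff.2 (by omega))
  have h2M : 2 ≤ 3 * m := by have := hM.pos; omega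
  refine ⟨27, comb (eqn N q (3 * m) (MvPolynomial.X none) fun i => MvPolynomial.X (some i)),
    fun K hK hμ R h1 h2 a => ?_⟩
  have hR : ∀ z ∈ R, z ∈ Qcyc ∧ Lc N z := fun z hz => ⟨hK (h2 z hz).1, (h2 z hz).2⟩
  have h3 : ∀ y : Fin 27 → R, MvPolynomial.aeval (fun o : Option (Fin 27) => o.elim a y)
      (comb (eqn N q (3 * m) (MvPolynomial.X none : MvPolynomial (Option (Fin 27)) ℤ)
        fun i => MvPolynomial.X (some i))) = comb (eqn N q (3 * m) a y) := by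
    intro y
    have h2 := comb_map (MvPolynomial.aeval (R := ℤ)
      (fun o : Option (Fin 27) => o.elim a y)).toRingHom
      (eqn N q (3 * m) (MvPolynomial.X none) fun i => MvPolynomial.X (some i))
    rw [eqn_map] at h2
    simpa using h2
  simp only [h3, comb_eq_zero (cube_R hR hN)]
  refine ⟨solvable hR hM h2M hN hq (fun z hz => hμ z ?_) h1 fun z hz => (h2 z hz).1,
    fun ⟨_, h⟩ => sound hR hM h2M hN (by omega)
      (Nat.coprime_of_lt_prime hN (by omega) hq).symm (fun p hp h4 => ?_) h⟩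
  · rw [hNm, show 24 * (2 ^ e * m) = 8 * (3 * m) * 2 ^ e by ring, pow_mul, hz, one_pow]
  · rw [hNm] at h4
    exact ((Nat.Prime.dvd_mul hp).1 h4).imp
      (fun h6 => (Nat.prime_dvd_prime_iff_eq hp Nat.prime_two).1 (hp.dvd_of_dvd_pow h6))
      fun h6 => h6.mul_left 3

end Pool.Agent.P.MP_5347d0_lc.All
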