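import Pool.Agent.P.MP_5347d0_lc.LdM

/-! Descent from fields with enough roots of unity to all cyclotomic subfields. -/

namespace Pool.Agent.P.MP_5347d0_lc.All

open IntermediateField Polynomial CM Finset
open Loc (Lc int_nat)

theorem dft (K : IntermediateField ℚ ℂ) {M : ℕ} (hM : M ≠ 0) {ζ o : ℂ} (hζ : ζ ^ M = 1)
    (ho : o ∈ K⟮ζ⟯) (hi : IsIntegral ℤ o) :
    ∃ c : Fin M → ℂ, (∀ j, c j ∈ K ∧ IsIntegral ℤ (c j)) ∧ M * o = ∑ j, c j * ζ ^ (j : ℕ) := by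
  classical
  have zi : IsIntegral ℤ ζ := IsIntegral.of_pow (Nat.pos_of_ne_zero hM) (hζ ▸ isIntegral_one)
  have : FiniteDimensional K K⟮ζ⟯ := adjoin.finiteDimensional zi.tower_top
  let g : K⟮ζ⟯ := AdjoinSimple.gen K ζ
  have up : ∀ x : K⟮ζ⟯, IsIntegral ℤ (x : ℂ) → IsIntegral ℤ x := fun x =>
    (isIntegral_algHom_iff (K⟮ζ⟯.val.restrictScalars ℤ) Subtype.val_injective).1
  have hg : g ^ M = 1 := Subtype.ext hζ
  refine ⟨fun j => algebraMap K ℂ (Algebra.trace K K⟮ζ⟯ (⟨o, ho⟩ * (g ^ (M - 1)) ^ (j : ℕ))),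
    fun j => ⟨Subtype.property _, (Algebra.isIntegral_trace
      ((up ⟨o, ho⟩ hi).mul (((up g zi).pow _).pow _))).map (K.val.restrictScalars ℤ)⟩, ?_⟩
  simp only [trace_eq_sum_embeddings ℂ, sum_mul, map_mul, map_pow, mul_assoc, ← mul_pow]
  rw [sum_comm, sum_eq_single K⟮ζ⟯.val]
  · have e : K⟮ζ⟯.val g ^ (M - 1) * ζ = 1 := by
      change ζ ^ (M - 1) * ζ = 1
      rw [← pow_succ, Nat.sub_add_cancel (Nat.pos_of_ne_zero hM), hζ]
    simp only [e, one_pow, mul_one, sum_const, card_univ, Fintype.card_fin, nsmul_eq_mul]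
    rfl
  · intro σ _ hσ
    have h1 : σ g ^ M = 1 := by rw [← map_pow, hg, map_one]
    have h2 : σ g ^ (M - 1) * ζ ≠ 1 := fun h => hσ (IntermediateField.adjoin_algHom_ext K (by
      rintro z rfl
      change σ g = z
      have h3 : σ g * σ g ^ (M - 1) = 1 := by
        rw [← pow_succ', Nat.sub_add_cancel (Nat.pos_of_ne_zero hM), h1]
      linear_combination z * h3 - σ g * h))
    rw [← mul_sum, Fin.sum_univ_eq_sum_range (fun j => (σ g ^ (M - 1) * ζ) ^ j), geom_sum_eq h2,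
      mul_pow, ← pow_mul, mul_comm (M - 1), pow_mul, h1, hζ]
    simp
  · exact fun h => absurd (mem_univ _) h

theorem encode {n : ℕ} (F : MvPolynomial (Option (Fin n)) ℤ) {M : ℕ} (hM : M ≠ 0) :
    ∃ H : MvPolynomial (Option (Fin (n * M))) ℤ, ∀ (a : ℂ) (c : Fin (n * M) → ℂ),
      MvPolynomial.aeval (fun o : Option (Fin (n * M)) => o.elim a c) H = 0 ↔
        ∃ ξ : ℂ, ξ ^ M = 1 ∧ MvPolynomial.aeval (fun o : Option (Fin n) => o.elim a fun i =>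
          (∑ j : Fin M, c (finProdFinEquiv (i, j)) * ξ ^ (j : ℕ)) / M) F = 0 := by
  let W : (MvPolynomial (Option (Fin (n * M))) ℤ)[X] := Nat.cast M * X
  let g : Option (Fin n) → (MvPolynomial (Option (Fin (n * M))) ℤ)[X] := fun o =>
    o.elim (C (MvPolynomial.X none)) fun i =>
      (∑ j : Fin M, C (MvPolynomial.X (some (finProdFinEquiv (i, j)))) * W ^ (j : ℕ)) *
        (X * W ^ (M - 1))
  refine ⟨resultant (W ^ M - 1) (MvPolynomial.aeval g F) M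
    (MvPolynomial.aeval g F).natDegree, fun a c => ?_⟩
  let φ : MvPolynomial (Option (Fin (n * M))) ℤ →+* ℂ :=
    (MvPolynomial.aeval fun o : Option (Fin (n * M)) => o.elim a c).toRingHom
  have hM' : (M : ℂ) ≠ 0 := Nat.cast_ne_zero.2 hM
  have e : (W ^ M - 1).map φ = C ((M : ℂ) ^ M) * X ^ M - C 1 := by
    simp [W, mul_pow]
  have hd : (C ((M : ℂ) ^ M) * X ^ M - C 1).natDegree = M := by
    rw [natDegree_sub_C, natDegree_C_mul_X_pow _ _ (pow_ne_zero _ hM')]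
  have h0 : (C ((M : ℂ) ^ M) * X ^ M - C 1 : ℂ[X]) ≠ 0 := fun h => hM (by
    rw [← hd, h, natDegree_zero])
  have key : ∀ η : ℂ, (M * η) ^ M = 1 → ((MvPolynomial.aeval g F).map φ).eval η =
      MvPolynomial.aeval (fun o : Option (Fin n) => o.elim a fun i =>
        (∑ j : Fin M, c (finProdFinEquiv (i, j)) * (M * η) ^ (j : ℕ)) / M) F := by
    intro η hη
    rw [eval_map]
    refine (MvPolynomial.comp_aeval_apply g (eval₂RingHom φ η).toIntAlgHom F).trans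
      (congrArg (fun u => MvPolynomial.aeval u F) (funext fun o => ?_))
    have h1 : η * (M * η) ^ (M - 1) = (M : ℂ)⁻¹ := by
      refine eq_inv_of_mul_eq_one_right ?_
      rw [← mul_assoc, ← pow_succ', Nat.sub_add_cancel (Nat.pos_of_ne_zero hM), hη]
    rcases o with _ | i
    · simp [g, φ]
    · simp only [g, W, Option.elim, RingHom.toIntAlgHom_apply, map_mul, map_sum, map_pow,
        map_natCast]
      simp only [coe_eval₂RingHom, eval₂_X, eval₂_C, h1, div_eq_mul_inv]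
      simp [φ]
  change φ _ = 0 ↔ _
  have h4 := resultant_eq_prod_eval (C ((M : ℂ) ^ M) * X ^ M - C 1)
    ((MvPolynomial.aeval g F).map φ) _ natDegree_map_le (IsAlgClosed.splits _)
  rw [hd] at h4
  rw [← resultant_map_map, e, h4, mul_eq_zero,
    or_iff_right (pow_ne_zero _ (leadingCoeff_ne_zero.2 h0)), Multiset.prod_eq_zero_iff,
    Multiset.mem_map]
  simp only [mem_roots h0, IsRoot.def, eval_sub, eval_mul, eval_C, eval_pow, eval_X, ← mul_pow,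
    sub_eq_zero]
  refine ⟨fun ⟨η, h1, h2⟩ => ⟨_, h1, key η h1 ▸ h2⟩, fun ⟨ξ, h1, h2⟩ => ?_⟩
  have h3 : M * (ξ / M) = ξ := mul_div_cancel₀ _ hM'
  exact ⟨ξ / M, by rwa [h3], by rwa [key _ (by rwa [h3]), h3]⟩

theorem ae (R : Subring ℂ) {n : ℕ} (F : MvPolynomial (Option (Fin n)) ℤ) (a : R) (y : Fin n → R) :
    MvPolynomial.aeval (fun o : Option (Fin n) => o.elim a y) F = 0 ↔
      MvPolynomial.aeval (fun o : Option (Fin n) => o.elim (a : ℂ) fun i => y i) F = 0 := by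
  rw [← map_eq_zero_iff R.subtype.toIntAlgHom Subtype.val_injective,
    MvPolynomial.comp_aeval_apply,
    show (fun o : Option (Fin n) => R.subtype.toIntAlgHom (o.elim a y)) =
      fun o => o.elim (a : ℂ) fun i => y i from funext fun o => by rcases o with _ | i <;> rfl]

theorem lc_six {N : ℕ} {z : ℂ} (h : Lc N z) : Lc (6 * N) z := by
  obtain ⟨k, hk⟩ := h
  refine ⟨k, ?_⟩
  rw [Nat.cast_mul, mul_pow, mul_assoc]
  exact ((int_nat 6).pow k).mul hk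

/-- the cyclotomic integers with `N` inverted -/
noncomputable def big (N : ℕ) : Subring ℂ where
  carrier := {z | z ∈ Qcyc ∧ Lc N z}
  mul_mem' := fun ha hb => ⟨mul_mem ha.1 hb.1, ha.2.mul hb.2⟩
  one_mem' := ⟨one_mem _, Lc.of_int isIntegral_one⟩
  add_mem' := fun ha hb => ⟨add_mem ha.1 hb.1, ha.2.add hb.2⟩
  zero_mem' := ⟨zero_mem _, Lc.of_int isIntegral_zero⟩
  neg_mem' := fun ha => ⟨neg_mem ha.1, ha.2.neg⟩

theorem rep {K : IntermediateField ℚ ℂ} {R : Subring ℂ} (h1 : ∀ z ∈ K, IsIntegral ℤ z → z ∈ R)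
    {M : ℕ} (hM : M ≠ 0) {ζ z : ℂ} (hζ : ζ ^ M = 1)
    (h : z ∈ Subring.closure {z | (z ∈ K⟮ζ⟯ ∧ IsIntegral ℤ z) ∨ z ∈ R}) :
    ∀ o ∈ K⟮ζ⟯, IsIntegral ℤ o → ∃ c : Fin M → R, M * (z * o) = ∑ j, c j * ζ ^ (j : ℕ) := by
  have base : ∀ o ∈ K⟮ζ⟯, IsIntegral ℤ o → ∃ c : Fin M → R,
      M * o = ∑ j, c j * ζ ^ (j : ℕ) := fun o h3 h4 =>
    let ⟨c, h5, h7⟩ := dft K hM hζ h3 h4
    ⟨fun j => ⟨c j, h1 _ (h5 j).1 (h5 j).2⟩, h7⟩
  refine Subring.InClosure.recOn (C := fun z => ∀ o ∈ K⟮ζ⟯, IsIntegral ℤ o →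
    ∃ c : Fin M → R, M * (z * o) = ∑ j, c j * ζ ^ (j : ℕ)) h ?_ ?_ ?_ ?_
  · simpa only [one_mul] using base
  · exact fun o h3 h4 => by simpa only [neg_one_mul] using base _ (neg_mem h3) h4.neg
  · intro x hx w hw o h3 h4
    rcases hx with hx | hx
    · rw [mul_comm x, mul_assoc]
      exact hw _ (mul_mem hx.1 h3) (hx.2.mul h4)
    · obtain ⟨c, hc⟩ := hw o h3 h4
      refine ⟨fun j => ⟨x, hx⟩ * c j, ?_⟩
      rw [mul_assoc, mul_left_comm, hc, mul_sum]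
      exact sum_congr rfl fun j _ => (mul_assoc _ _ _).symm
  · intro x w hx hw o h3 h4
    obtain ⟨c, hc⟩ := hx o h3 h4
    obtain ⟨d, hd⟩ := hw o h3 h4
    refine ⟨c + d, ?_⟩
    rw [add_mul, mul_add, hc, hd, ← sum_add_distrib]
    exact sum_congr rfl fun j _ => (add_mul _ _ _).symm

theorem uniform (N : ℕ) (hN : N ≠ 0) : ∃ (n : ℕ) (F : MvPolynomial (Option (Fin n)) ℤ),
    ∀ K : IntermediateField ℚ ℂ, K ≤ Qcyc →
      ∀ R : Subring ℂ, (∀ z ∈ K, IsIntegral ℤ z → z ∈ R) →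
        (∀ z ∈ R, z ∈ K ∧ ∃ k : ℕ, IsIntegral ℤ ((N : ℂ) ^ k * z)) → ∀ a : R,
          ((a : ℂ).im = 0 ↔
            ∃ y : Fin n → R, MvPolynomial.aeval (fun o : Option (Fin n) => o.elim a y) F = 0) := by
  obtain ⟨n, F, hF⟩ := main (6 * N) (by omega)
  have hi : ((24 * (6 * N) : ℕ) : ℂ)⁻¹ ∈ big (6 * N) := by
    refine ⟨inv_mem (_root_.natCast_mem _ _), 4, ?_⟩
    have h5 : (N : ℂ) ≠ 0 := Nat.cast_ne_zero.2 hN
    rw [show ((6 * N : ℕ) : ℂ) ^ 4 * ((24 * (6 * N) : ℕ) : ℂ)⁻¹ = ((9 * N ^ 3 : ℕ) : ℂ) by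
      push_cast; field_simp; norm_num]
    exact int_nat _
  have hM : 24 * (6 * N) ≠ 0 := by omega
  generalize 24 * (6 * N) = M at hF hi hM
  obtain ⟨H, hH⟩ := encode F hM
  have : NeZero M := ⟨hM⟩
  have root : ∀ z : ℂ, z ^ M = 1 → z ∈ Qcyc := fun z hz =>
    subset_adjoin ℚ _ ⟨_, Nat.pos_of_ne_zero hM, hz⟩
  refine ⟨_, H, fun K hK R h1 h2 a => ⟨fun ha => ?_, fun ⟨c, hc⟩ => ?_⟩⟩
  · have hz := Complex.isPrimitiveRoot_exp _ hM
    generalize Complex.exp (2 * Real.pi * Complex.I / M) = ζ at hz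
    have up : ∀ z ∈ R, z ∈ K⟮ζ⟯ := fun z h => K⟮ζ⟯.algebraMap_mem ⟨z, (h2 z h).1⟩
    have hle : K⟮ζ⟯ ≤ extendScalars hK := adjoin_simple_le_iff.2 (root ζ hz.pow_eq_one)
    obtain ⟨y, hy⟩ := (hF (K⟮ζ⟯.restrictScalars ℚ) (fun z h => hle h)
      (fun z h => by
        obtain ⟨i, -, rfl⟩ := hz.eq_pow_of_pow_eq_one h
        exact pow_mem (mem_adjoin_simple_self K ζ) i)
      (Subring.closure {z | (z ∈ K⟮ζ⟯ ∧ IsIntegral ℤ z) ∨ z ∈ R})
      (fun z h3 h4 => Subring.subset_closure (Or.inl ⟨h3, h4⟩))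
      (fun z h => by
        change z ∈ K⟮ζ⟯ ∧ Lc (6 * N) z
        induction h using Subring.closure_induction with
        | mem x hx => exact hx.elim (fun h => ⟨h.1, Lc.of_int h.2⟩)
                        fun h => ⟨up x h, lc_six (h2 x h).2⟩
        | zero => exact ⟨zero_mem _, Lc.of_int isIntegral_zero⟩
        | one => exact ⟨one_mem _, Lc.of_int isIntegral_one⟩
        | add x y _ _ hx hy => exact ⟨add_mem hx.1 hy.1, hx.2.add hy.2⟩
        | neg x _ hx => exact ⟨neg_mem hx.1, hx.2.neg⟩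
        | mul x y _ _ hx hy => exact ⟨mul_mem hx.1 hy.1, hx.2.mul hy.2⟩)
      ⟨a, Subring.subset_closure (Or.inr a.2)⟩).1 ha
    choose c hc using fun i => rep h1 hM hz.pow_eq_one (y i).2 1 (one_mem _) isIntegral_one
    refine ⟨fun k => c (finProdFinEquiv.symm k).1 (finProdFinEquiv.symm k).2,
      (ae R H a _).2 ((hH _ _).2 ⟨ζ, hz.pow_eq_one, ?_⟩)⟩
    simp only [Equiv.symm_apply_apply, ← hc, mul_one,
      mul_div_cancel_left₀ _ (Nat.cast_ne_zero.2 hM : (M : ℂ) ≠ 0)]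
    rw [ae] at hy
    exact hy
  · obtain ⟨ξ, h3, h4⟩ := (hH _ _).1 ((ae R H a c).1 hc)
    have up : ∀ z : R, (z : ℂ) ∈ big (6 * N) := fun z =>
      ⟨hK (h2 z z.2).1, lc_six (h2 z z.2).2⟩
    have hξ : ξ ∈ big (6 * N) := ⟨root ξ h3, Lc.of_int
      (IsIntegral.of_pow (Nat.pos_of_ne_zero hM) (h3 ▸ isIntegral_one))⟩
    have hy : ∀ i : Fin n, (∑ j : Fin M, (c (finProdFinEquiv (i, j)) : ℂ) * ξ ^ (j : ℕ)) / M ∈
        big (6 * N) := fun i => by
      rw [div_eq_mul_inv]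
      exact mul_mem (sum_mem fun j _ => mul_mem (up _) (pow_mem hξ _)) hi
    refine (hF Qcyc le_rfl root (big (6 * N)) (fun z h5 h7 => ⟨h5, Lc.of_int h7⟩) (fun z h => h)
      ⟨a, up a⟩).2 ⟨fun i => ⟨_, hy i⟩, ?_⟩
    rw [ae]
    exact h4

end Pool.Agent.P.MP_5347d0_lc.All
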