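import Pool.Agent.P.MP_5347d0_lc.Defs

namespace Pool.Agent.P.MP_5347d0_lc

open FirstOrder FirstOrder.Language

variable {R : Type} [CommRing R]

attribute [local instance] ringStr

/-- term functions -/
def TD {α : Type} (f : (α → R) → R) : Prop :=
  ∃ t : Lring.Term α, ∀ v : α → R, t.realize v = f v

/-- definable predicates -/
def D {α : Type} (P : (α → R) → Prop) : Prop :=
  (∅ : Set R).Definable Lring {v | P v}

variable {α : Type}

theorem TD.var (i : α) : TD (fun v : α → R => v i) := ⟨Term.var i, fun _ => rfl⟩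

theorem TD.one : TD (fun _ : α → R => (1 : R)) :=
  ⟨Term.func (l := 0) RingFn.one ![], fun _ => rfl⟩

theorem TD.zero : TD (fun _ : α → R => (0 : R)) :=
  ⟨Term.func (l := 0) RingFn.zero ![], fun _ => rfl⟩

theorem TD.add {f g : (α → R) → R} (hf : TD f) (hg : TD g) : TD (fun v => f v + g v) := by
  obtain ⟨s, hs⟩ := hf
  obtain ⟨t, ht⟩ := hg
  refine ⟨Term.func (l := 2) RingFn.add ![s, t], fun v => ?_⟩
  show s.realize v + t.realize v = _
  rw [hs, ht]

theorem TD.mul {f g : (α → R) → R} (hf : TD f) (hg : TD g) : TD (fun v => f v * g v) := by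
  obtain ⟨s, hs⟩ := hf
  obtain ⟨t, ht⟩ := hg
  refine ⟨Term.func (l := 2) RingFn.mul ![s, t], fun v => ?_⟩
  show s.realize v * t.realize v = _
  rw [hs, ht]

theorem TD.up {f : (α → R) → R} (hf : TD f) :
    TD (fun w : Option α → R => f (fun i => w (some i))) := by
  obtain ⟨s, hs⟩ := hf
  refine ⟨s.relabel some, fun v => ?_⟩
  rw [Term.realize_relabel, hs]
  rfl

theorem D.eq {f g : (α → R) → R} (hf : TD f) (hg : TD g) : D (fun v => f v = g v) := by
  obtain ⟨s, hs⟩ := hf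
  obtain ⟨t, ht⟩ := hg
  unfold D
  rw [Set.empty_definable_iff]
  refine ⟨s.equal t, ?_⟩
  ext v
  simp [hs, ht]

theorem D.and {P Q : (α → R) → Prop} (hP : D P) (hQ : D Q) : D (fun v => P v ∧ Q v) :=
  Set.Definable.inter hP hQ

theorem D.not {P : (α → R) → Prop} (hP : D P) : D (fun v => ¬ P v) :=
  Set.Definable.compl hP

theorem D.imp {P Q : (α → R) → Prop} (hP : D P) (hQ : D Q) : D (fun v => P v → Q v) := by
  have := (hP.and hQ.not).not
  simpa only [not_and, not_not] using this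

theorem D.ex {P : (α → R) → R → Prop}
    (h : D (fun w : Option α → R => P (fun i => w (some i)) (w none))) :
    D (fun v => ∃ x, P v x) := by
  have h1 : (∅ : Set R).Definable Lring
      ((fun g : α ⊕ Unit → R => g ∘ (fun o : Option α => o.elim (Sum.inr ()) Sum.inl)) ⁻¹'
        {w : Option α → R | P (fun i => w (some i)) (w none)}) :=
    Set.Definable.preimage_comp _ h
  have h2 := Set.Definable.exists_of_finite h1
  unfold D
  convert h2 using 1
  ext v
  simp only [Set.mem_ofPred_eq, Set.mem_preimage, Function.comp, Option.elim, Sum.elim_inl,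
    Sum.elim_inr]
  exact ⟨fun ⟨x, hx⟩ => ⟨fun _ => x, hx⟩, fun ⟨u, hu⟩ => ⟨u (), hu⟩⟩

theorem D.all {P : (α → R) → R → Prop}
    (h : D (fun w : Option α → R => P (fun i => w (some i)) (w none))) :
    D (fun v => ∀ x, P v x) := by
  have := (D.ex (P := fun v x => ¬ P v x) h.not).not
  simpa only [not_exists, not_not] using this

/-- `1 + e` is a unit and `e` is divisible by three -/
def SS (e : R) : Prop := (∃ v, (1 + e) * v = 1) ∧ ∃ a, e = (1 + 1 + 1) * a

/-- the Mazur-Rubin-Shlapentokh condition, restricted to units congruent to one modulo three -/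
def ZZ (x : R) : Prop := ∀ e, SS e → ∃ d, SS d ∧ ∃ t, d = e * x + e * e * t

def Phi (x : R) : Prop :=
  ∃ e, SS e ∧ ∃ N, ZZ N ∧ ¬ N = 0 ∧ ∀ n, ZZ n → ∃ m, ZZ m ∧ ∃ t, N * x + (1 + e) * t = m + n * t

theorem D.SS {f : (α → R) → R} (hf : TD f) : D (fun v => SS (f v)) :=
  D.and (D.ex (D.eq ((TD.one.add hf.up).mul (TD.var none)) TD.one))
    (D.ex (D.eq hf.up (((TD.one.add TD.one).add TD.one).mul (TD.var none))))

theorem D.ZZ {f : (α → R) → R} (hf : TD f) : D (fun v => ZZ (f v)) :=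
  D.all (D.imp (D.SS (TD.var none)) (D.ex (D.and (D.SS (TD.var none))
    (D.ex (D.eq (TD.var (some none))
      (((TD.var (some (some none))).mul hf.up.up.up).add
        (((TD.var (some (some none))).mul (TD.var (some (some none)))).mul (TD.var none))))))))

theorem D.Phi {f : (α → R) → R} (hf : TD f) : D (fun v => Phi (f v)) :=
  D.ex (D.and (D.SS (TD.var none)) (D.ex (D.and (D.ZZ (TD.var none))
    (D.and (D.not (D.eq (TD.var none) TD.zero)) (D.all (D.imp (D.ZZ (TD.var none))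
      (D.ex (D.and (D.ZZ (TD.var none)) (D.ex (D.eq
        (((TD.var (some (some (some none)))).mul hf.up.up.up.up.up).add
          ((TD.one.add (TD.var (some (some (some (some none)))))).mul (TD.var none)))
        ((TD.var (some none)).add ((TD.var (some (some none))).mul (TD.var none)))))))))))))

theorem definable_Phi : (∅ : Set R).Definable₁ Lring {x | Phi x} :=
  D.Phi (TD.var (0 : Fin 1))

theorem SS_zero : SS (0 : R) := ⟨⟨1, by ring⟩, ⟨0, by ring⟩⟩

theorem ZZ_zero : ZZ (0 : R) := fun _ _ => ⟨0, SS_zero, 0, by ring⟩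

theorem ZZ_one : ZZ (1 : R) := fun e he => ⟨e, he, 0, by ring⟩

theorem ZZ_add {x y : R} (hx : ZZ x) (hy : ZZ y) : ZZ (x + y) := by
  intro e he
  obtain ⟨d₁, ⟨⟨v₁, hv₁⟩, a₁, ha₁⟩, t₁, ht₁⟩ := hx e he
  obtain ⟨d₂, ⟨⟨v₂, hv₂⟩, a₂, ha₂⟩, t₂, ht₂⟩ := hy e he
  refine ⟨d₁ + d₂ + d₁ * d₂, ⟨⟨v₁ * v₂, ?_⟩, a₁ + a₂ + a₁ * d₂, ?_⟩,
    t₁ + t₂ + (x + e * t₁) * (y + e * t₂), ?_⟩
  · linear_combination ((1 + d₂) * v₂) * hv₁ + hv₂
  · linear_combination (1 + d₂) * ha₁ + ha₂
  · rw [ht₁, ht₂]; ring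

theorem ZZ_neg {x : R} (hx : ZZ x) : ZZ (-x) := by
  intro e he
  obtain ⟨d, ⟨⟨v, hv⟩, a, ha⟩, t, ht⟩ := hx e he
  refine ⟨v - 1, ⟨⟨1 + d, ?_⟩, - a * v, ?_⟩, - t + (x + e * t) * (x + e * t) * v, ?_⟩
  · linear_combination hv
  · linear_combination hv - v * ha
  · have h1 : v - 1 = - d + d * d * v := by linear_combination (1 - d) * hv
    rw [h1, ht]; ring

theorem ZZ_mul {x y : R} (hx : ZZ x) (hy : ZZ y) : ZZ (x * y) := by
  intro e he
  obtain ⟨d₁, hd₁, t₁, ht₁⟩ := hx e he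
  obtain ⟨d₂, hd₂, t₂, ht₂⟩ := hy d₁ hd₁
  refine ⟨d₂, hd₂, t₁ * y + (x + e * t₁) * (x + e * t₁) * t₂, ?_⟩
  rw [ht₂, ht₁]; ring

def ZZring (R : Type) [CommRing R] : Subring R where
  carrier := {x | ZZ x}
  mul_mem' := ZZ_mul
  one_mem' := ZZ_one
  add_mem' := ZZ_add
  zero_mem' := ZZ_zero
  neg_mem' := ZZ_neg

theorem ZZ_int (n : ℤ) : ZZ (n : R) := intCast_mem (ZZring R) n

theorem ZZ_aeval {x : R} (hx : ZZ x) (f : Polynomial ℤ) : ZZ (Polynomial.aeval x f) := by
  induction f using Polynomial.induction_on' with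
  | add p q hp hq => rw [map_add]; exact ZZ_add hp hq
  | monomial n a =>
    rw [Polynomial.aeval_monomial]
    refine ZZ_mul ?_ ((ZZring R).pow_mem hx n)
    simpa using ZZ_int (R := R) a

/-- The abstract definability theorem. -/
theorem fixed_iff_Phi [IsDomain R] [CharZero R] (σ : R →+* R)
    (H1 : ∀ e, SS e → σ e = e)
    (H2 : ∀ y θ : R, (∀ n : ℕ, 1 ≤ n → ((n : R) - θ) ∣ y) → y = 0)
    (H3 : ∀ M : ℕ, 1 ≤ M → ∃ e, SS e ∧ e ≠ 0 ∧ (M : R) ∣ e)
    (H4 : ∀ x, σ x = x → ∃ e, SS e ∧ ∃ N : ℤ, N ≠ 0 ∧ ∃ f : Polynomial ℤ,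
      (N : R) * x = Polynomial.aeval (1 + e) f) (x : R) : σ x = x ↔ Phi x := by
  have hZ : ∀ z, ZZ z → σ z = z := by
    intro z hz
    have : σ z - z = 0 := by
      apply H2 _ 0
      intro M hM
      obtain ⟨e, he, he0, hMe⟩ := H3 M hM
      obtain ⟨d, hd, t, ht⟩ := hz e he
      have h1 := congrArg σ ht
      simp only [map_add, map_mul, H1 e he, H1 d hd] at h1
      have h2 : e * (σ z - z) = e * (e * (t - σ t)) := by linear_combination ht - h1
      have h3 := mul_left_cancel₀ he0 h2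
      rw [sub_zero, h3]
      exact Dvd.dvd.mul_right hMe _
    exact sub_eq_zero.1 this
  constructor
  · intro hx
    obtain ⟨e, he, N, hN, f, hf⟩ := H4 x hx
    refine ⟨e, he, N, ZZ_int N, by exact_mod_cast hN, fun n hn => ⟨_, ZZ_aeval hn f, ?_⟩⟩
    obtain ⟨t, ht⟩ := Polynomial.sub_dvd_eval_sub (1 + e) n (f.map (algebraMap ℤ R))
    rw [Polynomial.eval_map_algebraMap, Polynomial.eval_map_algebraMap] at ht
    exact ⟨-t, by linear_combination hf + ht⟩
  · rintro ⟨e, he, N, hN, hN0, h⟩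
    have : N * (σ x - x) = 0 := by
      apply H2 _ (1 + e)
      intro n _
      obtain ⟨m, hm, t, ht⟩ := h n (by simpa using ZZ_int (R := R) n)
      have h1 := congrArg σ ht
      simp only [map_add, map_mul, map_one, map_natCast, H1 e he, hZ N hN, hZ m hm] at h1
      exact ⟨σ t - t, by linear_combination h1 - ht⟩
    exact sub_eq_zero.1 ((mul_eq_zero.1 this).resolve_left hN0)

end Pool.Agent.P.MP_5347d0_lc
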