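import Pool.Agent.P.MP_5347d0_lc.NT

namespace Pool.Agent.P.MP_5347d0_lc

open NumberField IntermediateField
open scoped ComplexConjugate IsMulCommutative

noncomputable def cj : ℂ →ₐ[ℚ] ℂ := (starRingEnd ℂ).toRatAlgHom

theorem le_Qab {K : IntermediateField ℚ ℂ} (h : IsAbelianGalois ℚ K) : K ≤ Qab := le_sSup h

theorem Qab_le {W : IntermediateField ℚ ℂ}
    (h : ∀ K : IntermediateField ℚ ℂ, IsAbelianGalois ℚ K → K ≤ W) : Qab ≤ W := sSup_le h

theorem emb_eq (K : IntermediateField ℚ ℂ) [IsAbelianGalois ℚ K] (ψ : K →ₐ[ℚ] ℂ) :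
    ∃ g : K ≃ₐ[ℚ] K, ∀ z : K, ψ z = (g z : ℂ) := by
  refine ⟨Normal.algHomEquivAut ℚ ℂ K ψ, fun z => ?_⟩
  have := (Normal.algHomEquivAut ℚ ℂ K).left_inv ψ
  exact (congrArg (fun f : K →ₐ[ℚ] ℂ => f z) this).symm

instance : Algebra.IsAlgebraic ℚ Qab := by
  have h : Qab ≤ algebraicClosure ℚ ℂ := by
    apply Qab_le
    intro K hK
    have : Algebra.IsAlgebraic ℚ K := hK.toIsGalois.to_normal.toIsAlgebraic
    rw [le_algebraicClosure_iff]
    exact this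
  rwa [le_algebraicClosure_iff] at h

theorem conj_mem {z : ℂ} (hz : z ∈ Qab) : conj z ∈ Qab := by
  have h : Qab ≤ Qab.comap cj := by
    apply Qab_le
    intro K hK z hz
    obtain ⟨g, hg⟩ := emb_eq K (cj.comp K.val)
    have h1 : cj z = (g ⟨z, hz⟩ : ℂ) := hg ⟨z, hz⟩
    show cj z ∈ Qab
    rw [h1]
    exact le_Qab hK (g ⟨z, hz⟩).2
  exact h hz

noncomputable def cQ : Qab →+* Qab :=
  ((starRingEnd ℂ).comp Qab.val.toRingHom).codRestrict Qab.toSubalgebra.toSubring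
    (fun z => conj_mem z.2)

theorem cQ_coe (z : Qab) : ((cQ z : Qab) : ℂ) = conj (z : ℂ) := rfl

theorem cQ_comm (ψ : Qab →ₐ[ℚ] ℂ) (x : Qab) : ψ (cQ x) = conj (ψ x) := by
  let W₀ : Subfield Qab :=
    RingHom.eqLocusField (ψ.toRingHom.comp cQ) ((starRingEnd ℂ).comp ψ.toRingHom)
  let W₁ : IntermediateField ℚ Qab := W₀.toIntermediateField (fun q => by
    show ψ (cQ (algebraMap ℚ Qab q)) = conj (ψ (algebraMap ℚ Qab q))
    simp)
  have h : Qab ≤ W₁.map Qab.val := by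
    apply Qab_le
    intro K hK z hz
    have hle := le_Qab hK
    obtain ⟨c, hc⟩ := emb_eq K (cj.comp K.val)
    obtain ⟨g, hg⟩ := emb_eq K (ψ.comp (IntermediateField.inclusion hle))
    refine ⟨⟨z, hle hz⟩, ?_, rfl⟩
    show ψ (cQ ⟨z, hle hz⟩) = conj (ψ ⟨z, hle hz⟩)
    have h1 : cQ ⟨z, hle hz⟩ = IntermediateField.inclusion hle (c ⟨z, hz⟩) :=
      Subtype.ext (hc ⟨z, hz⟩)
    have h2 : ψ ⟨z, hle hz⟩ = (g ⟨z, hz⟩ : ℂ) := hg ⟨z, hz⟩
    have h3 : ψ (IntermediateField.inclusion hle (c ⟨z, hz⟩)) = (g (c ⟨z, hz⟩) : ℂ) := hg _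
    have h4 : conj (g ⟨z, hz⟩ : ℂ) = (c (g ⟨z, hz⟩) : ℂ) := hc _
    have h5 : g * c = c * g := mul_comm g c
    rw [h1, h2, h3, h4]
    exact congrArg (fun f : K ≃ₐ[ℚ] K => ((f ⟨z, hz⟩ : K) : ℂ)) h5
  obtain ⟨y, hy, hyx⟩ := h x.2
  have : y = x := Subtype.ext hyx
  subst this
  exact hy

theorem exists_sqrt_two : ∃ s : 𝓞 Qab, s * s = 2 := by
  have hζ := Complex.isPrimitiveRoot_exp 8 (by norm_num)
  set ζ := Complex.exp (2 * Real.pi * Complex.I / (8 : ℕ)) with hζdef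
  have hint : IsIntegral ℤ ζ := hζ.isIntegral (by norm_num)
  have hcyc : IsCyclotomicExtension {8} ℚ (IntermediateField.adjoin ℚ {ζ}) := by
    change IsCyclotomicExtension {8} ℚ (IntermediateField.adjoin ℚ {ζ}).toSubalgebra
    rw [IntermediateField.adjoin_simple_toSubalgebra_of_isAlgebraic
      (IsIntegral.tower_top (A := ℚ) hint).isAlgebraic]
    exact hζ.adjoin_isCyclotomicExtension ℚ
  have hab : IsAbelianGalois ℚ (IntermediateField.adjoin ℚ {ζ}) :=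
    IsCyclotomicExtension.isAbelianGalois {8} ℚ _
  have hmem : ζ ∈ Qab := le_Qab hab (IntermediateField.mem_adjoin_simple_self ℚ ζ)
  have h4 : ζ ^ 4 = -1 := (hζ.pow (by norm_num) (show 8 = 4 * 2 by norm_num)).eq_neg_one_of_two_right
  have hmem' : ζ + ζ ^ 7 ∈ Qab := add_mem hmem (pow_mem hmem 7)
  have hint' : IsIntegral ℤ (⟨ζ + ζ ^ 7, hmem'⟩ : Qab) := by
    have h1 : IsIntegral ℤ (ζ + ζ ^ 7) := hint.add (hint.pow 7)
    exact (isIntegral_algHom_iff (Qab.val.restrictScalars ℤ) Subtype.val_injective).1 h1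
  refine ⟨⟨_, hint'⟩, ?_⟩
  apply RingOfIntegers.ext
  apply Subtype.ext
  show (ζ + ζ ^ 7) * (ζ + ζ ^ 7) = 2
  linear_combination (ζ ^ 10 - ζ ^ 6 + 2 * ζ ^ 4 + ζ ^ 2 - 2) * h4

theorem main : @Set.Definable₁ (𝓞 Qab) ∅ Lring (ringStr (𝓞 Qab))
    {a | (((a : Qab) : ℂ)).im = 0} := by
  obtain ⟨s, hs⟩ := exists_sqrt_two
  have h : {a : 𝓞 Qab | (((a : Qab) : ℂ)).im = 0} = {a | Phi a} := by
    ext a
    simp only [Set.mem_ofPred_eq]
    rw [← fixed_iff cQ cQ_comm s hs a, ← Complex.conj_eq_iff_im]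
    constructor
    · intro h
      exact RingOfIntegers.ext (Subtype.ext h)
    · intro h
      exact congrArg (fun z : 𝓞 Qab => ((z : Qab) : ℂ)) h
  rw [h]
  exact definable_Phi

end Pool.Agent.P.MP_5347d0_lc
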