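import Pool.Agent.P.MP_5347d0_lc.Logic

namespace Pool.Agent.P.MP_5347d0_lc

open NumberField IntermediateField
open scoped ComplexConjugate

section general

variable {L : Type} [Field L] [CharZero L] [Algebra.IsAlgebraic ℚ L]

theorem nf (x : L) : NumberField ℚ⟮x⟯ where
  to_charZero := inferInstance
  to_finiteDimensional :=
    IntermediateField.adjoin.finiteDimensional (Algebra.IsIntegral.isIntegral x)

theorem ext_emb (F : IntermediateField ℚ L) (φ : F →+* ℂ) :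
    ∃ ψ : L →ₐ[ℚ] ℂ, ∀ y : F, ψ y = φ y := by
  have : Algebra.IsAlgebraic F L := Algebra.IsAlgebraic.tower_top (K := ℚ) F
  obtain ⟨ψ, hψ⟩ := IsAlgClosed.surjective_domRestrict_of_isAlgebraic (K := ℚ) (L := F) (M := ℂ)
    (E := L) φ.toRatAlgHom
  refine ⟨ψ, fun y => ?_⟩
  exact congrArg (fun g : F →ₐ[ℚ] ℂ => g y) hψ

theorem lemA (β : 𝓞 L) (h : ∀ ψ : L →ₐ[ℚ] ℂ, ‖ψ (β : L)‖ < 1) : β = 0 := by
  by_contra hβ
  have := nf (β : L)
  let b : ℚ⟮(β : L)⟯ := AdjoinSimple.gen ℚ (β : L)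
  have hb0 : b ≠ 0 := by
    intro h0
    apply hβ
    have : (b : L) = 0 := by rw [h0]; rfl
    exact RingOfIntegers.ext this
  have hbi : IsIntegral ℤ b := by
    have h1 : IsIntegral ℤ (b : L) := β.isIntegral_coe
    exact (isIntegral_algHom_iff ((ℚ⟮(β : L)⟯).val.restrictScalars ℤ) Subtype.val_injective).1 h1
  have hlt : ∀ φ : ℚ⟮(β : L)⟯ →+* ℂ, ‖φ b‖ < 1 := by
    intro φ
    obtain ⟨ψ, hψ⟩ := ext_emb _ φ
    rw [← hψ]
    exact h ψ
  obtain ⟨n, hn, hpow⟩ := NumberField.Embeddings.pow_eq_one_of_norm_le_one _ ℂ hb0 hbi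
    (fun φ => (hlt φ).le)
  let φ : ℚ⟮(β : L)⟯ →+* ℂ := Classical.choice inferInstance
  have h1 : ‖φ b‖ ^ n = 1 := by rw [← norm_pow, ← map_pow, hpow, map_one, norm_one]
  have h2 : ‖φ b‖ ^ n < 1 := pow_lt_one₀ (norm_nonneg _) (hlt φ) hn.ne'
  exact absurd h1 h2.ne

theorem bound (x : L) : ∃ B : ℝ, ∀ ψ : L →ₐ[ℚ] ℂ, ‖ψ x‖ ≤ B := by
  have h1 := Algebra.IsAlgebraic.range_eval_eq_rootSet_minpoly (F := ℚ) (K := L) ℂ x
  have h2 : (Set.range fun ψ : L →ₐ[ℚ] ℂ => ψ x).Finite := by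
    rw [h1]; exact Polynomial.rootSet_finite _ _
  obtain ⟨B, hB⟩ := (h2.image (fun z => ‖z‖)).bddAbove
  exact ⟨B, fun ψ => hB ⟨_, ⟨ψ, rfl⟩, rfl⟩⟩

theorem hyp2 (y θ : 𝓞 L) (h : ∀ n : ℕ, 1 ≤ n → ((n : 𝓞 L) - θ) ∣ y) : y = 0 := by
  obtain ⟨B₁, hB₁⟩ := bound (θ : L)
  obtain ⟨B₂, hB₂⟩ := bound (y : L)
  obtain ⟨n, hn⟩ := exists_nat_gt (|B₁| + |B₂| + 1)
  have hn1 : 1 ≤ n := by
    have : (1 : ℝ) < n := by linarith [abs_nonneg B₁, abs_nonneg B₂]
    exact_mod_cast this.le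
  obtain ⟨t, ht⟩ := h n hn1
  have : t = 0 := by
    apply lemA
    intro ψ
    have h1 : (y : L) = ((n : L) - θ) * t := by rw [ht]; simp
    have h2 : ψ (y : L) = ((n : ℂ) - ψ (θ : L)) * ψ (t : L) := by rw [h1]; simp
    have h3 : ‖ψ (y : L)‖ = ‖(n : ℂ) - ψ (θ : L)‖ * ‖ψ (t : L)‖ := by rw [h2, norm_mul]
    have h4 : (n : ℝ) - ‖ψ (θ : L)‖ ≤ ‖(n : ℂ) - ψ (θ : L)‖ := by
      have := norm_sub_norm_le (n : ℂ) (ψ (θ : L))
      simpa using this
    have h5 := hB₁ ψ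
    have h6 := hB₂ ψ
    by_contra hc
    have hc : 1 ≤ ‖ψ (t : L)‖ := not_lt.1 hc
    have h7 : ‖(n : ℂ) - ψ (θ : L)‖ ≤ ‖ψ (y : L)‖ := by
      rw [h3]; exact le_mul_of_one_le_right (norm_nonneg _) hc
    linarith [le_abs_self B₁, le_abs_self B₂]
  rw [ht, this, mul_zero]

variable (c : L →+* L) (hc : ∀ (ψ : L →ₐ[ℚ] ℂ) (x : L), ψ (c x) = conj (ψ x))

include hc in
theorem hyp1 (e : 𝓞 L) (he : SS e) : RingOfIntegers.mapRingHom c e = e := by
  obtain ⟨⟨v, hv⟩, a, ha⟩ := he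
  set σ := RingOfIntegers.mapRingHom c with hσ
  have hv' : (1 + σ e) * σ v = 1 := by simpa using congrArg σ hv
  have ha' : σ e = (1 + 1 + 1) * σ a := by
    have := congrArg σ ha
    simpa only [map_mul, map_add, map_one] using this
  have hβ : (a - σ a) * σ v = 0 := by
    apply lemA
    intro ψ
    have h1 : (1 + e) * σ v - 1 = 3 * ((a - σ a) * σ v) := by
      linear_combination hv' + σ v * ha - σ v * ha'
    have h2 : (1 + ψ (e : L)) * conj (ψ (v : L)) - 1 = 3 * ψ (((a - σ a) * σ v : 𝓞 L) : L) := by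
      have := congrArg (fun z : 𝓞 L => ψ (z : L)) h1
      rw [← hc]
      simpa [hσ, map_ofNat] using this
    have h3 : (1 + ψ (e : L)) * ψ (v : L) = 1 := by
      have := congrArg (fun z : 𝓞 L => ψ (z : L)) hv
      simpa using this
    have h4 : ‖(1 + ψ (e : L)) * conj (ψ (v : L))‖ = 1 := by
      rw [norm_mul, Complex.norm_conj, ← norm_mul, h3, norm_one]
    have h5 : ‖(1 + ψ (e : L)) * conj (ψ (v : L)) - 1‖ ≤ 2 := by
      have := norm_sub_le ((1 + ψ (e : L)) * conj (ψ (v : L))) 1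
      rw [h4, norm_one] at this
      linarith
    rw [h2, norm_mul] at h5
    have h6 : ‖(3 : ℂ)‖ = 3 := by simp
    rw [h6] at h5
    linarith
  have h7 : a - σ a = 0 := by
    have : (a - σ a) * ((1 + σ e) * σ v) = 0 := by linear_combination (1 + σ e) * hβ
    rwa [hv', mul_one] at this
  linear_combination ha' - ha - 3 * h7

include hc in
theorem hyp4 (M : ℕ) (hM : 1 ≤ M) (x : 𝓞 L) (hx : RingOfIntegers.mapRingHom c x = x) :
    ∃ e : 𝓞 L, (∃ v, (1 + e) * v = 1) ∧ (M : 𝓞 L) ∣ e ∧ ∃ N : ℤ, N ≠ 0 ∧ ∃ f : Polynomial ℤ,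
      (N : 𝓞 L) * x = Polynomial.aeval (1 + e) f := by
  have hx' : c (x : L) = x := congrArg (fun z : 𝓞 L => (z : L)) hx
  have := nf (x : L)
  set F := ℚ⟮(x : L)⟯ with hF
  have hfix : ∀ y : F, c (y : L) = y := by
    rintro ⟨y, hy⟩
    show c y = y
    induction hy using IntermediateField.adjoin_induction with
    | mem z hz => rw [Set.mem_singleton_iff.1 hz]; exact hx'
    | algebraMap q => simp
    | add a b _ _ ha hb => rw [map_add, ha, hb]
    | inv a _ ha => rw [map_inv₀, ha]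
    | mul a b _ _ ha hb => rw [map_mul, ha, hb]
  have hreal : ∀ w : InfinitePlace F, w.IsReal := by
    intro w
    rw [InfinitePlace.isReal_iff, ComplexEmbedding.isReal_iff]
    obtain ⟨ψ, hψ⟩ := ext_emb F w.embedding
    ext y
    rw [ComplexEmbedding.conjugate_coe_eq, ← hψ, ← hc, hfix]
  let w₁ : InfinitePlace F := Classical.choice inferInstance
  obtain ⟨u, hu⟩ := NumberField.Units.dirichletUnitTheorem.exists_unit F w₁
  have hI : Ideal.span {(M : 𝓞 F)} ≠ ⊥ := by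
    rw [Ne, Ideal.span_singleton_eq_bot]
    exact_mod_cast (by omega : M ≠ 0)
  have hfin : Finite (𝓞 F ⧸ Ideal.span {(M : 𝓞 F)}) := Ring.HasFiniteQuotients.finiteQuotient hI
  obtain ⟨k, hk, hpow⟩ := (isOfFinOrder_of_finite
    (Units.map (Ideal.Quotient.mk (Ideal.span {(M : 𝓞 F)})).toMonoidHom u)).exists_pow_eq_one
  have hcong : (M : 𝓞 F) ∣ ((u ^ k : (𝓞 F)ˣ) : 𝓞 F) - 1 := by
    rw [← Ideal.mem_span_singleton, ← Ideal.Quotient.eq]
    have := congrArg Units.val hpow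
    simpa using this
  have hprim : ℚ⟮(((u ^ k : (𝓞 F)ˣ) : 𝓞 F) : F)⟯ = ⊤ := by
    refine NumberField.is_primitive_element_of_infinitePlace_lt (w := w₁) (Units.ne_zero _) ?_
      (Or.inl (hreal w₁))
    intro w hw
    have h1 := hu w hw
    have h2 : w ((u : 𝓞 F) : F) < 1 := by
      by_contra h3
      exact absurd (Real.log_nonneg (not_lt.1 h3)) (not_le.2 h1)
    have h3 : (((u ^ k : (𝓞 F)ˣ) : 𝓞 F) : F) = ((u : 𝓞 F) : F) ^ k := by simp
    rw [h3, map_pow]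
    exact pow_lt_one₀ (apply_nonneg _ _) h2 hk.ne'
  set θ : 𝓞 F := ((u ^ k : (𝓞 F)ˣ) : 𝓞 F) with hθ
  have hmem : (AdjoinSimple.gen ℚ (x : L) : F) ∈ ℚ⟮(θ : F)⟯.toSubalgebra := by
    rw [hprim]; trivial
  rw [IntermediateField.adjoin_simple_toSubalgebra_of_isAlgebraic
    (Algebra.IsAlgebraic.isAlgebraic _), Algebra.adjoin_singleton_eq_range_aeval] at hmem
  obtain ⟨g, hg⟩ := hmem
  obtain ⟨N, hN, hNg⟩ := IsLocalization.integerNormalization_spec (nonZeroDivisors ℤ) g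
  let ι : 𝓞 F →+* 𝓞 L := RingOfIntegers.mapRingHom (algebraMap F L)
  refine ⟨ι θ - 1, ⟨ι ((u ^ k)⁻¹ : (𝓞 F)ˣ), ?_⟩, ?_, N, nonZeroDivisors.ne_zero hN,
    IsLocalization.integerNormalization (nonZeroDivisors ℤ) g, ?_⟩
  · rw [add_sub_cancel, ← map_mul, hθ, Units.mul_inv, map_one]
  · obtain ⟨s, hs⟩ := hcong
    refine ⟨ι s, ?_⟩
    have := congrArg ι hs
    simpa using this
  · rw [add_sub_cancel]
    apply RingOfIntegers.ext
    have h1 : Polynomial.aeval (θ : F) (IsLocalization.integerNormalization (nonZeroDivisors ℤ) g)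
        = (N : F) * AdjoinSimple.gen ℚ (x : L) := by
      rw [← Polynomial.aeval_map_algebraMap ℚ, hNg, ← hg]
      simp
    have h2 : ((Polynomial.aeval (ι θ)
        (IsLocalization.integerNormalization (nonZeroDivisors ℤ) g) : 𝓞 L) : L) =
        algebraMap F L (Polynomial.aeval (θ : F)
          (IsLocalization.integerNormalization (nonZeroDivisors ℤ) g)) := by
      rw [RingOfIntegers.coe_eq_algebraMap, ← Polynomial.aeval_algebraMap_apply,
        ← Polynomial.aeval_algebraMap_apply]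
      rfl
    rw [h2, h1]
    simp

include hc in
theorem fixed_iff (s : 𝓞 L) (hs : s * s = 2) (x : 𝓞 L) :
    RingOfIntegers.mapRingHom c x = x ↔ Phi x := by
  have h3 : ∀ (e : 𝓞 L) (M : ℕ), ((3 * M : ℕ) : 𝓞 L) ∣ e → ∃ a, e = (1 + 1 + 1) * a := by
    rintro e M ⟨a, ha⟩
    exact ⟨M * a, by rw [ha]; push_cast; ring⟩
  have hsfix : RingOfIntegers.mapRingHom c s = s := by
    apply RingOfIntegers.ext
    let ψ : L →ₐ[ℚ] ℂ := IsAlgClosed.lift
    apply ψ.toRingHom.injective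
    show ψ (c s) = ψ s
    rw [hc]
    have h1 : ψ (s : L) * ψ (s : L) = 2 := by
      have := congrArg (fun z : 𝓞 L => ψ (z : L)) hs
      simpa [map_ofNat] using this
    rw [Complex.conj_eq_iff_im]
    have h2 := congrArg Complex.re h1
    have h4 := congrArg Complex.im h1
    simp at h2 h4
    by_contra h5
    have h6 : (ψ (s : L)).re = 0 := by
      have : (ψ (s : L)).re * (ψ (s : L)).im = 0 := by linarith
      exact (mul_eq_zero.1 this).resolve_right h5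
    rw [h6] at h2
    nlinarith [mul_self_nonneg (ψ (s : L)).im]
  refine fixed_iff_Phi _ (hyp1 c hc) hyp2 ?_ ?_ x
  · intro M hM
    obtain ⟨e, hu, hd, N, hN, f, hf⟩ := hyp4 c hc (3 * M) (by omega) s hsfix
    refine ⟨e, ⟨hu, h3 e M hd⟩, ?_, Dvd.dvd.trans ⟨3, by push_cast; ring⟩ hd⟩
    rintro rfl
    have h1 : Polynomial.aeval (1 + 0 : 𝓞 L) f = ((f.eval 1 : ℤ) : 𝓞 L) := by
      rw [add_zero, ← Polynomial.coe_aeval_eq_eval]
      have := Polynomial.aeval_algebraMap_apply (𝓞 L) (1 : ℤ) f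
      simpa using this
    rw [h1] at hf
    have h2 : ((N * N * 2 : ℤ) : 𝓞 L) = ((f.eval 1 * f.eval 1 : ℤ) : 𝓞 L) := by
      push_cast
      rw [← hf]
      linear_combination (-(N : 𝓞 L) * N) * hs
    have h4 : N * N * 2 = f.eval 1 * f.eval 1 := by exact_mod_cast h2
    have h5 : ((f.eval 1 : ℤ) : ℝ) / N * (((f.eval 1 : ℤ) : ℝ) / N) = 2 := by
      have hN' : (N : ℝ) ≠ 0 := by exact_mod_cast hN
      have h6 : (N : ℝ) * N * 2 = (f.eval 1 : ℤ) * (f.eval 1 : ℤ) := by exact_mod_cast h4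
      field_simp
      linarith
    apply irrational_sqrt_two
    refine ⟨|(f.eval 1 : ℤ) / (N : ℚ)|, ?_⟩
    rw [← h5, Real.sqrt_mul_self_eq_abs]
    push_cast
    rfl
  · intro y hy
    obtain ⟨e, hu, hd, h⟩ := hyp4 c hc (3 * 1) (by omega) y hy
    exact ⟨e, ⟨hu, h3 e 1 hd⟩, h⟩

end general

end Pool.Agent.P.MP_5347d0_lc
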