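import Pool.Agent.K.MP_5347d0_lc.C0

open Pool.Agent.P.MP_5347d0_lc

/-- The real elements of the ring of integers of the maximal abelian extension of the rationals
form a subset definable without parameters in the language with symbols `+`, `*`, `0`, `1`. -/
theorem Pool.Agent.Results.MP_5347d0_lc.RealDefinable.result :
    @Set.Definable₁ (NumberField.RingOfIntegers Qab) ∅ Lring
      (ringStr (NumberField.RingOfIntegers Qab))
      {a | ((algebraMap (NumberField.RingOfIntegers Qab) Qab a : Qab) : ℂ).im = 0} :=
  Pool.Agent.P.MP_5347d0_lc.main
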