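import Pool.Agent.P.MP_5347d0_lc.DMain

open Pool.Agent.P.MP_5347d0_lc.Dio

/-- The real elements of the ring of integers of the field generated by all roots of unity form
a Diophantine subset: the projection of the zero set of one polynomial with integer
coefficients. -/
theorem Pool.Agent.P.MP_5347d0_lc.VariantDiophantine.result :
    ∃ (n : ℕ) (F : MvPolynomial (Option (Fin n)) ℤ), ∀ a : NumberField.RingOfIntegers Qcyc,
      ((algebraMap (NumberField.RingOfIntegers Qcyc) Qcyc a : Qcyc) : ℂ).im = 0 ↔
        ∃ y : Fin n → NumberField.RingOfIntegers Qcyc,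
          MvPolynomial.aeval (fun o : Option (Fin n) => o.elim a y) F = 0 :=
  Pool.Agent.P.MP_5347d0_lc.Dio.main
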